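import Mathlib

/-! # Phase moments of zeta, block X: the (2,1)-twisted moment. Definitions. -/

set_option autoImplicit false

namespace Pool.Agent.LibPH

open MeasureTheory Set Filter Topology Complex
open scoped ComplexConjugate

/-- `(a+1)(b+1)(c+1)` -/
def pr (q : ℕ × ℕ × ℕ) : ℕ := (q.1 + 1) * (q.2.1 + 1) * (q.2.2 + 1)

/-- `∑_{a,b,c ≥ 1} e^{-abcz}` -/
noncomputable def F3 (z : ℂ) : ℂ := ∑' q : ℕ × ℕ × ℕ, cexp (-((pr q : ℂ) * z))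

/-- the coefficient of `s²` at `0` -/
noncomputable def C2 (H : ℂ → ℂ) : ℂ := deriv (deriv H) 0 / 2

/-- `s³ ζ(1+s)³` -/
noncomputable def Z0 (s : ℂ) : ℂ := riemannZeta₁ (1 + s) ^ 3

/-- `s³ ζ(1+s)³ Γ(1+s)` -/
noncomputable def G0 (s : ℂ) : ℂ := riemannZeta₁ (1 + s) ^ 3 * Complex.Gamma (1 + s)

/-- the integral over the critical line -/
noncomputable def I3 (z : ℂ) : ℂ :=
  ((1 / (2 * Real.pi) : ℝ) : ℂ) * ∫ y : ℝ, Complex.Gamma ((1/2:ℂ) + y * I) * riemannZeta ((1/2:ℂ) + y * I) ^ 3 *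
    z ^ (-((1/2:ℂ) + y * I))

/-- the polar term -/
noncomputable def P3 (z : ℂ) : ℂ := C2 (fun s => G0 s * z ^ (-(1 + s)))

/-- `|ζ(1/2+it)|² ζ(1/2+it)` -/
noncomputable def z21 (t : ℝ) : ℂ :=
  riemannZeta (1 / 2 + t * I) ^ 2 * conj (riemannZeta (1 / 2 + t * I))

/-- the twist `(m/n)^{-it}` -/
noncomputable def tw (m n : ℕ) (t : ℝ) : ℂ := cexp (-(((t * (Real.log m - Real.log n) : ℝ) : ℂ) * I))

/-- the point `z = 2πi (m/n) e^{-iw}` -/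
noncomputable def zw (m n : ℕ) (w : ℂ) : ℂ := ((2 * Real.pi * m / n : ℝ) : ℂ) * (I * cexp (-(I * w)))

/-- `θ = z - 2πi m/n` -/
noncomputable def th (m n : ℕ) (w : ℂ) : ℂ := zw m n w - ((2 * Real.pi * m / n : ℝ) : ℂ) * I

/-- `∑_{e ∣ n} μ(e) τ(n/e) e^{-(1+s)}` -/
noncomputable def fA (n : ℕ) (s : ℂ) : ℂ :=
  ∑ e ∈ n.divisors, ((ArithmeticFunction.moebius e : ℤ) : ℂ) * ((n / e).divisors.card : ℂ) * (e : ℂ) ^ (-(1 + s))

/-- `∑_{d ∣ n} φ(d) d^{-(1+s)}` -/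
noncomputable def fB (n : ℕ) (s : ℂ) : ℂ := ∑ d ∈ n.divisors, (Nat.totient d : ℂ) * (d : ℂ) ^ (-(1 + s))

/-- the arithmetic factor of the polar part -/
noncomputable def Hn (n : ℕ) (s : ℂ) : ℂ :=
  3 * (n : ℂ) ^ (-(1 + s)) * fA n s - 3 / n * fB n s + 1 / n * fB n 0

/-- the arithmetic factor of the main term, `m` and `n` coprime -/
noncomputable def kk (m n : ℕ) (s : ℂ) : ℂ := (n : ℂ) ^ (1 / 2 + s) * (m : ℂ) ^ (-(1 / 2 + s)) * Hn n s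

/-- the mean value of `(a, n) / n` -/
noncomputable def nun (n : ℕ) : ℝ := (∑ r ∈ Finset.range n, (Nat.gcd r n : ℝ)) / (n : ℝ) ^ 2

/-- indicator of `n ∣ k` -/
noncomputable def dvi (n k : ℕ) : ℂ := if n ∣ k then 1 else 0

/-- the part of `e(-mabc/n)` of mean zero in every variable (`a, b, c ≥ 1`) -/
noncomputable def vv (m n : ℕ) (a b c : ℕ) : ℂ :=
  cexp (-((2 * Real.pi * m * (a * b * c) / n : ℝ) : ℂ) * I) - dvi n (a * b) - dvi n (b * c) - dvi n (c * a) +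
    ((((Nat.gcd a n + Nat.gcd b n + Nat.gcd c n : ℕ) : ℝ) / n : ℝ) : ℂ) - ((nun n : ℝ) : ℂ)

/-- the error sum -/
noncomputable def E3 (m n : ℕ) (θ : ℂ) : ℂ :=
  ∑' q : ℕ × ℕ × ℕ, vv m n (q.1 + 1) (q.2.1 + 1) (q.2.2 + 1) * cexp (-((pr q : ℂ) * θ))

/-- the weight: `1` for `x ≤ 1`, `0` for `x ≥ 1 + η` -/
noncomputable def Wt (η x : ℝ) : ℝ := Real.smoothTransition ((1 + η - x) / η)

/-- its Mellin transform at `1 + s` -/
noncomputable def Mw (η : ℝ) (s : ℂ) : ℂ := ∫ x in Ioi (0:ℝ), (x : ℂ) ^ s * ((Wt η x : ℝ) : ℂ)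

end Pool.Agent.LibPH
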