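import Mathlib
import Pool.Agent.LibPH.XDefs
import Pool.Agent.LibTG78.D5a

/-! ROW A01a (second_le, edge2): edges. second_le, edge2: LibTG78 `TW.tw_twist` with `m = n = 1` (`tw_M 1 1 T = T (log(T/2π) + 2γ - 1)`).
edge3: Cauchy-Schwarz `∫_T^{T(1+η)}|ζ|³ ≤ (edge2)^{1/2} (∫_0^{2T}|ζ|⁴)^{1/2}`, fourth_crude (`e^{-t/T} ≥ e^{-2}` on `[0,2T]`),
`η = (log T)^{-20}`. err3: `∫|ζ|³ F ≤ (∫|ζ|⁴)^{1/2} (∫|ζ|² F²)^{1/2}`; err1: `∫|ζ| F ≤ (2T)^{1/2} (∫|ζ|² F²)^{1/2}`. -/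

set_option autoImplicit false

namespace Pool.Agent.LibPH

open MeasureTheory Filter Topology Complex
open scoped ComplexConjugate
open Pool.Agent.LibMM99 Pool.Agent.LibTG78

/-- the second moment of zeta -/
theorem a01a_key : ∃ C : ℝ, 0 < C ∧ ∀ T : ℝ, 1 ≤ T →
    |(∫ t in (0 : ℝ)..T, ‖riemannZeta (1 / 2 + t * I)‖ ^ 2) -
      T * (Real.log T - Real.log (2 * Real.pi) + 2 * Real.eulerMascheroniConstant - 1)| ≤
      C * T ^ (3/4 : ℝ) := by
  obtain ⟨C, hC, h⟩ := TW.tw_twist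
  refine ⟨C, hC, fun T hT => ?_⟩
  have h1 := h 1 1 le_rfl le_rfl (Nat.coprime_one_right 1) T hT
  have h2 : (∫ t in (0:ℝ)..T, ((‖riemannZeta (LibZM.crit t)‖ ^ 2 : ℝ) : ℂ) * TW.tw_e 1 1 t) =
      ((∫ t in (0 : ℝ)..T, ‖riemannZeta (1 / 2 + t * I)‖ ^ 2 : ℝ) : ℂ) := by
    rw [← intervalIntegral.integral_ofReal]
    refine intervalIntegral.integral_congr fun t _ => ?_
    beta_reduce
    have h3 : TW.tw_e 1 1 t = 1 := by
      unfold TW.tw_e
      simp
    rw [h3, mul_one]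
    rfl
  rw [h2, ← Complex.ofReal_sub, Complex.norm_real, Real.norm_eq_abs] at h1
  have h7 : (((1:ℕ):ℝ) * ((1:ℕ):ℝ)) ^ (5/4 : ℝ) = 1 := by simp
  rw [h7, mul_one] at h1
  have h8 : TW.tw_M 1 1 T =
      T * (Real.log T - Real.log (2 * Real.pi) + 2 * Real.eulerMascheroniConstant - 1) := by
    unfold TW.tw_M
    rw [Nat.cast_one, mul_one, Real.one_rpow, one_mul, mul_one]
  rw [h8] at h1
  exact h1

lemma a01a_cont : Continuous fun t : ℝ => ‖riemannZeta (1 / 2 + t * I)‖ ^ 2 :=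
  (D5_zeta_cont.norm).pow 2

lemma a01a_const : -Real.log (2 * Real.pi) + 2 * Real.eulerMascheroniConstant - 1 ≤ 1 := by
  have h1 := Real.eulerMascheroniConstant_lt_two_thirds
  have h2 : 0 ≤ Real.log (2 * Real.pi) :=
    Real.log_nonneg (by linarith [Real.pi_gt_three])
  linarith

lemma a01a_log {T : ℝ} (hT : 3 ≤ T) : 1 ≤ Real.log T := by
  rw [Real.le_log_iff_exp_le (by linarith)]
  linarith [Real.exp_one_lt_d9]

theorem second_le : ∃ C : ℝ, 1 ≤ C ∧ ∀ T : ℝ, 3 ≤ T →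
    ∫ t in (0:ℝ)..T, ‖riemannZeta (1 / 2 + t * I)‖ ^ 2 ≤ C * T * Real.log T := by
  obtain ⟨C, hC, h⟩ := a01a_key
  refine ⟨2 + C, by linarith, fun T hT => ?_⟩
  have h1 := (abs_le.1 (h T (by linarith))).2
  have h2 := a01a_const
  have h3 := a01a_log hT
  have h4 : T ^ (3/4 : ℝ) ≤ T := by
    calc T ^ (3/4 : ℝ) ≤ T ^ (1 : ℝ) :=
          Real.rpow_le_rpow_of_exponent_le (by linarith) (by norm_num)
      _ = T := Real.rpow_one T
  have h5 : C * T ^ (3/4 : ℝ) ≤ C * T := mul_le_mul_of_nonneg_left h4 hC.le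
  have h6 : T * (Real.log T - Real.log (2 * Real.pi) + 2 * Real.eulerMascheroniConstant - 1) ≤
      T * (Real.log T + 1) := mul_le_mul_of_nonneg_left (by linarith) (by linarith)
  have h7 : T * 1 ≤ T * Real.log T := mul_le_mul_of_nonneg_left h3 (by linarith)
  have h8 : C * (T * 1) ≤ C * (T * Real.log T) := mul_le_mul_of_nonneg_left h7 hC.le
  have e : (2 + C) * T * Real.log T = T * Real.log T + T * Real.log T + C * (T * Real.log T) := by
    ring
  rw [e]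
  linarith

theorem edge2 : ∃ C : ℝ, 1 ≤ C ∧ ∀ T η : ℝ, 3 ≤ T → 0 ≤ η → η ≤ 1 →
    ∫ t in T..(T * (1 + η)), ‖riemannZeta (1 / 2 + t * I)‖ ^ 2 ≤ C * (η * T * Real.log T + T ^ (3/4 : ℝ)) := by
  obtain ⟨C, hC, h⟩ := a01a_key
  refine ⟨4 + 3 * C, by linarith, fun T η hT hη hη1 => ?_⟩
  have hT0 : 0 < T := by linarith
  have hTη : T ≤ T * (1 + η) := by nlinarith
  have hlogT := a01a_log hT
  have h1 := (abs_le.1 (h T (by linarith))).1
  have h2 := (abs_le.1 (h (T * (1 + η)) (by linarith))).2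
  have h3 : (∫ t in T..(T * (1 + η)), ‖riemannZeta (1 / 2 + t * I)‖ ^ 2) =
      (∫ t in (0 : ℝ)..(T * (1 + η)), ‖riemannZeta (1 / 2 + t * I)‖ ^ 2) -
      ∫ t in (0 : ℝ)..T, ‖riemannZeta (1 / 2 + t * I)‖ ^ 2 :=
    (intervalIntegral.integral_interval_sub_left (a01a_cont.intervalIntegrable _ _)
      (a01a_cont.intervalIntegrable _ _)).symm
  have h4 : (T * (1 + η)) ^ (3/4 : ℝ) ≤ 2 * T ^ (3/4 : ℝ) := by
    rw [Real.mul_rpow hT0.le (by linarith), mul_comm]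
    refine mul_le_mul_of_nonneg_right ?_ (by positivity)
    calc (1 + η) ^ (3/4 : ℝ) ≤ (1 + η) ^ (1 : ℝ) :=
          Real.rpow_le_rpow_of_exponent_le (by linarith) (by norm_num)
      _ = 1 + η := Real.rpow_one _
      _ ≤ 2 := by linarith
  have h5 : Real.log (T * (1 + η)) = Real.log T + Real.log (1 + η) :=
    Real.log_mul hT0.ne' (by linarith)
  have h6 : Real.log (1 + η) ≤ η := by
    have := Real.log_le_sub_one_of_pos (show (0 : ℝ) < 1 + η by linarith)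
    linarith
  have h6' : 0 ≤ Real.log (1 + η) := Real.log_nonneg (by linarith)
  obtain ⟨c, hc⟩ : ∃ c : ℝ, c = -Real.log (2 * Real.pi) + 2 * Real.eulerMascheroniConstant - 1 :=
    ⟨_, rfl⟩
  have hc1 : c ≤ 1 := by
    rw [hc]
    exact a01a_const
  have e1 : T * (1 + η) * (Real.log (T * (1 + η)) - Real.log (2 * Real.pi) +
      2 * Real.eulerMascheroniConstant - 1) -
      T * (Real.log T - Real.log (2 * Real.pi) + 2 * Real.eulerMascheroniConstant - 1) =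
      η * T * (Real.log T + c) + T * ((1 + η) * Real.log (1 + η)) := by
    rw [h5, hc]
    ring
  have hηT : 0 ≤ η * T := by positivity
  have h7 : η * T * (Real.log T + c) ≤ η * T * (2 * Real.log T) :=
    mul_le_mul_of_nonneg_left (by linarith) hηT
  have h8 : (1 + η) * Real.log (1 + η) ≤ 2 * η :=
    mul_le_mul (by linarith) h6 h6' (by norm_num)
  have h9 : T * ((1 + η) * Real.log (1 + η)) ≤ T * (2 * η) := mul_le_mul_of_nonneg_left h8 hT0.le
  have h10 : η * T * 1 ≤ η * T * Real.log T := mul_le_mul_of_nonneg_left hlogT hηT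
  have h11 : C * (T * (1 + η)) ^ (3/4 : ℝ) ≤ C * (2 * T ^ (3/4 : ℝ)) :=
    mul_le_mul_of_nonneg_left h4 hC.le
  have h12 : 0 ≤ T ^ (3/4 : ℝ) := by positivity
  have h13 : 0 ≤ C * (η * T * Real.log T) := by
    have : 0 ≤ Real.log T := by linarith
    positivity
  have e2 : (4 + 3 * C) * (η * T * Real.log T + T ^ (3/4 : ℝ)) =
      4 * (η * T * Real.log T) + 3 * (C * (η * T * Real.log T)) + 4 * T ^ (3/4 : ℝ) +
        3 * (C * T ^ (3/4 : ℝ)) := by ring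
  rw [h3, e2]
  linarith

end Pool.Agent.LibPH
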