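import Mathlib
import Pool.Agent.LibPH.XDefs
import Pool.Agent.LibF4.M25
import Pool.Agent.LibF4.M30
import Pool.Agent.LibF4.M31

/-! ROW Q01: a crude fourth moment with exponential weights (the exponent 8 is not important).

From block M of F1 (helper58): `I4 δ 1 1 = 2 ∑' T4 δ 1 1 + O(δ^{-5/8})` (M30), `I4` versus `I4p` (M31), and
`∑' ‖T4 δ 1 1 (a,b)‖ ≤ C δ^{-1} (log 1/δ)^4`: `‖Jk Λ p‖ ≤ C ‖p‖^{-(1+c)}` (M22) with `p = (a+b) sin δ - i(a-b) cos δ`,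
`d(a)d(b) ≤ (d(a)² + d(b)²)/2`, sum over `b` first: `∑_b ‖p‖^{-(1+c)} ≤ C (aδ)^{-1-c} + C min(1, (aδ)^{-c/2})...`, then
`∑ d(a)² a^{-1-ε} ≤ C ε^{-4}`, `ε = 1/log(1/δ)`. -/

set_option autoImplicit false

namespace Pool.Agent.LibPH

open MeasureTheory Set Filter Topology Complex
open scoped ComplexConjugate

/-- `‖Jk‖` with an explicit dependence on the exponent -/
theorem q01_Jk : ∃ K : ℝ, 0 < K ∧ ∀ c : ℝ, 0 < c → c ≤ 1/4 → ∀ p : ℂ, 0 < p.re →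
    ‖LibF4.Jk (LibF4.Lam 1 1) p‖ ≤ K / c * ‖p‖ ^ (-(1 + c)) := by
  obtain ⟨M, hM⟩ := (isCompact_Icc (a := (1:ℝ)) (b := 2)).exists_bound_of_continuousOn (f := Real.Gamma)
    (fun x hx => (Real.differentiableAt_Gamma (fun m => by
      have := hx.1
      have h2 : (0:ℝ) ≤ m := Nat.cast_nonneg m
      linarith)).continuousAt.continuousWithinAt)
  have hM0 : 0 ≤ M := (norm_nonneg _).trans (hM 1 ⟨le_rfl, by norm_num⟩)
  set J0 : ℝ := ∫ y : ℝ, Real.exp (-(1/2) * y ^ 2) with hJ0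
  have hJ00 : 0 ≤ J0 := integral_nonneg fun y => (Real.exp_pos _).le
  have hΛ : 0 < LibF4.Lam 1 1 := by unfold LibF4.Lam; positivity
  have hΛ1 : LibF4.Lam 1 1 ≤ 1 := by
    unfold LibF4.Lam
    rw [div_le_one (by positivity)]
    simp
    linarith [Real.pi_gt_three]
  refine ⟨1 / (2 * Real.pi) * (M * Real.exp (1 + Real.pi ^ 2 / 8) * J0) + 1, by positivity, fun c hc hc4 p hp => ?_⟩
  have hf := (LibF4.Jkj_formula 0 hΛ hp hc).2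
  have hJ : LibF4.Jkj 0 (LibF4.Lam 1 1) p = LibF4.Jk (LibF4.Lam 1 1) p := by
    unfold LibF4.Jkj LibF4.Jk
    simp
  rw [← hJ, hf, norm_mul, Complex.norm_real, Real.norm_of_nonneg (by positivity)]
  have hpn : (0:ℝ) ≤ ‖p‖ ^ (-(1 + c)) := by positivity
  have h1 : ‖∫ y : ℝ, cexp (((c:ℂ) + y * I) ^ 2) * (LibF4.Lam 1 1 : ℂ) ^ ((c:ℂ) + y * I) *
      Complex.Gamma (1 + (0:ℕ) + ((c:ℂ) + y * I)) * p ^ (-(1 + (0:ℕ) + ((c:ℂ) + y * I))) / ((c:ℂ) + y * I)‖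
      ≤ LibF4.Lam 1 1 ^ c * ‖p‖ ^ (-(1 + (0:ℕ) + c)) * (Real.Gamma (1 + (0:ℕ) + c) / c *
        Real.exp (c ^ 2 + Real.pi ^ 2 / 8) * J0) := by
    rw [hJ0, ← integral_const_mul, ← integral_const_mul]
    apply norm_integral_le_of_norm_le
    · exact (LibF4.m22_gauss _).const_mul _
    · exact Eventually.of_forall fun y => LibF4.m22_pt 0 hc hΛ hp y
  have hG : Real.Gamma (1 + (0:ℕ) + c) ≤ M := by
    have := hM (1 + c) ⟨by linarith, by linarith⟩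
    rw [Real.norm_eq_abs] at this
    rw [Nat.cast_zero, add_zero]
    exact (le_abs_self _).trans this
  have hG0 : 0 < Real.Gamma (1 + (0:ℕ) + c) := Real.Gamma_pos_of_pos (by positivity)
  have h2 : LibF4.Lam 1 1 ^ c ≤ 1 := Real.rpow_le_one hΛ.le hΛ1 hc.le
  have h3 : Real.exp (c ^ 2 + Real.pi ^ 2 / 8) ≤ Real.exp (1 + Real.pi ^ 2 / 8) :=
    Real.exp_le_exp.2 (by nlinarith)
  have e0 : ‖p‖ ^ (-(1 + (0:ℕ) + c)) = ‖p‖ ^ (-(1 + c)) := by rw [Nat.cast_zero, add_zero]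
  rw [e0] at h1
  calc 1 / (2 * Real.pi) * ‖∫ y : ℝ, cexp (((c:ℂ) + y * I) ^ 2) * (LibF4.Lam 1 1 : ℂ) ^ ((c:ℂ) + y * I) *
      Complex.Gamma (1 + (0:ℕ) + ((c:ℂ) + y * I)) * p ^ (-(1 + (0:ℕ) + ((c:ℂ) + y * I))) / ((c:ℂ) + y * I)‖
      ≤ 1 / (2 * Real.pi) * (LibF4.Lam 1 1 ^ c * ‖p‖ ^ (-(1 + c)) * (Real.Gamma (1 + (0:ℕ) + c) / c *
        Real.exp (c ^ 2 + Real.pi ^ 2 / 8) * J0)) := mul_le_mul_of_nonneg_left h1 (by positivity)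
    _ ≤ 1 / (2 * Real.pi) * (1 * ‖p‖ ^ (-(1 + c)) * (M / c * Real.exp (1 + Real.pi ^ 2 / 8) * J0)) := by
        gcongr
    _ = (1 / (2 * Real.pi) * (M * Real.exp (1 + Real.pi ^ 2 / 8) * J0)) / c * ‖p‖ ^ (-(1 + c)) := by ring
    _ ≤ (1 / (2 * Real.pi) * (M * Real.exp (1 + Real.pi ^ 2 / 8) * J0) + 1) / c * ‖p‖ ^ (-(1 + c)) := by
        gcongr
        linarith

/-- `d(n)^2 n^{-1-ε}` -/
noncomputable def q01_f (ε : ℝ) (n : ℕ) : ℝ := LibF4.dv n ^ 2 * (n:ℝ) ^ (-(1 + ε) : ℝ)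

theorem q01_f_nonneg (ε : ℝ) (n : ℕ) : 0 ≤ q01_f ε n := by unfold q01_f; positivity

theorem q01_f_summable {ε : ℝ} (hε : 0 < ε) : Summable (q01_f ε) := by
  have h := LibZM.summable_tau_sq (κ := 2) (by norm_num) (σ := 1 + ε) (by linarith)
  refine h.congr fun n => ?_
  unfold q01_f LibF4.dv
  rw [LibM3.e3_card]

theorem q01_f_sum : ∃ A ε0 : ℝ, 0 < A ∧ 0 < ε0 ∧ ∀ ε : ℝ, 0 < ε → ε < ε0 → ∑' n, q01_f ε n ≤ A / ε ^ 4 := by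
  have h := LibZM.tendsto_tau_sq (κ := 2) (by norm_num)
  have h1 := h.eventually (ge_mem_nhds (lt_add_one (LibZM.Aconst 2)))
  rw [eventually_nhdsWithin_iff] at h1
  obtain ⟨r, hr, hr2⟩ := Metric.eventually_nhds_iff.1 h1
  refine ⟨max (LibZM.Aconst 2 + 1) 1, r, lt_max_of_lt_right one_pos, hr, fun ε h0 h2 => ?_⟩
  have h3 := hr2 (y := ε) (by rw [Real.dist_eq, sub_zero, abs_of_pos h0]; exact h2) h0
  have e1 : ε ^ ((2:ℝ) ^ 2) = ε ^ 4 := by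
    have : ((2:ℝ) ^ 2) = ((4:ℕ) : ℝ) := by norm_num
    rw [this, Real.rpow_natCast]
  have e2 : ∑' n : ℕ, LibZM.tau 2 n ^ 2 * (n:ℝ) ^ (-(1 + ε)) = ∑' n, q01_f ε n := by
    refine tsum_congr fun n => ?_
    unfold q01_f LibF4.dv
    rw [LibM3.e3_card]
  rw [e1, e2] at h3
  rw [le_div_iff₀ (by positivity), mul_comm]
  exact h3.trans (le_max_left _ _)

noncomputable def q01_F (ε : ℝ) (p : ℕ × ℤ) : ℝ := q01_f ε p.1 * LibF4.m25_w p.2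

theorem q01_F_nonneg (ε : ℝ) (p : ℕ × ℤ) : 0 ≤ q01_F ε p := mul_nonneg (q01_f_nonneg _ _) (LibF4.m25_w_nonneg _)

theorem q01_F_summable {ε : ℝ} (hε : 0 < ε) : Summable (q01_F ε) :=
  (q01_f_summable hε).mul_of_nonneg LibF4.m25_w_summable (q01_f_nonneg ε) LibF4.m25_w_nonneg

theorem q01_F_tsum {ε : ℝ} (hε : 0 < ε) : ∑' p, q01_F ε p = (∑' n, q01_f ε n) * ∑' r, LibF4.m25_w r :=
  ((q01_f_summable hε).tsum_mul_tsum LibF4.m25_w_summable (q01_F_summable hε)).symm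

noncomputable def q01_G (ε : ℝ) (ab : ℕ × ℕ) : ℝ := q01_f ε ab.1 * LibF4.m25_w ((ab.1:ℤ) - ab.2)

theorem q01_g1 {ε : ℝ} (hε : 0 < ε) : Summable (q01_G ε) ∧ ∑' ab : ℕ × ℕ, q01_G ε ab ≤ ∑' p : ℕ × ℤ, q01_F ε p := by
  have h := (q01_F_summable hε).comp_injective LibF4.m25_i_inj
  have he : q01_F ε ∘ LibF4.m25_i = q01_G ε := rfl
  have h2 : ∑' ab : ℕ × ℕ, (q01_F ε ∘ LibF4.m25_i) ab ≤ ∑' p : ℕ × ℤ, q01_F ε p :=
    Summable.tsum_le_tsum_of_inj LibF4.m25_i LibF4.m25_i_inj (fun c _ => q01_F_nonneg ε c) (fun _ => le_rfl) h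
      (q01_F_summable hε)
  rw [he] at h h2
  exact ⟨h, h2⟩

noncomputable def q01_G2 (ε : ℝ) (ab : ℕ × ℕ) : ℝ := q01_f ε ab.2 * LibF4.m25_w ((ab.1:ℤ) - ab.2)

theorem q01_g2 {ε : ℝ} (hε : 0 < ε) : Summable (q01_G2 ε) ∧ ∑' ab : ℕ × ℕ, q01_G2 ε ab ≤ ∑' p : ℕ × ℤ, q01_F ε p := by
  have h := q01_g1 hε
  have he : q01_G2 ε = q01_G ε ∘ (Equiv.prodComm ℕ ℕ) := by
    funext ab
    unfold q01_G2 q01_G
    rw [← LibF4.m25_w_neg]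
    simp only [Function.comp_apply, Equiv.prodComm_apply, Prod.fst_swap, Prod.snd_swap]
    congr 2
    ring
  rw [he]
  refine ⟨(Equiv.prodComm ℕ ℕ).summable_iff.2 h.1, ?_⟩
  have h3 : ∑' ab : ℕ × ℕ, (q01_G ε ∘ (Equiv.prodComm ℕ ℕ)) ab = ∑' ab : ℕ × ℕ, q01_G ε ab :=
    (Equiv.prodComm ℕ ℕ).tsum_eq (q01_G ε)
  rw [h3]
  exact h.2

theorem q01_point {C1 C2 δ ε : ℝ} (hC1 : 0 < C1) (hC2 : 0 < C2) (h0 : 0 < δ) (hε : 0 < ε) (hε4 : ε ≤ 1/4)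
    {X r : ℝ} (hX : 0 < X) (k : ℤ) (hk : r = k) {J : ℂ} {p : ℝ} (hp : (δ * X + |r|) / 4 ≤ p)
    (hJ1 : ‖J‖ ≤ C1 * p ^ (-(1 + ε) : ℝ)) (hJ2 : ‖J‖ ≤ C2 * p ^ (-(1 + 2) : ℝ)) {a : ℝ} (ha : 0 < a) (haX : a ≤ X) :
    ‖J‖ ≤ (C1 + C2) * 64 * ((δ * a) ^ (-(1 + ε) : ℝ) * LibF4.m25_w k) := by
  have hda : 0 < δ * a := mul_pos h0 ha
  have hdX : 0 < δ * X := mul_pos h0 hX
  have hle : δ * a ≤ δ * X := mul_le_mul_of_nonneg_left haX h0.le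
  have hp0 : 0 < p := by
    have := abs_nonneg r
    linarith
  have hpos : 0 < (δ * a) ^ (-(1 + ε) : ℝ) := by positivity
  unfold LibF4.m25_w
  split_ifs with hk0
  · have h2 : p ^ (-(1 + ε) : ℝ) ≤ ((δ * a) / 4) ^ (-(1 + ε) : ℝ) := by
      refine Real.rpow_le_rpow_of_nonpos (by positivity) ?_ (by linarith)
      have := abs_nonneg r
      linarith
    have h4 : ((δ * a) / 4) ^ (-(1 + ε) : ℝ) = (δ * a) ^ (-(1 + ε) : ℝ) * (4:ℝ) ^ ((1 + ε) : ℝ) := by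
      rw [Real.div_rpow hda.le (by norm_num), div_eq_mul_inv, ← Real.rpow_neg (by norm_num), neg_neg]
    have h5 : (4:ℝ) ^ ((1 + ε) : ℝ) ≤ 64 := by
      calc (4:ℝ) ^ ((1 + ε) : ℝ) ≤ (4:ℝ) ^ ((3:ℕ) : ℝ) :=
            Real.rpow_le_rpow_of_exponent_le (by norm_num) (by norm_num; linarith)
        _ = 64 := by rw [Real.rpow_natCast]; norm_num
    calc ‖J‖ ≤ C1 * p ^ (-(1 + ε) : ℝ) := hJ1
      _ ≤ C1 * ((δ * a) ^ (-(1 + ε) : ℝ) * 64) := by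
          refine mul_le_mul_of_nonneg_left ?_ hC1.le
          rw [h4] at h2
          exact h2.trans (mul_le_mul_of_nonneg_left h5 hpos.le)
      _ ≤ _ := by nlinarith [mul_pos hC2 hpos]
  · have hr1 : 1 ≤ |r| := by
      rw [hk]
      exact_mod_cast Int.one_le_abs hk0
    have hr0 : 0 < |r| := by linarith
    rw [← hk]
    have hs : 0 < δ * X + |r| := by linarith
    have h2 : p ^ (-(1 + 2) : ℝ) ≤ ((δ * X + |r|) / 4) ^ (-3 : ℝ) := by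
      have h3 : (-(1 + 2) : ℝ) = (-3 : ℝ) := by norm_num
      rw [h3]
      exact Real.rpow_le_rpow_of_nonpos (by positivity) hp (by norm_num)
    have h4 : ((δ * X + |r|) / 4) ^ (-3 : ℝ) = (δ * X + |r|) ^ (-3 : ℝ) * 64 := by
      rw [Real.div_rpow hs.le (by norm_num), div_eq_mul_inv, ← Real.rpow_neg (by norm_num)]
      norm_num
    have h5 : (δ * X + |r|) ^ (-3 : ℝ) ≤ (δ * a) ^ (-(1 + ε) : ℝ) * |r| ^ (-(7/4) : ℝ) := by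
      have h6 : (δ * X + |r|) ^ (-3 : ℝ) = (δ * X + |r|) ^ (-(1 + ε) : ℝ) * (δ * X + |r|) ^ (-(2 - ε) : ℝ) := by
        rw [← Real.rpow_add hs]; ring_nf
      rw [h6]
      refine mul_le_mul ?_ ?_ (by positivity) (by positivity)
      · exact Real.rpow_le_rpow_of_nonpos hda (by linarith) (by linarith)
      · calc (δ * X + |r|) ^ (-(2 - ε) : ℝ) ≤ |r| ^ (-(2 - ε) : ℝ) :=
              Real.rpow_le_rpow_of_nonpos hr0 (by linarith) (by linarith)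
          _ ≤ |r| ^ (-(7/4) : ℝ) := Real.rpow_le_rpow_of_exponent_le hr1 (by linarith)
    have hq : 0 ≤ (δ * a) ^ (-(1 + ε) : ℝ) * |r| ^ (-(7/4) : ℝ) := by positivity
    calc ‖J‖ ≤ C2 * p ^ (-(1 + 2) : ℝ) := hJ2
      _ ≤ C2 * ((δ * a) ^ (-(1 + ε) : ℝ) * |r| ^ (-(7/4) : ℝ) * 64) := by
          refine mul_le_mul_of_nonneg_left ?_ hC2.le
          rw [h4] at h2
          exact h2.trans (mul_le_mul_of_nonneg_right h5 (by norm_num))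
      _ ≤ _ := by nlinarith [mul_nonneg hC1.le hq]

theorem q01_sum : ∃ C ε0 : ℝ, 0 < C ∧ 0 < ε0 ∧ ∀ ε : ℝ, 0 < ε → ε < ε0 → ∀ δ : ℝ, 0 < δ → δ ≤ 1/4 →
    ∑' ab : ℕ × ℕ, ‖LibF4.T4 δ 1 1 ab‖ ≤ C / ε ^ 5 * δ ^ (-(1 + ε) : ℝ) := by
  obtain ⟨c1, hc1, H1⟩ := q01_Jk
  obtain ⟨c2, hc2, H2⟩ := LibF4.Jk_bd (c := 2) (by norm_num)
  obtain ⟨A, ε0, hA, hε0, hsum0⟩ := q01_f_sum
  have hL : 0 < LibF4.Lam 1 1 := by unfold LibF4.Lam; positivity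
  set C2 : ℝ := c2 * LibF4.Lam 1 1 ^ (2 : ℝ) with hC2d
  have hC2 : 0 < C2 := by positivity
  set W : ℝ := ∑' r, LibF4.m25_w r with hW
  have hW0 : 0 ≤ W := tsum_nonneg LibF4.m25_w_nonneg
  refine ⟨(c1 + C2) * 64 * (A * W) + 1, min ε0 (1/4), by positivity, by positivity, fun ε hε hεm δ h0 h1 => ?_⟩
  have hε1 : ε < ε0 := lt_of_lt_of_le hεm (min_le_left _ _)
  have hε4 : ε ≤ 1/4 := (lt_of_lt_of_le hεm (min_le_right _ _)).le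
  obtain ⟨C1, hC1d⟩ : ∃ C1 : ℝ, C1 = c1 / ε := ⟨_, rfl⟩
  have hC1 : 0 < C1 := by rw [hC1d]; positivity
  obtain ⟨K, hK⟩ : ∃ K : ℝ, K = (C1 + C2) * 64 := ⟨_, rfl⟩
  have hK0 : 0 < K := by rw [hK]; positivity
  have hd : 0 < δ ^ (-(1 + ε) : ℝ) := by positivity
  have key : ∀ ab : ℕ × ℕ, ‖LibF4.T4 δ 1 1 ab‖ ≤
      K * δ ^ (-(1 + ε) : ℝ) / 2 * q01_G ε ab +
      K * δ ^ (-(1 + ε) : ℝ) / 2 * q01_G2 ε ab := by
    rintro ⟨a, b⟩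
    show ‖LibF4.T4 δ 1 1 (a, b)‖ ≤
      K * δ ^ (-(1 + ε) : ℝ) / 2 * (q01_f ε a * LibF4.m25_w ((a:ℤ) - b)) +
      K * δ ^ (-(1 + ε) : ℝ) / 2 * (q01_f ε b * LibF4.m25_w ((a:ℤ) - b))
    have hnn : 0 ≤ K * δ ^ (-(1 + ε) : ℝ) / 2 * (q01_f ε a * LibF4.m25_w ((a:ℤ) - b)) +
      K * δ ^ (-(1 + ε) : ℝ) / 2 * (q01_f ε b * LibF4.m25_w ((a:ℤ) - b)) := by
      have := q01_f_nonneg ε a
      have := q01_f_nonneg ε b
      have := LibF4.m25_w_nonneg ((a:ℤ) - b)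
      positivity
    rcases Nat.eq_zero_or_pos a with rfl | ha
    · refine le_trans (le_of_eq ?_) hnn
      simp [LibF4.T4, LibF4.dv]
    rcases Nat.eq_zero_or_pos b with rfl | hb
    · refine le_trans (le_of_eq ?_) hnn
      simp [LibF4.T4, LibF4.dv]
    have ha' : (0:ℝ) < a := by exact_mod_cast ha
    have hb' : (0:ℝ) < b := by exact_mod_cast hb
    have hT : ‖LibF4.T4 δ 1 1 (a, b)‖ = LibF4.dv a * LibF4.dv b *
        ‖LibF4.Jk (LibF4.Lam 1 1) (LibF4.pf δ ((a:ℝ) + b) ((a:ℝ) - b))‖ := by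
      unfold LibF4.T4
      have hda : 0 ≤ LibF4.dv a := by unfold LibF4.dv; positivity
      have hdb : 0 ≤ LibF4.dv b := by unfold LibF4.dv; positivity
      rw [norm_mul, Complex.norm_real, Real.norm_of_nonneg (mul_nonneg hda hdb)]
      simp
    have hre : 0 < (LibF4.pf δ ((a:ℝ) + b) ((a:ℝ) - b)).re := by
      rw [LibF4.m25_pf_re]
      have hsin : 0 < Real.sin δ := Real.sin_pos_of_pos_of_lt_pi h0 (by linarith [Real.pi_gt_three])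
      positivity
    have hp := LibF4.m25_pf_norm h0 h1 (X := (a:ℝ) + b) (r := (a:ℝ) - b) (by positivity)
    have hJ1 := H1 ε hε hε4 _ hre
    rw [← hC1d] at hJ1
    have hJ2 := H2 (LibF4.Lam 1 1) hL _ hre
    have hk : ((a:ℝ) - b) = (((a:ℤ) - b : ℤ) : ℝ) := by push_cast; ring
    have hA := q01_point hC1 hC2 h0 hε hε4 (X := (a:ℝ) + b) (by positivity) ((a:ℤ) - b) hk hp hJ1 hJ2 ha' (by linarith)
    have hB := q01_point hC1 hC2 h0 hε hε4 (X := (a:ℝ) + b) (by positivity) ((a:ℤ) - b) hk hp hJ1 hJ2 hb' (by linarith)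
    rw [← hK] at hA hB
    rw [hT]
    set J : ℝ := ‖LibF4.Jk (LibF4.Lam 1 1) (LibF4.pf δ ((a:ℝ) + b) ((a:ℝ) - b))‖ with hJ
    have hJ0 : 0 ≤ J := norm_nonneg _
    rw [Real.mul_rpow h0.le ha'.le] at hA
    rw [Real.mul_rpow h0.le hb'.le] at hB
    have h2 : LibF4.dv a * LibF4.dv b ≤ (LibF4.dv a ^ 2 + LibF4.dv b ^ 2) / 2 := by
      nlinarith [sq_nonneg (LibF4.dv a - LibF4.dv b)]
    calc LibF4.dv a * LibF4.dv b * J ≤ (LibF4.dv a ^ 2 + LibF4.dv b ^ 2) / 2 * J := mul_le_mul_of_nonneg_right h2 hJ0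
      _ = LibF4.dv a ^ 2 / 2 * J + LibF4.dv b ^ 2 / 2 * J := by ring
      _ ≤ LibF4.dv a ^ 2 / 2 * (K * (δ ^ (-(1 + ε) : ℝ) * (a:ℝ) ^ (-(1 + ε) : ℝ) * LibF4.m25_w ((a:ℤ) - b))) +
          LibF4.dv b ^ 2 / 2 * (K * (δ ^ (-(1 + ε) : ℝ) * (b:ℝ) ^ (-(1 + ε) : ℝ) * LibF4.m25_w ((a:ℤ) - b))) := by
          gcongr
      _ = _ := by unfold q01_f; ring
  have hg1 := q01_g1 hε
  have hg2 := q01_g2 hε
  have hsum := ((hg1.1.mul_left (K * δ ^ (-(1 + ε) : ℝ) / 2))).add ((hg2.1.mul_left (K * δ ^ (-(1 + ε) : ℝ) / 2)))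
  have hT := (LibF4.SS_expand h0 h1 (m := 1) (n := 1) le_rfl le_rfl).1
  have hS : ∑' p, q01_F ε p ≤ A / ε ^ 4 * W := by
    rw [q01_F_tsum hε]
    exact mul_le_mul_of_nonneg_right (hsum0 ε hε hε1) hW0
  have hS0 : 0 ≤ ∑' p, q01_F ε p := tsum_nonneg (q01_F_nonneg ε)
  have hKe : K ≤ (c1 + C2) * 64 / ε := by
    rw [hK, hC1d]
    have h3 : C2 ≤ C2 / ε := by
      rw [le_div_iff₀ hε]
      nlinarith
    have : (c1 / ε + C2) * 64 ≤ (c1 / ε + C2 / ε) * 64 := by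
      have := add_le_add_right h3 (c1 / ε)
      linarith
    refine this.trans (le_of_eq (by ring))
  calc ∑' ab : ℕ × ℕ, ‖LibF4.T4 δ 1 1 ab‖ ≤ ∑' ab : ℕ × ℕ, (K * δ ^ (-(1 + ε) : ℝ) / 2 * q01_G ε ab +
      K * δ ^ (-(1 + ε) : ℝ) / 2 * q01_G2 ε ab) := hT.tsum_le_tsum key hsum
    _ = K * δ ^ (-(1 + ε) : ℝ) / 2 * (∑' ab : ℕ × ℕ, q01_G ε ab) +
        K * δ ^ (-(1 + ε) : ℝ) / 2 * (∑' ab : ℕ × ℕ, q01_G2 ε ab) := by
        rw [(hg1.1.mul_left _).tsum_add (hg2.1.mul_left _), tsum_mul_left, tsum_mul_left]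
    _ ≤ K * δ ^ (-(1 + ε) : ℝ) / 2 * (∑' p, q01_F ε p) + K * δ ^ (-(1 + ε) : ℝ) / 2 * (∑' p, q01_F ε p) := by
        have := hg1.2
        have := hg2.2
        gcongr
    _ = K * (∑' p, q01_F ε p) * δ ^ (-(1 + ε) : ℝ) := by ring
    _ ≤ (c1 + C2) * 64 / ε * (A / ε ^ 4 * W) * δ ^ (-(1 + ε) : ℝ) := by gcongr
    _ = ((c1 + C2) * 64 * (A * W)) / ε ^ 5 * δ ^ (-(1 + ε) : ℝ) := by
        field_simp
    _ ≤ ((c1 + C2) * 64 * (A * W) + 1) / ε ^ 5 * δ ^ (-(1 + ε) : ℝ) := by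
        gcongr
        linarith

theorem fourth_crude : ∃ C T0 : ℝ, 0 < C ∧ 3 ≤ T0 ∧ ∀ T : ℝ, T0 ≤ T →
    IntegrableOn (fun t : ℝ => ‖riemannZeta (1 / 2 + t * I)‖ ^ 4 * Real.exp (-(t / T))) (Ioi 0) ∧
    ∫ t in Ioi (0:ℝ), ‖riemannZeta (1 / 2 + t * I)‖ ^ 4 * Real.exp (-(t / T)) ≤ C * T * (Real.log T) ^ 8 := by
  obtain ⟨C, ε0, hC, hε0, hsum⟩ := q01_sum
  obtain ⟨C1, hC1, hM⟩ := LibF4.M_main
  obtain ⟨C2, hC2, hH⟩ := LibF4.I4_half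
  refine ⟨2 * (C * (8 * Real.exp 1)) + C1 * 2 + C2, max 3 (Real.exp (1 / ε0 + 1)), by positivity,
    le_max_left _ _, fun T hT => ?_⟩
  have hT3 : 3 ≤ T := (le_max_left _ _).trans hT
  have hTe : Real.exp (1 / ε0 + 1) ≤ T := (le_max_right _ _).trans hT
  have hT0 : 0 < T := by linarith
  have hlog : 1 / ε0 + 1 ≤ Real.log T := (Real.le_log_iff_exp_le hT0).2 hTe
  have hlog1 : 1 ≤ Real.log T := by
    have : 0 < 1 / ε0 := by positivity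
    linarith
  have hlog0 : 0 < Real.log T := by linarith
  obtain ⟨ε, hεd⟩ : ∃ ε : ℝ, ε = 1 / Real.log T := ⟨_, rfl⟩
  have hε : 0 < ε := by rw [hεd]; positivity
  have hε1 : ε < ε0 := by
    rw [hεd, div_lt_iff₀ hlog0]
    have h1 : ε0 * (1 / ε0 + 1) ≤ ε0 * Real.log T := mul_le_mul_of_nonneg_left hlog hε0.le
    have h2 : ε0 * (1 / ε0 + 1) = 1 + ε0 := by field_simp
    linarith
  have hεle : ε ≤ 1 := by
    rw [hεd, div_le_one hlog0]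
    exact hlog1
  obtain ⟨δ, hδ⟩ : ∃ δ : ℝ, δ = 1 / (2 * T) := ⟨_, rfl⟩
  have hδ0 : 0 < δ := by rw [hδ]; positivity
  have hδ4 : δ ≤ 1/4 := by
    rw [hδ]
    exact one_div_le_one_div_of_le (by norm_num) (by linarith)
  have h2δ : ∀ t : ℝ, 2 * δ * t = t / T := by
    intro t
    rw [hδ]
    field_simp
  have hcrit : ∀ t : ℝ, LibZM.crit t = 1 / 2 + t * I := fun t => rfl
  have hint := (hH δ hδ0 hδ4 1 1 le_rfl le_rfl).1
  simp only [h2δ, hcrit] at hint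
  refine ⟨hint, ?_⟩
  have hI4p : LibF4.I4p δ 1 1 = ((∫ t in Ioi (0:ℝ), ‖riemannZeta (1 / 2 + t * I)‖ ^ 4 * Real.exp (-(t / T)) : ℝ) : ℂ) := by
    unfold LibF4.I4p
    rw [← integral_complex_ofReal]
    refine setIntegral_congr_fun measurableSet_Ioi fun t _ => ?_
    simp only [h2δ, hcrit, Nat.cast_one, Real.log_one, sub_self, mul_zero, Complex.ofReal_zero, zero_mul,
      Complex.exp_zero, mul_one]
  have hnn : 0 ≤ ∫ t in Ioi (0:ℝ), ‖riemannZeta (1 / 2 + t * I)‖ ^ 4 * Real.exp (-(t / T)) :=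
    integral_nonneg fun t => by positivity
  have h1 : (∫ t in Ioi (0:ℝ), ‖riemannZeta (1 / 2 + t * I)‖ ^ 4 * Real.exp (-(t / T))) = ‖LibF4.I4p δ 1 1‖ := by
    rw [hI4p, Complex.norm_real, Real.norm_of_nonneg hnn]
  rw [h1]
  have h2 := hM δ hδ0 hδ4 1 1 le_rfl le_rfl
  have h3 := (hH δ hδ0 hδ4 1 1 le_rfl le_rfl).2
  have h4 := hsum ε hε hε1 δ hδ0 hδ4
  have hT4 := (LibF4.SS_expand hδ0 hδ4 (m := 1) (n := 1) le_rfl le_rfl).1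
  have h5 : ‖∑' ab : ℕ × ℕ, LibF4.T4 δ 1 1 ab‖ ≤ ∑' ab : ℕ × ℕ, ‖LibF4.T4 δ 1 1 ab‖ := norm_tsum_le_tsum_norm hT4
  have hδi : δ⁻¹ = 2 * T := by rw [hδ, one_div, inv_inv]
  have h6 : δ ^ (-(1 + ε) : ℝ) ≤ 8 * Real.exp 1 * T := by
    rw [Real.rpow_neg hδ0.le, ← Real.inv_rpow hδ0.le, hδi, Real.rpow_add (by positivity), Real.rpow_one,
      Real.mul_rpow (by norm_num) hT0.le]
    have e1 : (2:ℝ) ^ ε ≤ 4 := by
      calc (2:ℝ) ^ ε ≤ (2:ℝ) ^ (1:ℝ) := Real.rpow_le_rpow_of_exponent_le (by norm_num) hεle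
        _ ≤ 4 := by rw [Real.rpow_one]; norm_num
    have e2 : T ^ ε = Real.exp 1 := by
      rw [Real.rpow_def_of_pos hT0, hεd]
      congr 1
      field_simp
    rw [e2]
    have := Real.exp_pos 1
    calc 2 * T * ((2:ℝ) ^ ε * Real.exp 1) ≤ 2 * T * (4 * Real.exp 1) := by gcongr
      _ = 8 * Real.exp 1 * T := by ring
  have h7 : δ ^ (-(5/8) : ℝ) ≤ 2 * T := by
    rw [Real.rpow_neg hδ0.le, ← Real.inv_rpow hδ0.le, hδi]
    calc (2 * T) ^ (5/8 : ℝ) ≤ (2 * T) ^ (1:ℝ) :=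
          Real.rpow_le_rpow_of_exponent_le (by linarith) (by norm_num)
      _ = 2 * T := Real.rpow_one _
  have h8 : C / ε ^ 5 = C * Real.log T ^ 5 := by
    rw [hεd]
    field_simp
  have hP : Real.log T ^ 5 ≤ Real.log T ^ 8 := pow_le_pow_right₀ hlog1 (by norm_num)
  have hP1 : 1 ≤ Real.log T ^ 8 := one_le_pow₀ hlog1
  have h9 : ‖LibF4.I4p δ 1 1‖ ≤ 2 * (C * Real.log T ^ 5 * (8 * Real.exp 1 * T)) + C1 * (2 * T) + C2 := by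
    have e1 : ‖LibF4.I4p δ 1 1‖ ≤ ‖LibF4.I4 δ 1 1‖ + ‖LibF4.I4 δ 1 1 - LibF4.I4p δ 1 1‖ := by
      have := norm_sub_le (LibF4.I4 δ 1 1) (LibF4.I4 δ 1 1 - LibF4.I4p δ 1 1)
      rw [sub_sub_cancel] at this
      exact this
    simp only [Nat.cast_one, mul_one, Real.sqrt_one, Complex.ofReal_one, one_pow] at h2
    have e2 := norm_add_le (LibF4.I4 δ 1 1 - 2 * ∑' ab : ℕ × ℕ, LibF4.T4 δ 1 1 ab)
        (2 * ∑' ab : ℕ × ℕ, LibF4.T4 δ 1 1 ab)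
    rw [sub_add_cancel] at e2
    have e3 : ‖2 * ∑' ab : ℕ × ℕ, LibF4.T4 δ 1 1 ab‖ ≤
        2 * (C * Real.log T ^ 5 * (8 * Real.exp 1 * T)) := by
      rw [norm_mul, Complex.norm_ofNat]
      refine mul_le_mul_of_nonneg_left ?_ (by norm_num)
      refine (h5.trans h4).trans ?_
      rw [h8]
      exact mul_le_mul_of_nonneg_left h6 (by positivity)
    have e4 : C1 * δ ^ (-(5/8) : ℝ) ≤ C1 * (2 * T) := mul_le_mul_of_nonneg_left h7 hC1.le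
    linarith
  refine h9.trans ?_
  have t1 : 2 * (C * Real.log T ^ 5 * (8 * Real.exp 1 * T)) ≤ 2 * (C * (8 * Real.exp 1)) * T * Real.log T ^ 8 := by
    have : 2 * (C * Real.log T ^ 5 * (8 * Real.exp 1 * T)) = (2 * (C * (8 * Real.exp 1)) * T) * Real.log T ^ 5 := by ring
    rw [this]
    exact mul_le_mul_of_nonneg_left hP (by positivity)
  have t2 : C1 * (2 * T) ≤ C1 * 2 * T * Real.log T ^ 8 := by
    have h : 0 ≤ C1 * 2 * T := by positivity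
    nlinarith
  have t3 : C2 ≤ C2 * T * Real.log T ^ 8 := by
    have h : C2 ≤ C2 * T := by nlinarith
    have h' : 0 ≤ C2 * T := by positivity
    nlinarith
  linarith

end Pool.Agent.LibPH
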