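import Mathlib
import Pool.Agent.LibPH.Q01
import Pool.Agent.LibPH.A01a

/-! ROW A01 (edge3, err3, err1): edges. second_le, edge2: LibTG78 `TW.tw_twist` with `m = n = 1` (`tw_M 1 1 T = T (log(T/2π) + 2γ - 1)`).
edge3: Cauchy-Schwarz `∫_T^{T(1+η)}|ζ|³ ≤ (edge2)^{1/2} (∫_0^{2T}|ζ|⁴)^{1/2}`, fourth_crude (`e^{-t/T} ≥ e^{-2}` on `[0,2T]`),
`η = (log T)^{-20}`. err3: `∫|ζ|³ F ≤ (∫|ζ|⁴)^{1/2} (∫|ζ|² F²)^{1/2}`; err1: `∫|ζ| F ≤ (2T)^{1/2} (∫|ζ|² F²)^{1/2}`. -/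

set_option autoImplicit false

namespace Pool.Agent.LibPH

open MeasureTheory Filter Topology Complex
open scoped ComplexConjugate
open Pool.Agent.LibMM99 Pool.Agent.LibTG78

theorem a01_cont : Continuous fun t : ℝ => riemannZeta (1 / 2 + t * I) := by
  rw [continuous_iff_continuousAt]
  intro t
  have h1 : (1 / 2 + (t : ℂ) * I) ≠ 1 := by
    intro h
    have := congrArg Complex.re h
    simp at this
  have h2 : ContinuousAt riemannZeta (1 / 2 + (t : ℂ) * I) :=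
    (differentiableAt_riemannZeta h1).continuousAt
  have h3 : ContinuousAt (fun t : ℝ => (1 / 2 + (t : ℂ) * I)) t := by fun_prop
  exact ContinuousAt.comp (f := fun t : ℝ => (1 / 2 + (t : ℂ) * I)) h2 h3

theorem a01_cont' : Continuous fun t : ℝ => ‖riemannZeta (1 / 2 + t * I)‖ := a01_cont.norm

/-- Cauchy-Schwarz -/
theorem a01_cs {f g : ℝ → ℝ} (hf : Continuous f) (hg : Continuous g) {a b : ℝ} (hab : a ≤ b) :
    ∫ t in a..b, f t * g t ≤ √(∫ t in a..b, f t ^ 2) * √(∫ t in a..b, g t ^ 2) := by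
  have iA : IntervalIntegrable (fun t => f t ^ 2) volume a b := (hf.pow 2).intervalIntegrable _ _
  have iC : IntervalIntegrable (fun t => g t ^ 2) volume a b := (hg.pow 2).intervalIntegrable _ _
  have iB : IntervalIntegrable (fun t => f t * g t) volume a b := (hf.mul hg).intervalIntegrable _ _
  have hA : 0 ≤ ∫ t in a..b, f t ^ 2 :=
    intervalIntegral.integral_nonneg hab fun t _ => sq_nonneg _
  have hC : 0 ≤ ∫ t in a..b, g t ^ 2 :=
    intervalIntegral.integral_nonneg hab fun t _ => sq_nonneg _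
  have hd : ∀ x : ℝ, 0 ≤ (∫ t in a..b, f t ^ 2) * (x * x) + (-(2 * ∫ t in a..b, f t * g t)) * x +
      ∫ t in a..b, g t ^ 2 := by
    intro x
    have h1 : 0 ≤ ∫ t in a..b, (x * f t - g t) ^ 2 :=
      intervalIntegral.integral_nonneg hab fun t _ => sq_nonneg _
    have h2 : (fun t => (x * f t - g t) ^ 2) =
        fun t => (x * x) * f t ^ 2 + (-(2 * x)) * (f t * g t) + g t ^ 2 := by
      funext t; ring
    rw [h2, intervalIntegral.integral_add ((iA.const_mul _).add (iB.const_mul _)) iC,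
      intervalIntegral.integral_add (iA.const_mul _) (iB.const_mul _),
      intervalIntegral.integral_const_mul, intervalIntegral.integral_const_mul] at h1
    linarith
  have h3 := discrim_le_zero hd
  unfold discrim at h3
  rw [← Real.sqrt_mul hA]
  refine (le_abs_self _).trans ?_
  refine Real.abs_le_sqrt ?_
  nlinarith

theorem err1 {T : ℝ} (hT : 0 < T) {F : ℝ → ℝ} (hF : Continuous F) (hF0 : ∀ t, 0 ≤ F t) :
    ∫ t in (0:ℝ)..T, ‖riemannZeta (1 / 2 + t * I)‖ * F t ≤ √T *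
      √(∫ t in (0:ℝ)..T, ‖riemannZeta (1 / 2 + t * I)‖ ^ 2 * F t ^ 2) := by
  have h := a01_cs (f := fun _ => 1) (g := fun t => ‖riemannZeta (1 / 2 + t * I)‖ * F t)
    continuous_const (a01_cont'.mul hF) hT.le
  simpa [mul_pow] using h

theorem a01_fourth : ∃ C T0 : ℝ, 0 < C ∧ 3 ≤ T0 ∧ ∀ T : ℝ, T0 ≤ T →
    ∫ t in (0:ℝ)..(2 * T), ‖riemannZeta (1 / 2 + t * I)‖ ^ 4 ≤ C * T * (Real.log T) ^ 8 := by
  obtain ⟨C, T0, hC, hT0, h⟩ := fourth_crude
  refine ⟨Real.exp 2 * C, T0, by positivity, hT0, fun T hT => ?_⟩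
  obtain ⟨h1, h2⟩ := h T hT
  have hTp : 0 < T := by linarith
  have cZ := a01_cont'
  have h3 : ∫ t in (0:ℝ)..(2 * T), ‖riemannZeta (1 / 2 + t * I)‖ ^ 4 ≤
      ∫ t in (0:ℝ)..(2 * T), Real.exp 2 * (‖riemannZeta (1 / 2 + t * I)‖ ^ 4 * Real.exp (-(t / T))) := by
    refine intervalIntegral.integral_mono_on (by linarith) ((cZ.pow 4).intervalIntegrable _ _)
      (Continuous.intervalIntegrable ?_ _ _) ?_
    · exact continuous_const.mul ((cZ.pow 4).mul (by fun_prop))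
    · intro t ht
      have h4 : 1 ≤ Real.exp 2 * Real.exp (-(t / T)) := by
        rw [← Real.exp_add]
        apply Real.one_le_exp
        have : t / T ≤ 2 := by rw [div_le_iff₀ hTp]; exact ht.2
        linarith
      have h5 : 0 ≤ ‖riemannZeta (1 / 2 + t * I)‖ ^ 4 := by positivity
      nlinarith
  have h6 : ∫ t in (0:ℝ)..(2 * T), ‖riemannZeta (1 / 2 + t * I)‖ ^ 4 * Real.exp (-(t / T)) ≤
      ∫ t in Set.Ioi (0:ℝ), ‖riemannZeta (1 / 2 + t * I)‖ ^ 4 * Real.exp (-(t / T)) := by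
    rw [intervalIntegral.integral_of_le (by linarith)]
    refine setIntegral_mono_set h1 ?_ ?_
    · exact Filter.Eventually.of_forall fun t => by positivity
    · exact (Set.Ioc_subset_Ioi_self).eventuallyLE
  rw [intervalIntegral.integral_const_mul] at h3
  have h7 : 0 < Real.exp 2 := Real.exp_pos 2
  calc _ ≤ _ := h3
    _ ≤ Real.exp 2 * (C * T * (Real.log T) ^ 8) := mul_le_mul_of_nonneg_left (h6.trans h2) h7.le
    _ = _ := by ring

theorem err3 : ∃ C T0 : ℝ, 1 ≤ C ∧ 3 ≤ T0 ∧ ∀ (T : ℝ) (F : ℝ → ℝ), T0 ≤ T → Continuous F → (∀ t, 0 ≤ F t) →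
    ∫ t in (0:ℝ)..(2 * T), ‖riemannZeta (1 / 2 + t * I)‖ ^ 3 * F t ≤ C * (Real.log T) ^ 4 * √T *
      √(∫ t in (0:ℝ)..(2 * T), ‖riemannZeta (1 / 2 + t * I)‖ ^ 2 * F t ^ 2) := by
  obtain ⟨C, T0, hC, hT0, h⟩ := a01_fourth
  refine ⟨max 1 (√C), T0, le_max_left _ _, hT0, fun T F hT hF hF0 => ?_⟩
  have hTp : 0 < T := by linarith
  have hlog : 0 ≤ Real.log T := Real.log_nonneg (by linarith)
  have h1 := a01_cs (f := fun t => ‖riemannZeta (1 / 2 + t * I)‖ ^ 2)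
    (g := fun t => ‖riemannZeta (1 / 2 + t * I)‖ * F t) (a01_cont'.pow 2) (a01_cont'.mul hF)
    (show (0:ℝ) ≤ 2 * T by linarith)
  have e1 : (fun t : ℝ => ‖riemannZeta (1 / 2 + t * I)‖ ^ 2 * (‖riemannZeta (1 / 2 + t * I)‖ * F t)) =
      fun t : ℝ => ‖riemannZeta (1 / 2 + t * I)‖ ^ 3 * F t := by funext t; ring
  have e2 : (fun t : ℝ => (‖riemannZeta (1 / 2 + t * I)‖ ^ 2) ^ 2) =
      fun t : ℝ => ‖riemannZeta (1 / 2 + t * I)‖ ^ 4 := by funext t; ring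
  have e3 : (fun t : ℝ => (‖riemannZeta (1 / 2 + t * I)‖ * F t) ^ 2) =
      fun t : ℝ => ‖riemannZeta (1 / 2 + t * I)‖ ^ 2 * F t ^ 2 := by funext t; ring
  rw [e1, e2, e3] at h1
  have h2 : √(∫ t in (0:ℝ)..(2 * T), ‖riemannZeta (1 / 2 + t * I)‖ ^ 4) ≤
      √C * √T * (Real.log T) ^ 4 := by
    have h3 := Real.sqrt_le_sqrt (h T hT)
    have h4 : √(C * T * (Real.log T) ^ 8) = √C * √T * (Real.log T) ^ 4 := by
      rw [Real.sqrt_mul (by positivity), Real.sqrt_mul hC.le]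
      congr 1
      have h5 : (Real.log T) ^ 8 = ((Real.log T) ^ 4) ^ 2 := by ring
      rw [h5, Real.sqrt_sq (by positivity)]
    rwa [h4] at h3
  have h6 : √C * √T * (Real.log T) ^ 4 ≤ max 1 (√C) * (Real.log T) ^ 4 * √T := by
    have h7 : √C ≤ max 1 (√C) := le_max_right _ _
    have h8 : 0 ≤ (Real.log T) ^ 4 * √T := by positivity
    nlinarith
  exact h1.trans (mul_le_mul_of_nonneg_right (h2.trans h6) (Real.sqrt_nonneg _))

theorem a01_large (K : ℝ) : ∀ᶠ T : ℝ in atTop,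
    K * (((Real.log T) ^ (-20 : ℝ) * T * Real.log T + T ^ (3/4 : ℝ)) * (T * (Real.log T) ^ 8)) ≤ T ^ 2 := by
  have h1 : Tendsto (fun T : ℝ => (Real.log T) ^ (-11 : ℝ)) atTop (𝓝 0) :=
    (tendsto_rpow_neg_atTop (by norm_num : (0:ℝ) < 11)).comp Real.tendsto_log_atTop
  have h2 : Tendsto (fun T : ℝ => (Real.log T) ^ (8 : ℝ) / T ^ (1/4 : ℝ)) atTop (𝓝 0) :=
    (isLittleO_log_rpow_rpow_atTop (8 : ℝ) (by norm_num : (0:ℝ) < 1/4)).tendsto_div_nhds_zero
  have h3 : Tendsto (fun T : ℝ => K * ((Real.log T) ^ (-11 : ℝ) +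
      (Real.log T) ^ (8 : ℝ) / T ^ (1/4 : ℝ))) atTop (𝓝 (K * (0 + 0))) := (h1.add h2).const_mul K
  rw [add_zero, mul_zero] at h3
  filter_upwards [h3.eventually (gt_mem_nhds one_pos), eventually_ge_atTop (3 : ℝ)] with T hT hT3
  have hTp : 0 < T := by linarith
  have hl : 0 < Real.log T := Real.log_pos (by linarith)
  have e1 : (Real.log T) ^ (-20 : ℝ) * T * Real.log T * (T * (Real.log T) ^ 8) =
      T ^ 2 * (Real.log T) ^ (-11 : ℝ) := by
    have : (Real.log T) ^ (-11 : ℝ) = (Real.log T) ^ (-20 : ℝ) * (Real.log T) ^ 9 := by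
      rw [← Real.rpow_natCast, ← Real.rpow_add hl]
      norm_num
    rw [this]; ring
  have e2 : T ^ (3/4 : ℝ) * (T * (Real.log T) ^ 8) =
      T ^ 2 * ((Real.log T) ^ (8 : ℝ) / T ^ (1/4 : ℝ)) := by
    have h4 : T ^ (3/4 : ℝ) * T ^ (1/4 : ℝ) = T := by
      rw [← Real.rpow_add hTp]; norm_num
    have h5 : (Real.log T) ^ (8 : ℝ) = (Real.log T) ^ 8 := by
      rw [← Real.rpow_natCast]; norm_num
    have h6 : 0 < T ^ (1/4 : ℝ) := Real.rpow_pos_of_pos hTp _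
    rw [h5]
    field_simp
    calc T ^ (3/4 : ℝ) * T ^ (1/4 : ℝ) = T := h4
      _ = _ := by ring
  have e3 : K * (((Real.log T) ^ (-20 : ℝ) * T * Real.log T + T ^ (3/4 : ℝ)) * (T * (Real.log T) ^ 8)) =
      T ^ 2 * (K * ((Real.log T) ^ (-11 : ℝ) + (Real.log T) ^ (8 : ℝ) / T ^ (1/4 : ℝ))) := by
    rw [add_mul, e1, e2]; ring
  rw [e3]
  have h7 : 0 < T ^ 2 := by positivity
  nlinarith

theorem edge3 : ∃ T0 : ℝ, 3 ≤ T0 ∧ ∀ T : ℝ, T0 ≤ T →
    ∫ t in T..(T * (1 + (Real.log T) ^ (-20 : ℝ))), ‖riemannZeta (1 / 2 + t * I)‖ ^ 3 ≤ T := by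
  obtain ⟨C, hC, h2⟩ := edge2
  obtain ⟨C', T0, hC', hT0, h4⟩ := a01_fourth
  obtain ⟨T1, hT1⟩ := eventually_atTop.1 (a01_large (C * C'))
  refine ⟨max T0 T1, hT0.trans (le_max_left _ _), fun T hT => ?_⟩
  have hTT0 : T0 ≤ T := (le_max_left _ _).trans hT
  have hTp : 0 < T := by linarith
  have hl1 : 1 ≤ Real.log T := by
    rw [Real.le_log_iff_exp_le hTp]
    have := Real.exp_one_lt_d9
    linarith
  set η : ℝ := (Real.log T) ^ (-20 : ℝ) with hη
  have hη0 : 0 ≤ η := Real.rpow_nonneg (by linarith) _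
  have hη1 : η ≤ 1 := Real.rpow_le_one_of_one_le_of_nonpos hl1 (by norm_num)
  have hle : T ≤ T * (1 + η) := by nlinarith
  have hle2 : T * (1 + η) ≤ 2 * T := by nlinarith
  have h1 := a01_cs (f := fun t => ‖riemannZeta (1 / 2 + t * I)‖)
    (g := fun t => ‖riemannZeta (1 / 2 + t * I)‖ ^ 2) a01_cont' (a01_cont'.pow 2) hle
  have e1 : (fun t : ℝ => ‖riemannZeta (1 / 2 + t * I)‖ * ‖riemannZeta (1 / 2 + t * I)‖ ^ 2) =
      fun t : ℝ => ‖riemannZeta (1 / 2 + t * I)‖ ^ 3 := by funext t; ring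
  have e2 : (fun t : ℝ => (‖riemannZeta (1 / 2 + t * I)‖ ^ 2) ^ 2) =
      fun t : ℝ => ‖riemannZeta (1 / 2 + t * I)‖ ^ 4 := by funext t; ring
  rw [e1, e2] at h1
  have a1 := h2 T η (hT0.trans hTT0) hη0 hη1
  have a2 : ∫ t in T..(T * (1 + η)), ‖riemannZeta (1 / 2 + t * I)‖ ^ 4 ≤
      C' * T * (Real.log T) ^ 8 := by
    refine le_trans ?_ (h4 T hTT0)
    refine intervalIntegral.integral_mono_interval hTp.le hle hle2 ?_
      ((a01_cont'.pow 4).intervalIntegrable _ _)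
    exact Filter.Eventually.of_forall fun t => by positivity
  have a0 : 0 ≤ ∫ t in T..(T * (1 + η)), ‖riemannZeta (1 / 2 + t * I)‖ ^ 2 :=
    intervalIntegral.integral_nonneg hle fun t _ => by positivity
  have hb := hT1 T ((le_max_right _ _).trans hT)
  rw [← hη] at hb
  refine h1.trans ?_
  rw [← Real.sqrt_mul a0]
  rw [Real.sqrt_le_left hTp.le]
  have hx : 0 ≤ C * (η * T * Real.log T + T ^ (3/4 : ℝ)) := a0.trans a1
  calc (∫ t in T..(T * (1 + η)), ‖riemannZeta (1 / 2 + t * I)‖ ^ 2) *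
        (∫ t in T..(T * (1 + η)), ‖riemannZeta (1 / 2 + t * I)‖ ^ 4)
      ≤ (∫ t in T..(T * (1 + η)), ‖riemannZeta (1 / 2 + t * I)‖ ^ 2) *
        (C' * T * (Real.log T) ^ 8) := mul_le_mul_of_nonneg_left a2 a0
    _ ≤ (C * (η * T * Real.log T + T ^ (3/4 : ℝ))) * (C' * T * (Real.log T) ^ 8) :=
        mul_le_mul_of_nonneg_right a1 (by positivity)
    _ = C * C' * ((η * T * Real.log T + T ^ (3/4 : ℝ)) * (T * (Real.log T) ^ 8)) := by ring
    _ ≤ T ^ 2 := hb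

end Pool.Agent.LibPH
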