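import Mathlib
import Pool.Agent.LibPH.XDefs

/-! ROW W01a (elementary properties): the weight as a superposition of complex exponentials.

`V(x) = e^x σ(x+1) σ((1+η-x)/η)`, `σ = Real.smoothTransition`: smooth, supported in `[-1, 2]`, `V(x) = e^x W(x)` for `x ≥ 0`;
`|V|, |V'|, |V''| ≤ C η^{-2}`. `g(u) = (1/2π) ∫ V(x) e^{iux} dx`: `|g(u)| ≤ C η^{-2}`, and twice integration by parts
`u² |g(u)| ≤ C η^{-2}`. Fourier inversion: `V(x) = ∫ g(u) e^{-iux} du` (Mathlib: `Continuous.fourierInv_fourier_eq` or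
`MeasureTheory.Integrable.fourierInv_fourier_eq`, rescale `u = 2πv`). Multiply by `e^{-x}`. -/

set_option autoImplicit false

namespace Pool.Agent.LibPH

open MeasureTheory Set Filter Topology Complex
open scoped ComplexConjugate

theorem Wt_mem {η : ℝ} (x : ℝ) : 0 ≤ Wt η x ∧ Wt η x ≤ 1 :=
  ⟨Real.smoothTransition.nonneg _, Real.smoothTransition.le_one _⟩

theorem Wt_one {η x : ℝ} (hη : 0 < η) (hx : x ≤ 1) : Wt η x = 1 := by
  unfold Wt
  apply Real.smoothTransition.one_of_one_le
  rw [le_div_iff₀ hη]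
  linarith

theorem Wt_zero {η x : ℝ} (hη : 0 < η) (hx : 1 + η ≤ x) : Wt η x = 0 := by
  unfold Wt
  apply Real.smoothTransition.zero_of_nonpos
  exact div_nonpos_of_nonpos_of_nonneg (by linarith) hη.le

theorem Wt_cont (η : ℝ) : Continuous (Wt η) := by
  unfold Wt
  exact Real.smoothTransition.continuous.comp (by fun_prop)

end Pool.Agent.LibPH
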