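import Mathlib
import Pool.Agent.LibPH.W01a

/-! ROW J06a (Mw_analytic, Mw_near): the Mellin transform of the weight, analyticity of `kk`, and the main term.

Mw: `Mw η` is analytic on `Re s > -1` (differentiation under the integral; compact support, or `mellin_differentiableAt...`),
`‖Mw η s‖ ≤ ∫_0^2 max(x^{-1/4}, x^{1/4}) ≤ 8` for `‖s‖ ≤ 1/4`; `‖Mw η s - 1‖ ≤ η + C‖s‖` (`|x^s - 1| ≤ ‖s‖ |log x| x^{-1/4}∨..`).
circle_main: `f(s) = Z0 s (2π)^{-s} J(s) T^{1+s} Mw η s`, `C2_circle` with `r = 1/log T`; on the circle `|T^s| ≤ e`; replace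
`Z0 s (2π)^{-s} J(s) Mw η s` by the constant `a` (error `≤ C (ε' + |a|(η + 1/log T))`), and `C2 (fun s => a T^{1+s}) = a T (log T)²/2`. -/

set_option autoImplicit false

namespace Pool.Agent.LibPH

open MeasureTheory Set Filter Topology Complex
open scoped ComplexConjugate

theorem j06a_mellin (η : ℝ) (s : ℂ) : Mw η s = mellin (fun x : ℝ => ((Wt η x : ℝ) : ℂ)) (s + 1) := by
  unfold Mw mellin
  simp only [add_sub_cancel_right, smul_eq_mul]

theorem j06a_diff {η : ℝ} (hη : 0 < η) {s : ℂ} (hs : -1 < s.re) : DifferentiableAt ℂ (Mw η) s := by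
  have h1 : (Mw η) = (mellin (fun x : ℝ => ((Wt η x : ℝ) : ℂ))) ∘ (fun s => s + 1) := by
    funext s
    exact j06a_mellin η s
  rw [h1]
  have hc : Continuous (fun x : ℝ => ((Wt η x : ℝ) : ℂ)) := Complex.continuous_ofReal.comp (Wt_cont η)
  have h2 : DifferentiableAt ℂ (mellin (fun x : ℝ => ((Wt η x : ℝ) : ℂ))) (s + 1) := by
    refine mellin_differentiableAt_of_isBigO_rpow (a := (s + 1).re + 1) (b := 0) ?_ ?_ (by linarith) ?_ ?_
    · exact hc.locallyIntegrable.locallyIntegrableOn _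
    · refine Asymptotics.IsBigO.of_bound 1 ?_
      filter_upwards [eventually_ge_atTop (1 + η)] with x hx
      rw [Wt_zero hη hx]
      simp
    · refine Asymptotics.IsBigO.of_bound 1 ?_
      filter_upwards with x
      rw [neg_zero, Real.rpow_zero, norm_one, mul_one, Complex.norm_real, Real.norm_eq_abs,
        abs_of_nonneg (Wt_mem x).1]
      exact (Wt_mem x).2
    · simp only [Complex.add_re, Complex.one_re]
      linarith
  exact DifferentiableAt.comp s h2 (by fun_prop)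

theorem Mw_analytic {η : ℝ} (hη : 0 < η) (hη1 : η ≤ 1) {s : ℂ} (hs : ‖s‖ ≤ 1/4) : AnalyticAt ℂ (Mw η) s := by
  have hopen : IsOpen {z : ℂ | -1 < z.re} := isOpen_lt continuous_const Complex.continuous_re
  have hre : -1 < s.re := by
    have := abs_le.mp (Complex.abs_re_le_norm s)
    linarith [this.1]
  refine DifferentiableOn.analyticAt (s := {z : ℂ | -1 < z.re}) ?_ (hopen.mem_nhds hre)
  intro z hz
  exact (j06a_diff hη hz).differentiableWithinAt

theorem j06a_split {η : ℝ} (hη : 0 < η) {s : ℂ} (hs : ‖s‖ ≤ 1/4) :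
    Mw η s = 1 / (s + 1) + ∫ x in Ioc (1:ℝ) (1 + η), (x : ℂ) ^ s * ((Wt η x : ℝ) : ℂ) := by
  have hre : -1 < s.re := by
    have := abs_le.mp (Complex.abs_re_le_norm s)
    linarith [this.1]
  have e0 : Ioi (0:ℝ) = Ioc 0 1 ∪ (Ioc 1 (1 + η) ∪ Ioi (1 + η)) := by
    rw [Ioc_union_Ioi_eq_Ioi (by linarith), Ioc_union_Ioi_eq_Ioi (by norm_num)]
  have hA : IntegrableOn (fun x : ℝ => (x : ℂ) ^ s * ((Wt η x : ℝ) : ℂ)) (Ioc 0 1) := by
    have h1 : IntegrableOn (fun x : ℝ => (x : ℂ) ^ s) (Ioc 0 1) :=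
      (intervalIntegrable_iff_integrableOn_Ioc_of_le (by norm_num)).mp
        (intervalIntegral.intervalIntegrable_cpow' hre)
    refine h1.congr_fun ?_ measurableSet_Ioc
    intro x hx
    simp only
    rw [Wt_one hη hx.2]
    simp
  have hB : IntegrableOn (fun x : ℝ => (x : ℂ) ^ s * ((Wt η x : ℝ) : ℂ)) (Ioc 1 (1 + η)) := by
    have hcont : ContinuousOn (fun x : ℝ => (x : ℂ) ^ s * ((Wt η x : ℝ) : ℂ)) (Icc 1 (1 + η)) := by
      apply ContinuousOn.mul
      · apply ContinuousOn.cpow_const Complex.continuous_ofReal.continuousOn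
        intro x hx
        rw [Complex.ofReal_mem_slitPlane]
        linarith [hx.1]
      · exact (Complex.continuous_ofReal.comp (Wt_cont η)).continuousOn
    exact (hcont.integrableOn_Icc).mono_set Ioc_subset_Icc_self
  have hC0 : ∀ x ∈ Ioi (1 + η), (x : ℂ) ^ s * ((Wt η x : ℝ) : ℂ) = 0 := by
    intro x hx
    rw [Wt_zero hη (le_of_lt hx)]
    simp
  have hC : IntegrableOn (fun x : ℝ => (x : ℂ) ^ s * ((Wt η x : ℝ) : ℂ)) (Ioi (1 + η)) := by
    have h0 : IntegrableOn (fun _ : ℝ => (0:ℂ)) (Ioi (1 + η)) := integrableOn_zero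
    refine h0.congr_fun ?_ measurableSet_Ioi
    intro x hx
    exact (hC0 x hx).symm
  unfold Mw
  rw [e0, setIntegral_union _ (measurableSet_Ioc.union measurableSet_Ioi) hA (hB.union hC),
    setIntegral_union _ measurableSet_Ioi hB hC, setIntegral_eq_zero_of_forall_eq_zero hC0, add_zero]
  · congr 1
    have h1 : ∫ x in Ioc (0:ℝ) 1, (x : ℂ) ^ s * ((Wt η x : ℝ) : ℂ) = ∫ x in Ioc (0:ℝ) 1, (x : ℂ) ^ s := by
      refine setIntegral_congr_fun measurableSet_Ioc ?_
      intro x hx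
      simp only
      rw [Wt_one hη hx.2]
      simp
    have hs1 : s + 1 ≠ 0 := by
      intro h
      have h2 := congrArg Complex.re h
      simp only [Complex.add_re, Complex.one_re, Complex.zero_re] at h2
      linarith
    rw [h1, ← intervalIntegral.integral_of_le (by norm_num), integral_cpow (Or.inl hre)]
    rw [Complex.ofReal_one, Complex.one_cpow, Complex.ofReal_zero, Complex.zero_cpow hs1, sub_zero]
  · rw [Set.disjoint_left]
    intro x hx hx2
    exact absurd hx.2 (not_le.mpr hx2)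
  · rw [Set.disjoint_left]
    intro x hx hx2
    rcases hx2 with h | h
    · exact absurd hx.2 (not_le.mpr h.1)
    · have : (1:ℝ) + η < x := h
      linarith [hx.2]

theorem Mw_near : ∃ C : ℝ, 1 ≤ C ∧ ∀ η : ℝ, 0 < η → η ≤ 1 → ∀ s : ℂ, ‖s‖ ≤ 1/4 → ‖Mw η s - 1‖ ≤ η + C * ‖s‖ := by
  refine ⟨3, by norm_num, ?_⟩
  intro η hη hη1 s hs
  rw [j06a_split hη hs]
  have hs1 : 3 / 4 ≤ ‖s + 1‖ := by
    have h1 : ‖(1:ℂ)‖ ≤ ‖s + 1‖ + ‖s‖ := by
      have h2 := norm_sub_le (s + 1) s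
      rwa [add_sub_cancel_left] at h2
    rw [norm_one] at h1
    linarith
  have hs0 : s + 1 ≠ 0 := by
    intro h
    rw [h, norm_zero] at hs1
    linarith
  have hI : ‖∫ x in Ioc (1:ℝ) (1 + η), (x : ℂ) ^ s * ((Wt η x : ℝ) : ℂ)‖ ≤ (1 + ‖s‖) * η := by
    have h1 : ∀ x ∈ Ioc (1:ℝ) (1 + η), ‖(x : ℂ) ^ s * ((Wt η x : ℝ) : ℂ)‖ ≤ 1 + ‖s‖ := by
      intro x hx
      have hx0 : 0 < x := by linarith [hx.1]
      rw [norm_mul, Complex.norm_cpow_eq_rpow_re_of_pos hx0, Complex.norm_real, Real.norm_eq_abs,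
        abs_of_nonneg (Wt_mem x).1]
      have h2 : x ^ s.re ≤ 1 + ‖s‖ := by
        have h3 : x ^ s.re ≤ x ^ ‖s‖ :=
          Real.rpow_le_rpow_of_exponent_le hx.1.le (le_trans (le_abs_self _) (Complex.abs_re_le_norm s))
        have h4 : x ^ ‖s‖ ≤ (1 + 1 : ℝ) ^ ‖s‖ :=
          Real.rpow_le_rpow hx0.le (by linarith [hx.2]) (norm_nonneg _)
        have h5 : (1 + 1 : ℝ) ^ ‖s‖ ≤ 1 + ‖s‖ * 1 :=
          rpow_one_add_le_one_add_mul_self (by norm_num) (norm_nonneg _) (by linarith)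
        linarith
      have h6 : 0 ≤ x ^ s.re := Real.rpow_nonneg hx0.le _
      calc x ^ s.re * Wt η x ≤ x ^ s.re * 1 := mul_le_mul_of_nonneg_left (Wt_mem x).2 h6
        _ ≤ 1 + ‖s‖ := by rw [mul_one]; exact h2
    have h7 := norm_setIntegral_le_of_norm_le_const (μ := volume) (s := Ioc (1:ℝ) (1 + η))
      (by rw [Real.volume_Ioc]; exact ENNReal.ofReal_lt_top) h1
    have h8 : volume.real (Ioc (1:ℝ) (1 + η)) = η := by
      rw [Real.volume_real_Ioc_of_le (by linarith)]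
      ring
    rw [h8] at h7
    exact h7
  have hJ : ‖1 / (s + 1) - 1‖ ≤ 4 / 3 * ‖s‖ := by
    have h1 : 1 / (s + 1) - 1 = -(s / (s + 1)) := by
      field_simp
      ring
    rw [h1, norm_neg, norm_div, div_le_iff₀ (by linarith)]
    have := norm_nonneg s
    nlinarith
  have h9 : 1 / (s + 1) + (∫ x in Ioc (1:ℝ) (1 + η), (x : ℂ) ^ s * ((Wt η x : ℝ) : ℂ)) - 1 =
      (1 / (s + 1) - 1) + ∫ x in Ioc (1:ℝ) (1 + η), (x : ℂ) ^ s * ((Wt η x : ℝ) : ℂ) := by ring
  rw [h9]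
  refine le_trans (norm_add_le _ _) ?_
  have := norm_nonneg s
  nlinarith

end Pool.Agent.LibPH
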