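import Mathlib
import Pool.Agent.LibPH.W01a

/-! ROW W01 (Wt_fourier): the weight as a superposition of complex exponentials.

`V(x) = e^x σ(x+1) σ((1+η-x)/η)`, `σ = Real.smoothTransition`: smooth, supported in `[-1, 2]`, `V(x) = e^x W(x)` for `x ≥ 0`;
`|V|, |V'|, |V''| ≤ C η^{-2}`. `g(u) = (1/2π) ∫ V(x) e^{iux} dx`: `|g(u)| ≤ C η^{-2}`, and twice integration by parts
`u² |g(u)| ≤ C η^{-2}`. Fourier inversion: `V(x) = ∫ g(u) e^{-iux} du` (Mathlib: `Continuous.fourierInv_fourier_eq` or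
`MeasureTheory.Integrable.fourierInv_fourier_eq`, rescale `u = 2πv`). Multiply by `e^{-x}`. -/

set_option autoImplicit false

namespace Pool.Agent.LibPH

open MeasureTheory Set Filter Topology Complex
open scoped ComplexConjugate FourierTransform

theorem w01_sigma : ∃ K : ℝ, 1 ≤ K ∧ (∀ x, HasDerivAt Real.smoothTransition (deriv Real.smoothTransition x) x) ∧
    (∀ x, HasDerivAt (deriv Real.smoothTransition) (deriv (deriv Real.smoothTransition) x) x) ∧
    Continuous (deriv (deriv Real.smoothTransition)) ∧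
    (∀ x, x < 0 → deriv Real.smoothTransition x = 0) ∧ (∀ x, x < 0 → deriv (deriv Real.smoothTransition) x = 0) ∧
    (∀ x, |deriv Real.smoothTransition x| ≤ K) ∧ (∀ x, |deriv (deriv Real.smoothTransition) x| ≤ K) := by
  have hc2 : ContDiff ℝ (1 + 1 : ℕ) Real.smoothTransition := Real.smoothTransition.contDiff
  have hc1 : ContDiff ℝ 1 (deriv Real.smoothTransition) := by
    have := ContDiff.iterate_deriv' 1 1 hc2
    simpa using this
  have hd1 : ∀ x, HasDerivAt Real.smoothTransition (deriv Real.smoothTransition x) x := fun x =>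
    ((hc2.differentiable (by norm_num)) x).hasDerivAt
  have hd2 : ∀ x, HasDerivAt (deriv Real.smoothTransition) (deriv (deriv Real.smoothTransition) x) x := fun x =>
    ((hc1.differentiable (by norm_num)) x).hasDerivAt
  have hcont2 : Continuous (deriv (deriv Real.smoothTransition)) := hc1.continuous_deriv le_rfl
  have hn1 : ∀ x, x < 0 → deriv Real.smoothTransition x = 0 := by
    intro x hx
    have : Real.smoothTransition =ᶠ[𝓝 x] fun _ => (0:ℝ) := by
      filter_upwards [Iio_mem_nhds hx] with y hy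
      exact Real.smoothTransition.zero_of_nonpos (le_of_lt hy)
    rw [this.deriv_eq]
    simp
  have hp1 : ∀ x, 1 < x → deriv Real.smoothTransition x = 0 := by
    intro x hx
    have : Real.smoothTransition =ᶠ[𝓝 x] fun _ => (1:ℝ) := by
      filter_upwards [Ioi_mem_nhds hx] with y hy
      exact Real.smoothTransition.one_of_one_le (le_of_lt hy)
    rw [this.deriv_eq]
    simp
  have hn2 : ∀ x, x < 0 → deriv (deriv Real.smoothTransition) x = 0 := by
    intro x hx
    have : deriv Real.smoothTransition =ᶠ[𝓝 x] fun _ => (0:ℝ) := by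
      filter_upwards [Iio_mem_nhds hx] with y hy
      exact hn1 y hy
    rw [this.deriv_eq]
    simp
  have hp2 : ∀ x, 1 < x → deriv (deriv Real.smoothTransition) x = 0 := by
    intro x hx
    have : deriv Real.smoothTransition =ᶠ[𝓝 x] fun _ => (0:ℝ) := by
      filter_upwards [Ioi_mem_nhds hx] with y hy
      exact hp1 y hy
    rw [this.deriv_eq]
    simp
  have hs1 : HasCompactSupport (deriv Real.smoothTransition) := by
    refine HasCompactSupport.intro (isCompact_Icc (a := (0:ℝ)) (b := 1)) fun x hx => ?_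
    rcases lt_or_ge x 0 with h | h
    · exact hn1 x h
    · exact hp1 x (by
        by_contra h'
        exact hx ⟨h, not_lt.1 h'⟩)
  have hs2 : HasCompactSupport (deriv (deriv Real.smoothTransition)) := by
    refine HasCompactSupport.intro (isCompact_Icc (a := (0:ℝ)) (b := 1)) fun x hx => ?_
    rcases lt_or_ge x 0 with h | h
    · exact hn2 x h
    · exact hp2 x (by
        by_contra h'
        exact hx ⟨h, not_lt.1 h'⟩)
  obtain ⟨K1, hK1⟩ := hs1.exists_bound_of_continuous hc1.continuous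
  obtain ⟨K2, hK2⟩ := hs2.exists_bound_of_continuous hcont2
  refine ⟨max 1 (max K1 K2), le_max_left _ _, hd1, hd2, hcont2, hn1, hn2, fun x => ?_, fun x => ?_⟩
  · exact (hK1 x).trans ((le_max_left _ _).trans (le_max_right _ _))
  · exact (hK2 x).trans ((le_max_right _ _).trans (le_max_right _ _))

/-- a function with compact support and two bounded derivatives as a Fourier integral -/
theorem w01_core {V V1 V2 : ℝ → ℂ} {M : ℝ} (h1 : ∀ x, HasDerivAt V (V1 x) x) (h2 : ∀ x, HasDerivAt V1 (V2 x) x)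
    (hc : Continuous V2) (hV : ∀ x, x ∉ Icc (-1:ℝ) 2 → V x = 0) (hV1 : ∀ x, x ∉ Icc (-1:ℝ) 2 → V1 x = 0)
    (hV2 : ∀ x, x ∉ Icc (-1:ℝ) 2 → V2 x = 0) (hM : ∀ x, ‖V x‖ ≤ M) (hM2 : ∀ x, ‖V2 x‖ ≤ M) :
    ∃ g : ℝ → ℂ, Continuous g ∧ (∀ u : ℝ, ‖g u‖ ≤ M / (1 + u ^ 2)) ∧
      ∀ x : ℝ, V x = ∫ u : ℝ, g u * cexp (-(u * I * x)) := by
  have hpi := Real.pi_pos
  have hM0 : 0 ≤ M := (norm_nonneg _).trans (hM 0)
  have cV : Continuous V := continuous_iff_continuousAt.2 fun x => (h1 x).continuousAt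
  have cV1 : Continuous V1 := continuous_iff_continuousAt.2 fun x => (h2 x).continuousAt
  have iV : Integrable V := cV.integrable_of_hasCompactSupport
    (HasCompactSupport.intro (isCompact_Icc (a := (-1:ℝ)) (b := 2)) fun x hx => hV x hx)
  have iV1 : Integrable V1 := cV1.integrable_of_hasCompactSupport
    (HasCompactSupport.intro (isCompact_Icc (a := (-1:ℝ)) (b := 2)) fun x hx => hV1 x hx)
  have iV2 : Integrable V2 := hc.integrable_of_hasCompactSupport
    (HasCompactSupport.intro (isCompact_Icc (a := (-1:ℝ)) (b := 2)) fun x hx => hV2 x hx)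
  have dV : deriv V = V1 := funext fun x => (h1 x).deriv
  have dV1 : deriv V1 = V2 := funext fun x => (h2 x).deriv
  have hF1 := Real.fourier_deriv iV (fun x => (h1 x).differentiableAt) (by rw [dV]; exact iV1)
  have hF2 := Real.fourier_deriv iV1 (fun x => (h2 x).differentiableAt) (by rw [dV1]; exact iV2)
  rw [dV] at hF1
  rw [dV1] at hF2
  have hint : ∀ f : ℝ → ℂ, (∀ x, x ∉ Icc (-1:ℝ) 2 → f x = 0) → (∀ x, ‖f x‖ ≤ M) → ∫ x, ‖f x‖ ≤ 3 * M := by
    intro f hf hfM
    have e1 : ∫ x, ‖f x‖ = ∫ x in Icc (-1:ℝ) 2, ‖f x‖ := by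
      rw [setIntegral_eq_integral_of_forall_compl_eq_zero]
      intro x hx
      rw [hf x hx, norm_zero]
    rw [e1]
    have e2 : ‖∫ x in Icc (-1:ℝ) 2, ‖f x‖‖ ≤ M * volume.real (Icc (-1:ℝ) 2) := by
      refine norm_setIntegral_le_of_norm_le_const ?_ fun x _ => ?_
      · rw [Real.volume_Icc]
        exact ENNReal.ofReal_lt_top
      · rw [norm_norm]
        exact hfM x
    rw [Real.norm_eq_abs] at e2
    refine (le_abs_self _).trans (e2.trans (le_of_eq ?_))
    rw [Real.volume_real_Icc_of_le (by norm_num)]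
    ring
  have hle : ∀ (f : ℝ → ℂ) (v : ℝ), ‖𝓕 f v‖ ≤ ∫ x, ‖f x‖ := fun f v =>
    VectorFourier.norm_fourierIntegral_le_integral_norm _ _ _ f v
  have hb1 : ∀ v, ‖𝓕 V v‖ ≤ 3 * M := fun v => (hle V v).trans (hint V hV hM)
  have hb2 : ∀ v : ℝ, (2 * Real.pi * v) ^ 2 * ‖𝓕 V v‖ ≤ 3 * M := by
    intro v
    have e1 : 𝓕 V2 v = (2 * Real.pi * I * v) • ((2 * Real.pi * I * v) • 𝓕 V v) := by
      rw [hF2, hF1]
    have e2 : ‖(2 * Real.pi * I * v : ℂ)‖ = 2 * Real.pi * |v| := by
      rw [norm_mul, norm_mul, norm_mul, Complex.norm_I, Complex.norm_real, Complex.norm_real,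
        Real.norm_of_nonneg hpi.le, Real.norm_eq_abs]
      simp
    have e3 : ‖𝓕 V2 v‖ = (2 * Real.pi * v) ^ 2 * ‖𝓕 V v‖ := by
      rw [e1, norm_smul, norm_smul, e2]
      have : |v| * |v| = v ^ 2 := by rw [abs_mul_abs_self, sq]
      linear_combination (4 * Real.pi ^ 2 * ‖𝓕 V v‖) * this
    rw [← e3]
    exact (hle V2 v).trans (hint V2 hV2 hM2)
  have cF : Continuous (𝓕 V) :=
    VectorFourier.fourierIntegral_continuous Real.continuous_fourierChar
      (by exact (continuous_inner : Continuous fun p : ℝ × ℝ => inner ℝ p.1 p.2)) iV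
  have hbd : ∀ v : ℝ, ‖𝓕 V v‖ ≤ 6 * M / (1 + (2 * Real.pi * v) ^ 2) := by
    intro v
    rw [le_div_iff₀ (by positivity)]
    have := hb1 v
    have := hb2 v
    nlinarith
  have iF : Integrable (𝓕 V) := by
    refine Integrable.mono' ((integrable_inv_one_add_sq.comp_mul_left' (R := 2 * Real.pi) (by positivity)).const_mul (6 * M))
      cF.aestronglyMeasurable (Filter.Eventually.of_forall fun v => ?_)
    exact (hbd v).trans (le_of_eq (by rw [div_eq_mul_inv]))
  have hinv := Continuous.fourierInv_fourier_eq cV iV iF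
  refine ⟨fun u => ((1 / (2 * Real.pi) : ℝ) : ℂ) * 𝓕 V (-u / (2 * Real.pi)), ?_, fun u => ?_, fun x => ?_⟩
  · exact continuous_const.mul (cF.comp (by fun_prop))
  · have e1 := hbd (-u / (2 * Real.pi))
    have e2 : 2 * Real.pi * (-u / (2 * Real.pi)) = -u := by field_simp
    rw [e2, neg_sq] at e1
    rw [norm_mul, Complex.norm_real, Real.norm_of_nonneg (by positivity)]
    calc 1 / (2 * Real.pi) * ‖𝓕 V (-u / (2 * Real.pi))‖ ≤ 1 / (2 * Real.pi) * (6 * M / (1 + u ^ 2)) :=
          mul_le_mul_of_nonneg_left e1 (by positivity)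
      _ = (6 / (2 * Real.pi)) * (M / (1 + u ^ 2)) := by ring
      _ ≤ 1 * (M / (1 + u ^ 2)) := by
          refine mul_le_mul_of_nonneg_right ?_ (by positivity)
          rw [div_le_one (by positivity)]
          linarith [Real.pi_gt_three]
      _ = M / (1 + u ^ 2) := one_mul _
  · have e1 : V x = ∫ v : ℝ, cexp (((2 * Real.pi * (v * x) : ℝ) : ℂ) * I) * 𝓕 V v := by
      have := congrFun hinv x
      rw [Real.fourierInv_eq'] at this
      rw [← this]
      refine integral_congr_ae (Filter.Eventually.of_forall fun v => ?_)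
      change _ • _ = _
      rw [smul_eq_mul]
      congr 4
      simp [mul_comm]
    set h : ℝ → ℂ := fun u => ((1 / (2 * Real.pi) : ℝ) : ℂ) * 𝓕 V (-u / (2 * Real.pi)) * cexp (-(u * I * x)) with hh
    have e2 := Measure.integral_comp_mul_left h (-(2 * Real.pi))
    have e3 : ∀ v : ℝ, h (-(2 * Real.pi) * v) = ((1 / (2 * Real.pi) : ℝ) : ℂ) *
        (cexp (((2 * Real.pi * (v * x) : ℝ) : ℂ) * I) * 𝓕 V v) := by
      intro v
      rw [hh]
      simp only
      have e4 : -(-(2 * Real.pi) * v) / (2 * Real.pi) = v := by field_simp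
      rw [e4, mul_assoc, mul_comm (𝓕 V v)]
      congr 3
      push_cast
      ring
    simp only [e3] at e2
    rw [integral_const_mul, ← e1] at e2
    have e5 : |(-(2 * Real.pi))⁻¹| = 1 / (2 * Real.pi) := by
      rw [abs_inv, abs_neg, abs_of_pos (by positivity), one_div]
    rw [e5, Complex.real_smul] at e2
    have e6 : ((1 / (2 * Real.pi) : ℝ) : ℂ) ≠ 0 := by
      exact_mod_cast (by positivity : (1 / (2 * Real.pi) : ℝ) ≠ 0)
    exact mul_left_cancel₀ e6 e2

theorem Wt_fourier : ∃ C : ℝ, 0 < C ∧ ∀ η : ℝ, 0 < η → η ≤ 1 → ∃ g : ℝ → ℂ, Continuous g ∧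
    (∀ u : ℝ, ‖g u‖ ≤ C * η ^ (-2 : ℝ) / (1 + u ^ 2)) ∧
    ∀ x : ℝ, 0 ≤ x → ((Wt η x : ℝ) : ℂ) = ∫ u : ℝ, g u * cexp (-((1 + u * I) * x)) := by
  obtain ⟨K, hK, hd1, hd2, hcs, hn1, hn2, hb1, hb2⟩ := w01_sigma
  set σ := Real.smoothTransition with hσ
  refine ⟨9 * Real.exp 2 * K ^ 2, by positivity, fun η h0 hη1 => ?_⟩
  have hη : η ^ (-2 : ℝ) = (η⁻¹) ^ 2 := by
    rw [Real.rpow_neg h0.le, inv_pow]
    norm_cast
  have hi1 : 1 ≤ η⁻¹ := (one_le_inv₀ h0).2 hη1
  set M : ℝ := 9 * Real.exp 2 * K ^ 2 * η ^ (-2 : ℝ) with hM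
  have hσ1 : ∀ x, |σ x| ≤ 1 := fun x => by
    rw [abs_of_nonneg (Real.smoothTransition.nonneg x)]
    exact Real.smoothTransition.le_one x
  set y : ℝ → ℝ := fun x => (1 + η - x) / η with hy
  have dy : ∀ x, HasDerivAt y (-η⁻¹) x := by
    intro x
    have := ((hasDerivAt_id x).const_sub (1 + η)).div_const η
    refine this.congr_deriv ?_
    rw [neg_div, one_div]
  have dA : ∀ x, HasDerivAt (fun x => σ (x + 1)) (deriv σ (x + 1)) x := fun x =>
    (hd1 (x + 1)).comp_add_const x 1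
  have dA1 : ∀ x, HasDerivAt (fun x => deriv σ (x + 1)) (deriv (deriv σ) (x + 1)) x := fun x =>
    (hd2 (x + 1)).comp_add_const x 1
  have dB : ∀ x, HasDerivAt (fun x => σ (y x)) (deriv σ (y x) * (-η⁻¹)) x := fun x =>
    HasDerivAt.comp x (h₂ := σ) (h := y) (hd1 (y x)) (dy x)
  have dB1 : ∀ x, HasDerivAt (fun x => deriv σ (y x)) (deriv (deriv σ) (y x) * (-η⁻¹)) x := fun x =>
    HasDerivAt.comp x (h₂ := deriv σ) (h := y) (hd2 (y x)) (dy x)
  have cσ : Continuous σ := continuous_iff_continuousAt.2 fun x => (hd1 x).continuousAt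
  have cσ1 : Continuous (deriv σ) := continuous_iff_continuousAt.2 fun x => (hd2 x).continuousAt
  have cy : Continuous y := continuous_iff_continuousAt.2 fun x => (dy x).continuousAt
  set V : ℝ → ℝ := fun x => Real.exp x * (σ (x + 1) * σ (y x)) with hV
  set V1 : ℝ → ℝ := fun x => Real.exp x * (σ (x + 1) * σ (y x) + deriv σ (x + 1) * σ (y x) -
    σ (x + 1) * deriv σ (y x) * η⁻¹) with hV1
  set V2 : ℝ → ℝ := fun x => Real.exp x * (σ (x + 1) * σ (y x) + 2 * (deriv σ (x + 1) * σ (y x)) -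
    2 * (σ (x + 1) * deriv σ (y x)) * η⁻¹ + deriv (deriv σ) (x + 1) * σ (y x) -
    2 * (deriv σ (x + 1) * deriv σ (y x)) * η⁻¹ + σ (x + 1) * deriv (deriv σ) (y x) * (η⁻¹) ^ 2) with hV2
  have d1 : ∀ x, HasDerivAt V (V1 x) x := by
    intro x
    refine ((Real.hasDerivAt_exp x).mul ((dA x).mul (dB x))).congr_deriv ?_
    simp only [hV1, Pi.mul_apply]
    ring
  have d2 : ∀ x, HasDerivAt V1 (V2 x) x := by
    intro x
    refine ((Real.hasDerivAt_exp x).mul ((((dA x).mul (dB x)).add ((dA1 x).mul (dB x))).sub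
      (((dA x).mul (dB1 x)).mul_const η⁻¹))).congr_deriv ?_
    simp only [hV2, Pi.mul_apply, Pi.add_apply, Pi.sub_apply]
    ring
  have c2 : Continuous V2 := by
    have a1 : Continuous fun x => σ (x + 1) := cσ.comp (by fun_prop)
    have a2 : Continuous fun x => deriv σ (x + 1) := cσ1.comp (by fun_prop)
    have a3 : Continuous fun x => deriv (deriv σ) (x + 1) := hcs.comp (by fun_prop)
    have a4 : Continuous fun x => σ (y x) := cσ.comp cy
    have a5 : Continuous fun x => deriv σ (y x) := cσ1.comp cy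
    have a6 : Continuous fun x => deriv (deriv σ) (y x) := hcs.comp cy
    exact Real.continuous_exp.mul ((((((a1.mul a4).add (continuous_const.mul (a2.mul a4))).sub
      ((continuous_const.mul (a1.mul a5)).mul continuous_const)).add (a3.mul a4)).sub
      ((continuous_const.mul (a2.mul a5)).mul continuous_const)).add ((a1.mul a6).mul continuous_const))
  have hout : ∀ x, x ∉ Icc (-1:ℝ) 2 → V x = 0 ∧ V1 x = 0 ∧ V2 x = 0 := by
    intro x hx
    rcases lt_or_ge x (-1) with h | h
    · have e1 : σ (x + 1) = 0 := Real.smoothTransition.zero_of_nonpos (by linarith)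
      have e2 : deriv σ (x + 1) = 0 := hn1 _ (by linarith)
      have e3 : deriv (deriv σ) (x + 1) = 0 := hn2 _ (by linarith)
      simp only [hV, hV1, hV2, e1, e2, e3]
      refine ⟨by ring, by ring, by ring⟩
    · have hx2 : 2 < x := by
        by_contra h'
        exact hx ⟨h, not_lt.1 h'⟩
      have hyx : y x < 0 := by
        rw [hy]
        exact div_neg_of_neg_of_pos (by linarith) h0
      have e1 : σ (y x) = 0 := Real.smoothTransition.zero_of_nonpos hyx.le
      have e2 : deriv σ (y x) = 0 := hn1 _ hyx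
      have e3 : deriv (deriv σ) (y x) = 0 := hn2 _ hyx
      simp only [hV, hV1, hV2, e1, e2, e3]
      refine ⟨by ring, by ring, by ring⟩
  have hMe : Real.exp 2 ≤ M := by
    rw [hM, hη]
    have : 1 ≤ 9 * K ^ 2 * (η⁻¹) ^ 2 := by
      have := one_le_pow₀ (n := 2) hK
      have := one_le_pow₀ (n := 2) hi1
      nlinarith
    have h2 := Real.exp_pos 2
    nlinarith
  have hM0 : 0 ≤ M := (Real.exp_pos 2).le.trans hMe
  have bV : ∀ x, |V x| ≤ M := by
    intro x
    by_cases hx : x ∈ Icc (-1:ℝ) 2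
    · have e1 : Real.exp x ≤ Real.exp 2 := Real.exp_le_exp.2 hx.2
      rw [hV]
      simp only
      rw [abs_mul, abs_mul, abs_of_pos (Real.exp_pos x)]
      calc Real.exp x * (|σ (x + 1)| * |σ (y x)|) ≤ Real.exp 2 * (1 * 1) :=
            mul_le_mul e1 (mul_le_mul (hσ1 _) (hσ1 _) (abs_nonneg _) zero_le_one) (by positivity) (Real.exp_pos 2).le
        _ ≤ M := by rw [one_mul, mul_one]; exact hMe
    · rw [(hout x hx).1, abs_zero]
      exact hM0
  have bV2 : ∀ x, |V2 x| ≤ M := by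
    intro x
    by_cases hx : x ∈ Icc (-1:ℝ) 2
    · have e1 : Real.exp x ≤ Real.exp 2 := Real.exp_le_exp.2 hx.2
      set a := σ (x + 1)
      set a1 := deriv σ (x + 1)
      set a2 := deriv (deriv σ) (x + 1)
      set b := σ (y x)
      set b1 := deriv σ (y x)
      set b2 := deriv (deriv σ) (y x)
      set i := η⁻¹
      have ha : |a| ≤ 1 := hσ1 _
      have hb : |b| ≤ 1 := hσ1 _
      have ha1 : |a1| ≤ K := hb1 _
      have hb1' : |b1| ≤ K := hb1 _
      have ha2 : |a2| ≤ K := hb2 _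
      have hb2' : |b2| ≤ K := hb2 _
      have hK0 : 0 ≤ K := by linarith
      have hi0 : 0 ≤ i := by linarith
      have hKi : 1 ≤ K ^ 2 * i ^ 2 := by
        have := one_le_pow₀ (n := 2) hK
        have := one_le_pow₀ (n := 2) hi1
        nlinarith
      have hi2 : i ≤ i ^ 2 := by nlinarith
      have hi3 : 1 ≤ i ^ 2 := by nlinarith
      have hK2 : K ≤ K ^ 2 := by nlinarith
      have hK3 : 1 ≤ K ^ 2 := by nlinarith
      have t1 : |a * b| ≤ K ^ 2 * i ^ 2 := by
        rw [abs_mul]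
        calc |a| * |b| ≤ 1 * 1 := mul_le_mul ha hb (abs_nonneg _) zero_le_one
          _ ≤ K ^ 2 * i ^ 2 := by rw [one_mul]; exact hKi
      have t2 : |2 * (a1 * b)| ≤ 2 * (K ^ 2 * i ^ 2) := by
        rw [abs_mul, abs_mul, abs_two]
        have : |a1| * |b| ≤ K * 1 := mul_le_mul ha1 hb (abs_nonneg _) hK0
        nlinarith [mul_le_mul hK2 hi3 zero_le_one (by positivity : (0:ℝ) ≤ K ^ 2)]
      have t3 : |2 * (a * b1) * i| ≤ 2 * (K ^ 2 * i ^ 2) := by
        rw [abs_mul, abs_mul, abs_mul, abs_two, abs_of_nonneg hi0]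
        have h3 : |a| * |b1| ≤ 1 * K := mul_le_mul ha hb1' (abs_nonneg _) zero_le_one
        have h4 : (|a| * |b1|) * i ≤ (1 * K) * i := mul_le_mul_of_nonneg_right h3 hi0
        have h5 : K * i ≤ K ^ 2 * i ^ 2 := mul_le_mul hK2 hi2 hi0 (by positivity)
        linarith
      have t4 : |a2 * b| ≤ K ^ 2 * i ^ 2 := by
        rw [abs_mul]
        have h3 : |a2| * |b| ≤ K * 1 := mul_le_mul ha2 hb (abs_nonneg _) hK0
        have h5 : K * 1 ≤ K ^ 2 * i ^ 2 := mul_le_mul hK2 hi3 zero_le_one (by positivity)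
        linarith
      have t5 : |2 * (a1 * b1) * i| ≤ 2 * (K ^ 2 * i ^ 2) := by
        rw [abs_mul, abs_mul, abs_mul, abs_two, abs_of_nonneg hi0]
        have h3 : |a1| * |b1| ≤ K * K := mul_le_mul ha1 hb1' (abs_nonneg _) hK0
        have h4 : (|a1| * |b1|) * i ≤ (K * K) * i := mul_le_mul_of_nonneg_right h3 hi0
        have h5 : (K * K) * i ≤ K ^ 2 * i ^ 2 := by
          rw [← sq]
          exact mul_le_mul_of_nonneg_left hi2 (by positivity)
        linarith
      have t6 : |a * b2 * i ^ 2| ≤ K ^ 2 * i ^ 2 := by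
        rw [abs_mul, abs_mul, abs_of_nonneg (by positivity : 0 ≤ i ^ 2)]
        have h3 : |a| * |b2| ≤ 1 * K := mul_le_mul ha hb2' (abs_nonneg _) zero_le_one
        exact mul_le_mul_of_nonneg_right (by linarith) (by positivity)
      have tt : |a * b + 2 * (a1 * b) - 2 * (a * b1) * i + a2 * b - 2 * (a1 * b1) * i + a * b2 * i ^ 2| ≤
          9 * (K ^ 2 * i ^ 2) := by
        rw [abs_le] at t1 t2 t3 t4 t5 t6 ⊢
        constructor <;> linarith [t1.1, t1.2, t2.1, t2.2, t3.1, t3.2, t4.1, t4.2, t5.1, t5.2, t6.1, t6.2]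
      calc |V2 x| = Real.exp x * |a * b + 2 * (a1 * b) - 2 * (a * b1) * i + a2 * b - 2 * (a1 * b1) * i + a * b2 * i ^ 2| := by
            rw [hV2]
            simp only
            rw [abs_mul, abs_of_pos (Real.exp_pos x)]
        _ ≤ Real.exp 2 * (9 * (K ^ 2 * i ^ 2)) := mul_le_mul e1 tt (abs_nonneg _) (Real.exp_pos 2).le
        _ = M := by rw [hM, hη]; ring
    · rw [(hout x hx).2.2, abs_zero]
      exact hM0
  obtain ⟨g, hgc, hgb, hgV⟩ := w01_core (V := fun x => ((V x : ℝ) : ℂ)) (V1 := fun x => ((V1 x : ℝ) : ℂ))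
    (V2 := fun x => ((V2 x : ℝ) : ℂ)) (M := M) (fun x => (d1 x).ofReal_comp) (fun x => (d2 x).ofReal_comp)
    (Complex.continuous_ofReal.comp c2) (fun x hx => by rw [(hout x hx).1, Complex.ofReal_zero])
    (fun x hx => by rw [(hout x hx).2.1, Complex.ofReal_zero])
    (fun x hx => by rw [(hout x hx).2.2, Complex.ofReal_zero])
    (fun x => by rw [Complex.norm_real]; exact bV x) (fun x => by rw [Complex.norm_real]; exact bV2 x)
  refine ⟨g, hgc, fun u => hgb u, fun x hx => ?_⟩
  have e1 : V x = Real.exp x * Wt η x := by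
    rw [hV]
    simp only
    rw [hσ, Real.smoothTransition.one_of_one_le (by linarith : 1 ≤ x + 1), one_mul]
    rfl
  have e2 : ((Wt η x : ℝ) : ℂ) = cexp (-x) * ((V x : ℝ) : ℂ) := by
    rw [e1, Complex.ofReal_mul, Complex.ofReal_exp, ← mul_assoc, ← Complex.exp_add, neg_add_cancel,
      Complex.exp_zero, one_mul]
  rw [e2, hgV x, ← integral_const_mul]
  refine integral_congr_ae (Filter.Eventually.of_forall fun u => ?_)
  simp only
  rw [mul_left_comm, ← Complex.exp_add]
  congr 2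
  ring

end Pool.Agent.LibPH
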