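import Mathlib
import Pool.Agent.LibPH.W01

/-! ROW W02a (super_int): superposition (Fubini), for the moment and for the main term. -/

set_option autoImplicit false

namespace Pool.Agent.LibPH

open MeasureTheory Set Filter Topology Complex
open scoped ComplexConjugate

theorem w02a_norm {T : ℝ} (u t : ℝ) :
    ‖cexp (-((1 + u * I) / T * t))‖ = Real.exp (-(t / T)) := by
  rw [Complex.norm_exp]
  congr 1
  have h : -((1 + (u : ℂ) * I) / T * t) = ((-(t / T) : ℝ) : ℂ) + ((-(u * (t / T)) : ℝ) : ℂ) * I := by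
    push_cast
    ring
  rw [h]
  simp

theorem w02a_prod {T : ℝ} {g : ℝ → ℂ} (hg : Continuous g) {C : ℝ}
    (hgC : ∀ u : ℝ, ‖g u‖ ≤ C / (1 + u ^ 2))
    {G : ℝ → ℂ} (hG : Continuous G) (hGi : IntegrableOn (fun t => ‖G t‖ * Real.exp (-(t / T))) (Ioi 0)) :
    Integrable (fun p : ℝ × ℝ => g p.2 * (G p.1 * cexp (-((1 + p.2 * I) / T * p.1))))
      ((volume.restrict (Ioi (0:ℝ))).prod volume) := by
  have h1 : Integrable (fun u : ℝ => C / (1 + u ^ 2)) := by
    have := (integrable_inv_one_add_sq).const_mul C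
    refine this.congr (Eventually.of_forall fun u => ?_)
    simp [div_eq_mul_inv]
  have h2 : Integrable (fun p : ℝ × ℝ => (‖G p.1‖ * Real.exp (-(p.1 / T))) * (C / (1 + p.2 ^ 2)))
      ((volume.restrict (Ioi (0:ℝ))).prod volume) := hGi.mul_prod h1
  refine h2.mono' ?_ ?_
  · refine Continuous.aestronglyMeasurable ?_
    fun_prop
  · refine Eventually.of_forall fun p => ?_
    rw [norm_mul, norm_mul, w02a_norm, mul_comm]
    exact mul_le_mul_of_nonneg_left (hgC p.2) (by positivity)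

theorem super_int {η T : ℝ} (hη : 0 < η) (hη1 : η ≤ 1) (hT : 0 < T) {g : ℝ → ℂ} (hg : Continuous g) {C : ℝ}
    (hgC : ∀ u : ℝ, ‖g u‖ ≤ C / (1 + u ^ 2))
    (hgW : ∀ x : ℝ, 0 ≤ x → ((Wt η x : ℝ) : ℂ) = ∫ u : ℝ, g u * cexp (-((1 + u * I) * x)))
    {G : ℝ → ℂ} (hG : Continuous G) (hGi : IntegrableOn (fun t => ‖G t‖ * Real.exp (-(t / T))) (Ioi 0)) :
    Integrable (fun u : ℝ => g u * ∫ t in Ioi (0:ℝ), G t * cexp (-((1 + u * I) / T * t))) ∧
    ∫ t in Ioi (0:ℝ), G t * ((Wt η (t / T) : ℝ) : ℂ) =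
      ∫ u : ℝ, g u * ∫ t in Ioi (0:ℝ), G t * cexp (-((1 + u * I) / T * t)) := by
  have hP := w02a_prod (T := T) hg hgC hG hGi
  have hc : ∀ u : ℝ, g u * ∫ t in Ioi (0:ℝ), G t * cexp (-((1 + u * I) / T * t)) =
      ∫ t in Ioi (0:ℝ), g u * (G t * cexp (-((1 + u * I) / T * t))) := by
    intro u
    rw [MeasureTheory.integral_const_mul]
  constructor
  · simp_rw [hc]
    exact hP.integral_prod_right
  · simp_rw [hc]
    rw [← integral_integral_swap (f := fun t u : ℝ => g u * (G t * cexp (-((1 + u * I) / T * t)))) hP]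
    refine setIntegral_congr_fun measurableSet_Ioi fun t ht => ?_
    have ht0 : (0:ℝ) < t := ht
    show G t * ((Wt η (t / T) : ℝ) : ℂ) = ∫ u : ℝ, g u * (G t * cexp (-((1 + u * I) / T * t)))
    rw [hgW (t / T) (by positivity), ← MeasureTheory.integral_const_mul]
    refine integral_congr_ae (Eventually.of_forall fun u => ?_)
    show G t * (g u * cexp (-((1 + u * I) * ((t / T : ℝ) : ℂ)))) = g u * (G t * cexp (-((1 + u * I) / T * t)))
    have : ((1 + (u:ℂ) * I) * ((t / T : ℝ) : ℂ)) = (1 + u * I) / T * t := by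
      push_cast
      ring
    rw [this]
    ring

end Pool.Agent.LibPH
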