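import Mathlib
import Pool.Agent.LibPH.XDefs

/-! ROW X00: calculus of `C2` (the coefficient of `s²` at `0`). -/

set_option autoImplicit false

namespace Pool.Agent.LibPH

open MeasureTheory Set Filter Topology Complex
open scoped ComplexConjugate

theorem C2_congr {f g : ℂ → ℂ} (h : ∀ᶠ s in 𝓝 (0:ℂ), f s = g s) : C2 f = C2 g := by
  have h1 : f =ᶠ[𝓝 (0:ℂ)] g := h
  unfold C2
  rw [h1.deriv.deriv_eq]

theorem C2_add {f g : ℂ → ℂ} (hf : AnalyticAt ℂ f 0) (hg : AnalyticAt ℂ g 0) :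
    C2 (fun s => f s + g s) = C2 f + C2 g := by
  have h1 : deriv (fun s => f s + g s) =ᶠ[𝓝 (0:ℂ)] fun s => deriv f s + deriv g s := by
    filter_upwards [hf.eventually_analyticAt, hg.eventually_analyticAt] with s h2 h3
    exact deriv_fun_add h2.differentiableAt h3.differentiableAt
  unfold C2
  rw [h1.deriv_eq, deriv_fun_add hf.deriv.differentiableAt hg.deriv.differentiableAt, add_div]

theorem C2_const_mul (c : ℂ) {f : ℂ → ℂ} (hf : AnalyticAt ℂ f 0) : C2 (fun s => c * f s) = c * C2 f := by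
  have h1 : deriv (fun s => c * f s) =ᶠ[𝓝 (0:ℂ)] fun s => c * deriv f s := by
    filter_upwards [hf.eventually_analyticAt] with s h2
    exact deriv_const_mul c h2.differentiableAt
  unfold C2
  rw [h1.deriv_eq, deriv_const_mul c hf.deriv.differentiableAt, mul_div_assoc]

theorem C2_sum {ι : Type*} (S : Finset ι) (f : ι → ℂ → ℂ) (hf : ∀ i ∈ S, AnalyticAt ℂ (f i) 0) :
    C2 (fun s => ∑ i ∈ S, f i s) = ∑ i ∈ S, C2 (f i) := by
  classical
  induction S using Finset.induction_on with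
  | empty => simp [C2]
  | insert a S ha ih =>
    have h1 : AnalyticAt ℂ (fun s => ∑ i ∈ S, f i s) 0 :=
      Finset.analyticAt_fun_sum S fun i hi => hf i (Finset.mem_insert_of_mem hi)
    have h2 : (fun s => ∑ i ∈ insert a S, f i s) = fun s => f a s + ∑ i ∈ S, f i s := by
      funext s
      exact Finset.sum_insert ha
    rw [h2, C2_add (hf a (Finset.mem_insert_self a S)) h1,
      ih fun i hi => hf i (Finset.mem_insert_of_mem hi), Finset.sum_insert ha]

lemma x00_iter (f : ℂ → ℂ) : iteratedDeriv 2 f 0 = 2 * C2 f := by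
  rw [iteratedDeriv_succ, iteratedDeriv_one, C2]
  ring

lemma x00_diff {f : ℂ → ℂ} {r : ℝ} (hf : ∀ s : ℂ, ‖s‖ ≤ r → AnalyticAt ℂ f s) :
    DifferentiableOn ℂ f (Metric.closedBall 0 r) := fun s hs =>
  (hf s (by simpa using hs)).differentiableAt.differentiableWithinAt

theorem C2_circle {f : ℂ → ℂ} {r : ℝ} (hr : 0 < r) (hf : ∀ s : ℂ, ‖s‖ ≤ r → AnalyticAt ℂ f s) :
    C2 f = (2 * Real.pi * I)⁻¹ * ∮ s in C(0, r), (s ^ 3)⁻¹ * f s := by
  have h1 := (x00_diff hf).circleIntegral_one_div_sub_center_pow_smul hr 2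
  rw [x00_iter] at h1
  simp only [sub_zero, smul_eq_mul, one_div] at h1
  rw [show (2 + 1 : ℕ) = 3 from rfl] at h1
  rw [h1]
  have h2 : (2 * (Real.pi : ℂ) * I) ≠ 0 := two_pi_I_ne_zero
  have h3 : ((Nat.factorial 2 : ℕ) : ℂ) = 2 := by norm_num [Nat.factorial]
  rw [h3]
  field_simp

theorem C2_le {f : ℂ → ℂ} {r M : ℝ} (hr : 0 < r) (hf : ∀ s : ℂ, ‖s‖ ≤ r → AnalyticAt ℂ f s)
    (hM : ∀ s : ℂ, ‖s‖ = r → ‖f s‖ ≤ M) : ‖C2 f‖ ≤ M / r ^ 2 := by
  have h1 := norm_iteratedDeriv_le_of_forall_mem_sphere_norm_le (c := (0:ℂ)) (R := r) (C := M)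
    (f := f) 2 hr ((x00_diff hf).mono Metric.closure_ball_subset_closedBall).diffContOnCl
    (fun z hz => hM z (by simpa using hz))
  rw [x00_iter, norm_mul, Complex.norm_ofNat] at h1
  have h3 : ((Nat.factorial 2 : ℕ) : ℝ) = 2 := by norm_num [Nat.factorial]
  rw [h3, mul_div_assoc] at h1
  linarith

theorem C2_mul_exp {A : ℂ → ℂ} (hA : AnalyticAt ℂ A 0) (l : ℂ) :
    C2 (fun s => A s * cexp (s * l)) = l ^ 2 / 2 * A 0 + l * deriv A 0 + C2 A := by
  have he : ∀ s : ℂ, HasDerivAt (fun s : ℂ => cexp (s * l)) (l * cexp (s * l)) s := by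
    intro s
    have h1 : HasDerivAt (fun s : ℂ => s * l) l s := by
      simpa using (hasDerivAt_id s).mul_const l
    have h2 := h1.cexp
    rwa [mul_comm] at h2
  have h1 : deriv (fun s => A s * cexp (s * l)) =ᶠ[𝓝 (0:ℂ)]
      fun s => (deriv A s + l * A s) * cexp (s * l) := by
    filter_upwards [hA.eventually_analyticAt] with s h2
    have h3 := (h2.differentiableAt.hasDerivAt.mul (he s)).deriv
    refine h3.trans ?_
    ring
  have h4 : HasDerivAt (fun s => deriv A s + l * A s) (deriv (deriv A) 0 + l * deriv A 0) 0 :=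
    hA.deriv.differentiableAt.hasDerivAt.add (hA.differentiableAt.hasDerivAt.const_mul l)
  have h5 := (h4.mul (he 0)).deriv
  unfold C2
  rw [h1.deriv_eq]
  refine (congrArg (· / 2) h5).trans ?_
  simp only [zero_mul, Complex.exp_zero, mul_one]
  ring

/-- the form used at the end -/
theorem C2_leading {A : ℂ → ℂ} {r M l : ℝ} (hr : 0 < r) (hA : ∀ s : ℂ, ‖s‖ ≤ r → AnalyticAt ℂ A s)
    (hM : ∀ s : ℂ, ‖s‖ = r → ‖A s‖ ≤ M) (hl : 0 ≤ l) :
    ‖C2 (fun s => A s * cexp (s * l)) - (l ^ 2 / 2 : ℝ) * A 0‖ ≤ (l / r + 1 / r ^ 2) * M := by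
  have hA0 : AnalyticAt ℂ A 0 := hA 0 (by simpa using hr.le)
  have h1 : C2 (fun s => A s * cexp (s * l)) - (l ^ 2 / 2 : ℝ) * A 0 = l * deriv A 0 + C2 A := by
    rw [C2_mul_exp hA0]
    push_cast
    ring
  have h2 : ‖deriv A 0‖ ≤ M / r :=
    norm_deriv_le_of_forall_mem_sphere_norm_le hr
      ((x00_diff hA).mono Metric.closure_ball_subset_closedBall).diffContOnCl
      (fun z hz => hM z (by simpa using hz))
  have h3 := C2_le hr hA hM
  rw [h1]
  refine (norm_add_le _ _).trans ?_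
  rw [norm_mul, Complex.norm_real, Real.norm_of_nonneg hl]
  have h4 := mul_le_mul_of_nonneg_left h2 hl
  have h5 : (l / r + 1 / r ^ 2) * M = l * (M / r) + M / r ^ 2 := by ring
  rw [h5]
  linarith

end Pool.Agent.LibPH
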