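import Mathlib
import Pool.Agent.LibPH.W02a
import Pool.Agent.LibPH.X00
import Pool.Agent.LibPH.J06a

/-! ROW W02 (super_C2): superposition (Fubini), for the moment and for the main term. -/

set_option autoImplicit false

namespace Pool.Agent.LibPH

open MeasureTheory Set Filter Topology Complex
open scoped ComplexConjugate

theorem w02_int (a : ℝ) (ha : -1 < a) (b : ℝ) (hb : 0 < b) :
    IntegrableOn (fun t : ℝ => t ^ a * Real.exp (-(b * t))) (Ioi 0) := by
  have h := integrableOn_rpow_mul_exp_neg_mul_rpow (p := 1) (s := a) (b := b) ha zero_lt_one hb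
  refine h.congr_fun (fun t _ => ?_) measurableSet_Ioi
  simp only [Real.rpow_one]
  ring_nf

/-- Laplace transform of a power, complex argument. -/
theorem w02_rot {s : ℂ} (hs : 0 < s.re) {z : ℂ} (hz : 0 < z.re) :
    ∫ t in Ioi (0:ℝ), (t:ℂ) ^ (s - 1) * cexp (-(z * t)) = (1 / z) ^ s * Complex.Gamma s := by
  set U : Set ℂ := {z | 0 < z.re} with hU
  have hUo : IsOpen U := isOpen_lt continuous_const Complex.continuous_re
  have hUc : IsPreconnected U := (convex_halfSpace_re_gt 0).isPreconnected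
  have hcont : ∀ (a z : ℂ), ContinuousOn (fun t : ℝ => (t:ℂ) ^ a * cexp (-(z * t))) (Ioi 0) := by
    intro a z
    apply ContinuousOn.mul
    · intro t ht
      have ht' : (0:ℝ) < t := ht
      apply ContinuousAt.continuousWithinAt
      apply ContinuousAt.cpow (Complex.continuous_ofReal.continuousAt) continuousAt_const
      exact Or.inl (by simpa using ht')
    · fun_prop
  have hnorm : ∀ (a z : ℂ) (t : ℝ), 0 < t → ‖(t:ℂ) ^ a * cexp (-(z * t))‖ = t ^ a.re * Real.exp (-(z.re * t)) := by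
    intro a z t ht
    rw [norm_mul, Complex.norm_cpow_eq_rpow_re_of_pos ht, Complex.norm_exp, Complex.neg_re, mul_comm z,
      Complex.re_ofReal_mul, mul_comm t]
  have hF : DifferentiableOn ℂ (fun z : ℂ => ∫ t in Ioi (0:ℝ), (t:ℂ) ^ (s - 1) * cexp (-(z * t))) U := by
    intro z₀ hz₀
    have hz₀' : 0 < z₀.re := hz₀
    apply DifferentiableAt.differentiableWithinAt
    have h := hasDerivAt_integral_of_dominated_loc_of_deriv_le (𝕜 := ℂ) (μ := volume.restrict (Ioi (0:ℝ)))
      (F := fun z t => (t:ℂ) ^ (s - 1) * cexp (-(z * t)))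
      (F' := fun z t => -((t:ℂ) ^ s * cexp (-(z * t))))
      (bound := fun t => t ^ s.re * Real.exp (-(z₀.re / 2 * t)))
      (x₀ := z₀) (s := {z | z₀.re / 2 < z.re})
      ((isOpen_lt continuous_const Complex.continuous_re).mem_nhds (by
        show z₀.re / 2 < z₀.re
        linarith))
      (Eventually.of_forall fun z => (hcont _ z).aestronglyMeasurable measurableSet_Ioi)
      ?_ ?_ ?_ ?_ ?_
    · exact h.2.differentiableAt
    · have h1 := w02_int (s.re - 1) (by linarith) z₀.re hz₀'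
      refine Integrable.mono' h1 ((hcont _ z₀).aestronglyMeasurable measurableSet_Ioi) ?_
      rw [ae_restrict_iff' measurableSet_Ioi]
      refine Eventually.of_forall fun t ht => ?_
      rw [hnorm _ _ t ht]
      simp
    · exact ((hcont _ z₀).aestronglyMeasurable measurableSet_Ioi).neg
    · rw [ae_restrict_iff' measurableSet_Ioi]
      refine Eventually.of_forall fun t ht z hz => ?_
      have ht' : (0:ℝ) < t := ht
      have hz' : z₀.re / 2 < z.re := hz
      rw [norm_neg, hnorm _ _ t ht']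
      apply mul_le_mul_of_nonneg_left _ (by positivity)
      apply Real.exp_le_exp.2
      have := mul_le_mul_of_nonneg_right hz'.le ht'.le
      linarith
    · exact w02_int s.re (by linarith) _ (by linarith)
    · rw [ae_restrict_iff' measurableSet_Ioi]
      refine Eventually.of_forall fun t ht z hz => ?_
      have ht' : (0:ℝ) < t := ht
      have ht0 : (t:ℂ) ≠ 0 := by exact_mod_cast ht'.ne'
      have h2 : HasDerivAt (fun z : ℂ => -(z * t)) (-(1 * (t:ℂ))) z := ((hasDerivAt_id z).mul_const (t:ℂ)).neg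
      have h3 := (h2.cexp).const_mul ((t:ℂ) ^ (s - 1))
      refine h3.congr_deriv ?_
      have h4 : (t:ℂ) ^ s = (t:ℂ) ^ (s - 1) * t := by
        conv_lhs => rw [show s = (s - 1) + 1 by ring]
        rw [Complex.cpow_add _ _ ht0, Complex.cpow_one]
      rw [h4]
      ring
  have hG : DifferentiableOn ℂ (fun z : ℂ => (1 / z) ^ s * Complex.Gamma s) U := by
    intro z₀ hz₀
    have hz₀' : 0 < z₀.re := hz₀
    apply DifferentiableAt.differentiableWithinAt
    have hne : z₀ ≠ 0 := by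
      intro h
      rw [h] at hz₀'
      simp at hz₀'
    apply DifferentiableAt.mul_const
    apply DifferentiableAt.cpow_const
    · exact (differentiableAt_const 1).div differentiableAt_id hne
    · left
      rw [one_div, Complex.inv_re]
      apply div_pos hz₀'
      exact Complex.normSq_pos.2 hne
  have h1U : (1:ℂ) ∈ U := by
    show 0 < (1:ℂ).re
    simp
  have hfreq : ∃ᶠ z in 𝓝[≠] (1:ℂ), (∫ t in Ioi (0:ℝ), (t:ℂ) ^ (s - 1) * cexp (-(z * t)))
      = (1 / z) ^ s * Complex.Gamma s := by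
    have ht : Tendsto (fun r : ℝ => (r:ℂ)) (𝓝[≠] (1:ℝ)) (𝓝[≠] (1:ℂ)) := by
      apply tendsto_nhdsWithin_iff.2
      refine ⟨?_, ?_⟩
      · have : Tendsto (fun r : ℝ => (r:ℂ)) (𝓝 (1:ℝ)) (𝓝 ((1:ℝ):ℂ)) := Complex.continuous_ofReal.continuousAt
        rw [Complex.ofReal_one] at this
        exact this.mono_left nhdsWithin_le_nhds
      · filter_upwards [self_mem_nhdsWithin] with r hr
        intro h
        apply hr
        have h' : (r:ℂ) = 1 := h
        exact_mod_cast h'
    apply ht.frequently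
    apply Eventually.frequently
    have hpos : ∀ᶠ r : ℝ in 𝓝[≠] (1:ℝ), 0 < r :=
      (lt_mem_nhds (by norm_num : (0:ℝ) < 1)).filter_mono nhdsWithin_le_nhds
    filter_upwards [hpos] with r hr
    exact Complex.integral_cpow_mul_exp_neg_mul_Ioi hs hr
  exact (hF.analyticOnNhd hUo).eqOn_of_preconnected_of_frequently_eq (hG.analyticOnNhd hUo) hUc h1U hfreq hz


lemma w02_re {T u : ℝ} : ((1 + (u : ℂ) * I) / (T : ℂ)).re = 1 / T := by
  rw [Complex.div_ofReal_re]
  simp

lemma w02_re' {T u t : ℝ} : (((1 + (u : ℂ) * I) / (T : ℂ)) * (t : ℂ)).re = 1 / T * t := by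
  rw [Complex.re_mul_ofReal, w02_re]

lemma w02_norm {T u t : ℝ} (s : ℂ) (ht : 0 < t) :
    ‖(t : ℂ) ^ s * cexp (-((1 + u * I) / T * t))‖ = t ^ s.re * Real.exp (-(1 / T * t)) := by
  rw [norm_mul, Complex.norm_cpow_eq_rpow_re_of_pos ht, Complex.norm_exp, Complex.neg_re, w02_re']

lemma w02_gi {g : ℝ → ℂ} (hg : Continuous g) {C : ℝ} (hgC : ∀ u : ℝ, ‖g u‖ ≤ C / (1 + u ^ 2)) :
    Integrable g := by
  refine Integrable.mono' (integrable_inv_one_add_sq.const_mul C) hg.aestronglyMeasurable ?_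
  exact Eventually.of_forall fun u => by
    rw [← div_eq_mul_inv]
    exact hgC u

/-- the Laplace transform of a power -/
lemma w02_L {T : ℝ} (hT : 0 < T) {s : ℂ} (hs : -1 < s.re) (u : ℝ) :
    ∫ t in Ioi (0:ℝ), (t : ℂ) ^ s * cexp (-((1 + u * I) / T * t)) =
      ((1 + u * I) / T) ^ (-(1 + s)) * Complex.Gamma (1 + s) := by
  have hz : 0 < ((1 + (u : ℂ) * I) / (T : ℂ)).re := by
    rw [w02_re]
    positivity
  have h1 : (0:ℝ) < (1 + s).re := by
    rw [Complex.add_re, Complex.one_re]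
    linarith
  have h2 := w02_rot h1 hz
  have h3 : ((1 + (u : ℂ) * I) / (T : ℂ)) ∈ Complex.slitPlane := Or.inl hz
  rw [one_div, Complex.inv_cpow _ _ (Complex.mem_slitPlane_iff_arg.1 h3).1, ← Complex.cpow_neg] at h2
  rw [← h2]
  simp only [add_sub_cancel_left]

lemma w02_prod {T : ℝ} (hT : 0 < T) {g : ℝ → ℂ} (hg : Continuous g) {C : ℝ}
    (hgC : ∀ u : ℝ, ‖g u‖ ≤ C / (1 + u ^ 2)) {s : ℂ} (hs : -1 < s.re) :
    Integrable (fun p : ℝ × ℝ => g p.1 * ((p.2 : ℂ) ^ s * cexp (-((1 + p.1 * I) / T * p.2))))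
      (volume.prod (volume.restrict (Ioi (0:ℝ)))) := by
  have h1 : Integrable (fun p : ℝ × ℝ => ‖g p.1‖ * (p.2 ^ s.re * Real.exp (-(1 / T * p.2))))
      (volume.prod (volume.restrict (Ioi (0:ℝ)))) :=
    (w02_gi hg hgC).norm.mul_prod (w02_int s.re hs (1 / T) (by positivity))
  refine Integrable.mono' h1 ?_ ?_
  · refine Measurable.aestronglyMeasurable ?_
    refine (hg.measurable.comp measurable_fst).mul (Measurable.mul ?_ ?_)
    · exact (Complex.measurable_ofReal.comp measurable_snd).pow_const s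
    · refine Complex.measurable_exp.comp (Measurable.neg ?_)
      refine Measurable.mul ?_ (Complex.measurable_ofReal.comp measurable_snd)
      refine Measurable.div_const ?_ _
      exact measurable_const.add ((Complex.measurable_ofReal.comp measurable_fst).mul_const I)
  · have h2 : ∀ᵐ p : ℝ × ℝ ∂(volume.prod (volume.restrict (Ioi (0:ℝ)))), 0 < p.2 := by
      have h3 : (volume : Measure ℝ).prod (volume.restrict (Ioi (0:ℝ))) =
          (volume.prod volume).restrict (univ ×ˢ Ioi (0:ℝ)) := by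
        rw [← Measure.prod_restrict, Measure.restrict_univ]
      rw [h3, ae_restrict_iff' (MeasurableSet.univ.prod measurableSet_Ioi)]
      exact Eventually.of_forall fun p hp => hp.2
    filter_upwards [h2] with p hp
    rw [norm_mul, w02_norm s hp]

lemma w02_sup {η T : ℝ} (hT : 0 < T) {g : ℝ → ℂ} (hg : Continuous g) {C : ℝ}
    (hgC : ∀ u : ℝ, ‖g u‖ ≤ C / (1 + u ^ 2))
    (hgW : ∀ x : ℝ, 0 ≤ x → ((Wt η x : ℝ) : ℂ) = ∫ u : ℝ, g u * cexp (-((1 + u * I) * x)))
    {s : ℂ} (hs : -1 < s.re) :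
    ∫ u : ℝ, g u * (((1 + u * I) / T) ^ (-(1 + s)) * Complex.Gamma (1 + s)) =
      (T : ℂ) ^ (1 + s) * Mw η s := by
  have hTc : (T : ℂ) ≠ 0 := by exact_mod_cast hT.ne'
  have h1 := integral_integral_swap (μ := volume) (ν := volume.restrict (Ioi (0:ℝ)))
    (f := fun u t : ℝ => g u * ((t : ℂ) ^ s * cexp (-((1 + u * I) / T * t))))
    (w02_prod hT hg hgC hs)
  have h2 : ∀ u : ℝ, ∫ t in Ioi (0:ℝ), g u * ((t : ℂ) ^ s * cexp (-((1 + u * I) / T * t))) =
      g u * (((1 + u * I) / T) ^ (-(1 + s)) * Complex.Gamma (1 + s)) := by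
    intro u
    rw [integral_const_mul, w02_L hT hs u]
  have h3 : ∀ t ∈ Ioi (0:ℝ), ∫ u : ℝ, g u * ((t : ℂ) ^ s * cexp (-((1 + u * I) / T * t))) =
      (t : ℂ) ^ s * ((Wt η (t / T) : ℝ) : ℂ) := by
    intro t ht
    have ht' : (0:ℝ) < t := ht
    rw [hgW (t / T) (by positivity), ← integral_const_mul]
    refine integral_congr_ae (Eventually.of_forall fun u => ?_)
    show g u * ((t : ℂ) ^ s * cexp (-((1 + u * I) / T * t))) =
      (t : ℂ) ^ s * (g u * cexp (-((1 + u * I) * ((t / T : ℝ) : ℂ))))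
    have h4 : (1 + (u : ℂ) * I) / T * t = (1 + u * I) * ((t / T : ℝ) : ℂ) := by
      push_cast
      field_simp
    rw [h4]
    ring
  have h5 : ∫ u : ℝ, g u * (((1 + u * I) / T) ^ (-(1 + s)) * Complex.Gamma (1 + s)) =
      ∫ t in Ioi (0:ℝ), (t : ℂ) ^ s * ((Wt η (t / T) : ℝ) : ℂ) := by
    rw [← setIntegral_congr_fun measurableSet_Ioi h3]
    refine Eq.trans ?_ h1
    refine integral_congr_ae (Eventually.of_forall fun u => ?_)
    exact (h2 u).symm
  have h6 := integral_comp_mul_left_Ioi (fun t : ℝ => (t : ℂ) ^ s * ((Wt η (t / T) : ℝ) : ℂ)) 0 hT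
  rw [mul_zero] at h6
  have h7 : ∫ x in Ioi (0:ℝ), ((T * x : ℝ) : ℂ) ^ s * ((Wt η (T * x / T) : ℝ) : ℂ) =
      (T : ℂ) ^ s * Mw η s := by
    rw [Mw, ← integral_const_mul]
    refine setIntegral_congr_fun measurableSet_Ioi fun x hx => ?_
    have hx' : (0:ℝ) < x := hx
    show ((T * x : ℝ) : ℂ) ^ s * ((Wt η (T * x / T) : ℝ) : ℂ) =
      (T : ℂ) ^ s * ((x : ℂ) ^ s * ((Wt η x : ℝ) : ℂ))
    rw [mul_div_cancel_left₀ x hT.ne', Complex.ofReal_mul,
      Complex.mul_cpow_ofReal_nonneg hT.le hx'.le, mul_assoc]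
  rw [h7] at h6
  rw [h5, Complex.cpow_add _ _ hTc, Complex.cpow_one, mul_assoc, h6, Complex.real_smul,
    Complex.ofReal_inv, mul_inv_cancel_left₀ hTc]

lemma w02_pow {t σ : ℝ} (ht : 0 < t) (h1 : |σ| ≤ 1/4) :
    t ^ σ ≤ t ^ (-(1/4) : ℝ) + t ^ (1/4 : ℝ) := by
  obtain ⟨h2, h3⟩ := abs_le.1 h1
  rcases le_total t 1 with h | h
  · have h4 := Real.rpow_le_rpow_of_exponent_ge ht h h2
    have h5 : 0 ≤ t ^ (1/4 : ℝ) := by positivity
    linarith
  · have h4 := Real.rpow_le_rpow_of_exponent_le h h3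
    have h5 : 0 ≤ t ^ (-(1/4) : ℝ) := by positivity
    linarith

lemma w02_Lbd {T : ℝ} (hT : 0 < T) : ∃ D : ℝ, 0 ≤ D ∧ ∀ (s : ℂ), ‖s‖ ≤ 1/4 → ∀ u : ℝ,
    ‖((1 + u * I) / T) ^ (-(1 + s)) * Complex.Gamma (1 + s)‖ ≤ D := by
  refine ⟨∫ t in Ioi (0:ℝ), (t ^ (-(1/4) : ℝ) * Real.exp (-(1 / T * t)) +
    t ^ (1/4 : ℝ) * Real.exp (-(1 / T * t))), ?_, fun s hs u => ?_⟩
  · refine setIntegral_nonneg measurableSet_Ioi fun t ht => ?_
    have ht' : (0:ℝ) < t := ht
    positivity
  · have hre : |s.re| ≤ 1/4 := (Complex.abs_re_le_norm s).trans hs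
    have hre' : -1 < s.re := by
      have := (abs_le.1 hre).1
      linarith
    rw [← w02_L hT hre' u]
    have hT' : 0 < 1 / T := by positivity
    refine norm_integral_le_of_norm_le
      ((w02_int (-(1/4)) (by norm_num) _ hT').add (w02_int (1/4) (by norm_num) _ hT')) ?_
    rw [ae_restrict_iff' measurableSet_Ioi]
    refine Eventually.of_forall fun t ht => ?_
    have ht' : (0:ℝ) < t := ht
    rw [w02_norm s ht']
    have h1 := mul_le_mul_of_nonneg_right (w02_pow ht' hre) (Real.exp_pos (-(1 / T * t))).le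
    rw [add_mul] at h1
    exact h1

lemma w02_an {T : ℝ} (hT : 0 < T) (u : ℝ) {s : ℂ} (hs : ‖s‖ ≤ 1/4) :
    AnalyticAt ℂ (fun s : ℂ => ((1 + u * I) / T) ^ (-(1 + s)) * Complex.Gamma (1 + s)) s := by
  have hz : 0 < ((1 + (u : ℂ) * I) / (T : ℂ)).re := by
    rw [w02_re]
    positivity
  have hz0 : ((1 + (u : ℂ) * I) / (T : ℂ)) ≠ 0 := by
    intro h
    rw [h] at hz
    simp at hz
  have hU : IsOpen {s : ℂ | -1 < s.re} := isOpen_lt continuous_const Complex.continuous_re
  have hsU : s ∈ {s : ℂ | -1 < s.re} := by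
    have h1 := (abs_le.1 ((Complex.abs_re_le_norm s).trans hs)).1
    show -1 < s.re
    linarith
  refine DifferentiableOn.analyticAt (s := {s : ℂ | -1 < s.re}) ?_ (hU.mem_nhds hsU)
  intro w hw
  have hw' : -1 < w.re := hw
  apply DifferentiableAt.differentiableWithinAt
  apply DifferentiableAt.mul
  · apply DifferentiableAt.const_cpow
    · exact ((differentiableAt_const _).add differentiableAt_id).neg
    · exact Or.inl hz0
  · have h2 : DifferentiableAt ℂ Complex.Gamma (1 + w) := by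
      refine Complex.differentiableAt_Gamma _ fun m hm => ?_
      have h3 := congrArg Complex.re hm
      rw [Complex.add_re, Complex.one_re, Complex.neg_re, Complex.natCast_re] at h3
      have h4 : (0:ℝ) ≤ m := Nat.cast_nonneg m
      linarith
    exact DifferentiableAt.comp w h2 ((differentiableAt_const _).add differentiableAt_id)

theorem super_C2 {η T : ℝ} (hη : 0 < η) (hη1 : η ≤ 1) (hT : 1 ≤ T) {g : ℝ → ℂ} (hg : Continuous g) {C : ℝ}
    (hgC : ∀ u : ℝ, ‖g u‖ ≤ C / (1 + u ^ 2))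
    (hgW : ∀ x : ℝ, 0 ≤ x → ((Wt η x : ℝ) : ℂ) = ∫ u : ℝ, g u * cexp (-((1 + u * I) * x)))
    {B : ℂ → ℂ} (hB : ∀ s : ℂ, ‖s‖ ≤ 1/4 → AnalyticAt ℂ B s) :
    Integrable (fun u : ℝ => g u * C2 (fun s => B s * Complex.Gamma (1 + s) * ((1 + u * I) / T) ^ (-(1 + s)))) ∧
    ∫ u : ℝ, g u * C2 (fun s => B s * Complex.Gamma (1 + s) * ((1 + u * I) / T) ^ (-(1 + s))) =
      C2 (fun s => B s * (T : ℂ) ^ (1 + s) * Mw η s) := by
  have hT0 : 0 < T := by linarith
  have hTc : (T : ℂ) ≠ 0 := by exact_mod_cast hT0.ne'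
  obtain ⟨D, hD0, hD⟩ := w02_Lbd hT0
  set c : ℝ → ℂ := circleMap 0 (1/4) with hc
  have hcn : ∀ θ, ‖c θ‖ = 1/4 := by
    intro θ
    rw [hc, norm_circleMap_zero]
    norm_num
  have hc0 : ∀ θ, c θ ≠ 0 := by
    intro θ h
    have h1 := hcn θ
    rw [h, norm_zero] at h1
    norm_num at h1
  have hcc : Continuous c := continuous_circleMap 0 (1/4)
  let w : ℝ → ℂ := fun θ => c θ * I * (((c θ) ^ 3)⁻¹ * B (c θ))
  let L : ℝ → ℝ → ℂ := fun u θ =>
    ((1 + u * I) / T) ^ (-(1 + c θ)) * Complex.Gamma (1 + c θ)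
  have hBc : Continuous fun θ => B (c θ) := by
    rw [continuous_iff_continuousAt]
    intro θ
    exact ContinuousAt.comp (hB _ (hcn θ).le).continuousAt hcc.continuousAt
  have hw : Continuous w := by
    refine (hcc.mul continuous_const).mul (Continuous.mul ?_ hBc)
    exact (hcc.pow 3).inv₀ fun θ => pow_ne_zero 3 (hc0 θ)
  have hL : Continuous fun p : ℝ × ℝ => L p.1 p.2 := by
    rw [continuous_iff_continuousAt]
    intro p
    have hz : 0 < ((1 + (p.1 : ℂ) * I) / (T : ℂ)).re := by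
      rw [w02_re]
      positivity
    have hc2 : ContinuousAt (fun p : ℝ × ℝ => 1 + c p.2) p :=
      continuousAt_const.add (hcc.comp continuous_snd).continuousAt
    refine ContinuousAt.mul (ContinuousAt.cpow ?_ ?_ (Or.inl hz)) ?_
    · refine ContinuousAt.div_const (continuousAt_const.add (ContinuousAt.mul ?_ continuousAt_const)) _
      exact (Complex.continuous_ofReal.comp continuous_fst).continuousAt
    · exact hc2.neg
    · have h2 : ContinuousAt Complex.Gamma (1 + c p.2) := by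
        refine (Complex.differentiableAt_Gamma _ fun m hm => ?_).continuousAt
        have h3 := congrArg Complex.re hm
        rw [Complex.add_re, Complex.one_re, Complex.neg_re, Complex.natCast_re] at h3
        have h4 : (0:ℝ) ≤ m := Nat.cast_nonneg m
        have h5 := (abs_le.1 ((Complex.abs_re_le_norm (c p.2)).trans (hcn p.2).le)).1
        linarith
      exact ContinuousAt.comp (f := fun p : ℝ × ℝ => 1 + c p.2) (g := Complex.Gamma) h2 hc2
  obtain ⟨M, hM⟩ : ∃ M : ℝ, ∀ θ ∈ Icc (0:ℝ) (2 * Real.pi), ‖w θ‖ ≤ M :=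
    isCompact_Icc.exists_bound_of_continuousOn hw.continuousOn
  have hpi : (0:ℝ) ≤ 2 * Real.pi := by positivity
  have hM0 : 0 ≤ M := (norm_nonneg _).trans (hM 0 ⟨le_refl 0, hpi⟩)
  have hint : Integrable (fun p : ℝ × ℝ => g p.1 * (w p.2 * L p.1 p.2))
      (volume.prod (volume.restrict (Ioc (0:ℝ) (2 * Real.pi)))) := by
    have h1 : Integrable (fun p : ℝ × ℝ => ‖g p.1‖ * (M * D))
        (volume.prod (volume.restrict (Ioc (0:ℝ) (2 * Real.pi)))) :=
      (w02_gi hg hgC).norm.mul_prod (g := fun _ => M * D) (integrable_const _)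
    refine Integrable.mono' h1 ?_ ?_
    · exact ((hg.comp continuous_fst).mul ((hw.comp continuous_snd).mul hL)).aestronglyMeasurable
    · have h2 : ∀ᵐ p : ℝ × ℝ ∂(volume.prod (volume.restrict (Ioc (0:ℝ) (2 * Real.pi)))),
          p.2 ∈ Ioc (0:ℝ) (2 * Real.pi) := by
        have h3 : (volume : Measure ℝ).prod (volume.restrict (Ioc (0:ℝ) (2 * Real.pi))) =
            (volume.prod volume).restrict (univ ×ˢ Ioc (0:ℝ) (2 * Real.pi)) := by
          rw [← Measure.prod_restrict, Measure.restrict_univ]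
        rw [h3, ae_restrict_iff' (MeasurableSet.univ.prod measurableSet_Ioc)]
        exact Eventually.of_forall fun p hp => hp.2
      filter_upwards [h2] with p hp
      rw [norm_mul, norm_mul]
      refine mul_le_mul_of_nonneg_left ?_ (norm_nonneg _)
      exact mul_le_mul (hM p.2 (Ioc_subset_Icc_self hp)) (hD _ (hcn p.2).le p.1)
        (norm_nonneg _) hM0
  have hC2 : ∀ u : ℝ, C2 (fun s => B s * Complex.Gamma (1 + s) * ((1 + u * I) / T) ^ (-(1 + s))) =
      (2 * Real.pi * I)⁻¹ * ∫ θ in Ioc (0:ℝ) (2 * Real.pi), w θ * L u θ := by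
    intro u
    have h1 : ∀ s : ℂ, ‖s‖ ≤ 1/4 → AnalyticAt ℂ
        (fun s => B s * Complex.Gamma (1 + s) * ((1 + u * I) / T) ^ (-(1 + s))) s := by
      intro s hs
      have h2 := (hB s hs).mul (w02_an hT0 u hs)
      refine h2.congr (Eventually.of_forall fun s => ?_)
      show B s * (((1 + u * I) / T) ^ (-(1 + s)) * Complex.Gamma (1 + s)) =
        B s * Complex.Gamma (1 + s) * ((1 + u * I) / T) ^ (-(1 + s))
      ring
    rw [C2_circle (by norm_num) h1]
    congr 1
    rw [circleIntegral, intervalIntegral.integral_of_le hpi]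
    refine integral_congr_ae (Eventually.of_forall fun θ => ?_)
    show deriv (circleMap 0 (1/4)) θ • (((circleMap 0 (1/4) θ) ^ 3)⁻¹ *
      (B (circleMap 0 (1/4) θ) * Complex.Gamma (1 + circleMap 0 (1/4) θ) *
        ((1 + u * I) / T) ^ (-(1 + circleMap 0 (1/4) θ)))) = w θ * L u θ
    rw [deriv_circleMap, smul_eq_mul]
    simp only [w, L, hc]
    ring
  have hR : C2 (fun s => B s * (T : ℂ) ^ (1 + s) * Mw η s) =
      (2 * Real.pi * I)⁻¹ * ∫ θ in Ioc (0:ℝ) (2 * Real.pi),
        w θ * ((T : ℂ) ^ (1 + c θ) * Mw η (c θ)) := by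
    have h1 : ∀ s : ℂ, ‖s‖ ≤ 1/4 → AnalyticAt ℂ
        (fun s => B s * (T : ℂ) ^ (1 + s) * Mw η s) s := by
      intro s hs
      refine AnalyticAt.mul ((hB s hs).mul ?_) (Mw_analytic hη hη1 hs)
      have h2 : Differentiable ℂ fun s : ℂ => (T : ℂ) ^ (1 + s) := fun w =>
        DifferentiableAt.const_cpow ((differentiableAt_const _).add differentiableAt_id)
          (Or.inl hTc)
      exact h2.analyticAt s
    rw [C2_circle (by norm_num) h1]
    congr 1
    rw [circleIntegral, intervalIntegral.integral_of_le hpi]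
    refine integral_congr_ae (Eventually.of_forall fun θ => ?_)
    show deriv (circleMap 0 (1/4)) θ • (((circleMap 0 (1/4) θ) ^ 3)⁻¹ *
      (B (circleMap 0 (1/4) θ) * (T : ℂ) ^ (1 + circleMap 0 (1/4) θ) *
        Mw η (circleMap 0 (1/4) θ))) = w θ * ((T : ℂ) ^ (1 + c θ) * Mw η (c θ))
    rw [deriv_circleMap, smul_eq_mul]
    simp only [w, hc]
    ring
  have hin : ∀ θ : ℝ, ∫ u : ℝ, g u * (w θ * L u θ) =
      w θ * ((T : ℂ) ^ (1 + c θ) * Mw η (c θ)) := by
    intro θ
    have hre : -1 < (c θ).re := by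
      have h5 := (abs_le.1 ((Complex.abs_re_le_norm (c θ)).trans (hcn θ).le)).1
      linarith
    rw [← w02_sup hT0 hg hgC hgW hre, ← integral_const_mul]
    refine integral_congr_ae (Eventually.of_forall fun u => ?_)
    show g u * (w θ * L u θ) = w θ * (g u * (((1 + u * I) / T) ^ (-(1 + c θ)) *
      Complex.Gamma (1 + c θ)))
    simp only [L]
    ring
  have hfun : (fun u : ℝ => g u * C2 (fun s => B s * Complex.Gamma (1 + s) *
      ((1 + u * I) / T) ^ (-(1 + s)))) = fun u : ℝ => (2 * Real.pi * I)⁻¹ *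
        ∫ θ in Ioc (0:ℝ) (2 * Real.pi), g u * (w θ * L u θ) := by
    funext u
    rw [hC2 u, integral_const_mul]
    ring
  rw [hfun]
  refine ⟨(hint.integral_prod_left).const_mul _, ?_⟩
  rw [integral_const_mul, hR, integral_integral_swap (μ := volume)
    (ν := volume.restrict (Ioc (0:ℝ) (2 * Real.pi)))
    (f := fun u θ : ℝ => g u * (w θ * L u θ)) hint]
  congr 1
  exact integral_congr_ae (Eventually.of_forall fun θ => hin θ)

end Pool.Agent.LibPH
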