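import Mathlib
import Pool.Agent.LibPH.X00
import Pool.Agent.LibM3.A2
import Pool.Agent.LibM3.E3
import Pool.Agent.LibZM.CS1
import Pool.Agent.LibF4.M14

/-! ROW X01: the triple pole. Adapt /team-store/F4_M13.lean (kernels) and /team-store/F4_M14.lean (`double_pole`), copy what you
need with new names (prefix x01_).
New kernel: `∫ e^{s²}/s³ = ∫ e^{s²}/s` on every vertical line `Re s = x ≠ 0` (integrate the derivative of `e^{s²}/s²`, which is
`2 e^{s²}/s - 2 e^{s²}/s³`: `integral_of_hasDerivAt_of_tendsto`), so the jump from 1 to -1/2 is `1` again by `ker_simple`.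
Subtract `e^{(s-1)²}(H(1) + H'(1)(s-1) + (h2 - H(1))(s-1)²)`, `h2 = H''(1)/2 = C2 (fun s => H (1+s))`, from `H` (it agrees with
`H` to third order at 1) and apply `dslope` three times, `vertical_shift`. Residue: `H(1) + H'(1)*0 + (h2 - H(1)) = h2`. -/

set_option autoImplicit false

namespace Pool.Agent.LibPH

open MeasureTheory Set Filter Topology Complex
open scoped ComplexConjugate
open Pool.Agent.LibM3 Pool.Agent.LibZM

theorem x01_bd (k : ℕ) {x : ℝ} (hx : x ≠ 0) (y : ℝ) :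
    ‖cexp (((x:ℂ) + y * I) ^ 2) / ((x:ℂ) + y * I) ^ k‖ ≤ (|x|⁻¹ ^ k * Real.exp (x ^ 2)) * Real.exp (-1 * y ^ 2) := by
  rw [norm_div, LibF4.m13_norm_exp_sq, norm_pow]
  have h1 : |x| ≤ ‖(x:ℂ) + y * I‖ := by
    have := Complex.abs_re_le_norm ((x:ℂ) + y * I)
    simpa using this
  have h0 : 0 < |x| := abs_pos.2 hx
  have h2 : |x| ^ k ≤ ‖(x:ℂ) + y * I‖ ^ k := pow_le_pow_left₀ h0.le h1 k
  have h3 : Real.exp (x ^ 2 - y ^ 2) = Real.exp (x ^ 2) * Real.exp (-1 * y ^ 2) := by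
    rw [← Real.exp_add]
    congr 1
    ring
  rw [h3, div_eq_mul_inv, inv_pow]
  calc Real.exp (x ^ 2) * Real.exp (-1 * y ^ 2) * (‖(x:ℂ) + y * I‖ ^ k)⁻¹
      ≤ Real.exp (x ^ 2) * Real.exp (-1 * y ^ 2) * (|x| ^ k)⁻¹ := by
        refine mul_le_mul_of_nonneg_left ?_ (by positivity)
        exact inv_anti₀ (by positivity) h2
    _ = (|x| ^ k)⁻¹ * Real.exp (x ^ 2) * Real.exp (-1 * y ^ 2) := by ring

theorem x01_int (k : ℕ) {x : ℝ} (hx : x ≠ 0) :
    Integrable (fun y : ℝ => cexp (((x:ℂ) + y * I) ^ 2) / ((x:ℂ) + y * I) ^ k) := by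
  refine Integrable.mono' ((integrable_exp_neg_mul_sq (by norm_num : (0:ℝ) < 1)).const_mul
    (|x|⁻¹ ^ k * Real.exp (x ^ 2))) ?_ (Eventually.of_forall fun y => x01_bd k hx y)
  apply Continuous.aestronglyMeasurable
  exact Continuous.div (by fun_prop) (by fun_prop) fun y => pow_ne_zero k (LibF4.m13_ne hx y)

theorem x01_tend {c : ℝ} : Tendsto (fun y : ℝ => c * Real.exp (-1 * y ^ 2)) atTop (𝓝 0) ∧
    Tendsto (fun y : ℝ => c * Real.exp (-1 * y ^ 2)) atBot (𝓝 0) := by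
  obtain ⟨-, h1, h2⟩ := LibF4.m13_int_gauss (c * Real.exp (-1))
  have e : ∀ y : ℝ, c * Real.exp (-1) * Real.exp (1 - y ^ 2) = c * Real.exp (-1 * y ^ 2) := by
    intro y
    rw [mul_assoc, ← Real.exp_add]
    congr 2
    ring
  simp only [e] at h1 h2
  exact ⟨h1, h2⟩

theorem x01_ker {x : ℝ} (hx : x ≠ 0) :
    ∫ y : ℝ, cexp (((x:ℂ) + y * I) ^ 2) / ((x:ℂ) + y * I) ^ 3 =
    ∫ y : ℝ, cexp (((x:ℂ) + y * I) ^ 2) / ((x:ℂ) + y * I) := by
  have hd : ∀ y : ℝ, HasDerivAt (fun y : ℝ => cexp (((x:ℂ) + y * I) ^ 2) / ((x:ℂ) + y * I) ^ 2)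
      (2 * I * (cexp (((x:ℂ) + y * I) ^ 2) / ((x:ℂ) + y * I) ^ 1 -
        cexp (((x:ℂ) + y * I) ^ 2) / ((x:ℂ) + y * I) ^ 3)) y := by
    intro y
    have hne := LibF4.m13_ne hx y
    have h1 : HasDerivAt (fun y : ℝ => (x:ℂ) + y * I) I y := by
      have := ((Complex.ofRealCLM.hasDerivAt (x := y)).mul_const I).const_add (x:ℂ)
      simpa using this
    have h2 : HasDerivAt (fun y : ℝ => ((x:ℂ) + y * I) ^ 2) (2 * ((x:ℂ) + y * I) * I) y := by
      have := h1.fun_pow 2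
      simpa using this
    have h3 := h2.cexp.div h2 (pow_ne_zero 2 hne)
    refine h3.congr_deriv ?_
    field_simp
  have i1 := x01_int 1 hx
  have i3 := x01_int 3 hx
  have ht := x01_tend (c := |x|⁻¹ ^ 2 * Real.exp (x ^ 2))
  have hI := integral_of_hasDerivAt_of_tendsto hd ((i1.sub i3).const_mul (2 * I))
    (squeeze_zero_norm (fun y => x01_bd 2 hx y) ht.2) (squeeze_zero_norm (fun y => x01_bd 2 hx y) ht.1)
  rw [integral_const_mul, integral_sub i1 i3, sub_self] at hI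
  have h2I : (2 * I : ℂ) ≠ 0 := mul_ne_zero two_ne_zero I_ne_zero
  have h4 := (mul_eq_zero.1 hI).resolve_left h2I
  have h5 := sub_eq_zero.1 h4
  simp only [pow_one] at h5
  exact h5.symm

theorem x01_G {f : ℂ → ℂ} (hf : ∀ s : ℂ, 0 < s.re → DifferentiableAt ℂ f s) (h0 : f 1 = 0) (h1 : deriv f 1 = 0)
    (h2 : deriv (deriv f) 1 = 0) :
    (∀ s : ℂ, 0 < s.re → DifferentiableAt ℂ (dslope (dslope (dslope f 1) 1) 1) s) ∧
    ∀ s : ℂ, s ≠ 1 → dslope (dslope (dslope f 1) 1) 1 s = f s / (s - 1) ^ 3 := by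
  have hU : IsOpen {s : ℂ | 0 < s.re} := isOpen_lt continuous_const Complex.continuous_re
  have hU1 : {s : ℂ | 0 < s.re} ∈ 𝓝 (1:ℂ) := hU.mem_nhds (by simp)
  set G2 : ℂ → ℂ := dslope (dslope f 1) 1 with hG2
  have hd2 : ∀ s : ℂ, 0 < s.re → DifferentiableAt ℂ G2 s := LibF4.m14_G_diff hf
  have hd2on : DifferentiableOn ℂ G2 {s : ℂ | 0 < s.re} := fun s hs => (hd2 s hs).differentiableWithinAt
  have he2 : ∀ s : ℂ, f s = (s - 1) ^ 2 * G2 s := by
    intro s
    by_cases hs : s = 1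
    · rw [hs, h0]
      ring
    · have hs' : s - 1 ≠ 0 := sub_ne_zero.mpr hs
      rw [hG2, LibF4.m14_G_eq h0 h1 hs]
      field_simp
  have hf' : f = fun s => (s - 1) ^ 2 * G2 s := funext he2
  have hG21 : G2 1 = 0 := by
    have e1 : deriv f =ᶠ[𝓝 1] fun s => 2 * (s - 1) * G2 s + (s - 1) ^ 2 * deriv G2 s := by
      filter_upwards [hU1] with s hs
      have a1 : HasDerivAt (fun s : ℂ => (s - 1) ^ 2) (2 * (s - 1)) s := by
        have := ((hasDerivAt_id s).sub_const 1).fun_pow 2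
        simpa using this
      have a2 := a1.mul (hd2 s hs).hasDerivAt
      have a3 : HasDerivAt f (2 * (s - 1) * G2 s + (s - 1) ^ 2 * deriv G2 s) s := by
        rw [hf']
        exact a2
      exact a3.deriv
    have e2 : deriv (deriv f) 1 = 2 * G2 1 := by
      rw [e1.deriv_eq]
      have hdG : DifferentiableAt ℂ (deriv G2) 1 := by
        have := hd2on.deriv hU
        exact (this 1 (by simp)).differentiableAt hU1
      have b1 : HasDerivAt (fun s : ℂ => 2 * (s - 1)) 2 1 := by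
        have := ((hasDerivAt_id (1:ℂ)).sub_const 1).const_mul 2
        simpa using this
      have b2 : HasDerivAt (fun s : ℂ => (s - 1) ^ 2) 0 1 := by
        have := ((hasDerivAt_id (1:ℂ)).sub_const 1).fun_pow 2
        simpa using this
      have b3 := (b1.mul (hd2 1 (by simp)).hasDerivAt).add (b2.mul hdG.hasDerivAt)
      have b4 : HasDerivAt (fun s : ℂ => 2 * (s - 1) * G2 s + (s - 1) ^ 2 * deriv G2 s) (2 * G2 1) 1 := by
        refine b3.congr_deriv ?_
        ring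
      exact b4.deriv
    rw [h2] at e2
    have := e2.symm
    simpa using this
  refine ⟨?_, ?_⟩
  · have h3 : DifferentiableOn ℂ (dslope G2 1) {s : ℂ | 0 < s.re} :=
      (Complex.differentiableOn_dslope hU1).mpr hd2on
    intro s hs
    exact (h3 s hs).differentiableAt (hU.mem_nhds hs)
  · intro s hs
    have hs' : s - 1 ≠ 0 := sub_ne_zero.mpr hs
    rw [dslope_of_ne _ hs, slope_def_field, hG21, hG2, LibF4.m14_G_eq h0 h1 hs]
    field_simp
    ring

theorem triple_pole {H : ℂ → ℂ} (hH : ∀ s : ℂ, 0 < s.re → DifferentiableAt ℂ H s) {g : ℝ → ℝ} (hg : Integrable g)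
    (hg0 : Tendsto g atTop (𝓝 0)) (hg1 : Tendsto g atBot (𝓝 0)) (hgc : Continuous g)
    (hb : ∀ x ∈ Icc (1/2:ℝ) 2, ∀ y : ℝ, ‖H (x + y * I)‖ ≤ g y) :
    Integrable (fun y : ℝ => H ((2:ℂ) + y * I) / ((1:ℂ) + y * I) ^ 3) ∧
    Integrable (fun y : ℝ => H ((1/2:ℂ) + y * I) / (-(1/2:ℂ) + y * I) ^ 3) ∧
    (((1 / (2 * Real.pi) : ℝ) : ℂ) * ∫ y : ℝ, H ((2:ℂ) + y * I) / ((1:ℂ) + y * I) ^ 3) -
    (((1 / (2 * Real.pi) : ℝ) : ℂ) * ∫ y : ℝ, H ((1/2:ℂ) + y * I) / (-(1/2:ℂ) + y * I) ^ 3) =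
      C2 (fun s => H (1 + s)) := by
  obtain ⟨h2, hh2⟩ : ∃ h2 : ℂ, h2 = C2 (fun s => H (1 + s)) := ⟨_, rfl⟩
  have hC2 : deriv (deriv H) 1 = 2 * h2 := by
    rw [hh2]
    unfold C2
    have e1 : deriv (fun s => H (1 + s)) = fun s => deriv H (1 + s) := by
      funext s
      exact deriv_comp_const_add H 1 s
    rw [e1, deriv_comp_const_add (deriv H) 1 0, add_zero]
    ring
  rw [← hh2]
  obtain ⟨c, hc⟩ : ∃ c : ℂ, c = h2 - H 1 := ⟨_, rfl⟩
  set P : ℂ → ℂ := fun s => H 1 + deriv H 1 * (s - 1) + c * (s - 1) ^ 2 with hP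
  set f : ℂ → ℂ := fun s => H s - cexp ((s - 1) ^ 2) * P s with hf
  have hU : IsOpen {s : ℂ | 0 < s.re} := isOpen_lt continuous_const Complex.continuous_re
  have hU1 : {s : ℂ | 0 < s.re} ∈ 𝓝 (1:ℂ) := hU.mem_nhds (by simp)
  have hHon : DifferentiableOn ℂ H {s : ℂ | 0 < s.re} := fun s hs => (hH s hs).differentiableWithinAt
  have hH1 : DifferentiableAt ℂ H 1 := hH 1 (by simp)
  have dP : ∀ s : ℂ, HasDerivAt P (deriv H 1 + 2 * c * (s - 1)) s := by
    intro s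
    have a1 := ((hasDerivAt_id s).sub_const 1).const_mul (deriv H 1)
    have a2 := (((hasDerivAt_id s).sub_const 1).fun_pow 2).const_mul c
    have a3 := (a1.const_add (H 1)).add a2
    refine a3.congr_deriv ?_
    simp
    ring
  have dE : ∀ s : ℂ, HasDerivAt (fun s : ℂ => cexp ((s - 1) ^ 2)) (cexp ((s - 1) ^ 2) * (2 * (s - 1))) s := by
    intro s
    have h1 : HasDerivAt (fun s : ℂ => (s - 1) ^ 2) (2 * (s - 1)) s := by
      have := ((hasDerivAt_id s).sub_const 1).fun_pow 2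
      simpa using this
    exact h1.cexp
  have hfd : ∀ s : ℂ, 0 < s.re → DifferentiableAt ℂ f s := by
    intro s hs
    exact (hH s hs).sub ((dE s).mul (dP s)).differentiableAt
  have hf0 : f 1 = 0 := by simp [hf, hP]
  have hfd1 : ∀ s : ℂ, 0 < s.re → deriv f s = deriv H s -
      (cexp ((s - 1) ^ 2) * (2 * (s - 1)) * P s + cexp ((s - 1) ^ 2) * (deriv H 1 + 2 * c * (s - 1))) := by
    intro s hs
    exact ((hH s hs).hasDerivAt.sub ((dE s).mul (dP s))).deriv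
  have hf1 : deriv f 1 = 0 := by
    rw [hfd1 1 (by simp)]
    simp
  have hf2 : deriv (deriv f) 1 = 0 := by
    have e1 : deriv f =ᶠ[𝓝 1] fun s => deriv H s -
      (cexp ((s - 1) ^ 2) * (2 * (s - 1)) * P s + cexp ((s - 1) ^ 2) * (deriv H 1 + 2 * c * (s - 1))) := by
      filter_upwards [hU1] with s hs
      exact hfd1 s hs
    rw [e1.deriv_eq]
    have hdH : DifferentiableAt ℂ (deriv H) 1 := by
      have := hHon.deriv hU
      exact (this 1 (by simp)).differentiableAt hU1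
    have b1 : HasDerivAt (fun s : ℂ => 2 * (s - 1)) 2 1 := by
      have := ((hasDerivAt_id (1:ℂ)).sub_const 1).const_mul 2
      simpa using this
    have b2 : HasDerivAt (fun s : ℂ => deriv H 1 + 2 * c * (s - 1)) (2 * c) 1 := by
      have := (((hasDerivAt_id (1:ℂ)).sub_const 1).const_mul (2 * c)).const_add (deriv H 1)
      simpa using this
    have b3 := hdH.hasDerivAt.sub ((((dE 1).mul b1).mul (dP 1)).add ((dE 1).mul b2))
    have b4 : HasDerivAt (fun s : ℂ => deriv H s -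
      (cexp ((s - 1) ^ 2) * (2 * (s - 1)) * P s + cexp ((s - 1) ^ 2) * (deriv H 1 + 2 * c * (s - 1)))) 0 1 := by
      refine b3.congr_deriv ?_
      have hP1 : P 1 = H 1 := by simp [hP]
      simp only [Pi.mul_apply, hP1, sub_self, hC2, hc]
      simp
      ring
    exact b4.deriv
  obtain ⟨hGd, hGe⟩ := x01_G hfd hf0 hf1 hf2
  set G : ℂ → ℂ := dslope (dslope (dslope f 1) 1) 1 with hGdef
  obtain ⟨K, hK0, hK⟩ := LibF4.m14_rect hGd
  obtain ⟨A, hA⟩ : ∃ A : ℝ, A = ‖H 1‖ := ⟨_, rfl⟩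
  obtain ⟨B, hB⟩ : ∃ B : ℝ, B = ‖deriv H 1‖ := ⟨_, rfl⟩
  obtain ⟨D, hD⟩ : ∃ D : ℝ, D = ‖c‖ := ⟨_, rfl⟩
  have hA0 : 0 ≤ A := hA ▸ norm_nonneg _
  have hB0 : 0 ≤ B := hB ▸ norm_nonneg _
  have hD0 : 0 ≤ D := hD ▸ norm_nonneg _
  obtain ⟨q1, q2, q3⟩ := LibF4.m14_gauss (A + 2 * B + 4 * D + K)
  have hg_nonneg : ∀ y, 0 ≤ g y := fun y => (norm_nonneg _).trans (hb 1 ⟨by norm_num, by norm_num⟩ y)
  have hdom : ∀ x ∈ Icc (1/2:ℝ) 2, ∀ y : ℝ, ‖G (x + y * I)‖ ≤
      g y + (A + 2 * B + 4 * D + K) * Real.exp (1 - y ^ 2 / 2) := by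
    intro x hx y
    have hE := Real.exp_pos (1 - y ^ 2 / 2)
    rcases le_or_gt |y| 1 with hy | hy
    · have hy' := abs_le.mp hy
      have h1 := hK x hx y hy'
      have h2 : 1 ≤ Real.exp (1 - y ^ 2 / 2) := by
        apply Real.one_le_exp
        have : y ^ 2 ≤ 1 := by nlinarith [hy'.1, hy'.2]
        linarith
      have h3 := hg_nonneg y
      nlinarith [mul_nonneg hA0 hE.le, mul_nonneg hB0 hE.le, mul_nonneg hD0 hE.le,
        mul_nonneg hK0 (sub_nonneg.mpr h2)]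
    · have hs : (x:ℂ) + y * I ≠ 1 := by
        intro h
        have := congrArg Complex.im h
        simp at this
        rw [this] at hy
        simp at hy
        linarith
      have hy2 : 1 ≤ y ^ 2 := by
        have := sq_abs y
        nlinarith
      have hsub : (x:ℂ) + y * I - 1 = ((x - 1 : ℝ) : ℂ) + y * I := by push_cast; ring
      have hn1 : 1 ≤ ‖((x:ℂ) + y * I - 1) ^ 3‖ := by
        rw [norm_pow]
        have h1 : |y| ≤ ‖(x:ℂ) + y * I - 1‖ := by
          have := Complex.abs_im_le_norm ((x:ℂ) + y * I - 1)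
          simpa using this
        exact one_le_pow₀ (by linarith)
      rw [hGe _ hs, norm_div]
      have hf3 : ‖f ((x:ℂ) + y * I)‖ ≤ g y + (A + 2 * B + 4 * D) * Real.exp (1 - y ^ 2 / 2) := by
        have h1 : ‖f ((x:ℂ) + y * I)‖ ≤ ‖H ((x:ℂ) + y * I)‖ +
            ‖cexp (((x:ℂ) + y * I - 1) ^ 2)‖ * ‖P ((x:ℂ) + y * I)‖ := by
          rw [← norm_mul]
          exact norm_sub_le _ _
        have h2 : ‖cexp (((x:ℂ) + y * I - 1) ^ 2)‖ ≤ Real.exp (1 - y ^ 2) := by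
          rw [hsub, Complex.norm_exp]
          apply Real.exp_le_exp.mpr
          have : ((((x - 1 : ℝ) : ℂ) + y * I) ^ 2).re = (x - 1) ^ 2 - y ^ 2 := by
            simp [sq]
          rw [this]
          have := hx.1
          have := hx.2
          nlinarith
        have h4 : ‖(x:ℂ) + y * I - 1‖ ≤ 1 + |y| := by
          rw [hsub]
          refine (norm_add_le _ _).trans ?_
          rw [norm_mul, Complex.norm_I, mul_one, Complex.norm_real, Complex.norm_real, Real.norm_eq_abs,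
            Real.norm_eq_abs]
          have : |x - 1| ≤ 1 := abs_le.mpr ⟨by linarith [hx.1], by linarith [hx.2]⟩
          linarith
        have h3 : ‖P ((x:ℂ) + y * I)‖ ≤ A + B * (1 + |y|) + D * (1 + |y|) ^ 2 := by
          rw [hP]
          simp only
          refine (norm_add_le _ _).trans ?_
          refine add_le_add ((norm_add_le _ _).trans ?_) ?_
          · rw [norm_mul, ← hA, ← hB]
            have := mul_le_mul_of_nonneg_left h4 hB0
            linarith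
          · rw [norm_mul, norm_pow, ← hD]
            exact mul_le_mul_of_nonneg_left (pow_le_pow_left₀ (norm_nonneg _) h4 2) hD0
        have h5 : Real.exp (1 - y ^ 2) * (A + B * (1 + |y|) + D * (1 + |y|) ^ 2) ≤
            (A + 2 * B + 4 * D) * Real.exp (1 - y ^ 2 / 2) := by
          have e1 : Real.exp (1 - y ^ 2 / 2) = Real.exp (1 - y ^ 2) * Real.exp (y ^ 2 / 2) := by
            rw [← Real.exp_add]
            congr 1
            ring
          have e2 := Real.add_one_le_exp (y ^ 2 / 2)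
          have e3 : |y| ≤ 1 + y ^ 2 := by
            have := sq_abs y
            nlinarith [sq_nonneg (|y| - 1), abs_nonneg y]
          have e3' : (1 + |y|) ^ 2 ≤ 2 + 2 * y ^ 2 := by
            have := sq_abs y
            nlinarith [sq_nonneg (|y| - 1)]
          rw [e1]
          have e4 := Real.exp_pos (1 - y ^ 2)
          have t1 : A ≤ A * Real.exp (y ^ 2 / 2) := by
            nlinarith [mul_nonneg hA0 (by nlinarith [sq_nonneg y] : (0:ℝ) ≤ Real.exp (y ^ 2 / 2) - 1)]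
          have t2 : B * (1 + |y|) ≤ 2 * B * Real.exp (y ^ 2 / 2) := by
            have : 1 + |y| ≤ 2 * Real.exp (y ^ 2 / 2) := by linarith
            nlinarith [mul_le_mul_of_nonneg_left this hB0]
          have t3 : D * (1 + |y|) ^ 2 ≤ 4 * D * Real.exp (y ^ 2 / 2) := by
            have : (1 + |y|) ^ 2 ≤ 4 * Real.exp (y ^ 2 / 2) := by linarith
            nlinarith [mul_le_mul_of_nonneg_left this hD0]
          have e5 : A + B * (1 + |y|) + D * (1 + |y|) ^ 2 ≤ (A + 2 * B + 4 * D) * Real.exp (y ^ 2 / 2) := by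
            linarith
          have := mul_le_mul_of_nonneg_left e5 e4.le
          linarith
        have h6 := hb x hx y
        have h7 := mul_le_mul h2 h3 (norm_nonneg _) (Real.exp_pos _).le
        linarith
      have h8 : ‖f ((x:ℂ) + y * I)‖ / ‖((x:ℂ) + y * I - 1) ^ 3‖ ≤ ‖f ((x:ℂ) + y * I)‖ :=
        div_le_self (norm_nonneg _) hn1
      nlinarith [mul_nonneg hK0 hE.le]
  have r1 : Integrable (fun y : ℝ => g y + (A + 2 * B + 4 * D + K) * Real.exp (1 - y ^ 2 / 2)) := hg.add q1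
  have r2 : Tendsto (fun y : ℝ => g y + (A + 2 * B + 4 * D + K) * Real.exp (1 - y ^ 2 / 2)) atTop (𝓝 0) := by
    simpa using hg0.add q2
  have r3 : Tendsto (fun y : ℝ => g y + (A + 2 * B + 4 * D + K) * Real.exp (1 - y ^ 2 / 2)) atBot (𝓝 0) := by
    simpa using hg1.add q3
  obtain ⟨v1, v2⟩ := vertical_shift (G := G) (a := 1/2) (b := 2) (by norm_num)
    (fun s h0 _ => hGd s (by linarith)) r1 r2 r3 hdom
  have i1 := v1 2 ⟨by norm_num, le_rfl⟩
  have i2 := v1 (1/2) ⟨le_rfl, by norm_num⟩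
  obtain ⟨s1, s2, s3⟩ := LibF4.ker_simple
  obtain ⟨d1, d2, d3⟩ := LibF4.ker_double
  have m1 : ((-(1/2) : ℝ) : ℂ) = -(1/2:ℂ) := by push_cast; ring
  have t1 := x01_int 3 (x := 1) one_ne_zero
  have t2 := x01_int 3 (x := -(1/2)) (by norm_num)
  have t3 := x01_ker (x := 1) one_ne_zero
  have t4 := x01_ker (x := -(1/2)) (by norm_num)
  rw [m1] at t2 t4
  rw [Complex.ofReal_one] at t1 t3
  have k1 : ∀ y : ℝ, H ((2:ℂ) + y * I) / ((1:ℂ) + y * I) ^ 3 = G (((2:ℝ):ℂ) + y * I) +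
      H 1 * (cexp (((1:ℂ) + y * I) ^ 2) / ((1:ℂ) + y * I) ^ 3) +
      deriv H 1 * (cexp (((1:ℂ) + y * I) ^ 2) / ((1:ℂ) + y * I) ^ 2) +
      c * (cexp (((1:ℂ) + y * I) ^ 2) / ((1:ℂ) + y * I)) := by
    intro y
    have hne : (1:ℂ) + y * I ≠ 0 := by
      intro h
      have := congrArg Complex.re h
      simp at this
    have hsub : ((2:ℝ):ℂ) + y * I - 1 = (1:ℂ) + y * I := by push_cast; ring
    have hs : ((2:ℝ):ℂ) + y * I ≠ 1 := by
      intro h
      apply hne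
      rw [← hsub, h]
      ring
    rw [hGe _ hs, hsub]
    simp only [hf, hP, hsub]
    have : ((2:ℝ):ℂ) = 2 := by norm_num
    rw [this]
    generalize (1:ℂ) + y * I = w at hne ⊢
    field_simp
    ring
  have k2 : ∀ y : ℝ, H ((1/2:ℂ) + y * I) / (-(1/2:ℂ) + y * I) ^ 3 = G (((1/2:ℝ):ℂ) + y * I) +
      H 1 * (cexp ((-(1/2:ℂ) + y * I) ^ 2) / (-(1/2:ℂ) + y * I) ^ 3) +
      deriv H 1 * (cexp ((-(1/2:ℂ) + y * I) ^ 2) / (-(1/2:ℂ) + y * I) ^ 2) +
      c * (cexp ((-(1/2:ℂ) + y * I) ^ 2) / (-(1/2:ℂ) + y * I)) := by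
    intro y
    have hne : -(1/2:ℂ) + y * I ≠ 0 := by
      intro h
      have := congrArg Complex.re h
      norm_num at this
    have hsub : ((1/2:ℝ):ℂ) + y * I - 1 = -(1/2:ℂ) + y * I := by push_cast; ring
    have hs : ((1/2:ℝ):ℂ) + y * I ≠ 1 := by
      intro h
      apply hne
      rw [← hsub, h]
      ring
    rw [hGe _ hs, hsub]
    simp only [hf, hP, hsub]
    have : ((1/2:ℝ):ℂ) = 1/2 := by push_cast; ring
    rw [this]
    generalize -(1/2:ℂ) + y * I = w at hne ⊢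
    field_simp
    ring
  have j1 : Integrable (fun y : ℝ => G (((2:ℝ):ℂ) + y * I) +
      H 1 * (cexp (((1:ℂ) + y * I) ^ 2) / ((1:ℂ) + y * I) ^ 3)) := i1.add (t1.const_mul _)
  have j2 : Integrable (fun y : ℝ => G (((1/2:ℝ):ℂ) + y * I) +
      H 1 * (cexp ((-(1/2:ℂ) + y * I) ^ 2) / (-(1/2:ℂ) + y * I) ^ 3)) := i2.add (t2.const_mul _)
  have l1 : Integrable (fun y : ℝ => G (((2:ℝ):ℂ) + y * I) +
      H 1 * (cexp (((1:ℂ) + y * I) ^ 2) / ((1:ℂ) + y * I) ^ 3) +
      deriv H 1 * (cexp (((1:ℂ) + y * I) ^ 2) / ((1:ℂ) + y * I) ^ 2)) := j1.add (d1.const_mul _)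
  have l2 : Integrable (fun y : ℝ => G (((1/2:ℝ):ℂ) + y * I) +
      H 1 * (cexp ((-(1/2:ℂ) + y * I) ^ 2) / (-(1/2:ℂ) + y * I) ^ 3) +
      deriv H 1 * (cexp ((-(1/2:ℂ) + y * I) ^ 2) / (-(1/2:ℂ) + y * I) ^ 2)) := j2.add (d2.const_mul _)
  simp_rw [k1, k2]
  refine ⟨l1.add (s1.const_mul _), l2.add (s2.const_mul _), ?_⟩
  rw [integral_add l1 (s1.const_mul _), integral_add j1 (d1.const_mul _), integral_add i1 (t1.const_mul _),
    integral_add l2 (s2.const_mul _), integral_add j2 (d2.const_mul _), integral_add i2 (t2.const_mul _)]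
  simp only [integral_const_mul]
  have v3 : ∫ y : ℝ, G (((1/2:ℝ):ℂ) + y * I) = ∫ y : ℝ, G (((2:ℝ):ℂ) + y * I) := v2
  rw [v3, d3, t3, t4, hc]
  linear_combination h2 * s3

end Pool.Agent.LibPH
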