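import Mathlib
import Pool.Agent.LibPH.XDefs

/-! ROW X02: bounds for Γ and the Mellin representation of `e^{-z}`.

gam_bd = `gamma_bd` of /team-store/F4_M03.lean (copy, new names with prefix x02_).
cpow_norm: `‖z^{-(c+iy)}‖ = ‖z‖^{-c} e^{y arg z}`.
exp_mellin: adapt /team-store/F4_M09.lean: Mellin inversion (`mellin_inversion`) for `f(x) = exp(-x w)`, `w = z/‖z‖`, at `x = ‖z‖`,
`σ = 2`; `mellin f s = (1/w)^s Γ(s)` (`m09_rot`, copy it), and `(1/w)^s ‖z‖^{-s} = z^{-s}`. Vertical integrability: gam_bd with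
`θ = ±(π/2 - α/2)`, `α = π/2 - |arg z| > 0`. -/

set_option autoImplicit false

namespace Pool.Agent.LibPH

open MeasureTheory Set Filter Topology Complex
open scoped ComplexConjugate

theorem x02_int {a r : ℝ} (ha : -1 < a) (hr : 0 < r) :
    IntegrableOn (fun t : ℝ => t ^ a * Real.exp (-(r * t))) (Ioi 0) := by
  have h := integrableOn_rpow_mul_exp_neg_mul_rpow (p := 1) ha one_pos hr
  refine h.congr_fun ?_ measurableSet_Ioi
  intro t ht
  simp only [Real.rpow_one, neg_mul]

theorem x02_meas (s p : ℂ) : AEStronglyMeasurable (fun t : ℝ => (t : ℂ) ^ (s - 1) * cexp (-(p * t)))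
    (volume.restrict (Ioi (0:ℝ))) := by
  apply ContinuousOn.aestronglyMeasurable _ measurableSet_Ioi
  intro t ht
  have ht0 : (0:ℝ) < t := ht
  apply ContinuousAt.continuousWithinAt
  apply ContinuousAt.mul
  · exact continuousAt_ofReal_cpow_const t (s - 1) (Or.inr ht0.ne')
  · fun_prop

theorem x02_norm (s p : ℂ) {t : ℝ} (ht : 0 < t) :
    ‖(t : ℂ) ^ (s - 1) * cexp (-(p * t))‖ = t ^ (s.re - 1) * Real.exp (-(p.re * t)) := by
  rw [norm_mul, Complex.norm_cpow_eq_rpow_re_of_pos ht, Complex.norm_exp]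
  have e1 : (s - 1).re = s.re - 1 := by simp
  have e2 : (-(p * (t:ℂ))).re = -(p.re * t) := by
    rw [neg_re, mul_re, ofReal_re, ofReal_im, mul_zero, sub_zero]
  rw [e1, e2]

theorem x02_diff {s : ℂ} (hs : 0 < s.re) {p : ℂ} (hp : 0 < p.re) :
    DifferentiableAt ℂ (fun p : ℂ => ∫ t in Ioi (0:ℝ), (t : ℂ) ^ (s - 1) * cexp (-(p * t))) p := by
  have hU : {z : ℂ | p.re / 2 < z.re} ∈ 𝓝 p :=
    (isOpen_lt continuous_const Complex.continuous_re).mem_nhds (by
      show p.re / 2 < p.re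
      linarith)
  refine (hasDerivAt_integral_of_dominated_loc_of_deriv_le (μ := volume.restrict (Ioi (0:ℝ)))
    (F := fun (z : ℂ) (t : ℝ) => (t : ℂ) ^ (s - 1) * cexp (-(z * t)))
    (F' := fun (z : ℂ) (t : ℝ) => (t : ℂ) ^ (s - 1) * (cexp (-(z * t)) * (-(t : ℂ))))
    (bound := fun t : ℝ => t ^ s.re * Real.exp (-(p.re / 2 * t))) hU ?_ ?_ ?_ ?_ ?_ ?_).2.differentiableAt
  · exact Filter.Eventually.of_forall (fun z => x02_meas s z)
  · refine (x02_int (a := s.re - 1) (by linarith) hp).mono' (x02_meas s p) ?_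
    refine (ae_restrict_iff' measurableSet_Ioi).2 (Filter.Eventually.of_forall ?_)
    intro t ht
    exact (x02_norm s p ht).le
  · have := (x02_meas s p).mul (Complex.continuous_ofReal.neg.aestronglyMeasurable (μ := volume.restrict (Ioi (0:ℝ))))
    refine this.congr (Filter.Eventually.of_forall ?_)
    intro t
    simp only [Pi.mul_apply, Pi.neg_apply]
    ring
  · refine (ae_restrict_iff' measurableSet_Ioi).2 (Filter.Eventually.of_forall ?_)
    intro t ht z hz
    have ht0 : (0:ℝ) < t := ht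
    have hz' : p.re / 2 < z.re := hz
    rw [← mul_assoc, norm_mul, x02_norm s z ht0, norm_neg, Complex.norm_real, Real.norm_eq_abs,
      abs_of_pos ht0]
    have e1 : t ^ s.re = t ^ (s.re - 1) * t := by
      rw [← Real.rpow_add_one ht0.ne']
      congr 1
      ring
    have e2 : Real.exp (-(z.re * t)) ≤ Real.exp (-(p.re / 2 * t)) := by
      apply Real.exp_le_exp.2
      nlinarith
    rw [e1]
    have e3 : 0 ≤ t ^ (s.re - 1) := Real.rpow_nonneg ht0.le _
    calc t ^ (s.re - 1) * Real.exp (-(z.re * t)) * t = (t ^ (s.re - 1) * t) * Real.exp (-(z.re * t)) := by ring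
      _ ≤ _ := by
        apply mul_le_mul_of_nonneg_left e2
        positivity
  · exact x02_int (by linarith) (by linarith)
  · refine Filter.Eventually.of_forall ?_
    intro t z _
    apply HasDerivAt.const_mul
    have h1 : HasDerivAt (fun x : ℂ => -(x * (t:ℂ))) (-(1 * (t : ℂ))) z :=
      ((hasDerivAt_id z).mul_const (t : ℂ)).fun_neg
    rw [one_mul] at h1
    exact h1.cexp

theorem x02_eq {s : ℂ} (hs : 0 < s.re) {p : ℂ} (hp : 0 < p.re) :
    ∫ t in Ioi (0:ℝ), (t : ℂ) ^ (s - 1) * cexp (-(p * t)) = (1 / p) ^ s * Complex.Gamma s := by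
  have hUo : IsOpen {z : ℂ | 0 < z.re} := isOpen_lt continuous_const Complex.continuous_re
  have hUc : Convex ℝ {z : ℂ | 0 < z.re} := convex_halfSpace_re_gt 0
  have hf : AnalyticOnNhd ℂ (fun p : ℂ => ∫ t in Ioi (0:ℝ), (t : ℂ) ^ (s - 1) * cexp (-(p * t)))
      {z : ℂ | 0 < z.re} := by
    apply DifferentiableOn.analyticOnNhd _ hUo
    intro z hz
    exact (x02_diff hs hz).differentiableWithinAt
  have hg : AnalyticOnNhd ℂ (fun p : ℂ => (1 / p) ^ s * Complex.Gamma s) {z : ℂ | 0 < z.re} := by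
    apply DifferentiableOn.analyticOnNhd _ hUo
    intro z hz
    have hz0 : (0:ℝ) < z.re := hz
    have hzne : z ≠ 0 := by
      intro h
      rw [h] at hz0
      simp at hz0
    have hre : 0 < (1 / z).re := by
      rw [one_div, Complex.inv_re]
      exact div_pos hz0 (Complex.normSq_pos.2 hzne)
    apply DifferentiableAt.differentiableWithinAt
    apply DifferentiableAt.mul_const
    apply DifferentiableAt.cpow_const
    · exact (differentiableAt_const _).div differentiableAt_id hzne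
    · exact Or.inl hre
  have h1 : (1:ℂ) ∈ {z : ℂ | 0 < z.re} := by simp
  have hfreq : ∃ᶠ z in 𝓝[≠] (1:ℂ), (fun p : ℂ => ∫ t in Ioi (0:ℝ), (t : ℂ) ^ (s - 1) * cexp (-(p * t))) z
      = (fun p : ℂ => (1 / p) ^ s * Complex.Gamma s) z := by
    have hT : Tendsto (fun n : ℕ => ((1 + 1 / ((n:ℝ) + 1) : ℝ) : ℂ)) atTop (𝓝[≠] (1:ℂ)) := by
      rw [tendsto_nhdsWithin_iff]
      constructor
      · have : Tendsto (fun n : ℕ => (1 + 1 / ((n:ℝ) + 1) : ℝ)) atTop (𝓝 (1 + 0)) :=
          tendsto_const_nhds.add tendsto_one_div_add_atTop_nhds_zero_nat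
        rw [add_zero] at this
        exact_mod_cast (Complex.continuous_ofReal.tendsto 1).comp this
      · refine Filter.Eventually.of_forall ?_
        intro n hn
        have : (1 + 1 / ((n:ℝ) + 1) : ℝ) = 1 := Complex.ofReal_eq_one.1 hn
        have h2 : (0:ℝ) < 1 / ((n:ℝ) + 1) := by positivity
        linarith
    refine hT.frequently (Filter.Frequently.of_forall ?_)
    intro n
    have h2 : (0:ℝ) < 1 + 1 / ((n:ℝ) + 1) := by positivity
    exact Complex.integral_cpow_mul_exp_neg_mul_Ioi hs h2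
  exact hf.eqOn_of_preconnected_of_frequently_eq hg hUc.isPreconnected h1 hfreq hp

theorem gam_bd {s : ℂ} (hs : 0 < s.re) {θ : ℝ} (hθ : |θ| < Real.pi / 2) :
    ‖Complex.Gamma s‖ * Real.exp (s.im * θ) ≤ Real.Gamma s.re * Real.cos θ ^ (-s.re) := by
  have hc : 0 < Real.cos θ := Real.cos_pos_of_mem_Ioo ⟨by linarith [(abs_lt.1 hθ).1], (abs_lt.1 hθ).2⟩
  set p : ℂ := cexp ((θ : ℂ) * I) with hp
  have hpre : p.re = Real.cos θ := by
    rw [hp, Complex.exp_ofReal_mul_I_re]
  have h1 := x02_eq hs (p := p) (by rw [hpre]; exact hc)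
  have h2 := Real.integral_rpow_mul_exp_neg_mul_Ioi hs hc
  have hinv : (1 / p) = cexp (-((θ : ℂ) * I)) := by
    rw [hp, one_div, ← Complex.exp_neg]
  have hlog : Complex.log (1 / p) = -((θ : ℂ) * I) := by
    rw [hinv, Complex.log_exp]
    · simp only [neg_im, mul_im, ofReal_re, I_im, mul_one, ofReal_im, I_re, mul_zero, add_zero]
      linarith [(abs_lt.1 hθ).2, Real.pi_pos]
    · simp only [neg_im, mul_im, ofReal_re, I_im, mul_one, ofReal_im, I_re, mul_zero, add_zero]
      linarith [(abs_lt.1 hθ).1, Real.pi_pos]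
  have hne : (1 / p) ≠ 0 := by
    rw [hinv]; exact Complex.exp_ne_zero _
  have hn : ‖(1 / p) ^ s‖ = Real.exp (s.im * θ) := by
    rw [Complex.cpow_def_of_ne_zero hne, hlog, Complex.norm_exp]
    congr 1
    simp only [mul_re, neg_re, neg_im, mul_im, ofReal_re, I_im, mul_one, ofReal_im, I_re, mul_zero,
      add_zero, sub_zero]
    ring
  have h3 : ‖∫ t in Ioi (0:ℝ), (t : ℂ) ^ (s - 1) * cexp (-(p * t))‖
      ≤ ∫ t in Ioi (0:ℝ), t ^ (s.re - 1) * Real.exp (-(Real.cos θ * t)) := by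
    refine (norm_integral_le_integral_norm _).trans (le_of_eq ?_)
    refine setIntegral_congr_fun measurableSet_Ioi ?_
    intro t ht
    have ht0 : (0:ℝ) < t := ht
    simp only [norm_mul]
    rw [Complex.norm_cpow_eq_rpow_re_of_pos ht0, Complex.norm_exp]
    have e1 : (s - 1).re = s.re - 1 := by simp
    have e2 : (-(p * (t:ℂ))).re = -(Real.cos θ * t) := by
      rw [neg_re, mul_re, ofReal_re, ofReal_im, mul_zero, sub_zero, hpre]
    rw [e1, e2]
  rw [h1, h2, norm_mul, hn] at h3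
  calc ‖Complex.Gamma s‖ * Real.exp (s.im * θ) = Real.exp (s.im * θ) * ‖Complex.Gamma s‖ := by ring
    _ ≤ (1 / Real.cos θ) ^ s.re * Real.Gamma s.re := h3
    _ = Real.Gamma s.re * Real.cos θ ^ (-s.re) := by
      rw [one_div, Real.inv_rpow hc.le, Real.rpow_neg hc.le]
      ring


theorem x02_exp {a : ℝ} (ha : 0 < a) : Integrable (fun y : ℝ => Real.exp (-(a * |y|))) := by
  rw [← integrableOn_univ, ← Set.Iic_union_Ioi (a := (0 : ℝ)), integrableOn_union]
  constructor
  · refine (integrableOn_exp_mul_Iic ha 0).congr_fun (fun y hy => ?_) measurableSet_Iic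
    show Real.exp (a * y) = Real.exp (-(a * |y|))
    rw [abs_of_nonpos hy]
    ring_nf
  · refine (integrableOn_exp_mul_Ioi (a := -a) (neg_lt_zero.2 ha) 0).congr_fun
      (fun y hy => ?_) measurableSet_Ioi
    show Real.exp (-a * y) = Real.exp (-(a * |y|))
    rw [abs_of_pos hy]
    ring_nf

theorem cpow_norm {z : ℂ} (hz : 0 < z.re) (c y : ℝ) :
    ‖z ^ (-((c:ℂ) + y * I))‖ = ‖z‖ ^ (-c) * Real.exp (y * arg z) := by
  have hz0 : z ≠ 0 := by
    rintro rfl
    simp at hz
  rw [Complex.norm_cpow_of_ne_zero hz0]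
  have e1 : (-((c:ℂ) + y * I)).re = -c := by simp
  have e2 : (-((c:ℂ) + y * I)).im = -y := by simp
  rw [e1, e2, div_eq_mul_inv, ← Real.exp_neg]
  congr 2
  ring

/-- the decay of `Γ(s) z^{-s}` in the strip `1/2 ≤ Re s ≤ 2` -/
theorem gam_cpow {z : ℂ} (hz : 0 < z.re) : ∃ C a : ℝ, 0 < C ∧ 0 < a ∧ ∀ x ∈ Icc (1/2:ℝ) 2, ∀ y : ℝ,
    ‖Complex.Gamma ((x:ℂ) + y * I) * z ^ (-((x:ℂ) + y * I))‖ ≤ C * Real.exp (-(a * |y|)) := by
  have hz0 : z ≠ 0 := by
    rintro rfl
    simp at hz
  have hn : 0 < ‖z‖ := norm_pos_iff.2 hz0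
  have hpi := Real.pi_pos
  have harg : |arg z| < Real.pi / 2 := Complex.abs_arg_lt_pi_div_two_iff.2 (Or.inl hz)
  set α : ℝ := Real.pi / 2 - |arg z| with hα
  have hα0 : 0 < α := by rw [hα]; linarith
  have hα1 : α ≤ Real.pi / 2 := by rw [hα]; linarith [abs_nonneg (arg z)]
  set θ : ℝ := Real.pi / 2 - α / 2 with hθ
  have hθ0 : 0 < θ := by rw [hθ]; linarith
  have hθ1 : θ < Real.pi / 2 := by rw [hθ]; linarith
  have hcos : 0 < Real.cos θ := Real.cos_pos_of_mem_Ioo ⟨by linarith, hθ1⟩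
  have hcont : ContinuousOn (fun x : ℝ => Real.Gamma x * Real.cos θ ^ (-x) * ‖z‖ ^ (-x)) (Icc (1/2:ℝ) 2) := by
    refine ContinuousOn.mul (ContinuousOn.mul ?_ ?_) ?_
    · intro x hx
      refine (Real.differentiableAt_Gamma fun m h => ?_).continuousAt.continuousWithinAt
      have h1 := hx.1
      rw [h] at h1
      have h2 : (0:ℝ) ≤ m := Nat.cast_nonneg m
      linarith
    · exact (Real.continuous_const_rpow hcos.ne').comp_continuousOn continuous_neg.continuousOn
    · exact (Real.continuous_const_rpow hn.ne').comp_continuousOn continuous_neg.continuousOn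
  obtain ⟨C, hC⟩ := isCompact_Icc.exists_bound_of_continuousOn hcont
  refine ⟨|C| + 1, α / 2, by positivity, by positivity, fun x hx y => ?_⟩
  have hx0 : 0 < x := by linarith [hx.1]
  have hCx : Real.Gamma x * Real.cos θ ^ (-x) * ‖z‖ ^ (-x) ≤ |C| + 1 := by
    have h1 := hC x hx
    rw [Real.norm_eq_abs] at h1
    linarith [le_abs_self (Real.Gamma x * Real.cos θ ^ (-x) * ‖z‖ ^ (-x)), le_abs_self C]
  have hre : ((x:ℂ) + y * I).re = x := by simp
  have him : ((x:ℂ) + y * I).im = y := by simp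
  have key : ∀ η : ℝ, |η| < Real.pi / 2 → Real.cos η = Real.cos θ → y * arg z - y * η ≤ -(α / 2 * |y|) →
      ‖Complex.Gamma ((x:ℂ) + y * I) * z ^ (-((x:ℂ) + y * I))‖ ≤ (|C| + 1) * Real.exp (-(α / 2 * |y|)) := by
    intro η h1 h2 h3
    have hg := gam_bd (s := (x:ℂ) + y * I) (by rw [hre]; exact hx0) (θ := η) h1
    rw [hre, him, h2] at hg
    have hG : ‖Complex.Gamma ((x:ℂ) + y * I)‖ ≤ Real.Gamma x * Real.cos θ ^ (-x) * Real.exp (-(y * η)) := by
      rw [Real.exp_neg, ← div_eq_mul_inv, le_div_iff₀ (Real.exp_pos _)]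
      exact hg
    rw [norm_mul, cpow_norm hz]
    calc ‖Complex.Gamma ((x:ℂ) + y * I)‖ * (‖z‖ ^ (-x) * Real.exp (y * arg z))
        ≤ (Real.Gamma x * Real.cos θ ^ (-x) * Real.exp (-(y * η))) * (‖z‖ ^ (-x) * Real.exp (y * arg z)) :=
          mul_le_mul_of_nonneg_right hG (by positivity)
      _ = (Real.Gamma x * Real.cos θ ^ (-x) * ‖z‖ ^ (-x)) * Real.exp (y * arg z - y * η) := by
          rw [sub_eq_add_neg, Real.exp_add]
          ring
      _ ≤ (|C| + 1) * Real.exp (-(α / 2 * |y|)) := by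
          refine mul_le_mul hCx (Real.exp_le_exp.2 h3) (Real.exp_pos _).le (by positivity)
  rcases le_or_gt 0 y with hy | hy
  · refine key θ (by rw [abs_of_pos hθ0]; exact hθ1) rfl ?_
    rw [abs_of_nonneg hy]
    have h4 : y * arg z ≤ y * |arg z| := mul_le_mul_of_nonneg_left (le_abs_self _) hy
    have h5 : |arg z| = Real.pi / 2 - α := by rw [hα]; ring
    rw [h5] at h4
    rw [hθ]
    nlinarith
  · refine key (-θ) (by rw [abs_neg, abs_of_pos hθ0]; exact hθ1) (Real.cos_neg θ) ?_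
    rw [abs_of_neg hy]
    have h4 : y * arg z ≤ -y * |arg z| := by
      have := mul_le_mul_of_nonneg_left (neg_abs_le (arg z)) (neg_nonneg.2 hy.le)
      nlinarith
    have h5 : |arg z| = Real.pi / 2 - α := by rw [hα]; ring
    rw [h5] at h4
    rw [hθ]
    nlinarith

theorem x02_inv_cpow {z : ℂ} (hz : 0 < z.re) (s : ℂ) : (1 / z) ^ s = z ^ (-s) := by
  have harg : |arg z| < Real.pi / 2 := Complex.abs_arg_lt_pi_div_two_iff.2 (Or.inl hz)
  have hne : arg z ≠ Real.pi := by
    intro h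
    rw [h, abs_of_pos Real.pi_pos] at harg
    linarith [Real.pi_pos]
  rw [one_div, Complex.inv_cpow z s hne, Complex.cpow_neg]

theorem x02_cont {z : ℂ} (hz : 0 < z.re) :
    Continuous (fun y : ℝ => Complex.Gamma ((2:ℂ) + y * I) * z ^ (-((2:ℂ) + y * I))) := by
  have hz0 : z ≠ 0 := by
    rintro rfl
    simp at hz
  have hre : ∀ y : ℝ, ((2:ℂ) + y * I).re = 2 := by intro y; simp
  apply Continuous.mul
  · rw [continuous_iff_continuousAt]
    intro y
    have hd : DifferentiableAt ℂ Complex.Gamma ((2:ℂ) + y * I) := by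
      apply Complex.differentiableAt_Gamma
      intro k hk
      have := congrArg Complex.re hk
      rw [hre, Complex.neg_re, Complex.natCast_re] at this
      have hk0 : (0:ℝ) ≤ k := Nat.cast_nonneg k
      linarith
    have hc : ContinuousAt (fun y : ℝ => (2:ℂ) + y * I) y := by fun_prop
    exact ContinuousAt.comp (f := fun y : ℝ => (2:ℂ) + y * I) hd.continuousAt hc
  · apply Continuous.const_cpow (by fun_prop)
    exact Or.inl hz0

theorem exp_mellin {z : ℂ} (hz : 0 < z.re) :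
    Integrable (fun y : ℝ => Complex.Gamma ((2:ℂ) + y * I) * z ^ (-((2:ℂ) + y * I))) ∧
    cexp (-z) = ((1 / (2 * Real.pi) : ℝ) : ℂ) * ∫ y : ℝ, Complex.Gamma ((2:ℂ) + y * I) * z ^ (-((2:ℂ) + y * I)) := by
  obtain ⟨C, a, hC, ha, hb⟩ := gam_cpow hz
  have hint : Integrable (fun y : ℝ => Complex.Gamma ((2:ℂ) + y * I) * z ^ (-((2:ℂ) + y * I))) := by
    refine Integrable.mono' ((x02_exp ha).const_mul C) (x02_cont hz).aestronglyMeasurable
      (Eventually.of_forall fun y => ?_)
    have := hb 2 ⟨by norm_num, le_rfl⟩ y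
    simpa only [Complex.ofReal_ofNat] using this
  refine ⟨hint, ?_⟩
  have hre : ∀ y : ℝ, ((2:ℂ) + y * I).re = 2 := by intro y; simp
  have hmel : ∀ s : ℂ, 0 < s.re → mellin (fun t : ℝ => cexp (-((t:ℂ) * z))) s = z ^ (-s) * Complex.Gamma s := by
    intro s hs
    unfold mellin
    have e1 : ∀ t : ℝ, (t:ℂ) ^ (s - 1) • cexp (-((t:ℂ) * z)) = (t:ℂ) ^ (s - 1) * cexp (-(z * t)) := by
      intro t
      rw [smul_eq_mul, mul_comm (t:ℂ) z]
    simp_rw [e1]
    rw [x02_eq hs hz, x02_inv_cpow hz]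
  have hconv : MellinConvergent (fun t : ℝ => cexp (-((t:ℂ) * z))) ((2:ℝ):ℂ) := by
    unfold MellinConvergent
    have h3 := x02_int (a := 1) (by norm_num) hz
    refine Integrable.mono' h3 ?_ ?_
    · apply ContinuousOn.aestronglyMeasurable _ measurableSet_Ioi
      apply ContinuousOn.fun_smul
      · intro t ht
        have ht' : (0:ℝ) < t := ht
        apply ContinuousAt.continuousWithinAt
        apply ContinuousAt.cpow (Complex.continuous_ofReal.continuousAt) continuousAt_const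
        exact Or.inl (by simpa using ht')
      · fun_prop
    · rw [ae_restrict_iff' measurableSet_Ioi]
      refine Eventually.of_forall fun t ht => ?_
      have ht' : (0:ℝ) < t := ht
      rw [norm_smul, Complex.norm_cpow_eq_rpow_re_of_pos ht', Complex.norm_exp, Complex.neg_re,
        Complex.re_ofReal_mul]
      have e3 : (((2:ℝ):ℂ) - 1).re = 1 := by
        simp
        norm_num
      rw [e3, mul_comm t z.re]
  have hvert : VerticalIntegrable (mellin (fun t : ℝ => cexp (-((t:ℂ) * z)))) 2 := by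
    unfold VerticalIntegrable
    refine hint.congr (Eventually.of_forall fun y => ?_)
    have := hmel ((2:ℂ) + y * I) (by rw [hre]; norm_num)
    simp only [Complex.ofReal_ofNat]
    rw [this, mul_comm]
  have hinv := mellinInv_mellin_eq 2 (fun t : ℝ => cexp (-((t:ℂ) * z))) one_pos hconv hvert
    (by fun_prop)
  simp only [Complex.ofReal_one, one_mul] at hinv
  rw [← hinv]
  unfold mellinInv
  have e4 : ∀ y : ℝ, ((1:ℝ):ℂ) ^ (-(((2:ℝ):ℂ) + y * I)) • mellin (fun t : ℝ => cexp (-((t:ℂ) * z))) (((2:ℝ):ℂ) + y * I)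
      = Complex.Gamma ((2:ℂ) + y * I) * z ^ (-((2:ℂ) + y * I)) := by
    intro y
    rw [Complex.ofReal_ofNat, hmel _ (by rw [hre]; norm_num), smul_eq_mul, Complex.ofReal_one,
      Complex.one_cpow, one_mul, mul_comm]
  simp_rw [e4]
  rw [Complex.real_smul]

end Pool.Agent.LibPH
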