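import Mathlib
import Pool.Agent.LibPH.X02

/-! ROW X03: `F3` as an integral over `Re s = 2`.

summable_pr: `∑_q pr(q)^{-σ} = (∑ (a+1)^{-σ})³` for `σ > 1` (Summable.mul_of_nonneg twice, prod). F3_summable from it:
`e^{-u} ≤ C u^{-2}` (`u = pr q * Re z > 0`; e.g. `Real.add_one_le_exp`, `u²/2 ≤ e^u`).
zeta_cube: `ζ(s)³ = ∑_q pr(q)^{-s}` for `Re s > 1` (zeta_eq_tsum_one_div_nat_add_one_cpow, tsum_mul_tsum_of_summable_norm).
F3_mellin: X02 `exp_mellin` for `pr(q) z`, `(pr(q) z)^{-s} = pr(q)^{-s} z^{-s}` (Complex.mul_cpow_ofReal_nonneg or natCast_mul_cpow),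
`integral_tsum` / `hasSum_integral_of_summable_integral_norm`. -/

set_option autoImplicit false

namespace Pool.Agent.LibPH

open MeasureTheory Set Filter Topology Complex
open scoped ComplexConjugate

theorem x03_pos (q : ℕ × ℕ × ℕ) : 0 < pr q := by
  unfold pr
  positivity

theorem summable_pr {σ : ℝ} (hσ : 1 < σ) : Summable fun q : ℕ × ℕ × ℕ => (pr q : ℝ) ^ (-σ) := by
  have h1 : Summable fun n : ℕ => ((n : ℝ) + 1) ^ (-σ) := by
    have h2 := (summable_nat_add_iff (f := fun n : ℕ => (n : ℝ) ^ (-σ)) 1).2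
      (Real.summable_nat_rpow.2 (by linarith))
    refine h2.congr fun n => ?_
    push_cast
    rfl
  have hn : ∀ n : ℕ, 0 ≤ ((n : ℝ) + 1) ^ (-σ) := fun n => by positivity
  have h2 : Summable fun q : ℕ × ℕ => ((q.1 : ℝ) + 1) ^ (-σ) * ((q.2 : ℝ) + 1) ^ (-σ) :=
    h1.mul_of_nonneg h1 hn hn
  have h3 := h1.mul_of_nonneg h2 hn (fun q => mul_nonneg (hn _) (hn _))
  refine h3.congr fun q => ?_
  unfold pr
  push_cast
  rw [mul_assoc, Real.mul_rpow (by positivity) (by positivity),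
    Real.mul_rpow (by positivity) (by positivity)]

theorem F3_summable {z : ℂ} (hz : 0 < z.re) : Summable fun q : ℕ × ℕ × ℕ => ‖cexp (-((pr q : ℂ) * z))‖ := by
  refine Summable.of_nonneg_of_le (fun q => norm_nonneg _) (fun q => ?_)
    ((summable_pr (σ := 2) (by norm_num)).mul_left (2 / z.re ^ 2))
  have hp : (0 : ℝ) < pr q := Nat.cast_pos.2 (x03_pos q)
  have e1 : (-((pr q : ℂ) * z)).re = -((pr q : ℝ) * z.re) := by
    rw [Complex.neg_re, ← Complex.ofReal_natCast, Complex.re_ofReal_mul]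
  rw [Complex.norm_exp, e1, Real.exp_neg]
  have hu : 0 < (pr q : ℝ) * z.re := mul_pos hp hz
  have h1 := Real.quadratic_le_exp_of_nonneg hu.le
  have h2 : ((pr q : ℝ) * z.re) ^ 2 / 2 ≤ Real.exp ((pr q : ℝ) * z.re) := by linarith
  have h3 : (Real.exp ((pr q : ℝ) * z.re))⁻¹ ≤ (((pr q : ℝ) * z.re) ^ 2 / 2)⁻¹ :=
    inv_anti₀ (by positivity) h2
  refine h3.trans (le_of_eq ?_)
  rw [Real.rpow_neg hp.le, show (2:ℝ) = ((2:ℕ):ℝ) by norm_num, Real.rpow_natCast]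
  field_simp

theorem x03_cpow (q : ℕ × ℕ × ℕ) (s : ℂ) : (pr q : ℂ) ^ (-s) =
    ((q.1 : ℂ) + 1) ^ (-s) * (((q.2.1 : ℂ) + 1) ^ (-s) * ((q.2.2 : ℂ) + 1) ^ (-s)) := by
  have h := fun m n : ℕ => Complex.natCast_mul_natCast_cpow m n (-s)
  have e : (pr q : ℂ) = ((q.1 + 1 : ℕ) : ℂ) * (((q.2.1 + 1) * (q.2.2 + 1) : ℕ) : ℂ) := by
    unfold pr
    push_cast
    ring
  rw [e, h, Nat.cast_mul, h]
  push_cast
  rfl

theorem zeta_cube {s : ℂ} (hs : 1 < s.re) : Summable (fun q : ℕ × ℕ × ℕ => ‖(pr q : ℂ) ^ (-s)‖) ∧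
    riemannZeta s ^ 3 = ∑' q : ℕ × ℕ × ℕ, (pr q : ℂ) ^ (-s) := by
  refine ⟨(summable_pr hs).congr fun q => ?_, ?_⟩
  · rw [Complex.norm_natCast_cpow_of_pos (x03_pos q), Complex.neg_re]
  · have hf : Summable fun n : ℕ => ‖((n : ℂ) + 1) ^ (-s)‖ := by
      have h2 := (summable_nat_add_iff (f := fun n : ℕ => (n : ℝ) ^ (-s.re)) 1).2
        (Real.summable_nat_rpow.2 (by linarith))
      refine h2.congr fun n => ?_
      have e : ((n : ℂ) + 1) = ((n + 1 : ℕ) : ℂ) := by push_cast; rfl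
      rw [e, Complex.norm_natCast_cpow_of_pos (Nat.succ_pos n), Complex.neg_re]
    have hz : riemannZeta s = ∑' n : ℕ, ((n : ℂ) + 1) ^ (-s) := by
      rw [zeta_eq_tsum_one_div_nat_add_one_cpow hs]
      exact tsum_congr fun n => by rw [one_div, Complex.cpow_neg]
    have h2 : (∑' n : ℕ, ((n : ℂ) + 1) ^ (-s)) * (∑' n : ℕ, ((n : ℂ) + 1) ^ (-s)) =
        ∑' q : ℕ × ℕ, ((q.1 : ℂ) + 1) ^ (-s) * ((q.2 : ℂ) + 1) ^ (-s) :=
      tsum_mul_tsum_of_summable_norm hf hf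
    have h2s : Summable fun q : ℕ × ℕ => ‖((q.1 : ℂ) + 1) ^ (-s) * ((q.2 : ℂ) + 1) ^ (-s)‖ :=
      Summable.mul_norm (f := fun n : ℕ => ((n : ℂ) + 1) ^ (-s)) (g := fun n : ℕ => ((n : ℂ) + 1) ^ (-s)) hf hf
    have h3 := tsum_mul_tsum_of_summable_norm (f := fun n : ℕ => ((n : ℂ) + 1) ^ (-s))
      (g := fun q : ℕ × ℕ => ((q.1 : ℂ) + 1) ^ (-s) * ((q.2 : ℂ) + 1) ^ (-s)) hf h2s
    beta_reduce at h3
    have e : riemannZeta s ^ 3 = riemannZeta s * (riemannZeta s * riemannZeta s) := by ring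
    rw [e, hz, h2, h3]
    refine tsum_congr fun q => ?_
    rw [x03_cpow q s]

theorem x03_mul_cpow {n : ℕ} (hn : 0 < n) {z : ℂ} (hz : z ≠ 0) (s : ℂ) :
    ((n : ℂ) * z) ^ s = (n : ℂ) ^ s * z ^ s := by
  have hn' : (0 : ℝ) < n := Nat.cast_pos.2 hn
  have hnc : (n : ℂ) ≠ 0 := by exact_mod_cast hn.ne'
  rw [Complex.cpow_def_of_ne_zero (mul_ne_zero hnc hz), Complex.cpow_def_of_ne_zero hnc,
    Complex.cpow_def_of_ne_zero hz, ← Complex.exp_add, ← Complex.ofReal_natCast,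
    Complex.log_ofReal_mul hn' hz, Complex.ofReal_log hn'.le]
  congr 1
  ring

theorem F3_mellin {z : ℂ} (hz : 0 < z.re) :
    F3 z = ((1 / (2 * Real.pi) : ℝ) : ℂ) * ∫ y : ℝ, Complex.Gamma ((2:ℂ) + y * I) * riemannZeta ((2:ℂ) + y * I) ^ 3 *
      z ^ (-((2:ℂ) + y * I)) := by
  have hz0 : z ≠ 0 := by
    rintro rfl
    simp at hz
  have hre : ∀ y : ℝ, ((2:ℂ) + y * I).re = 2 := by intro y; simp
  set F : ℕ × ℕ × ℕ → ℝ → ℂ := fun q y =>
    Complex.Gamma ((2:ℂ) + y * I) * ((pr q : ℂ) * z) ^ (-((2:ℂ) + y * I)) with hF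
  have hFq : ∀ q y, F q y = (pr q : ℂ) ^ (-((2:ℂ) + y * I)) *
      (Complex.Gamma ((2:ℂ) + y * I) * z ^ (-((2:ℂ) + y * I))) := by
    intro q y
    rw [hF]
    show Complex.Gamma ((2:ℂ) + y * I) * ((pr q : ℂ) * z) ^ (-((2:ℂ) + y * I)) = _
    rw [x03_mul_cpow (x03_pos q) hz0]
    ring
  have hre' : ∀ q : ℕ × ℕ × ℕ, 0 < ((pr q : ℂ) * z).re := by
    intro q
    rw [← Complex.ofReal_natCast, Complex.re_ofReal_mul]
    exact mul_pos (Nat.cast_pos.2 (x03_pos q)) hz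
  have hFint : ∀ q, Integrable (F q) := fun q => (exp_mellin (hre' q)).1
  have hFnorm : ∀ q, ∫ y : ℝ, ‖F q y‖ = (pr q : ℝ) ^ (-2 : ℝ) *
      ∫ y : ℝ, ‖Complex.Gamma ((2:ℂ) + y * I) * z ^ (-((2:ℂ) + y * I))‖ := by
    intro q
    rw [← integral_const_mul]
    refine integral_congr_ae (Eventually.of_forall fun y => ?_)
    show ‖F q y‖ = _
    rw [hFq, norm_mul, Complex.norm_natCast_cpow_of_pos (x03_pos q), Complex.neg_re, hre]
  have hsum : Summable fun q => ∫ y : ℝ, ‖F q y‖ := by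
    simp_rw [hFnorm]
    exact (summable_pr (σ := 2) (by norm_num)).mul_right _
  have hS := hasSum_integral_of_summable_integral_norm hFint hsum
  have hE : ∀ q, cexp (-((pr q : ℂ) * z)) = ((1 / (2 * Real.pi) : ℝ) : ℂ) * ∫ y : ℝ, F q y := fun q =>
    (exp_mellin (hre' q)).2
  unfold F3
  simp_rw [hE]
  rw [tsum_mul_left, hS.tsum_eq]
  congr 1
  refine integral_congr_ae (Eventually.of_forall fun y => ?_)
  show ∑' q, F q y = _
  simp_rw [hFq]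
  rw [tsum_mul_right, ← (zeta_cube (s := (2:ℂ) + y * I) (by rw [hre]; norm_num)).2]
  ring

end Pool.Agent.LibPH
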