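import Mathlib
import Pool.Agent.LibPH.X01
import Pool.Agent.LibPH.X03

/-! ROW X04: `F3 z = I3 z + P3 z`. `triple_pole` with `H(s) = Γ(s) ζ₁(s)³ z^{-s}`, `ζ₁ = riemannZeta₁` (`= (s-1) ζ(s)`, entire:
`differentiable_riemannZeta₁`?), `H(2+iy)/(1+iy)³ = Γ ζ³ z^{-s}` (riemannZeta_eq_inv_sub_mul or similar, see F4_M02/F4_M15).
Bound: zeta1_bd (copy F4_M02: `‖ζ₁(s)‖ ≤ C(1+|Im s|)²` for `1/4 ≤ Re s ≤ 2`, via LibZM.zeta_approx) and X02 `gam_cpow`;
`g(y) = C(1+|y|)^6 e^{-a|y|}` (F4_M05 `dom_int`). -/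

set_option autoImplicit false

namespace Pool.Agent.LibPH

open MeasureTheory Set Filter Topology Complex
open scoped ComplexConjugate

theorem x04_approx {s : ℂ} (hs : 1/4 ≤ s.re) (h1 : s ≠ 1) :
    ‖riemannZeta s - (1 - 1 / (1 - s))‖ ≤ 4 * ‖s‖ := by
  have hs0 : 0 < s.re := by linarith
  have hz := Pool.Agent.LibZM.zeta_approx hs0 h1 (le_refl 1)
  simp only [Finset.Icc_self, Finset.sum_singleton, Nat.cast_one, Complex.one_cpow,
    Real.one_rpow, mul_one] at hz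
  have h3 : ‖s‖ / s.re ≤ 4 * ‖s‖ := by
    rw [div_le_iff₀ hs0]
    nlinarith [norm_nonneg s]
  exact hz.trans h3

theorem x04_zeta1 {s : ℂ} (hs : 1/4 ≤ s.re) :
    ‖riemannZeta₁ s‖ ≤ 1 + ‖s - 1‖ * (1 + 4 * ‖s‖) := by
  by_cases h1 : s = 1
  · subst h1
    simp [riemannZeta₁_one]
  · have h2 : s - 1 ≠ 0 := sub_ne_zero.mpr h1
    have h2' : 1 - s ≠ 0 := sub_ne_zero.mpr (Ne.symm h1)
    have e : riemannZeta₁ s = (s - 1) * (riemannZeta s - (1 - 1 / (1 - s))) + (s - 1) + 1 := by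
      rw [riemannZeta_eq_inv_sub_mul h1]
      field_simp
      ring
    calc ‖riemannZeta₁ s‖ ≤ ‖s - 1‖ * ‖riemannZeta s - (1 - 1 / (1 - s))‖ + ‖s - 1‖ + 1 := by
          rw [e]
          refine (norm_add_le _ _).trans ?_
          rw [norm_one]
          gcongr
          refine (norm_add_le _ _).trans ?_
          rw [norm_mul]
      _ ≤ ‖s - 1‖ * (4 * ‖s‖) + ‖s - 1‖ + 1 := by
          have := x04_approx hs h1
          gcongr
      _ = _ := by ring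

theorem x04_norm {s : ℂ} {a : ℝ} (h : |s.re| ≤ a) : ‖s‖ ≤ a + |s.im| :=
  (Complex.norm_le_abs_re_add_abs_im s).trans (by linarith)

theorem zeta1_bd : ∃ C : ℝ, 0 < C ∧ ∀ s : ℂ, 1/4 ≤ s.re → s.re ≤ 2 → ‖riemannZeta₁ s‖ ≤ C * (1 + |s.im|) ^ 2 := by
  refine ⟨10, by norm_num, fun s h1 h2 => ?_⟩
  have hy := abs_nonneg s.im
  have h3 : ‖s‖ ≤ 2 + |s.im| := x04_norm (by rw [abs_le]; constructor <;> linarith)
  have h4 : ‖s - 1‖ ≤ 1 + |s.im| := by
    have h5 := x04_norm (s := s - 1) (a := 1) (by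
      rw [Complex.sub_re, Complex.one_re, abs_le]
      constructor <;> linarith)
    rw [Complex.sub_im, Complex.one_im, sub_zero] at h5
    exact h5
  calc ‖riemannZeta₁ s‖ ≤ 1 + ‖s - 1‖ * (1 + 4 * ‖s‖) := x04_zeta1 h1
    _ ≤ 1 + (1 + |s.im|) * (1 + 4 * (2 + |s.im|)) := by gcongr
    _ ≤ 10 * (1 + |s.im|) ^ 2 := by nlinarith

theorem x04_exp {a : ℝ} (ha : 0 < a) : Integrable (fun y : ℝ => Real.exp (-(a * |y|))) := by
  rw [← integrableOn_univ, ← Set.Iic_union_Ioi (a := (0 : ℝ)), integrableOn_union]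
  constructor
  · refine (integrableOn_exp_mul_Iic ha 0).congr_fun (fun y hy => ?_) measurableSet_Iic
    show Real.exp (a * y) = Real.exp (-(a * |y|))
    rw [abs_of_nonpos hy]
    ring_nf
  · refine (integrableOn_exp_mul_Ioi (a := -a) (neg_lt_zero.2 ha) 0).congr_fun
      (fun y hy => ?_) measurableSet_Ioi
    show Real.exp (-a * y) = Real.exp (-(a * |y|))
    rw [abs_of_pos hy]
    ring_nf

theorem x04_le {δ : ℝ} (h0 : 0 < δ) (k : ℕ) (y : ℝ) :
    (1 + |y|) ^ k * Real.exp (-(δ / 2 * |y|))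
      ≤ (k.factorial * Real.exp (δ / 4) / (δ / 4) ^ k) * Real.exp (-(δ / 4 * |y|)) := by
  have hx : 0 ≤ δ / 4 * (1 + |y|) := by positivity
  have h1 := Real.pow_div_factorial_le_exp (δ / 4 * (1 + |y|)) hx k
  have h2 : (1 + |y|) ^ k ≤ k.factorial * Real.exp (δ / 4 * (1 + |y|)) / (δ / 4) ^ k := by
    rw [le_div_iff₀ (by positivity), mul_comm, ← mul_pow]
    rwa [div_le_iff₀ (by positivity), mul_comm (Real.exp _)] at h1
  have h3 : k.factorial * Real.exp (δ / 4 * (1 + |y|)) / (δ / 4) ^ k * Real.exp (-(δ / 2 * |y|))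
      = (k.factorial * Real.exp (δ / 4) / (δ / 4) ^ k) * Real.exp (-(δ / 4 * |y|)) := by
    have h4 : Real.exp (δ / 4 * (1 + |y|)) * Real.exp (-(δ / 2 * |y|))
        = Real.exp (δ / 4) * Real.exp (-(δ / 4 * |y|)) := by
      rw [← Real.exp_add, ← Real.exp_add]
      ring_nf
    rw [div_mul_eq_mul_div, mul_assoc, h4, ← mul_assoc, div_mul_eq_mul_div _ _ (Real.exp _)]
  rw [← h3]
  exact mul_le_mul_of_nonneg_right h2 (Real.exp_pos _).le

theorem x04_lim {a : ℝ} (ha : 0 < a) {l : Filter ℝ} (hl : Tendsto (fun y : ℝ => |y|) l atTop) :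
    Tendsto (fun y : ℝ => Real.exp (-(a * |y|))) l (𝓝 0) :=
  Real.tendsto_exp_neg_atTop_nhds_zero.comp (hl.const_mul_atTop ha)

theorem x04_tend {δ : ℝ} (h0 : 0 < δ) (k : ℕ) (c : ℝ) {l : Filter ℝ}
    (hl : Tendsto (fun y : ℝ => |y|) l atTop) :
    Tendsto (fun y : ℝ => c * ((1 + |y|) ^ k * Real.exp (-(δ / 2 * |y|)))) l (𝓝 0) := by
  have h1 : Tendsto (fun y : ℝ => (1 + |y|) ^ k * Real.exp (-(δ / 2 * |y|))) l (𝓝 0) := by
    refine squeeze_zero (fun y => by positivity) (x04_le h0 k) ?_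
    have h2 := (x04_lim (a := δ / 4) (by positivity) hl).const_mul
      ((k.factorial * Real.exp (δ / 4) / (δ / 4) ^ k : ℝ))
    rwa [mul_zero] at h2
  have h3 := h1.const_mul c
  rwa [mul_zero] at h3

theorem x04_dom {δ : ℝ} (h0 : 0 < δ) (k : ℕ) (c : ℝ) :
    Integrable (fun y : ℝ => c * ((1 + |y|) ^ k * Real.exp (-(δ / 2 * |y|)))) ∧
    Tendsto (fun y : ℝ => c * ((1 + |y|) ^ k * Real.exp (-(δ / 2 * |y|)))) atTop (𝓝 0) ∧
    Tendsto (fun y : ℝ => c * ((1 + |y|) ^ k * Real.exp (-(δ / 2 * |y|)))) atBot (𝓝 0) := by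
  refine ⟨?_, x04_tend h0 k c tendsto_abs_atTop_atTop, x04_tend h0 k c tendsto_abs_atBot_atTop⟩
  refine Integrable.const_mul ?_ c
  refine Integrable.mono' ((x04_exp (a := δ / 4) (by positivity)).const_mul
    (k.factorial * Real.exp (δ / 4) / (δ / 4) ^ k)) ?_ (Eventually.of_forall fun y => ?_)
  · exact (by fun_prop : Continuous fun y : ℝ =>
      (1 + |y|) ^ k * Real.exp (-(δ / 2 * |y|))).aestronglyMeasurable
  · rw [Real.norm_of_nonneg (by positivity)]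
    exact x04_le h0 k y

/-- The integrand without its pole. -/
noncomputable def x04_H (z s : ℂ) : ℂ := Complex.Gamma s * riemannZeta₁ s ^ 3 * z ^ (-s)

theorem x04_diff {z : ℂ} (hz : z ≠ 0) (s : ℂ) (hs : 0 < s.re) :
    DifferentiableAt ℂ (x04_H z) s := by
  have h1 : DifferentiableAt ℂ Complex.Gamma s := by
    apply Complex.differentiableAt_Gamma
    intro m hm
    rw [hm, Complex.neg_re, Complex.natCast_re] at hs
    have : (0 : ℝ) ≤ m := Nat.cast_nonneg m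
    linarith
  have h2 : DifferentiableAt ℂ riemannZeta₁ s := differentiable_riemannZeta₁ s
  have h3 : DifferentiableAt ℂ (fun s : ℂ => z ^ (-s)) s :=
    differentiableAt_id.neg.const_cpow (Or.inl hz)
  unfold x04_H
  exact (h1.mul (h2.pow 3)).mul h3

theorem x04_az {z s : ℂ} (hs : s ≠ 1) :
    Complex.Gamma s * riemannZeta s ^ 3 * z ^ (-s) = x04_H z s / (s - 1) ^ 3 := by
  unfold x04_H
  rw [riemannZeta_eq_inv_sub_mul hs]
  have h1 : s - 1 ≠ 0 := sub_ne_zero.2 hs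
  field_simp

theorem F3_eq {z : ℂ} (hz : 0 < z.re) : F3 z = I3 z + P3 z := by
  have hz0 : z ≠ 0 := by
    rintro rfl
    simp at hz
  obtain ⟨C₁, hC₁, hb₁⟩ := zeta1_bd
  obtain ⟨C₂, a, hC₂, ha, hb₂⟩ := gam_cpow hz
  obtain ⟨d1, d2, d3⟩ := x04_dom (δ := 2 * a) (by positivity) 6 (C₂ * C₁ ^ 3)
  have hb : ∀ x ∈ Icc (1/2:ℝ) 2, ∀ y : ℝ, ‖x04_H z (x + y * I)‖ ≤
      C₂ * C₁ ^ 3 * ((1 + |y|) ^ 6 * Real.exp (-(2 * a / 2 * |y|))) := by
    intro x hx y
    have hre : ((x : ℂ) + y * I).re = x := by simp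
    have him : ((x : ℂ) + y * I).im = y := by simp
    have h2 := hb₁ ((x : ℂ) + y * I) (by rw [hre]; linarith [hx.1]) (by rw [hre]; exact hx.2)
    rw [him] at h2
    have h3 := hb₂ x hx y
    have e : x04_H z (x + y * I) = (Complex.Gamma ((x:ℂ) + y * I) * z ^ (-((x:ℂ) + y * I))) *
        riemannZeta₁ ((x : ℂ) + y * I) ^ 3 := by
      unfold x04_H
      ring
    rw [e, norm_mul, norm_pow]
    have h4 : ‖riemannZeta₁ ((x : ℂ) + y * I)‖ ^ 3 ≤ (C₁ * (1 + |y|) ^ 2) ^ 3 :=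
      pow_le_pow_left₀ (norm_nonneg _) h2 3
    refine (mul_le_mul h3 h4 (by positivity) (by positivity)).trans_eq ?_
    have e2 : 2 * a / 2 = a := by ring
    rw [e2]
    ring
  obtain ⟨-, -, hmain⟩ := triple_pole (fun s hs => x04_diff hz0 s hs) d1 d2 d3 (by fun_prop) hb
  have e0 : C2 (fun s => x04_H z (1 + s)) = P3 z := by
    unfold P3
    congr 1
    funext s
    unfold x04_H G0
    ring
  rw [e0] at hmain
  rw [F3_mellin hz, ← hmain]
  unfold I3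
  have e1 : ∀ y : ℝ, Complex.Gamma ((2:ℂ) + y * I) * riemannZeta ((2:ℂ) + y * I) ^ 3 *
      z ^ (-((2:ℂ) + y * I)) = x04_H z ((2:ℂ) + y * I) / ((1:ℂ) + y * I) ^ 3 := by
    intro y
    have hs : ((2 : ℂ) + y * I) ≠ 1 := by
      intro h
      have h2 := congrArg Complex.re h
      simp at h2
    rw [x04_az hs]
    congr 2
    ring
  have e2 : ∀ y : ℝ, Complex.Gamma ((1/2:ℂ) + y * I) * riemannZeta ((1/2:ℂ) + y * I) ^ 3 *
      z ^ (-((1/2:ℂ) + y * I)) = x04_H z ((1/2:ℂ) + y * I) / (-(1/2:ℂ) + y * I) ^ 3 := by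
    intro y
    have hs : ((1/2 : ℂ) + y * I) ≠ 1 := by
      intro h
      have h2 := congrArg Complex.re h
      simp at h2
    rw [x04_az hs]
    congr 2
    ring
  simp only [e1, e2]
  ring

end Pool.Agent.LibPH
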