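import Mathlib
import Pool.Agent.LibPH.X04

/-! ROW X05: the line integral as an error term.

`‖ζ(1/2+iy)‖ ≤ C(1+|y|)` (zeta1_bd gives `‖ζ₁‖ ≤ C(1+|y|)²` and `‖s-1‖ ≥ (1+|y|)/4`). With `φ = |arg z| < π/2`, `α = π/2 - φ`:
gam_bd with `θ = ±(π/2 - α/2)` (sign of `y`): `‖Γ(1/2+iy)‖ e^{φ|y|} ≤ √π sin(α/2)^{-1/2} e^{-(α/2)|y|}`;
`∫ (1+|y|)³ e^{-(α/2)|y|} ≤ C α^{-4}` (α ≤ π/2) and `1/α ≤ 1/sin α = ‖z‖/Re z` (`cos (arg z) = Re z/‖z‖`). -/

set_option autoImplicit false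

namespace Pool.Agent.LibPH

open MeasureTheory Set Filter Topology Complex
open scoped ComplexConjugate

theorem zeta_crit_bd : ∃ C : ℝ, 0 < C ∧ ∀ y : ℝ, ‖riemannZeta ((1/2:ℂ) + y * I)‖ ≤ C * (1 + |y|) := by
  obtain ⟨C, hC, h⟩ := zeta1_bd
  refine ⟨4 * C, by positivity, fun y => ?_⟩
  have hre : ((1/2:ℂ) + y * I).re = 1/2 := by simp
  have him : ((1/2:ℂ) + y * I).im = y := by simp
  have h1 := h ((1/2:ℂ) + y * I) (by rw [hre]; norm_num) (by rw [hre]; norm_num)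
  rw [him] at h1
  have hne : (1/2:ℂ) + y * I ≠ 1 := by
    intro he
    have := congrArg Complex.re he
    rw [hre] at this
    norm_num at this
  have h2 : riemannZeta ((1/2:ℂ) + y * I) = ((1/2:ℂ) + y * I - 1)⁻¹ * riemannZeta₁ ((1/2:ℂ) + y * I) := by
    grind [riemannZeta₁, riemannZeta₀]
  have h3 : (1 + |y|) / 4 ≤ ‖(1/2:ℂ) + y * I - 1‖ := by
    have a1 := Complex.abs_re_le_norm ((1/2:ℂ) + y * I - 1)
    have a2 := Complex.abs_im_le_norm ((1/2:ℂ) + y * I - 1)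
    have e1 : ((1/2:ℂ) + y * I - 1).re = -(1/2) := by simp; norm_num
    have e2 : ((1/2:ℂ) + y * I - 1).im = y := by simp
    rw [e1, abs_neg, abs_of_pos (by norm_num : (0:ℝ) < 1/2)] at a1
    rw [e2] at a2
    linarith
  have h4 : 0 < (1 + |y|) / 4 := by positivity
  rw [h2, norm_mul, norm_inv]
  calc ‖(1/2:ℂ) + y * I - 1‖⁻¹ * ‖riemannZeta₁ ((1/2:ℂ) + y * I)‖
      ≤ ((1 + |y|) / 4)⁻¹ * (C * (1 + |y|) ^ 2) := by gcongr
    _ = 4 * C * (1 + |y|) := by field_simp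

theorem x05_exp {a : ℝ} (ha : 0 < a) : Integrable (fun y : ℝ => Real.exp (-(a * |y|))) := by
  rw [← integrableOn_univ, ← Set.Iic_union_Ioi (a := (0 : ℝ)), integrableOn_union]
  constructor
  · refine (integrableOn_exp_mul_Iic ha 0).congr_fun (fun y hy => ?_) measurableSet_Iic
    show Real.exp (a * y) = Real.exp (-(a * |y|))
    rw [abs_of_nonpos hy]
    ring_nf
  · refine (integrableOn_exp_mul_Ioi (a := -a) (neg_lt_zero.2 ha) 0).congr_fun
      (fun y hy => ?_) measurableSet_Ioi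
    show Real.exp (-a * y) = Real.exp (-(a * |y|))
    rw [abs_of_pos hy]
    ring_nf

theorem x05_int {a : ℝ} (ha : 0 < a) : ∫ y : ℝ, Real.exp (-(a * |y|)) = 2 / a := by
  rw [integral_comp_abs (f := fun y => Real.exp (-(a * y)))]
  have h := integral_exp_mul_Ioi (a := -a) (neg_lt_zero.2 ha) 0
  have e : (fun y : ℝ => Real.exp (-(a * y))) = fun y => Real.exp (-a * y) := by
    ext y; ring_nf
  rw [e, h]
  simp
  field_simp

theorem x05_le {δ : ℝ} (h0 : 0 < δ) (k : ℕ) (y : ℝ) :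
    (1 + |y|) ^ k * Real.exp (-(δ / 2 * |y|))
      ≤ (k.factorial * Real.exp (δ / 4) / (δ / 4) ^ k) * Real.exp (-(δ / 4 * |y|)) := by
  have hx : 0 ≤ δ / 4 * (1 + |y|) := by positivity
  have h1 := Real.pow_div_factorial_le_exp (δ / 4 * (1 + |y|)) hx k
  have h2 : (1 + |y|) ^ k ≤ k.factorial * Real.exp (δ / 4 * (1 + |y|)) / (δ / 4) ^ k := by
    rw [le_div_iff₀ (by positivity), mul_comm, ← mul_pow]
    rwa [div_le_iff₀ (by positivity), mul_comm (Real.exp _)] at h1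
  have h3 : k.factorial * Real.exp (δ / 4 * (1 + |y|)) / (δ / 4) ^ k * Real.exp (-(δ / 2 * |y|))
      = (k.factorial * Real.exp (δ / 4) / (δ / 4) ^ k) * Real.exp (-(δ / 4 * |y|)) := by
    have h4 : Real.exp (δ / 4 * (1 + |y|)) * Real.exp (-(δ / 2 * |y|))
        = Real.exp (δ / 4) * Real.exp (-(δ / 4 * |y|)) := by
      rw [← Real.exp_add, ← Real.exp_add]
      ring_nf
    rw [div_mul_eq_mul_div, mul_assoc, h4, ← mul_assoc, div_mul_eq_mul_div _ _ (Real.exp _)]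
  rw [← h3]
  exact mul_le_mul_of_nonneg_right h2 (Real.exp_pos _).le

/-- the decay of `Γ` against the growth of `z^{-iy}`. -/
theorem x05_gam {z : ℂ} (hz : 0 < z.re) (y : ℝ) :
    ‖Complex.Gamma ((1/2:ℂ) + y * I)‖ * Real.exp (y * arg z) ≤
      Real.sqrt Real.pi * (Real.pi * (‖z‖ / z.re)) *
        Real.exp (-((Real.pi / 2 - |arg z|) / 2 * |y|)) := by
  have hφ : |arg z| < Real.pi / 2 := abs_arg_lt_pi_div_two_iff.mpr (Or.inl hz)
  set φ := |arg z| with hφd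
  have hφ0 : 0 ≤ φ := abs_nonneg _
  set α : ℝ := Real.pi / 2 - φ with hα
  have hα0 : 0 < α := by rw [hα]; linarith
  have hpi := Real.pi_pos
  have hα2 : α ≤ Real.pi / 2 := by rw [hα]; linarith
  have hre : ((1/2:ℂ) + y * I).re = 1/2 := by simp
  have him : ((1/2:ℂ) + y * I).im = y := by simp
  -- the angle
  obtain ⟨θ, hθ1, hθ2, hθ3⟩ : ∃ θ : ℝ, |θ| = Real.pi / 2 - α / 2 ∧
      y * θ = |y| * (Real.pi / 2 - α / 2) ∧ Real.cos θ = Real.sin (α / 2) := by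
    have h0 : 0 ≤ Real.pi / 2 - α / 2 := by linarith
    rcases le_total 0 y with h | h
    · refine ⟨Real.pi / 2 - α / 2, abs_of_nonneg h0, by rw [abs_of_nonneg h], ?_⟩
      rw [Real.cos_pi_div_two_sub]
    · refine ⟨-(Real.pi / 2 - α / 2), by rw [abs_neg, abs_of_nonneg h0],
        by rw [abs_of_nonpos h]; ring, ?_⟩
      rw [Real.cos_neg, Real.cos_pi_div_two_sub]
  have h1 := gam_bd (s := (1/2:ℂ) + y * I) (by rw [hre]; norm_num) (θ := θ)
    (by rw [hθ1]; linarith)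
  rw [hre, him, hθ2, hθ3, Real.Gamma_one_half_eq] at h1
  have hsin : α / Real.pi ≤ Real.sin (α / 2) := by
    have := Real.mul_le_sin (x := α / 2) (by linarith) (by linarith)
    calc α / Real.pi = 2 / Real.pi * (α / 2) := by field_simp
      _ ≤ _ := this
  have hs0 : 0 < Real.sin (α / 2) := lt_of_lt_of_le (by positivity) hsin
  have hz0 : 0 < ‖z‖ := by
    have h := Complex.abs_re_le_norm z
    rw [abs_of_pos hz] at h
    linarith
  have hR1 : 1 ≤ ‖z‖ / z.re := by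
    rw [le_div_iff₀ hz, one_mul]
    exact (le_abs_self _).trans (Complex.abs_re_le_norm z)
  have hsα : Real.sin α = z.re / ‖z‖ := by
    rw [hα, Real.sin_pi_div_two_sub, hφd, Real.cos_abs, Complex.cos_arg (norm_pos_iff.mp hz0)]
  have hRα : α⁻¹ ≤ ‖z‖ / z.re := by
    have h2 : z.re / ‖z‖ ≤ α := by rw [← hsα]; exact Real.sin_le hα0.le
    have h3 : 0 < z.re / ‖z‖ := by positivity
    calc α⁻¹ ≤ (z.re / ‖z‖)⁻¹ := by gcongr
      _ = ‖z‖ / z.re := by rw [inv_div]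
  have hpow : Real.sin (α / 2) ^ (-(1/2) : ℝ) ≤ Real.pi * (‖z‖ / z.re) := by
    rw [Real.rpow_neg hs0.le, ← Real.inv_rpow hs0.le]
    have h2 : (Real.sin (α / 2))⁻¹ ≤ Real.pi * (‖z‖ / z.re) := by
      calc (Real.sin (α / 2))⁻¹ ≤ (α / Real.pi)⁻¹ := by gcongr
        _ = Real.pi * α⁻¹ := by rw [inv_div]; rfl
        _ ≤ _ := by gcongr
    have h3 : 1 ≤ Real.pi * (‖z‖ / z.re) := by
      have : (1:ℝ) ≤ Real.pi := by linarith [Real.pi_gt_three]
      nlinarith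
    calc ((Real.sin (α / 2))⁻¹) ^ (1/2 : ℝ) ≤ (Real.pi * (‖z‖ / z.re)) ^ (1/2 : ℝ) := by gcongr
      _ ≤ (Real.pi * (‖z‖ / z.re)) ^ (1 : ℝ) :=
          Real.rpow_le_rpow_of_exponent_le h3 (by norm_num)
      _ = _ := Real.rpow_one _
  have hy : Real.exp (y * arg z) ≤ Real.exp (|y| * (Real.pi / 2 - α / 2)) *
      Real.exp (-(α / 2 * |y|)) := by
    rw [← Real.exp_add]
    apply Real.exp_le_exp.mpr
    have h2 : y * arg z ≤ |y| * φ := by
      rw [hφd, ← abs_mul]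
      exact le_abs_self _
    have h3 : |y| * (Real.pi / 2 - α / 2) + -(α / 2 * |y|) = |y| * φ := by
      rw [hα]; ring
    linarith
  calc ‖Complex.Gamma ((1/2:ℂ) + y * I)‖ * Real.exp (y * arg z)
      ≤ ‖Complex.Gamma ((1/2:ℂ) + y * I)‖ * (Real.exp (|y| * (Real.pi / 2 - α / 2)) *
        Real.exp (-(α / 2 * |y|))) := by gcongr
    _ = (‖Complex.Gamma ((1/2:ℂ) + y * I)‖ * Real.exp (|y| * (Real.pi / 2 - α / 2))) *
        Real.exp (-(α / 2 * |y|)) := by ring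
    _ ≤ (Real.sqrt Real.pi * Real.sin (α / 2) ^ (-(1/2) : ℝ)) * Real.exp (-(α / 2 * |y|)) := by
        gcongr
    _ ≤ (Real.sqrt Real.pi * (Real.pi * (‖z‖ / z.re))) * Real.exp (-(α / 2 * |y|)) := by
        gcongr

theorem x05_cont {z : ℂ} (hz : 0 < z.re) : Continuous (fun y : ℝ =>
    Complex.Gamma ((1/2:ℂ) + y * I) * riemannZeta ((1/2:ℂ) + y * I) ^ 3 * z ^ (-((1/2:ℂ) + y * I))) := by
  have hl : Continuous fun y : ℝ => (1/2:ℂ) + y * I := by fun_prop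
  have hre : ∀ y : ℝ, ((1/2:ℂ) + y * I).re = 1/2 := fun y => by simp
  have h1 : Continuous fun y : ℝ => Complex.Gamma ((1/2:ℂ) + y * I) := by
    rw [continuous_iff_continuousAt]
    intro y
    refine ContinuousAt.comp (g := Complex.Gamma) ?_ hl.continuousAt
    refine (Complex.differentiableAt_Gamma _ fun m hm => ?_).continuousAt
    have := congrArg Complex.re hm
    rw [hre y] at this
    simp at this
    have h2 : (0:ℝ) ≤ m := Nat.cast_nonneg m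
    linarith
  have h2 : Continuous fun y : ℝ => riemannZeta ((1/2:ℂ) + y * I) := by
    rw [continuous_iff_continuousAt]
    intro y
    refine ContinuousAt.comp (g := riemannZeta) ?_ hl.continuousAt
    refine (differentiableAt_riemannZeta fun hm => ?_).continuousAt
    have := congrArg Complex.re hm
    rw [hre y] at this
    norm_num at this
  have hz0 : z ≠ 0 := by
    rintro rfl
    simp at hz
  have h3 : Continuous fun y : ℝ => z ^ (-((1/2:ℂ) + y * I)) :=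
    Continuous.const_cpow (by fun_prop) (Or.inl hz0)
  exact (h1.mul (h2.pow 3)).mul h3

theorem I3_bound : ∃ C : ℝ, 0 < C ∧ ∀ z : ℂ, 0 < z.re →
    Integrable (fun y : ℝ => Complex.Gamma ((1/2:ℂ) + y * I) * riemannZeta ((1/2:ℂ) + y * I) ^ 3 * z ^ (-((1/2:ℂ) + y * I))) ∧
    ‖I3 z‖ ≤ C * ‖z‖ ^ (-(1/2) : ℝ) * (‖z‖ / z.re) ^ 5 := by
  obtain ⟨C₁, hC₁, hζ⟩ := zeta_crit_bd
  have hpi := Real.pi_pos
  refine ⟨Real.sqrt Real.pi * Real.pi * C₁ ^ 3 * (3072 * Real.exp 1), by positivity,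
    fun z hz => ?_⟩
  have hφ : |arg z| < Real.pi / 2 := abs_arg_lt_pi_div_two_iff.mpr (Or.inl hz)
  have hφ0 : 0 ≤ |arg z| := abs_nonneg _
  set α : ℝ := Real.pi / 2 - |arg z| with hα
  have hα0 : 0 < α := by rw [hα]; linarith
  have hα2 : α ≤ Real.pi / 2 := by rw [hα]; linarith
  have hz0 : 0 < ‖z‖ := by
    have h := Complex.abs_re_le_norm z
    rw [abs_of_pos hz] at h
    linarith
  set R : ℝ := ‖z‖ / z.re with hR
  have hR1 : 1 ≤ R := by
    rw [hR, le_div_iff₀ hz, one_mul]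
    exact (le_abs_self _).trans (Complex.abs_re_le_norm z)
  have hR0 : 0 < R := by linarith
  have hRα : α⁻¹ ≤ R := by
    have hsα : Real.sin α = z.re / ‖z‖ := by
      rw [hα, Real.sin_pi_div_two_sub, Real.cos_abs, Complex.cos_arg (norm_pos_iff.mp hz0)]
    have h2 : z.re / ‖z‖ ≤ α := by rw [← hsα]; exact Real.sin_le hα0.le
    have h3 : 0 < z.re / ‖z‖ := by positivity
    calc α⁻¹ ≤ (z.re / ‖z‖)⁻¹ := by gcongr
      _ = R := by rw [inv_div]
  set F : ℝ → ℂ := fun y : ℝ => Complex.Gamma ((1/2:ℂ) + y * I) *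
    riemannZeta ((1/2:ℂ) + y * I) ^ 3 * z ^ (-((1/2:ℂ) + y * I)) with hF
  set K : ℝ := Real.sqrt Real.pi * (Real.pi * R) * C₁ ^ 3 * ‖z‖ ^ (-(1/2) : ℝ) *
    ((Nat.factorial 3 : ℕ) * Real.exp (α / 4) / (α / 4) ^ 3) with hK
  have hK0 : 0 ≤ K := by positivity
  have hbd : ∀ y : ℝ, ‖F y‖ ≤ K * Real.exp (-(α / 4 * |y|)) := by
    intro y
    have h1 := x05_gam hz y
    have h2 := hζ y
    have h3 : ‖z ^ (-((1/2:ℂ) + y * I))‖ = ‖z‖ ^ (-(1/2) : ℝ) * Real.exp (y * arg z) := by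
      have := cpow_norm hz (1/2) y
      rw [← this]
      norm_num
    have h4 := x05_le hα0 3 y
    rw [hF]
    simp only [norm_mul, norm_pow]
    rw [h3]
    calc ‖Complex.Gamma ((1/2:ℂ) + y * I)‖ * ‖riemannZeta ((1/2:ℂ) + y * I)‖ ^ 3 *
          (‖z‖ ^ (-(1/2) : ℝ) * Real.exp (y * arg z))
        = (‖Complex.Gamma ((1/2:ℂ) + y * I)‖ * Real.exp (y * arg z)) *
          ‖riemannZeta ((1/2:ℂ) + y * I)‖ ^ 3 * ‖z‖ ^ (-(1/2) : ℝ) := by ring
      _ ≤ (Real.sqrt Real.pi * (Real.pi * R) * Real.exp (-(α / 2 * |y|))) *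
          (C₁ * (1 + |y|)) ^ 3 * ‖z‖ ^ (-(1/2) : ℝ) := by gcongr
      _ = Real.sqrt Real.pi * (Real.pi * R) * C₁ ^ 3 * ‖z‖ ^ (-(1/2) : ℝ) *
          ((1 + |y|) ^ 3 * Real.exp (-(α / 2 * |y|))) := by ring
      _ ≤ Real.sqrt Real.pi * (Real.pi * R) * C₁ ^ 3 * ‖z‖ ^ (-(1/2) : ℝ) *
          ((Nat.factorial 3 : ℕ) * Real.exp (α / 4) / (α / 4) ^ 3 * Real.exp (-(α / 4 * |y|))) := by
          gcongr
      _ = K * Real.exp (-(α / 4 * |y|)) := by rw [hK]; ring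
  have hg : Integrable fun y : ℝ => K * Real.exp (-(α / 4 * |y|)) :=
    (x05_exp (by positivity)).const_mul K
  have hFi : Integrable F := hg.mono' (x05_cont hz).aestronglyMeasurable
    (Filter.Eventually.of_forall hbd)
  refine ⟨hFi, ?_⟩
  have h5 : ‖∫ y, F y‖ ≤ K * (8 / α) := by
    refine (norm_integral_le_of_norm_le hg (Filter.Eventually.of_forall hbd)).trans ?_
    rw [integral_const_mul, x05_int (by positivity)]
    refine le_of_eq ?_
    field_simp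
    ring
  unfold I3
  rw [norm_mul]
  have h6 : ‖((1 / (2 * Real.pi) : ℝ) : ℂ)‖ ≤ 1 := by
    rw [Complex.norm_real, Real.norm_eq_abs, abs_of_pos (by positivity), div_le_one (by positivity)]
    linarith [Real.pi_gt_three]
  have h7 : K * (8 / α) = Real.sqrt Real.pi * Real.pi * C₁ ^ 3 * ‖z‖ ^ (-(1/2) : ℝ) *
      (3072 * Real.exp (α / 4)) * (R * α⁻¹ ^ 4) := by
    rw [hK]
    have : ((Nat.factorial 3 : ℕ) : ℝ) = 6 := by norm_num [Nat.factorial]
    rw [this]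
    field_simp
    norm_num
  have h8 : Real.exp (α / 4) ≤ Real.exp 1 := by
    apply Real.exp_le_exp.mpr
    have : Real.pi ≤ 4 := Real.pi_le_four
    linarith
  calc ‖((1 / (2 * Real.pi) : ℝ) : ℂ)‖ * ‖∫ y, F y‖ ≤ 1 * (K * (8 / α)) := by gcongr
    _ = Real.sqrt Real.pi * Real.pi * C₁ ^ 3 * ‖z‖ ^ (-(1/2) : ℝ) *
      (3072 * Real.exp (α / 4)) * (R * α⁻¹ ^ 4) := by rw [one_mul, h7]
    _ ≤ Real.sqrt Real.pi * Real.pi * C₁ ^ 3 * ‖z‖ ^ (-(1/2) : ℝ) *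
      (3072 * Real.exp 1) * (R * R ^ 4) := by gcongr
    _ = _ := by ring

end Pool.Agent.LibPH
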