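import Mathlib
import Pool.Agent.LibPH.X05

/-! ROW X06: the line integral at `z = zw m n w` is the twisted moment.

With `s = 1/2+it`, `log z = log(2πm/n) + iπ/2 - iw` (`Im = π/2 - Re w ∈ (0, π)`), so
`z^{-s} = (2πm/n)^{-s} e^{-iπs/2} e^{iws}`, `e^{iws} = e^{iw/2} e^{-wt}`, `(2πm/n)^{-s} = (2π)^{-s} (m/n)^{-1/2} tw m n t`.
`riemannZeta_one_sub`: `ζ(1-s) = 2 (2π)^{-s} Γ(s) cos(πs/2) ζ(s)` and `e^{-iπs/2}/(2cos(πs/2)) = 1/(1+e^{iπs}) = 1/(1+i e^{-πt})`,
`ζ(1-s) = conj ζ(s)` on the line (LibM3 q5a_conj_crit / riemannZeta_conj). Hence exactly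
`2π √(m/n) e^{-iw/2} I3(zw) = ∫_ℝ z21 t * tw m n t * e^{-wt} / (1 + i e^{-πt}) dt`.
`|1 + i e^{-πt}| ≥ max(1, e^{-πt})`, `|1 - 1/(1+ie^{-πt})| ≤ e^{-πt}` for `t > 0`; `‖z21 t‖ ≤ C(1+|t|)³` (zeta_crit_bd).
zw_re: `Re (i e^{-iw}) = e^{Im w} sin(Re w)`. -/

set_option autoImplicit false

namespace Pool.Agent.LibPH

open MeasureTheory Set Filter Topology Complex
open scoped ComplexConjugate

theorem x06_exp_re (w : ℂ) : (I * cexp (-(I * w))).re = Real.exp w.im * Real.sin w.re := by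
  have h1 : -(I * w) = ((w.im : ℝ) : ℂ) + ((-w.re : ℝ) : ℂ) * I := by
    apply Complex.ext <;> simp
  rw [h1, Complex.exp_add, Complex.exp_mul_I, ← Complex.ofReal_exp, ← Complex.ofReal_cos,
    ← Complex.ofReal_sin, Real.cos_neg, Real.sin_neg]
  simp only [Complex.mul_re, Complex.mul_im, Complex.add_re, Complex.add_im, Complex.I_re,
    Complex.I_im, Complex.ofReal_re, Complex.ofReal_im]
  ring

theorem x06_re_le {w : ℂ} (h1 : ‖w‖ ≤ 1/2) : w.re ≤ 1/2 :=
  (Complex.re_le_norm w).trans h1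

theorem zw_re {m n : ℕ} (hm : 1 ≤ m) (hn : 1 ≤ n) {w : ℂ} (h0 : 0 < w.re) (h1 : ‖w‖ ≤ 1/2) : 0 < (zw m n w).re := by
  unfold zw
  rw [Complex.re_ofReal_mul, x06_exp_re]
  have hm' : (0:ℝ) < m := by exact_mod_cast hm
  have hn' : (0:ℝ) < n := by exact_mod_cast hn
  have h2 : 0 < Real.sin w.re := Real.sin_pos_of_pos_of_lt_pi h0 (by
    have := x06_re_le h1
    have := Real.pi_gt_three
    linarith)
  have := Real.exp_pos w.im
  have := Real.pi_pos
  positivity

theorem x06_exp {a : ℝ} (ha : 0 < a) : Integrable (fun y : ℝ => Real.exp (-(a * |y|))) := by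
  rw [← integrableOn_univ, ← Set.Iic_union_Ioi (a := (0 : ℝ)), integrableOn_union]
  constructor
  · refine (integrableOn_exp_mul_Iic ha 0).congr_fun (fun y hy => ?_) measurableSet_Iic
    show Real.exp (a * y) = Real.exp (-(a * |y|))
    rw [abs_of_nonpos hy]
    ring_nf
  · refine (integrableOn_exp_mul_Ioi (a := -a) (neg_lt_zero.2 ha) 0).congr_fun
      (fun y hy => ?_) measurableSet_Ioi
    show Real.exp (-a * y) = Real.exp (-(a * |y|))
    rw [abs_of_pos hy]
    ring_nf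

theorem x06_le {δ : ℝ} (h0 : 0 < δ) (k : ℕ) (y : ℝ) :
    (1 + |y|) ^ k * Real.exp (-(δ / 2 * |y|))
      ≤ (k.factorial * Real.exp (δ / 4) / (δ / 4) ^ k) * Real.exp (-(δ / 4 * |y|)) := by
  have hx : 0 ≤ δ / 4 * (1 + |y|) := by positivity
  have h1 := Real.pow_div_factorial_le_exp (δ / 4 * (1 + |y|)) hx k
  have h2 : (1 + |y|) ^ k ≤ k.factorial * Real.exp (δ / 4 * (1 + |y|)) / (δ / 4) ^ k := by
    rw [le_div_iff₀ (by positivity), mul_comm, ← mul_pow]
    rwa [div_le_iff₀ (by positivity), mul_comm (Real.exp _)] at h1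
  have h3 : k.factorial * Real.exp (δ / 4 * (1 + |y|)) / (δ / 4) ^ k * Real.exp (-(δ / 2 * |y|))
      = (k.factorial * Real.exp (δ / 4) / (δ / 4) ^ k) * Real.exp (-(δ / 4 * |y|)) := by
    have h4 : Real.exp (δ / 4 * (1 + |y|)) * Real.exp (-(δ / 2 * |y|))
        = Real.exp (δ / 4) * Real.exp (-(δ / 4 * |y|)) := by
      rw [← Real.exp_add, ← Real.exp_add]
      ring_nf
    rw [div_mul_eq_mul_div, mul_assoc, h4, ← mul_assoc, div_mul_eq_mul_div _ _ (Real.exp _)]
  rw [← h3]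
  exact mul_le_mul_of_nonneg_right h2 (Real.exp_pos _).le

theorem x06_dom {δ : ℝ} (h0 : 0 < δ) (k : ℕ) (c : ℝ) :
    Integrable (fun y : ℝ => c * ((1 + |y|) ^ k * Real.exp (-(δ / 2 * |y|)))) := by
  refine Integrable.const_mul ?_ c
  refine Integrable.mono' ((x06_exp (a := δ / 4) (by positivity)).const_mul
    (k.factorial * Real.exp (δ / 4) / (δ / 4) ^ k)) ?_ (Eventually.of_forall fun y => ?_)
  · exact (by fun_prop : Continuous fun y : ℝ =>
      (1 + |y|) ^ k * Real.exp (-(δ / 2 * |y|))).aestronglyMeasurable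
  · rw [Real.norm_of_nonneg (by positivity)]
    exact x06_le h0 k y

theorem x06_line_ne (t : ℝ) : (1 / 2 + t * I : ℂ) ≠ 1 := by
  intro h
  have h2 := congrArg Complex.re h
  simp at h2

theorem x06_z21_cont : Continuous z21 := by
  have h1 : Continuous fun t : ℝ => riemannZeta (1 / 2 + t * I) := by
    rw [continuous_iff_continuousAt]
    intro t
    have h2 := (differentiableAt_riemannZeta (x06_line_ne t)).continuousAt
    exact ContinuousAt.comp (f := fun t : ℝ => (1 / 2 + t * I : ℂ)) h2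
      (Continuous.continuousAt (by fun_prop))
  exact (h1.pow 2).mul (Complex.continuous_conj.comp h1)

theorem x06_tw_cont (m n : ℕ) : Continuous (tw m n) := by
  unfold tw
  fun_prop

theorem x06_tw_norm (m n : ℕ) (t : ℝ) : ‖tw m n t‖ = 1 := by
  unfold tw
  rw [← neg_mul, ← Complex.ofReal_neg, Complex.norm_exp_ofReal_mul_I]

theorem x06_z21_bd : ∃ C : ℝ, 0 < C ∧ ∀ t : ℝ, ‖z21 t‖ ≤ C * (1 + |t|) ^ 3 := by
  obtain ⟨C, hC, h⟩ := zeta_crit_bd
  refine ⟨C ^ 3, by positivity, fun t => ?_⟩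
  unfold z21
  rw [norm_mul, norm_pow, Complex.norm_conj, ← pow_succ, ← mul_pow]
  exact pow_le_pow_left₀ (norm_nonneg _) (h t) 3

theorem x06_exp_norm (w : ℂ) (t : ℝ) : ‖cexp (-(w * t))‖ = Real.exp (-(w.re * t)) := by
  rw [Complex.norm_exp]
  simp

theorem z21_int {w : ℂ} (h0 : 0 < w.re) (m n : ℕ) :
    IntegrableOn (fun t : ℝ => z21 t * tw m n t * cexp (-(w * t))) (Ioi 0) := by
  obtain ⟨C, hC, hb⟩ := x06_z21_bd
  have hd := (x06_dom (δ := 2 * w.re) (by positivity) 3 C).integrableOn (s := Ioi (0:ℝ))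
  refine Integrable.mono' hd ?_ ?_
  · exact ((x06_z21_cont.mul (x06_tw_cont m n)).mul (by fun_prop)).aestronglyMeasurable
  · refine (ae_restrict_iff' measurableSet_Ioi).2 (ae_of_all _ fun t ht => ?_)
    rw [norm_mul, norm_mul, x06_tw_norm, mul_one, x06_exp_norm]
    have ht' : 0 < t := ht
    have e : -(2 * w.re / 2 * |t|) = -(w.re * t) := by
      rw [abs_of_pos ht']
      ring
    rw [e, ← mul_assoc]
    exact mul_le_mul_of_nonneg_right (hb t) (Real.exp_pos _).le

/-- the factor `1 + i e^{-πy}` -/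
noncomputable def x06_D (y : ℝ) : ℂ := 1 + I * ((Real.exp (-(Real.pi * y)) : ℝ) : ℂ)

theorem x06_D_norm (y : ℝ) : 1 ≤ ‖x06_D y‖ ∧ Real.exp (-(Real.pi * y)) ≤ ‖x06_D y‖ := by
  have h1 : (x06_D y).re = 1 := by
    unfold x06_D
    rw [Complex.add_re, Complex.one_re, Complex.I_mul_re, Complex.ofReal_im, neg_zero, add_zero]
  have h2 : (x06_D y).im = Real.exp (-(Real.pi * y)) := by
    unfold x06_D
    rw [Complex.add_im, Complex.one_im, Complex.I_mul_im, Complex.ofReal_re, zero_add]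
  constructor
  · have := Complex.abs_re_le_norm (x06_D y)
    rwa [h1, abs_one] at this
  · have := Complex.abs_im_le_norm (x06_D y)
    rwa [h2, abs_of_pos (Real.exp_pos _)] at this

theorem x06_D_ne (y : ℝ) : x06_D y ≠ 0 := by
  intro h
  have := (x06_D_norm y).1
  rw [h, norm_zero] at this
  linarith

theorem x06_log {m n : ℕ} (hm : 1 ≤ m) (hn : 1 ≤ n) {w : ℂ} (h0 : 0 < w.re) (h1 : ‖w‖ ≤ 1/2) :
    Complex.log (zw m n w) = ((Real.log (2 * Real.pi * m / n) : ℝ) : ℂ) +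
      (((Real.pi / 2 : ℝ) : ℂ) * I - I * w) := by
  have hm' : (0:ℝ) < m := by exact_mod_cast hm
  have hn' : (0:ℝ) < n := by exact_mod_cast hn
  have hpos : 0 < 2 * Real.pi * m / n := by
    have := Real.pi_pos
    positivity
  unfold zw
  have e1 : I * cexp (-(I * w)) = cexp (((Real.pi / 2 : ℝ) : ℂ) * I - I * w) := by
    rw [sub_eq_add_neg, Complex.exp_add]
    have : cexp (((Real.pi / 2 : ℝ) : ℂ) * I) = I := by
      rw [Complex.exp_mul_I, ← Complex.ofReal_cos, ← Complex.ofReal_sin, Real.cos_pi_div_two,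
        Real.sin_pi_div_two]
      simp
    rw [this]
  rw [e1, Complex.log_ofReal_mul hpos (Complex.exp_ne_zero _), Complex.log_exp]
  · have h2 := x06_re_le h1
    have h3 := Real.pi_gt_three
    simp
    linarith
  · have h3 := Real.pi_gt_three
    simp
    linarith

theorem x06_point {m n : ℕ} (hm : 1 ≤ m) (hn : 1 ≤ n) {w : ℂ} (h0 : 0 < w.re) (h1 : ‖w‖ ≤ 1/2)
    (y : ℝ) :
    ((√((m:ℝ) / n) : ℝ) : ℂ) * cexp (-(I * w / 2)) *
      (Complex.Gamma ((1/2:ℂ) + y * I) * riemannZeta ((1/2:ℂ) + y * I) ^ 3 *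
        (zw m n w) ^ (-((1/2:ℂ) + y * I))) =
      z21 y * tw m n y * cexp (-(w * y)) / x06_D y := by
  have hm' : (0:ℝ) < m := by exact_mod_cast hm
  have hn' : (0:ℝ) < n := by exact_mod_cast hn
  have hz : zw m n w ≠ 0 := by
    intro h
    have := zw_re hm hn h0 h1
    rw [h] at this
    simp at this
  have hpi := Real.pi_pos
  have hs0 : ∀ k : ℕ, ((1/2:ℂ) + y * I) ≠ -k := by
    intro k h
    have h2 := congrArg Complex.re h
    simp at h2
    have : (0:ℝ) ≤ k := Nat.cast_nonneg k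
    linarith
  have hfe := riemannZeta_one_sub hs0 (x06_line_ne y)
  have hconj : riemannZeta (1 - ((1/2:ℂ) + y * I)) = conj (riemannZeta ((1/2:ℂ) + y * I)) := by
    rw [← riemannZeta_conj]
    congr 1
    rw [map_add, map_mul, Complex.conj_ofReal, Complex.conj_I]
    have : conj (1/2 : ℂ) = 1/2 := by
      rw [map_div₀, map_one]
      congr 1
      exact map_ofNat _ 2
    rw [this]
    ring
  rw [hconj] at hfe
  -- the power
  rw [Complex.cpow_def_of_ne_zero hz, x06_log hm hn h0 h1]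
  have h2pi : ((2 : ℂ) * Real.pi) ≠ 0 := by
    have : (Real.pi : ℂ) ≠ 0 := Complex.ofReal_ne_zero.2 hpi.ne'
    simp [this]
  rw [Complex.cpow_def_of_ne_zero h2pi] at hfe
  have hl2 : Complex.log (2 * Real.pi) = ((Real.log (2 * Real.pi) : ℝ) : ℂ) := by
    rw [Complex.ofReal_log (by positivity)]
    push_cast
    rfl
  rw [hl2] at hfe
  have hlog : Real.log (2 * Real.pi * m / n) =
      Real.log (2 * Real.pi) + (Real.log m - Real.log n) := by
    rw [Real.log_div (by positivity) hn'.ne', Real.log_mul (by positivity) hm'.ne']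
    ring
  have hsqrt : ((√((m:ℝ) / n) : ℝ) : ℂ) =
      cexp (((1/2 * (Real.log m - Real.log n) : ℝ) : ℂ)) := by
    rw [← Complex.ofReal_exp]
    congr 1
    rw [Real.sqrt_eq_rpow, Real.rpow_def_of_pos (by positivity), Real.log_div hm'.ne' hn'.ne']
    congr 1
    ring
  -- the cosine
  have hcos : Complex.cos (Real.pi * ((1/2:ℂ) + y * I) / 2) * 2 =
      cexp (-(I * (Real.pi * ((1/2:ℂ) + y * I) / 2))) * x06_D y := by
    rw [Complex.cos]
    unfold x06_D
    have e3 : cexp (-(I * (Real.pi * ((1/2:ℂ) + y * I) / 2))) *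
        (I * ((Real.exp (-(Real.pi * y)) : ℝ) : ℂ)) =
        cexp (Real.pi * ((1/2:ℂ) + y * I) / 2 * I) := by
      have hI : I = cexp (((Real.pi / 2 : ℝ) : ℂ) * I) := by
        rw [Complex.exp_mul_I, ← Complex.ofReal_cos, ← Complex.ofReal_sin, Real.cos_pi_div_two,
          Real.sin_pi_div_two]
        simp
      nth_rewrite 3 [hI]
      rw [Complex.ofReal_exp, ← Complex.exp_add, ← Complex.exp_add]
      congr 1
      push_cast
      linear_combination (-(Real.pi * y : ℂ)) * Complex.I_sq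
    have e4 : cexp (-(Real.pi * ((1/2:ℂ) + y * I) / 2) * I) =
        cexp (-(I * (Real.pi * ((1/2:ℂ) + y * I) / 2))) := by
      congr 1
      ring
    linear_combination e4 - e3
  have hD := x06_D_ne y
  have hz21 : z21 y = riemannZeta ((1/2:ℂ) + y * I) ^ 2 * conj (riemannZeta ((1/2:ℂ) + y * I)) := rfl
  rw [hz21, hfe, hsqrt]
  unfold tw
  rw [hlog]
  rw [eq_div_iff hD]
  have key : cexp (((1/2 * (Real.log m - Real.log n) : ℝ) : ℂ)) * cexp (-(I * w / 2)) *
      cexp ((((Real.log (2 * Real.pi) + (Real.log m - Real.log n) : ℝ) : ℂ) +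
        (((Real.pi / 2 : ℝ) : ℂ) * I - I * w)) * -((1/2:ℂ) + y * I)) =
      cexp (((Real.log (2 * Real.pi) : ℝ) : ℂ) * -((1/2:ℂ) + y * I)) *
        cexp (-(I * (Real.pi * ((1/2:ℂ) + y * I) / 2))) *
        cexp (-(((y * (Real.log m - Real.log n) : ℝ) : ℂ) * I)) * cexp (-(w * y)) := by
    rw [← Complex.exp_add, ← Complex.exp_add, ← Complex.exp_add, ← Complex.exp_add,
      ← Complex.exp_add]
    congr 1
    push_cast
    linear_combination (w * y : ℂ) * Complex.I_sq
  set E1 := cexp (((1/2 * (Real.log m - Real.log n) : ℝ) : ℂ)) with hE1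
  set E2 := cexp (-(I * w / 2)) with hE2
  set E3 := cexp ((((Real.log (2 * Real.pi) + (Real.log m - Real.log n) : ℝ) : ℂ) +
        (((Real.pi / 2 : ℝ) : ℂ) * I - I * w)) * -((1/2:ℂ) + y * I)) with hE3
  set E4 := cexp (((Real.log (2 * Real.pi) : ℝ) : ℂ) * -((1/2:ℂ) + y * I)) with hE4
  set E5 := cexp (-(I * (Real.pi * ((1/2:ℂ) + y * I) / 2))) with hE5
  set E6 := cexp (-(((y * (Real.log m - Real.log n) : ℝ) : ℂ) * I)) with hE6
  set E7 := cexp (-(w * y)) with hE7
  set Ga := Complex.Gamma ((1/2:ℂ) + y * I) with hGa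
  set ze := riemannZeta ((1/2:ℂ) + y * I) with hze
  set co := Complex.cos (Real.pi * ((1/2:ℂ) + y * I) / 2) with hco
  have e5 : ze ^ 2 * (2 * E4 * Ga * co * ze) * E6 * E7 =
      ze ^ 3 * Ga * E4 * (co * 2) * E6 * E7 := by ring
  rw [e5, hcos]
  linear_combination (ze ^ 3 * Ga * x06_D y) * key

theorem I3_zw : ∃ C : ℝ, 0 < C ∧ ∀ m n : ℕ, 1 ≤ m → 1 ≤ n → ∀ w : ℂ, 0 < w.re → ‖w‖ ≤ 1/2 →
    ‖((2 * Real.pi * √((m:ℝ) / n) : ℝ) : ℂ) * cexp (-(I * w / 2)) * I3 (zw m n w) -
      ∫ t in Ioi (0:ℝ), z21 t * tw m n t * cexp (-(w * t))‖ ≤ C := by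
  obtain ⟨C, hC, hb⟩ := x06_z21_bd
  have hdom := x06_dom (δ := 4) (by norm_num) 3 C
  refine ⟨(∫ y : ℝ, C * ((1 + |y|) ^ 3 * Real.exp (-((4:ℝ) / 2 * |y|)))) + 1, ?_, ?_⟩
  · have : 0 ≤ ∫ y : ℝ, C * ((1 + |y|) ^ 3 * Real.exp (-((4:ℝ) / 2 * |y|))) :=
      integral_nonneg fun y => by positivity
    linarith
  intro m n hm hn w h0 h1
  set J : ℝ → ℂ := fun y => z21 y * tw m n y * cexp (-(w * y)) / x06_D y with hJ
  set P : ℝ → ℂ := fun y => z21 y * tw m n y * cexp (-(w * y)) with hP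
  have hpi := Real.pi_pos
  have hpi3 := Real.pi_gt_three
  have hw := x06_re_le h1
  have hDc : Continuous x06_D := by
    unfold x06_D
    fun_prop
  have hPc : Continuous P := (x06_z21_cont.mul (x06_tw_cont m n)).mul (by fun_prop)
  have hJc : Continuous J := hPc.div hDc x06_D_ne
  have hPn : ∀ y, ‖P y‖ ≤ C * (1 + |y|) ^ 3 * Real.exp (-(w.re * y)) := by
    intro y
    rw [hP]
    simp only
    rw [norm_mul, norm_mul, x06_tw_norm, mul_one, x06_exp_norm]
    exact mul_le_mul_of_nonneg_right (hb y) (Real.exp_pos _).le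
  -- the error
  set err : ℝ → ℂ := fun y => J y - (Ioi (0:ℝ)).indicator P y with herr
  have herr_bd : ∀ y, ‖err y‖ ≤ C * ((1 + |y|) ^ 3 * Real.exp (-((4:ℝ) / 2 * |y|))) := by
    intro y
    have hDn := x06_D_norm y
    have hD0 : 0 < ‖x06_D y‖ := lt_of_lt_of_le one_pos hDn.1
    have hA : 0 ≤ C * (1 + |y|) ^ 3 := by positivity
    by_cases hy : 0 < y
    · have e1 : err y = P y * (-(I * ((Real.exp (-(Real.pi * y)) : ℝ) : ℂ)) / x06_D y) := by
        rw [herr]
        simp only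
        rw [Set.indicator_of_mem (show y ∈ Ioi (0:ℝ) from hy)]
        show P y / x06_D y - P y = _
        have hD := x06_D_ne y
        field_simp
        unfold x06_D
        ring
      have e2 : ‖-(I * ((Real.exp (-(Real.pi * y)) : ℝ) : ℂ)) / x06_D y‖ ≤
          Real.exp (-(Real.pi * y)) := by
        rw [norm_div, norm_neg, norm_mul, Complex.norm_I, one_mul, Complex.norm_real,
          Real.norm_of_nonneg (Real.exp_pos _).le]
        exact div_le_self (Real.exp_pos _).le hDn.1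
      rw [e1, norm_mul]
      have h3 : Real.exp (-(w.re * y)) ≤ 1 := by
        rw [Real.exp_le_one_iff]
        have := mul_pos h0 hy
        linarith
      have h4 : ‖P y‖ ≤ C * (1 + |y|) ^ 3 := (hPn y).trans (by
        have := mul_le_mul_of_nonneg_left h3 hA
        rwa [mul_one] at this)
      refine (mul_le_mul h4 e2 (norm_nonneg _) hA).trans ?_
      rw [mul_assoc]
      refine mul_le_mul_of_nonneg_left ?_ hC.le
      refine mul_le_mul_of_nonneg_left ?_ (by positivity)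
      apply Real.exp_le_exp.2
      rw [abs_of_pos hy]
      nlinarith
    · have hy' : y ≤ 0 := not_lt.1 hy
      have e1 : err y = P y / x06_D y := by
        rw [herr]
        simp only
        rw [Set.indicator_of_notMem (show y ∉ Ioi (0:ℝ) from hy), sub_zero]
      rw [e1, norm_div, div_le_iff₀ hD0]
      refine (hPn y).trans ?_
      have h5 : Real.exp (-(w.re * y)) ≤ Real.exp (-((4:ℝ) / 2 * |y|)) * ‖x06_D y‖ := by
        refine le_trans ?_ (mul_le_mul_of_nonneg_left hDn.2 (Real.exp_pos _).le)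
        rw [← Real.exp_add]
        apply Real.exp_le_exp.2
        rw [abs_of_nonpos hy']
        nlinarith
      have h6 := mul_le_mul_of_nonneg_left h5 hA
      refine h6.trans (le_of_eq ?_)
      ring
  have hPi : IntegrableOn P (Ioi 0) := z21_int h0 m n
  have hPi' : Integrable ((Ioi (0:ℝ)).indicator P) := hPi.integrable_indicator measurableSet_Ioi
  have herr_int : Integrable err := by
    refine Integrable.mono' hdom ?_ (ae_of_all _ herr_bd)
    exact hJc.aestronglyMeasurable.sub hPi'.aestronglyMeasurable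
  have hJint : Integrable J := by
    have : J = fun y => err y + (Ioi (0:ℝ)).indicator P y := by
      funext y
      rw [herr]
      ring
    rw [this]
    exact herr_int.add hPi'
  have hI : ((2 * Real.pi * √((m:ℝ) / n) : ℝ) : ℂ) * cexp (-(I * w / 2)) * I3 (zw m n w) =
      ∫ y, J y := by
    unfold I3
    have e1 : ((2 * Real.pi * √((m:ℝ) / n) : ℝ) : ℂ) * cexp (-(I * w / 2)) *
        (((1 / (2 * Real.pi) : ℝ) : ℂ) * ∫ y : ℝ, Complex.Gamma ((1/2:ℂ) + y * I) *
          riemannZeta ((1/2:ℂ) + y * I) ^ 3 * (zw m n w) ^ (-((1/2:ℂ) + y * I))) =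
        (((√((m:ℝ) / n) : ℝ) : ℂ) * cexp (-(I * w / 2))) * ∫ y : ℝ,
          Complex.Gamma ((1/2:ℂ) + y * I) *
          riemannZeta ((1/2:ℂ) + y * I) ^ 3 * (zw m n w) ^ (-((1/2:ℂ) + y * I)) := by
      have e2 : ((2 * Real.pi * √((m:ℝ) / n) : ℝ) : ℂ) * ((1 / (2 * Real.pi) : ℝ) : ℂ) =
          ((√((m:ℝ) / n) : ℝ) : ℂ) := by
        rw [← Complex.ofReal_mul]
        congr 1
        field_simp
      linear_combination (cexp (-(I * w / 2)) * ∫ y : ℝ, Complex.Gamma ((1/2:ℂ) + y * I) *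
          riemannZeta ((1/2:ℂ) + y * I) ^ 3 * (zw m n w) ^ (-((1/2:ℂ) + y * I))) * e2
    rw [e1, ← integral_const_mul]
    refine integral_congr_ae (ae_of_all _ fun y => ?_)
    exact x06_point hm hn h0 h1 y
  rw [hI, ← integral_indicator measurableSet_Ioi, ← integral_sub hJint hPi']
  refine (norm_integral_le_of_norm_le hdom (ae_of_all _ herr_bd)).trans ?_
  linarith

end Pool.Agent.LibPH
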