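import Mathlib
import Pool.Agent.LibPH.X04

/-! ROW X07: bounds for `P3` and analyticity of its ingredients.

`G0` is analytic for `|s| < 1` (`Γ(1+s)`, `ζ₁` entire) and bounded by a constant `C` on `|s| ≤ 1/4` (compactness);
`|z^{-(1+s)}| = |z|^{-1-Re s} e^{Im s · arg z} ≤ |z|^{-1} max(|z|, 1/|z|)^{1/4} e^{π/8}`; C2_le with `r = 1/4`. -/

set_option autoImplicit false

namespace Pool.Agent.LibPH

open MeasureTheory Set Filter Topology Complex
open scoped ComplexConjugate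

theorem x07_gamma {s : ℂ} (hs : ‖s‖ < 1) : DifferentiableAt ℂ (fun s : ℂ => Complex.Gamma (1 + s)) s := by
  have h1 : DifferentiableAt ℂ Complex.Gamma (1 + s) := by
    apply Complex.differentiableAt_Gamma
    intro m h
    have h2 : (1 + s).re = -(m : ℝ) := by rw [h]; simp
    have h3 := (abs_le.1 (Complex.abs_re_le_norm s)).1
    have h4 : (0 : ℝ) ≤ m := Nat.cast_nonneg m
    rw [Complex.add_re, Complex.one_re] at h2
    linarith
  exact h1.comp s (by fun_prop : DifferentiableAt ℂ (fun s : ℂ => 1 + s) s)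

theorem x07_zeta (s : ℂ) : DifferentiableAt ℂ (fun s : ℂ => riemannZeta₁ (1 + s)) s :=
  (differentiable_riemannZeta₁ (1 + s)).comp s
    (by fun_prop : DifferentiableAt ℂ (fun s : ℂ => 1 + s) s)

theorem G0_analytic {s : ℂ} (hs : ‖s‖ < 1) : AnalyticAt ℂ G0 s := by
  have h1 : DifferentiableOn ℂ G0 (Metric.ball (0 : ℂ) 1) := by
    intro w hw
    rw [Metric.mem_ball, dist_zero_right] at hw
    exact (((x07_zeta w).pow 3).mul (x07_gamma hw)).differentiableWithinAt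
  exact h1.analyticAt (Metric.isOpen_ball.mem_nhds (by simpa using hs))

theorem Z0_analytic (s : ℂ) : AnalyticAt ℂ Z0 s := by
  have h : Differentiable ℂ Z0 := fun w => (x07_zeta w).pow 3
  exact h.analyticAt s

theorem G0_bd : ∃ C : ℝ, 0 < C ∧ ∀ s : ℂ, ‖s‖ ≤ 1/4 → ‖G0 s‖ ≤ C ∧ ‖Z0 s‖ ≤ C := by
  have hc : IsCompact (Metric.closedBall (0 : ℂ) (1 / 4)) := isCompact_closedBall _ _
  obtain ⟨C1, h1⟩ := hc.exists_bound_of_continuousOn (f := G0) (by
    intro s hs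
    rw [Metric.mem_closedBall, dist_zero_right] at hs
    exact (G0_analytic (by linarith)).continuousAt.continuousWithinAt)
  obtain ⟨C2, h2⟩ := hc.exists_bound_of_continuousOn (f := Z0) (by
    intro s hs
    exact (Z0_analytic s).continuousAt.continuousWithinAt)
  refine ⟨max 1 (max C1 C2), lt_max_of_lt_left one_pos, fun s hs => ?_⟩
  have hs' : s ∈ Metric.closedBall (0 : ℂ) (1 / 4) := by
    rw [Metric.mem_closedBall, dist_zero_right]; exact hs
  exact ⟨(h1 s hs').trans (le_max_of_le_right (le_max_left _ _)),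
    (h2 s hs').trans (le_max_of_le_right (le_max_right _ _))⟩

theorem Z0_zero : Z0 0 = 1 := by
  unfold Z0
  rw [add_zero, riemannZeta₁_one, one_pow]

theorem G0_eq (s : ℂ) : G0 s = Z0 s * Complex.Gamma (1 + s) := rfl

/-- `z^{-(1+s)}` for `‖s‖ ≤ 1/4` -/
theorem cpow_bd {z : ℂ} (hz : 0 < z.re) {s : ℂ} (hs : ‖s‖ ≤ 1/4) :
    ‖z ^ (-(1 + s))‖ ≤ 2 * ‖z‖⁻¹ * (‖z‖ + ‖z‖⁻¹) ^ (1/4 : ℝ) := by
  have hz0 : z ≠ 0 := by
    intro h
    rw [h] at hz
    simp at hz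
  have hn : 0 < ‖z‖ := norm_pos_iff.2 hz0
  have hni : 0 < ‖z‖⁻¹ := inv_pos.2 hn
  have hre := abs_le.1 ((Complex.abs_re_le_norm s).trans hs)
  have him := (Complex.abs_im_le_norm s).trans hs
  rw [Complex.norm_cpow_of_ne_zero hz0]
  have e1 : (-(1 + s)).re = -1 + -s.re := by
    rw [Complex.neg_re, Complex.add_re, Complex.one_re]
    ring
  have e2 : (-(1 + s)).im = -s.im := by simp
  rw [e1, e2, Real.rpow_add hn, Real.rpow_neg_one]
  have hexp : 1 / Real.exp (arg z * -s.im) ≤ 2 := by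
    rw [one_div, ← Real.exp_neg]
    have h1 : -(arg z * -s.im) ≤ 1 / 2 := by
      have h2 : |arg z| ≤ Real.pi / 2 := Complex.abs_arg_le_pi_div_two_iff.2 hz.le
      have h3 := Real.pi_lt_d2
      calc -(arg z * -s.im) ≤ |arg z * s.im| := by
            rw [mul_neg, neg_neg]; exact le_abs_self _
        _ = |arg z| * |s.im| := abs_mul _ _
        _ ≤ (Real.pi / 2) * (1 / 4) := mul_le_mul h2 him (abs_nonneg _) (by positivity)
        _ ≤ 1 / 2 := by linarith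
    refine (Real.exp_le_exp.2 h1).trans ?_
    have h4 : Real.exp (1 / 2) ^ 2 = Real.exp 1 := by
      rw [← Real.exp_nat_mul]
      norm_num
    have h5 := Real.exp_one_lt_d9
    have h6 := Real.exp_pos (1 / 2 : ℝ)
    nlinarith
  have hpow : ‖z‖ ^ (-s.re) ≤ (‖z‖ + ‖z‖⁻¹) ^ (1/4 : ℝ) := by
    rcases le_or_gt 1 ‖z‖ with h1 | h1
    · calc ‖z‖ ^ (-s.re) ≤ ‖z‖ ^ (1/4 : ℝ) := Real.rpow_le_rpow_of_exponent_le h1 (by linarith)
        _ ≤ _ := Real.rpow_le_rpow hn.le (by linarith) (by norm_num)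
    · have h2 : ‖z‖ ^ (-s.re) = ‖z‖⁻¹ ^ s.re := by
        rw [Real.inv_rpow hn.le, Real.rpow_neg hn.le]
      have h3 : 1 ≤ ‖z‖⁻¹ := (one_le_inv₀ hn).2 h1.le
      rw [h2]
      calc ‖z‖⁻¹ ^ s.re ≤ ‖z‖⁻¹ ^ (1/4 : ℝ) := Real.rpow_le_rpow_of_exponent_le h3 (by linarith)
        _ ≤ _ := Real.rpow_le_rpow hni.le (by linarith) (by norm_num)
  calc ‖z‖⁻¹ * ‖z‖ ^ (-s.re) / Real.exp (arg z * -s.im)
      = (‖z‖⁻¹ * ‖z‖ ^ (-s.re)) * (1 / Real.exp (arg z * -s.im)) := by ring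
    _ ≤ (‖z‖⁻¹ * (‖z‖ + ‖z‖⁻¹) ^ (1/4 : ℝ)) * 2 := by
        refine mul_le_mul (mul_le_mul_of_nonneg_left hpow hni.le) hexp (by positivity) (by positivity)
    _ = _ := by ring

theorem P3_bound : ∃ C : ℝ, 0 < C ∧ ∀ z : ℂ, 0 < z.re → ‖P3 z‖ ≤ C * ‖z‖⁻¹ * (‖z‖ + ‖z‖⁻¹) ^ (1/4 : ℝ) := by
  obtain ⟨C, hC, hG⟩ := G0_bd
  refine ⟨32 * C, by positivity, fun z hz => ?_⟩
  have hz0 : z ≠ 0 := by
    intro h
    rw [h] at hz
    simp at hz
  have h1 := C2_le (f := fun s => G0 s * z ^ (-(1 + s))) (r := 1 / 4)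
    (M := C * (2 * ‖z‖⁻¹ * (‖z‖ + ‖z‖⁻¹) ^ (1/4 : ℝ))) (by norm_num) (by
      intro s hs
      have h2 : Differentiable ℂ fun s : ℂ => z ^ (-(1 + s)) := by
        intro w
        exact DifferentiableAt.const_cpow (by fun_prop) (Or.inl hz0)
      exact (G0_analytic (by linarith)).mul (h2.analyticAt s)) (by
      intro s hs
      rw [norm_mul]
      exact mul_le_mul (hG s hs.le).1 (cpow_bd hz hs.le) (norm_nonneg _) hC.le)
  refine h1.trans (le_of_eq ?_)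
  ring

end Pool.Agent.LibPH
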