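import Mathlib
import Pool.Agent.LibPH.XDefs

/-! ROW X08: the function `vv m n a b c`: mean zero in each variable, partial sums.

`∑_{c < n} vv(a, b, c0 + c) = 0` for `a, b ≥ 1`, `(m,n) = 1`: a sum over `n` consecutive `c` only depends on residues
(Nat.filter_Ico_card..., `Finset.sum_range` and periodicity in `c`): `∑_c e(-mabc/n) = n [n ∣ ab]` (geometric sum of roots of unity:
`n ∣ mab ↔ n ∣ ab`), `∑_c [n ∣ bc] = (b,n)`, `∑_c [n ∣ ca] = (a,n)`, `∑_c (c,n)/n = n ν_n`. So the total is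
`n[n∣ab] - n[n∣ab] - (b,n) - (a,n) + (a,n) + (b,n) + n ν_n - n ν_n = 0`.
norm: `‖vv‖ ≤ 8` since `0 ≤ ν_n ≤ 1`. Partial sums: blocks of length `n` cancel, the rest has fewer than `n` terms.
vv_symm: `vv` is symmetric under permutations of `(a, b, c)` (used in X09). -/

set_option autoImplicit false

namespace Pool.Agent.LibPH

open MeasureTheory Set Filter Topology Complex
open scoped ComplexConjugate

theorem x08_gcd_le {n : ℕ} (hn : 1 ≤ n) (a : ℕ) : Nat.gcd a n ≤ n :=
  Nat.le_of_dvd (by omega) (Nat.gcd_dvd_right a n)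

theorem nun_mem {n : ℕ} (hn : 1 ≤ n) : 0 ≤ nun n ∧ nun n ≤ 1 := by
  have hn' : (0:ℝ) < n := by exact_mod_cast hn
  unfold nun
  constructor
  · positivity
  · rw [div_le_one (by positivity)]
    calc (∑ r ∈ Finset.range n, (Nat.gcd r n : ℝ)) ≤ ∑ r ∈ Finset.range n, (n:ℝ) :=
          Finset.sum_le_sum fun r _ => by exact_mod_cast x08_gcd_le hn r
      _ = (n:ℝ) ^ 2 := by simp; ring

theorem x08_dvi_norm (n k : ℕ) : ‖dvi n k‖ ≤ 1 := by
  unfold dvi; split_ifs <;> simp

theorem vv_norm {m n : ℕ} (hn : 1 ≤ n) (a b c : ℕ) : ‖vv m n a b c‖ ≤ 8 := by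
  have hn' : (0:ℝ) < n := by exact_mod_cast hn
  have h1 : ‖cexp (-((2 * Real.pi * m * (a * b * c) / n : ℝ) : ℂ) * I)‖ ≤ 1 := by
    have := Complex.norm_exp_ofReal_mul_I (-(2 * Real.pi * m * (a * b * c) / n))
    rw [Complex.ofReal_neg] at this
    exact this.le
  have h2 : ‖((((Nat.gcd a n + Nat.gcd b n + Nat.gcd c n : ℕ) : ℝ) / n : ℝ) : ℂ)‖ ≤ 3 := by
    rw [Complex.norm_real, Real.norm_eq_abs, abs_of_nonneg (by positivity), div_le_iff₀ hn']
    have : Nat.gcd a n + Nat.gcd b n + Nat.gcd c n ≤ 3 * n := by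
      have := x08_gcd_le hn a
      have := x08_gcd_le hn b
      have := x08_gcd_le hn c
      omega
    exact_mod_cast this
  have h3 : ‖((nun n : ℝ) : ℂ)‖ ≤ 1 := by
    rw [Complex.norm_real, Real.norm_eq_abs, abs_of_nonneg (nun_mem hn).1]
    exact (nun_mem hn).2
  have h4 := x08_dvi_norm n (a * b)
  have h5 := x08_dvi_norm n (b * c)
  have h6 := x08_dvi_norm n (c * a)
  unfold vv
  refine (norm_sub_le _ _).trans ?_
  refine (add_le_add_left (norm_add_le _ _) _).trans ?_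
  refine (add_le_add_left (add_le_add_left (norm_sub_le _ _) _) _).trans ?_
  refine (add_le_add_left (add_le_add_left (add_le_add_left (norm_sub_le _ _) _) _) _).trans ?_
  refine (add_le_add_left (add_le_add_left (add_le_add_left (add_le_add_left
    (norm_sub_le _ _) _) _) _) _).trans ?_
  linarith

theorem vv_rot (m n a b c : ℕ) : vv m n a b c = vv m n b c a := by
  unfold vv
  have h1 : (2 * Real.pi * m * ((a:ℝ) * b * c) / n : ℝ) = 2 * Real.pi * m * (b * c * a) / n := by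
    ring
  have h2 : Nat.gcd a n + Nat.gcd b n + Nat.gcd c n = Nat.gcd b n + Nat.gcd c n + Nat.gcd a n := by
    ring
  rw [h1, h2]
  ring

theorem vv_swap (m n a b c : ℕ) : vv m n a b c = vv m n b a c := by
  unfold vv
  have h1 : (2 * Real.pi * m * ((a:ℝ) * b * c) / n : ℝ) = 2 * Real.pi * m * (b * a * c) / n := by
    ring
  have h2 : Nat.gcd a n + Nat.gcd b n + Nat.gcd c n = Nat.gcd b n + Nat.gcd a n + Nat.gcd c n := by
    ring
  rw [h1, h2, mul_comm a b, mul_comm b c, mul_comm c a]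
  ring

theorem x08_shift {f : ℕ → ℂ} {n : ℕ} (hf : ∀ c, f (c + n) = f c) (c0 : ℕ) :
    ∑ c ∈ Finset.range n, f (c0 + c) = ∑ c ∈ Finset.range n, f c := by
  induction c0 with
  | zero => simp
  | succ c0 ih =>
    rw [← ih]
    have h1 : ∑ c ∈ Finset.range (n + 1), f (c0 + c) =
        ∑ c ∈ Finset.range n, f (c0 + c) + f (c0 + n) := Finset.sum_range_succ _ _
    have h2 : ∑ c ∈ Finset.range (n + 1), f (c0 + c) =
        ∑ c ∈ Finset.range n, f (c0 + (c + 1)) + f (c0 + 0) := Finset.sum_range_succ' _ _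
    have h3 : f (c0 + n) = f c0 := hf c0
    rw [h3] at h1
    rw [add_zero, h1] at h2
    have h4 := add_right_cancel h2
    rw [h4]
    refine Finset.sum_congr rfl fun c _ => ?_
    rw [show c0 + 1 + c = c0 + (c + 1) by ring]

theorem x08_exp_pow (m n a b c : ℕ) :
    cexp (-((2 * Real.pi * m * (a * b * c) / n : ℝ) : ℂ) * I) =
      cexp (-((2 * Real.pi * m * (a * b) / n : ℝ) : ℂ) * I) ^ c := by
  rw [← Complex.exp_nat_mul]
  congr 1
  push_cast
  ring

theorem x08_root {m n : ℕ} (hn : 1 ≤ n) (a b : ℕ) :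
    cexp (-((2 * Real.pi * m * (a * b) / n : ℝ) : ℂ) * I) ^ n = 1 := by
  have hn' : (n:ℂ) ≠ 0 := by exact_mod_cast (by omega : n ≠ 0)
  rw [← Complex.exp_nat_mul, Complex.exp_eq_one_iff]
  refine ⟨-(m * (a * b) : ℕ), ?_⟩
  push_cast
  field_simp

theorem x08_eq_one_iff {m n : ℕ} (hn : 1 ≤ n) (hmn : Nat.Coprime m n) (a b : ℕ) :
    cexp (-((2 * Real.pi * m * (a * b) / n : ℝ) : ℂ) * I) = 1 ↔ n ∣ a * b := by
  have hn' : (n:ℂ) ≠ 0 := by exact_mod_cast (by omega : n ≠ 0)
  have hpi : (Real.pi : ℂ) ≠ 0 := by exact_mod_cast Real.pi_ne_zero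
  constructor
  · intro h
    rw [Complex.exp_eq_one_iff] at h
    obtain ⟨k, hk⟩ := h
    have h1 : (m:ℂ) * (a * b) = -k * n := by
      push_cast at hk
      field_simp at hk
      linear_combination (-1 : ℂ) * hk
    have h3 : ((m * (a * b) : ℕ) : ℤ) = -k * n := by
      have : (((m * (a * b) : ℕ) : ℤ) : ℂ) = ((-k * n : ℤ) : ℂ) := by
        push_cast; exact h1
      exact_mod_cast this
    have h4 : (n:ℤ) ∣ ((m * (a * b) : ℕ) : ℤ) := ⟨-k, by rw [h3]; ring⟩
    have h5 : n ∣ m * (a * b) := by exact_mod_cast h4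
    exact (Nat.Coprime.symm hmn).dvd_of_dvd_mul_left h5
  · rintro ⟨d, hd⟩
    rw [Complex.exp_eq_one_iff]
    refine ⟨-(m * d : ℕ), ?_⟩
    have hd' : (a:ℂ) * b = n * d := by exact_mod_cast hd
    push_cast
    rw [hd']
    field_simp

theorem x08_exp_sum {m n : ℕ} (hn : 1 ≤ n) (hmn : Nat.Coprime m n) (a b : ℕ) :
    ∑ c ∈ Finset.range n, cexp (-((2 * Real.pi * m * (a * b * c) / n : ℝ) : ℂ) * I) =
      n * dvi n (a * b) := by
  simp only [x08_exp_pow m n a b]
  unfold dvi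
  split_ifs with h
  · rw [(x08_eq_one_iff hn hmn a b).2 h]
    simp
  · have hne : cexp (-((2 * Real.pi * m * (a * b) / n : ℝ) : ℂ) * I) ≠ 1 := fun hc =>
      h ((x08_eq_one_iff hn hmn a b).1 hc)
    rw [geom_sum_eq hne, x08_root hn]
    simp

theorem x08_dvi_sum {n : ℕ} (hn : 1 ≤ n) (b : ℕ) :
    ∑ c ∈ Finset.range n, dvi n (b * c) = (Nat.gcd b n : ℂ) := by
  obtain ⟨b', n', hco, hb, hnn⟩ := Nat.exists_coprime b n
  set g := Nat.gcd b n with hg
  have hg0 : 0 < g := Nat.gcd_pos_of_pos_right b hn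
  have hn'0 : 0 < n' := Nat.pos_of_ne_zero (by rintro rfl; omega)
  have hiff : ∀ c, n ∣ b * c ↔ n' ∣ c := by
    intro c
    have h1 : n ∣ b * c ↔ g * n' ∣ g * (b' * c) := by
      rw [mul_comm g n', ← hnn, show g * (b' * c) = (b' * g) * c by ring, ← hb]
    rw [h1, Nat.mul_dvd_mul_iff_left hg0]
    exact ⟨fun h => (Nat.Coprime.symm hco).dvd_of_dvd_mul_left h, fun h => Dvd.dvd.mul_left h b'⟩
  unfold dvi
  rw [Finset.sum_boole]
  have h2 : (Finset.range n).filter (fun c => n ∣ b * c) =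
      (Finset.range g).image (fun j => n' * j) := by
    ext c
    simp only [Finset.mem_filter, Finset.mem_range, Finset.mem_image, hiff]
    constructor
    · rintro ⟨hc, j, rfl⟩
      refine ⟨j, ?_, rfl⟩
      rw [hnn] at hc
      exact lt_of_mul_lt_mul_left hc (Nat.zero_le n')
    · rintro ⟨j, hj, rfl⟩
      refine ⟨?_, Dvd.intro j rfl⟩
      rw [hnn]
      exact Nat.mul_lt_mul_of_pos_left hj hn'0
  rw [h2, Finset.card_image_of_injective _ (fun x y hxy => Nat.eq_of_mul_eq_mul_left hn'0 hxy),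
    Finset.card_range]

theorem vv_mean {m n : ℕ} (hn : 1 ≤ n) (hmn : Nat.Coprime m n) (a b c0 : ℕ) :
    ∑ c ∈ Finset.range n, vv m n a b (c0 + c) = 0 := by
  have hn' : (n:ℂ) ≠ 0 := by exact_mod_cast (by omega : n ≠ 0)
  have hper : ∀ c, vv m n a b (c + n) = vv m n a b c := by
    intro c
    unfold vv
    have h1 : cexp (-((2 * Real.pi * m * (a * b * ((c + n : ℕ) : ℝ)) / n : ℝ) : ℂ) * I) =
        cexp (-((2 * Real.pi * m * (a * b * c) / n : ℝ) : ℂ) * I) := by
      rw [x08_exp_pow m n a b (c + n), x08_exp_pow m n a b c, pow_add, x08_root hn, mul_one]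
    have h2 : dvi n (b * (c + n)) = dvi n (b * c) := by
      exact if_congr (by rw [mul_add]; exact Nat.dvd_add_left (Dvd.intro_left b rfl)) rfl rfl
    have h3 : dvi n ((c + n) * a) = dvi n (c * a) := by
      exact if_congr (by rw [add_mul]; exact Nat.dvd_add_left (Dvd.intro a rfl)) rfl rfl
    have h4 : Nat.gcd (c + n) n = Nat.gcd c n := by simp
    rw [h1, h2, h3, h4]
  rw [x08_shift hper]
  unfold vv
  rw [Finset.sum_sub_distrib, Finset.sum_add_distrib, Finset.sum_sub_distrib,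
    Finset.sum_sub_distrib, Finset.sum_sub_distrib, x08_exp_sum hn hmn, x08_dvi_sum hn]
  have h3 : ∑ c ∈ Finset.range n, dvi n (c * a) = (Nat.gcd a n : ℂ) := by
    rw [← x08_dvi_sum hn a]
    exact Finset.sum_congr rfl fun c _ => by rw [mul_comm]
  rw [h3]
  have h4 : ∑ c ∈ Finset.range n,
      ((((Nat.gcd a n + Nat.gcd b n + Nat.gcd c n : ℕ) : ℝ) / n : ℝ) : ℂ) =
      (Nat.gcd a n : ℂ) + (Nat.gcd b n : ℂ) + n * ((nun n : ℝ) : ℂ) := by
    unfold nun
    push_cast
    rw [← Finset.sum_div, Finset.sum_add_distrib]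
    simp only [Finset.sum_const, Finset.card_range, nsmul_eq_mul]
    field_simp
  rw [h4]
  simp only [Finset.sum_const, Finset.card_range, nsmul_eq_mul]
  ring

theorem vv_partial {m n : ℕ} (hn : 1 ≤ n) (hmn : Nat.Coprime m n) (a b c0 N : ℕ) :
    ‖∑ c ∈ Finset.range N, vv m n a b (c0 + c)‖ ≤ 8 * n := by
  induction N using Nat.strong_induction_on generalizing c0 with
  | _ N ih =>
    rcases lt_or_ge N n with h | h
    · refine (norm_sum_le _ _).trans ?_
      calc ∑ c ∈ Finset.range N, ‖vv m n a b (c0 + c)‖ ≤ ∑ c ∈ Finset.range N, (8:ℝ) :=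
            Finset.sum_le_sum fun c _ => vv_norm hn a b _
        _ = 8 * N := by simp; ring
        _ ≤ 8 * n := by
            have : (N:ℝ) ≤ n := by exact_mod_cast h.le
            linarith
    · obtain ⟨M, rfl⟩ := Nat.exists_eq_add_of_le h
      rw [Finset.sum_range_add, vv_mean hn hmn, zero_add]
      have := ih M (by omega) (c0 + n)
      simpa [add_assoc] using this

end Pool.Agent.LibPH
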