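import Mathlib
import Pool.Agent.LibPH.XDefs

/-! ROW X09a (x09_tail): the error sum `E3`.

x09_tail: for `f : ℕ → ℂ` with partial sums bounded by `B` (also from any starting point) and `k > 0`, `Re θ = x > 0`:
`‖∑_{c ≥ M} f(c) e^{-kcθ}‖ ≤ 2B (1 + ‖θ‖/x) ... ≤ C B (‖θ‖/x)(1 + kx) e^{-kMx}`: Abel summation, `|e^{-kcθ} - e^{-k(c+1)θ}| ≤ k‖θ‖ e^{-kcx}`,
`∑_{c ≥ M} e^{-kcx} = e^{-kMx}/(1-e^{-kx}) ≤ e^{-kMx}(1 + 1/(kx))`.
Split `ℕ³` (a, b, c ≥ 1) by the position of the largest: R3 = {a < c, b < c}, R2 = {a < b, c ≤ b}, R1 = {b ≤ a, c ≤ a}; on each the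
sum over the largest variable is a tail (vv_rot / vv_swap). With `M = max(a,b)`, `k = ab`: `(1 + abx) e^{-abMx} ≤ 2 e^{-abMx/2}` and
`abM ≥ (ab)^{3/2}`; `e^{-u} ≤ C u^{-3/4}` with `u = (ab)^{3/2}x/2`: `∑_{a,b} (ab)^{-9/8} x^{-3/4}`. -/

set_option autoImplicit false

namespace Pool.Agent.LibPH

open MeasureTheory Set Filter Topology Complex
open scoped ComplexConjugate

theorem x09_one_sub_exp {z : ℂ} (hz : 0 ≤ z.re) : ‖1 - cexp (-z)‖ ≤ ‖z‖ := by
  have hconv : Convex ℝ {w : ℂ | 0 ≤ w.re} := convex_halfSpace_re_ge 0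
  have h1 : ∀ w ∈ {w : ℂ | 0 ≤ w.re}, HasDerivWithinAt (fun w => cexp (-w)) (-cexp (-w)) {w : ℂ | 0 ≤ w.re} w := by
    intro w _
    have h2 : HasDerivAt (fun w : ℂ => cexp (-w)) (cexp (-w) * (-1)) w := (hasDerivAt_neg w).cexp
    have h3 : cexp (-w) * (-1) = -cexp (-w) := by ring
    rw [h3] at h2
    exact h2.hasDerivWithinAt
  have h2 : ∀ w ∈ {w : ℂ | 0 ≤ w.re}, ‖-cexp (-w)‖ ≤ 1 := by
    intro w hw
    rw [norm_neg, Complex.norm_exp]
    simp only [Complex.neg_re]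
    exact Real.exp_le_one_iff.mpr (neg_nonpos.mpr hw)
  have h3 := hconv.norm_image_sub_le_of_norm_hasDerivWithin_le h1 h2 (x := z) (y := 0) hz (by simp)
  simpa using h3

theorem x09_tail : ∃ C : ℝ, 0 < C ∧ ∀ (f : ℕ → ℂ) (B : ℝ), (∀ c0 N : ℕ, ‖∑ c ∈ Finset.range N, f (c0 + c)‖ ≤ B) →
    ∀ (k : ℝ) (θ : ℂ) (M : ℕ), 0 < k → 0 < θ.re →
    Summable (fun c : ℕ => f (M + c) * cexp (-((k * (M + c : ℕ) : ℝ) * θ))) ∧
    ‖∑' c : ℕ, f (M + c) * cexp (-((k * (M + c : ℕ) : ℝ) * θ))‖ ≤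
      C * B * (‖θ‖ / θ.re) * (1 + k * θ.re) * Real.exp (-(k * M * θ.re)) := by
  refine ⟨1, one_pos, ?_⟩
  intro f B hB k θ M hk hθ
  have hB0 : 0 ≤ B := (norm_nonneg _).trans (hB 0 0)
  have hf : ∀ c, ‖f c‖ ≤ B := by
    intro c
    have := hB c 1
    simpa using this
  set x := θ.re with hx
  set ω : ℂ := cexp (-((k : ℂ) * θ)) with hω
  set g0 : ℂ := cexp (-((k * (M : ℕ) : ℝ) * θ)) with hg0
  set r : ℝ := Real.exp (-(k * x)) with hr
  have hωn : ‖ω‖ = r := by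
    rw [hω, Complex.norm_exp, hr]
    congr 1
    simp [hx]
  have hg0n : ‖g0‖ = Real.exp (-(k * M * x)) := by
    rw [hg0, Complex.norm_exp]
    congr 1
    rw [Complex.neg_re, Complex.re_ofReal_mul]
  have hr0 : 0 < r := Real.exp_pos _
  have hkx : 0 < k * x := mul_pos hk hθ
  have hr1 : r < 1 := by
    rw [hr, ← Real.exp_zero]; exact Real.exp_lt_exp.mpr (by linarith)
  have hg : ∀ c : ℕ, cexp (-((k * (M + c : ℕ) : ℝ) * θ)) = g0 * ω ^ c := by
    intro c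
    rw [hg0, hω, ← Complex.exp_nat_mul, ← Complex.exp_add]
    congr 1
    push_cast
    ring
  have hgn : ∀ c : ℕ, ‖g0 * ω ^ c‖ = Real.exp (-(k * M * x)) * r ^ c := by
    intro c
    rw [norm_mul, norm_pow, hωn, hg0n]
  have hgeo : Summable fun c : ℕ => r ^ c := summable_geometric_of_lt_one hr0.le hr1
  have hsum : Summable (fun c : ℕ => f (M + c) * (g0 * ω ^ c)) := by
    refine Summable.of_norm_bounded (g := fun c => B * (Real.exp (-(k * M * x)) * r ^ c)) ((hgeo.mul_left _).mul_left _) ?_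
    intro c
    rw [norm_mul, hgn]
    exact mul_le_mul_of_nonneg_right (hf _) (by positivity)
  simp only [hg]
  refine ⟨hsum, ?_⟩
  -- Abel summation
  set F : ℕ → ℂ := fun N => ∑ c ∈ Finset.range N, f (M + c) with hF
  have hFb : ∀ N, ‖F N‖ ≤ B := fun N => hB M N
  have habel : ∀ N : ℕ, ∑ c ∈ Finset.range N, f (M + c) * (g0 * ω ^ c) =
      F N * (g0 * ω ^ N) + ∑ c ∈ Finset.range N, F (c + 1) * (g0 * ω ^ c * (1 - ω)) := by
    intro N
    induction N with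
    | zero => simp [hF]
    | succ N ih =>
      rw [Finset.sum_range_succ, ih, Finset.sum_range_succ]
      have h1 : F (N + 1) = F N + f (M + N) := by simp only [hF, Finset.sum_range_succ]
      rw [h1, pow_succ]
      ring
  have hsum2 : Summable (fun c : ℕ => ‖F (c + 1) * (g0 * ω ^ c * (1 - ω))‖) := by
    refine Summable.of_nonneg_of_le (fun _ => norm_nonneg _) (g := _) ?_
      (((hgeo.mul_left (Real.exp (-(k * M * x)))).mul_right ‖1 - ω‖).mul_left B)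
    intro c
    rw [norm_mul, norm_mul, hgn]
    exact mul_le_mul_of_nonneg_right (hFb _) (by positivity)
  have hlim0 : Tendsto (fun N : ℕ => F N * (g0 * ω ^ N)) atTop (𝓝 0) := by
    rw [tendsto_zero_iff_norm_tendsto_zero]
    have h1 : Tendsto (fun N : ℕ => B * (Real.exp (-(k * M * x)) * r ^ N)) atTop (𝓝 0) := by
      have := ((tendsto_pow_atTop_nhds_zero_of_lt_one hr0.le hr1).const_mul (Real.exp (-(k * M * x)))).const_mul B
      simpa using this
    refine squeeze_zero (fun _ => norm_nonneg _) (fun N => ?_) h1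
    rw [norm_mul, hgn]
    exact mul_le_mul_of_nonneg_right (hFb _) (by positivity)
  have hval : ∑' c : ℕ, f (M + c) * (g0 * ω ^ c) = ∑' c : ℕ, F (c + 1) * (g0 * ω ^ c * (1 - ω)) := by
    have h1 := hsum.hasSum.tendsto_sum_nat
    have h2 := hsum2.of_norm.hasSum.tendsto_sum_nat
    have h3 : Tendsto (fun N : ℕ => ∑ c ∈ Finset.range N, f (M + c) * (g0 * ω ^ c)) atTop
        (𝓝 (0 + ∑' c : ℕ, F (c + 1) * (g0 * ω ^ c * (1 - ω)))) := by
      simp only [habel]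
      exact hlim0.add h2
    rw [zero_add] at h3
    exact tendsto_nhds_unique h1 h3
  rw [hval]
  have hω1 : ‖1 - ω‖ ≤ k * ‖θ‖ := by
    have h1 := x09_one_sub_exp (z := (k : ℂ) * θ) (by rw [Complex.re_ofReal_mul]; exact hkx.le)
    rw [norm_mul, Complex.norm_real, Real.norm_eq_abs, abs_of_pos hk] at h1
    exact h1
  have hsumr : ∑' c : ℕ, r ^ c = (1 - r)⁻¹ := tsum_geometric_of_lt_one hr0.le hr1
  have hinv : (1 - r)⁻¹ ≤ (1 + k * x) / (k * x) := by
    have h1 : 1 + k * x ≤ Real.exp (k * x) := by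
      have := Real.add_one_le_exp (k * x); linarith
    have h2 : r * (1 + k * x) ≤ 1 := by
      rw [hr, Real.exp_neg, inv_mul_le_iff₀ (Real.exp_pos _), mul_one]
      exact h1
    have h3 : 0 < 1 - r := by linarith
    rw [inv_le_comm₀ h3 (by positivity), inv_div, div_le_iff₀ (by positivity)]
    nlinarith
  have hHS : HasSum (fun c : ℕ => B * (Real.exp (-(k * M * x)) * r ^ c * ‖1 - ω‖))
      (B * (Real.exp (-(k * M * x)) * (1 - r)⁻¹ * ‖1 - ω‖)) := by
    have h1 := hgeo.hasSum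
    rw [hsumr] at h1
    exact ((h1.mul_left _).mul_right _).mul_left _
  have h5 := tsum_of_norm_bounded (f := fun c : ℕ => F (c + 1) * (g0 * ω ^ c * (1 - ω))) hHS (by
    intro c
    rw [norm_mul, norm_mul, hgn]
    exact mul_le_mul_of_nonneg_right (hFb _) (by positivity))
  refine h5.trans ?_
  have hx0 : 0 < x := hθ
  have h6 : (1 - r)⁻¹ * ‖1 - ω‖ ≤ (1 + k * x) / (k * x) * (k * ‖θ‖) :=
    mul_le_mul hinv hω1 (norm_nonneg _) (by positivity)
  have h7 : (1 + k * x) / (k * x) * (k * ‖θ‖) = (‖θ‖ / x) * (1 + k * x) := by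
    field_simp
  rw [h7] at h6
  calc B * (Real.exp (-(k * M * x)) * (1 - r)⁻¹ * ‖1 - ω‖)
      = (B * Real.exp (-(k * M * x))) * ((1 - r)⁻¹ * ‖1 - ω‖) := by ring
    _ ≤ (B * Real.exp (-(k * M * x))) * ((‖θ‖ / x) * (1 + k * x)) :=
        mul_le_mul_of_nonneg_left h6 (by positivity)
    _ = 1 * B * (‖θ‖ / x) * (1 + k * x) * Real.exp (-(k * M * x)) := by ring

end Pool.Agent.LibPH
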