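import Mathlib
import Pool.Agent.LibPH.X08
import Pool.Agent.LibPH.X09a
import Pool.Agent.LibPH.X03

/-! ROW X09: the error sum `E3`.

x09_tail: for `f : ℕ → ℂ` with partial sums bounded by `B` (also from any starting point) and `k > 0`, `Re θ = x > 0`:
`‖∑_{c ≥ M} f(c) e^{-kcθ}‖ ≤ 2B (1 + ‖θ‖/x) ... ≤ C B (‖θ‖/x)(1 + kx) e^{-kMx}`: Abel summation, `|e^{-kcθ} - e^{-k(c+1)θ}| ≤ k‖θ‖ e^{-kcx}`,
`∑_{c ≥ M} e^{-kcx} = e^{-kMx}/(1-e^{-kx}) ≤ e^{-kMx}(1 + 1/(kx))`.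
Split `ℕ³` (a, b, c ≥ 1) by the position of the largest: R3 = {a < c, b < c}, R2 = {a < b, c ≤ b}, R1 = {b ≤ a, c ≤ a}; on each the
sum over the largest variable is a tail (vv_rot / vv_swap). With `M = max(a,b)`, `k = ab`: `(1 + abx) e^{-abMx} ≤ 2 e^{-abMx/2}` and
`abM ≥ (ab)^{3/2}`; `e^{-u} ≤ C u^{-3/4}` with `u = (ab)^{3/2}x/2`: `∑_{a,b} (ab)^{-9/8} x^{-3/4}`. -/

set_option autoImplicit false

namespace Pool.Agent.LibPH

open MeasureTheory Set Filter Topology Complex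
open scoped ComplexConjugate

/-- the summand of `E3` in any order of the variables -/
noncomputable def x09_term (m n : ℕ) (θ : ℂ) (a b c : ℕ) : ℂ :=
  vv m n (a + 1) (b + 1) (c + 1) * cexp (-((pr (a, b, c) : ℂ) * θ))

theorem x09_rot (m n : ℕ) (θ : ℂ) (a b c : ℕ) : x09_term m n θ a b c = x09_term m n θ b c a := by
  unfold x09_term
  rw [vv_rot m n (a + 1) (b + 1) (c + 1)]
  have h : pr (a, b, c) = pr (b, c, a) := by
    simp only [pr]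
    ring
  rw [h]

/-- `(1 + u) e^{-u M} ≤ 2 (u M)^{-3/4}` for `M ≥ 1` -/
theorem x09_real {u M : ℝ} (hu : 0 < u) (hM : 1 ≤ M) :
    (1 + u) * Real.exp (-(u * M)) ≤ 2 * (u * M) ^ (-(3/4) : ℝ) := by
  set t := u * M with ht
  have ht0 : 0 < t := by positivity
  have hut : u ≤ t := by rw [ht]; nlinarith
  have h1 : (1 + t) ^ 2 ≤ 2 * Real.exp t := by
    have := Real.quadratic_le_exp_of_nonneg ht0.le
    nlinarith
  have h2 : (1 + u) * Real.exp (-t) ≤ 2 / (1 + t) := by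
    rw [le_div_iff₀ (by linarith), Real.exp_neg, mul_assoc, ← div_eq_inv_mul, ← mul_div_assoc,
      div_le_iff₀ (Real.exp_pos t)]
    nlinarith
  refine h2.trans ?_
  rw [div_eq_mul_inv]
  refine mul_le_mul_of_nonneg_left ?_ (by norm_num)
  rw [Real.rpow_neg ht0.le]
  apply inv_anti₀ (Real.rpow_pos_of_pos ht0 _)
  calc t ^ (3/4 : ℝ) ≤ (1 + t) ^ (3/4 : ℝ) := Real.rpow_le_rpow ht0.le (by linarith) (by norm_num)
    _ ≤ (1 + t) ^ (1 : ℝ) := Real.rpow_le_rpow_of_exponent_le (by linarith) (by norm_num)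
    _ = 1 + t := Real.rpow_one _

/-- the bound of the sum over the largest variable -/
theorem x09_inner : ∃ C : ℝ, 0 < C ∧ ∀ m n : ℕ, 1 ≤ n → Nat.Coprime m n → ∀ θ : ℂ, 0 < θ.re → ∀ u v M : ℕ, u ≤ M → v ≤ M →
    ‖∑' c : ℕ, (if M ≤ c then x09_term m n θ u v c else 0)‖ ≤
      (C * n * (‖θ‖ / θ.re) * θ.re ^ (-(3/4) : ℝ)) * (((u:ℝ) + 1) ^ (-(9/8) : ℝ) * ((v:ℝ) + 1) ^ (-(9/8) : ℝ)) := by
  obtain ⟨C0, hC0, hT⟩ := x09_tail
  refine ⟨C0 * 8 * 2, by positivity, ?_⟩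
  intro m n hn hmn θ hθ u v M hu hv
  set x := θ.re with hx
  set k : ℝ := ((u:ℝ) + 1) * ((v:ℝ) + 1) with hk
  have hk0 : 0 < k := by positivity
  obtain ⟨hS, hB⟩ := hT (fun c => vv m n (u + 1) (v + 1) c) (8 * n) (fun c0 N => vv_partial hn hmn (u + 1) (v + 1) c0 N)
    k θ (M + 1) hk0 hθ
  have hterm : ∀ c : ℕ, x09_term m n θ u v (c + M) =
      vv m n (u + 1) (v + 1) (M + 1 + c) * cexp (-((k * (M + 1 + c : ℕ) : ℝ) * θ)) := by
    intro c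
    unfold x09_term
    have h1 : c + M + 1 = M + 1 + c := by ring
    rw [h1]
    congr 2
    simp only [pr, hk]
    push_cast
    ring
  have hsplit : ∑' c : ℕ, (if M ≤ c then x09_term m n θ u v c else 0) =
      ∑' c : ℕ, vv m n (u + 1) (v + 1) (M + 1 + c) * cexp (-((k * (M + 1 + c : ℕ) : ℝ) * θ)) := by
    have h1 : (fun c : ℕ => (if M ≤ c + M then x09_term m n θ u v (c + M) else 0)) =
        fun c => vv m n (u + 1) (v + 1) (M + 1 + c) * cexp (-((k * (M + 1 + c : ℕ) : ℝ) * θ)) := by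
      funext c
      rw [if_pos (Nat.le_add_left M c), hterm]
    have h2 : Summable (fun c : ℕ => (if M ≤ c then x09_term m n θ u v c else 0)) := by
      rw [← summable_nat_add_iff M]
      rw [h1]
      exact hS
    rw [← h2.sum_add_tsum_nat_add M, h1]
    rw [Finset.sum_eq_zero, zero_add]
    intro c hc
    exact if_neg (not_le.mpr (Finset.mem_range.mp hc))
  rw [hsplit]
  refine hB.trans ?_
  have hkx : 0 < k * x := mul_pos hk0 hθ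
  have hM1 : (1:ℝ) ≤ ((M + 1 : ℕ) : ℝ) := by push_cast; linarith [(Nat.cast_nonneg M : (0:ℝ) ≤ M)]
  have h3 := x09_real hkx hM1
  have h4 : k * x * ((M + 1 : ℕ) : ℝ) = k * ((M + 1 : ℕ) : ℝ) * x := by ring
  rw [h4] at h3
  have hu1 : ((u:ℝ) + 1) ≤ ((M + 1 : ℕ) : ℝ) := by push_cast; exact_mod_cast Nat.add_le_add_right hu 1
  have hv1 : ((v:ℝ) + 1) ≤ ((M + 1 : ℕ) : ℝ) := by push_cast; exact_mod_cast Nat.add_le_add_right hv 1
  have h5 : k ^ (3/2 : ℝ) ≤ k * ((M + 1 : ℕ) : ℝ) := by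
    have h6 : k ^ (1/2 : ℝ) ≤ ((M + 1 : ℕ) : ℝ) := by
      rw [← Real.sqrt_eq_rpow]
      apply Real.sqrt_le_iff.mpr
      refine ⟨by positivity, ?_⟩
      rw [hk, sq]
      exact mul_le_mul hu1 hv1 (by positivity) (by positivity)
    have h7 : k ^ (3/2 : ℝ) = k * k ^ (1/2 : ℝ) := by
      rw [show (3/2 : ℝ) = 1 + 1/2 by norm_num, Real.rpow_add hk0, Real.rpow_one]
    rw [h7]
    exact mul_le_mul_of_nonneg_left h6 hk0.le
  have h8 : (k * ((M + 1 : ℕ) : ℝ) * x) ^ (-(3/4) : ℝ) ≤ x ^ (-(3/4) : ℝ) * k ^ (-(9/8) : ℝ) := by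
    have h9 : 0 < k ^ (3/2 : ℝ) := Real.rpow_pos_of_pos hk0 _
    calc (k * ((M + 1 : ℕ) : ℝ) * x) ^ (-(3/4) : ℝ) ≤ (k ^ (3/2 : ℝ) * x) ^ (-(3/4) : ℝ) := by
          apply Real.rpow_le_rpow_of_nonpos (mul_pos h9 hθ) (mul_le_mul_of_nonneg_right h5 hθ.le) (by norm_num)
      _ = x ^ (-(3/4) : ℝ) * k ^ (-(9/8) : ℝ) := by
          rw [Real.mul_rpow h9.le hθ.le, ← Real.rpow_mul hk0.le, mul_comm]
          norm_num
  have h10 : k ^ (-(9/8) : ℝ) = ((u:ℝ) + 1) ^ (-(9/8) : ℝ) * ((v:ℝ) + 1) ^ (-(9/8) : ℝ) := by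
    rw [hk, Real.mul_rpow (by positivity) (by positivity)]
  have hnn : (0:ℝ) ≤ n := Nat.cast_nonneg n
  have hq : 0 ≤ ‖θ‖ / x := div_nonneg (norm_nonneg _) hθ.le
  calc C0 * (8 * n) * (‖θ‖ / x) * (1 + k * x) * Real.exp (-(k * ((M + 1 : ℕ) : ℝ) * x))
      = (C0 * (8 * n) * (‖θ‖ / x)) * ((1 + k * x) * Real.exp (-(k * ((M + 1 : ℕ) : ℝ) * x))) := by ring
    _ ≤ (C0 * (8 * n) * (‖θ‖ / x)) * (2 * (x ^ (-(3/4) : ℝ) * k ^ (-(9/8) : ℝ))) := by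
        refine mul_le_mul_of_nonneg_left (h3.trans ?_) (by positivity)
        exact mul_le_mul_of_nonneg_left h8 (by norm_num)
    _ = _ := by rw [h10]; ring

/-- a triple sum over a region, summed first over one of the variables -/
theorem x09_triple {Ψ : ℕ × ℕ × ℕ → ℂ} (hΨ : Summable Ψ) (e : (ℕ × ℕ) × ℕ ≃ ℕ × ℕ × ℕ) {D : ℝ}
    (h : ∀ p : ℕ × ℕ, ‖∑' c : ℕ, Ψ (e (p, c))‖ ≤ D * (((p.1:ℝ) + 1) ^ (-(9/8) : ℝ) * ((p.2:ℝ) + 1) ^ (-(9/8) : ℝ))) :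
    ‖∑' q, Ψ q‖ ≤ D * (∑' a : ℕ, ((a:ℝ) + 1) ^ (-(9/8) : ℝ)) ^ 2 := by
  have hS1 : Summable fun a : ℕ => ((a:ℝ) + 1) ^ (-(9/8) : ℝ) := by
    have := (summable_nat_add_iff 1).mpr (Real.summable_nat_rpow.mpr (show (-(9/8) : ℝ) < -1 by norm_num))
    simpa using this
  have hS2 : Summable fun p : ℕ × ℕ => ((p.1:ℝ) + 1) ^ (-(9/8) : ℝ) * ((p.2:ℝ) + 1) ^ (-(9/8) : ℝ) :=
    hS1.mul_of_nonneg hS1 (fun a => by positivity) (fun a => by positivity)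
  have hS3 : HasSum (fun p : ℕ × ℕ => ((p.1:ℝ) + 1) ^ (-(9/8) : ℝ) * ((p.2:ℝ) + 1) ^ (-(9/8) : ℝ))
      ((∑' a : ℕ, ((a:ℝ) + 1) ^ (-(9/8) : ℝ)) ^ 2) := by
    have := hS2.hasSum
    rwa [← hS1.tsum_mul_tsum hS1 hS2, ← sq] at this
  have h1 : Summable fun q : (ℕ × ℕ) × ℕ => Ψ (e q) := (e.summable_iff (f := Ψ)).mpr hΨ
  rw [← e.tsum_eq Ψ, h1.tsum_prod]
  exact tsum_of_norm_bounded (hS3.mul_left D) h

theorem E3_bound : ∃ C : ℝ, 0 < C ∧ ∀ m n : ℕ, 1 ≤ n → Nat.Coprime m n → ∀ θ : ℂ, 0 < θ.re →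
    ‖E3 m n θ‖ ≤ C * n * (‖θ‖ / θ.re) * θ.re ^ (-(3/4) : ℝ) := by
  obtain ⟨C0, hC0, hI⟩ := x09_inner
  set S : ℝ := ∑' a : ℕ, ((a:ℝ) + 1) ^ (-(9/8) : ℝ) with hS
  have hS0 : 0 ≤ S := tsum_nonneg fun a => by positivity
  refine ⟨3 * C0 * (S ^ 2 + 1), by positivity, ?_⟩
  intro m n hn hmn θ hθ
  set x := θ.re with hx
  set D : ℝ := C0 * n * (‖θ‖ / x) * x ^ (-(3/4) : ℝ) with hD
  have hD0 : 0 ≤ D := by
    have : 0 ≤ ‖θ‖ / x := div_nonneg (norm_nonneg _) hθ.le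
    have h2 : 0 < x ^ (-(3/4) : ℝ) := Real.rpow_pos_of_pos hθ _
    positivity
  set Φ : ℕ × ℕ × ℕ → ℂ := fun q => x09_term m n θ q.1 q.2.1 q.2.2 with hΦ
  have hΦs : Summable fun q => ‖Φ q‖ := by
    refine Summable.of_nonneg_of_le (fun _ => norm_nonneg _) (fun q => ?_) ((F3_summable hθ).mul_left 8)
    simp only [hΦ, x09_term]
    rw [norm_mul]
    exact mul_le_mul_of_nonneg_right (vv_norm hn _ _ _) (norm_nonneg _)
  set Φ3 : ℕ × ℕ × ℕ → ℂ := fun q => if q.1 < q.2.2 ∧ q.2.1 < q.2.2 then Φ q else 0 with hΦ3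
  set Φ2 : ℕ × ℕ × ℕ → ℂ := fun q => if q.1 < q.2.1 ∧ q.2.2 ≤ q.2.1 then Φ q else 0 with hΦ2
  set Φ1 : ℕ × ℕ × ℕ → ℂ := fun q => if q.2.1 ≤ q.1 ∧ q.2.2 ≤ q.1 then Φ q else 0 with hΦ1
  have hs3 : Summable Φ3 := by
    refine Summable.of_norm_bounded hΦs fun q => ?_
    simp only [hΦ3]
    split_ifs <;> simp
  have hs2 : Summable Φ2 := by
    refine Summable.of_norm_bounded hΦs fun q => ?_
    simp only [hΦ2]
    split_ifs <;> simp
  have hs1 : Summable Φ1 := by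
    refine Summable.of_norm_bounded hΦs fun q => ?_
    simp only [hΦ1]
    split_ifs <;> simp
  have hsum : ∀ q, Φ q = Φ1 q + Φ2 q + Φ3 q := by
    rintro ⟨a, b, c⟩
    simp only [hΦ1, hΦ2, hΦ3]
    by_cases h1 : b ≤ a ∧ c ≤ a
    · rw [if_pos h1, if_neg (by omega), if_neg (by omega), add_zero, add_zero]
    · rw [if_neg h1]
      by_cases h2 : a < b ∧ c ≤ b
      · rw [if_pos h2, if_neg (by omega), add_zero, zero_add]
      · rw [if_neg h2, if_pos (by omega), zero_add, zero_add]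
  have hE : E3 m n θ = ∑' q, Φ1 q + ∑' q, Φ2 q + ∑' q, Φ3 q := by
    rw [← hs1.tsum_add hs2, ← (hs1.add hs2).tsum_add hs3]
    unfold E3
    exact tsum_congr hsum
  -- region 3
  have hb3 : ‖∑' q, Φ3 q‖ ≤ D * S ^ 2 := by
    refine x09_triple hs3 (Equiv.prodAssoc ℕ ℕ ℕ) fun p => ?_
    have h1 : ∀ c, Φ3 ((Equiv.prodAssoc ℕ ℕ ℕ) (p, c)) = if max (p.1 + 1) (p.2 + 1) ≤ c then x09_term m n θ p.1 p.2 c else 0 := by
      intro c
      simp only [hΦ3, hΦ, Equiv.prodAssoc_apply]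
      exact if_congr (by omega) rfl rfl
    simp only [h1]
    exact hI m n hn hmn θ hθ p.1 p.2 _ (by omega) (by omega)
  -- region 2: first sum over the second variable
  have hb2 : ‖∑' q, Φ2 q‖ ≤ D * S ^ 2 := by
    let e2 : (ℕ × ℕ) × ℕ ≃ ℕ × ℕ × ℕ :=
      { toFun := fun q => (q.1.2, q.2, q.1.1)
        invFun := fun q => ((q.2.2, q.1), q.2.1)
        left_inv := fun q => rfl
        right_inv := fun q => rfl }
    refine x09_triple hs2 e2 fun p => ?_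
    have h1 : ∀ c, Φ2 (e2 (p, c)) = if max (p.2 + 1) p.1 ≤ c then x09_term m n θ p.1 p.2 c else 0 := by
      intro c
      simp only [hΦ2, hΦ, e2, Equiv.coe_fn_mk]
      rw [x09_rot m n θ p.1 p.2 c]
      exact if_congr (by omega) rfl rfl
    simp only [h1]
    exact hI m n hn hmn θ hθ p.1 p.2 _ (by omega) (by omega)
  have hb1 : ‖∑' q, Φ1 q‖ ≤ D * S ^ 2 := by
    let e1 : (ℕ × ℕ) × ℕ ≃ ℕ × ℕ × ℕ :=
      { toFun := fun q => (q.2, q.1.1, q.1.2)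
        invFun := fun q => ((q.2.1, q.2.2), q.1)
        left_inv := fun q => rfl
        right_inv := fun q => rfl }
    refine x09_triple hs1 e1 fun p => ?_
    have h1 : ∀ c, Φ1 (e1 (p, c)) = if max p.1 p.2 ≤ c then x09_term m n θ p.1 p.2 c else 0 := by
      intro c
      simp only [hΦ1, hΦ, e1, Equiv.coe_fn_mk]
      rw [x09_rot m n θ c p.1 p.2]
      exact if_congr (by omega) rfl rfl
    simp only [h1]
    exact hI m n hn hmn θ hθ p.1 p.2 _ (by omega) (by omega)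
  rw [hE]
  have h9 : ‖∑' q, Φ1 q + ∑' q, Φ2 q + ∑' q, Φ3 q‖ ≤ 3 * (D * S ^ 2) := by
    refine (norm_add_le _ _).trans ?_
    have := norm_add_le (∑' q, Φ1 q) (∑' q, Φ2 q)
    linarith
  refine h9.trans ?_
  have h10 : 3 * C0 * (S ^ 2 + 1) * n * (‖θ‖ / x) * x ^ (-(3/4) : ℝ) = 3 * (D * (S ^ 2 + 1)) := by
    rw [hD]; ring
  rw [h10]
  nlinarith
  
end Pool.Agent.LibPH
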