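import Mathlib
import Pool.Agent.LibPH.X03

/-! ROW X10a (sum_dvd): sums with divisibility conditions in terms of `F3`.

sum_dvd: for `h : ℕ → ℂ` and `a, b ≥ 1`: `n ∣ ab ↔ (n/(a,n)) ∣ b`. With `g = (a,n)`, `a = g a'`, `(a', n/g) = 1` (Möbius:
`∑_{e ∣ (a', n/g)} μ(e)`), `b = (n/g) b'`: `ab = n a' b'`, `a' = e a''`: so
`∑_{a,b: n ∣ ab} h(ab) = ∑_{g ∣ n} ∑_{e ∣ n/g} μ(e) ∑_{a'',b'} h(n e a'' b') = ∑_{e ∣ n} μ(e) τ(n/e) ∑_{a,b} h(n e a b)`.
Possible shortcut: prove the identity of the arithmetic function `k ↦ #{(a,b): ab = k, n ∣ k}` first: for every `k`,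
`[n ∣ k] τ(k) = ∑_{e ∣ n, ne ∣ k} μ(e) τ(n/e) τ(k/(ne))` (multiplicative in both; at prime powers
`(j+1) τ(p^{k-j}) - j τ(p^{k-j-1}) = k+1` for `k ≥ j`).
sum_gcd: `(a,n) = ∑_{d ∣ a, d ∣ n} φ(d)` (Nat.sum_totient). nun_eq: `∑_{r<n} (r,n) = ∑_{d ∣ n} φ(d) n/d`. -/

set_option autoImplicit false

namespace Pool.Agent.LibPH

open MeasureTheory Set Filter Topology Complex
open scoped ComplexConjugate

theorem x10a_moebius {k : ℕ} (hk : k ≠ 0) :
    ∑ e ∈ k.divisors, ((ArithmeticFunction.moebius e : ℤ) : ℂ) = if k = 1 then 1 else 0 := by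
  have h1 : ∑ e ∈ k.divisors, (ArithmeticFunction.moebius e : ℤ) = if k = 1 then 1 else 0 := by
    rw [← ArithmeticFunction.coe_zeta_mul_apply, ArithmeticFunction.coe_zeta_mul_moebius,
      ArithmeticFunction.one_apply]
  have h2 : ((∑ e ∈ k.divisors, (ArithmeticFunction.moebius e : ℤ) : ℤ) : ℂ) =
      ((if k = 1 then 1 else 0 : ℤ) : ℂ) := by rw [h1]
  push_cast at h2
  rw [h2]

theorem x10a_inner {n g a : ℕ} (hn : 1 ≤ n) (ha : 1 ≤ a) (hg : g ∣ n) :
    ∑ e ∈ (n / g).divisors, ((ArithmeticFunction.moebius e : ℤ) : ℂ) *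
      (if g * e ∣ a then 1 else 0) = if g = Nat.gcd a n then 1 else 0 := by
  have hg0 : 0 < g := Nat.pos_of_dvd_of_pos hg hn
  have hng : 0 < n / g := Nat.div_pos (Nat.le_of_dvd hn hg) hg0
  by_cases hga : g ∣ a
  · obtain ⟨a', rfl⟩ := hga
    obtain ⟨n', rfl⟩ := hg
    have hn' : g * n' / g = n' := Nat.mul_div_cancel_left n' hg0
    rw [hn']
    have hn'0 : 0 < n' := by rw [hn'] at hng; exact hng
    have ha'0 : 0 < a' := Nat.pos_of_ne_zero (by rintro rfl; simp at ha)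
    have h1 : ∑ e ∈ n'.divisors, ((ArithmeticFunction.moebius e : ℤ) : ℂ) *
        (if g * e ∣ g * a' then 1 else 0) =
        ∑ e ∈ (Nat.gcd a' n').divisors, ((ArithmeticFunction.moebius e : ℤ) : ℂ) := by
      simp only [Nat.mul_dvd_mul_iff_left hg0, mul_ite, mul_one, mul_zero]
      rw [← Finset.sum_filter]
      refine Finset.sum_congr ?_ fun _ _ => rfl
      ext e
      simp only [Finset.mem_filter, Nat.mem_divisors]
      constructor
      · rintro ⟨⟨h1, h2⟩, h3⟩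
        exact ⟨Nat.dvd_gcd h3 h1, (Nat.gcd_pos_of_pos_left _ ha'0).ne'⟩
      · rintro ⟨h1, h2⟩
        exact ⟨⟨h1.trans (Nat.gcd_dvd_right _ _), hn'0.ne'⟩, h1.trans (Nat.gcd_dvd_left _ _)⟩
    rw [h1, x10a_moebius (Nat.gcd_pos_of_pos_left _ ha'0).ne', Nat.gcd_mul_left]
    refine if_congr ?_ rfl rfl
    constructor
    · intro h; rw [h, mul_one]
    · intro h
      have : g * Nat.gcd a' n' = g * 1 := by rw [← h, mul_one]
      exact Nat.eq_of_mul_eq_mul_left hg0 this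
  · have h2 : g ≠ Nat.gcd a n := by
      rintro rfl
      exact hga (Nat.gcd_dvd_left a n)
    rw [if_neg h2]
    refine Finset.sum_eq_zero fun e _ => ?_
    rw [if_neg (fun h => hga ((Dvd.intro e rfl).trans h)), mul_zero]

theorem x10a_dvd_iff {n a b : ℕ} (hn : 1 ≤ n) :
    n / Nat.gcd a n ∣ b ↔ n ∣ a * b := by
  have hg0 : 0 < Nat.gcd a n := Nat.gcd_pos_of_pos_right a hn
  obtain ⟨a', n', hco, ha, hnn⟩ := Nat.exists_coprime a n
  set g := Nat.gcd a n with hg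
  have h1 : n / g = n' := by rw [hnn]; exact Nat.mul_div_cancel n' hg0
  rw [h1]
  have h2 : n ∣ a * b ↔ g * n' ∣ g * (a' * b) := by
    rw [mul_comm g n', ← hnn, show g * (a' * b) = (a' * g) * b by ring, ← ha]
  rw [h2, Nat.mul_dvd_mul_iff_left hg0]
  exact ⟨fun h => Dvd.dvd.mul_left h a', fun h => (Nat.Coprime.symm hco).dvd_of_dvd_mul_left h⟩

theorem x10a_point {n a b : ℕ} (hn : 1 ≤ n) (ha : 1 ≤ a) :
    dvi n (a * b) = ∑ g ∈ n.divisors, ∑ e ∈ (n / g).divisors,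
      ((ArithmeticFunction.moebius e : ℤ) : ℂ) * ((if g * e ∣ a then 1 else 0) *
        (if n / g ∣ b then 1 else 0)) := by
  have h1 : ∀ g ∈ n.divisors, ∑ e ∈ (n / g).divisors,
      ((ArithmeticFunction.moebius e : ℤ) : ℂ) * ((if g * e ∣ a then 1 else 0) *
        (if n / g ∣ b then 1 else 0)) =
      if g = Nat.gcd a n then (if n / g ∣ b then 1 else 0) else 0 := by
    intro g hg
    have h2 := x10a_inner hn ha (Nat.dvd_of_mem_divisors hg)
    simp only [← mul_assoc]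
    rw [← Finset.sum_mul, h2]
    split_ifs <;> simp
  rw [Finset.sum_congr rfl h1, Finset.sum_ite_eq' n.divisors (Nat.gcd a n), if_pos]
  · unfold dvi
    exact if_congr (x10a_dvd_iff hn).symm rfl rfl
  · exact Nat.mem_divisors.2 ⟨Nat.gcd_dvd_right a n, by omega⟩

theorem x10a_reindex {d₁ d₂ : ℕ} (h₁ : 1 ≤ d₁) (h₂ : 1 ≤ d₂) (θ : ℂ) :
    ∑' q : ℕ × ℕ × ℕ, ((if d₁ ∣ q.1 + 1 then (1:ℂ) else 0) * (if d₂ ∣ q.2.1 + 1 then 1 else 0)) *
      cexp (-((pr q : ℂ) * θ)) = F3 (((d₁ * d₂ : ℕ) : ℂ) * θ) := by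
  have hex : ∀ {d : ℕ}, 1 ≤ d → ∀ a : ℕ, d * (a + 1) - 1 + 1 = d * (a + 1) := by
    intro d hd a
    have : 0 < d * (a + 1) := Nat.mul_pos hd (Nat.succ_pos a)
    omega
  let ι : ℕ × ℕ × ℕ → ℕ × ℕ × ℕ := fun q => (d₁ * (q.1 + 1) - 1, d₂ * (q.2.1 + 1) - 1, q.2.2)
  have hι : Function.Injective ι := by
    rintro ⟨a, b, c⟩ ⟨a', b', c'⟩ h
    simp only [ι, Prod.mk.injEq] at h
    obtain ⟨ha, hb, hc⟩ := h
    have ha' := hex h₁ a
    have ha'' := hex h₁ a'
    have hb' := hex h₂ b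
    have hb'' := hex h₂ b'
    have h3 : d₁ * (a + 1) = d₁ * (a' + 1) := by rw [← ha', ← ha'', ha]
    have h4 : d₂ * (b + 1) = d₂ * (b' + 1) := by rw [← hb', ← hb'', hb]
    have h5 := Nat.eq_of_mul_eq_mul_left h₁ h3
    have h6 := Nat.eq_of_mul_eq_mul_left h₂ h4
    simp only [Prod.mk.injEq]
    exact ⟨by omega, by omega, hc⟩
  rw [← hι.tsum_eq]
  · unfold F3
    refine tsum_congr fun q => ?_
    obtain ⟨a, b, c⟩ := q
    have h1 : (ι (a, b, c)).1 + 1 = d₁ * (a + 1) := hex h₁ a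
    have h2 : (ι (a, b, c)).2.1 + 1 = d₂ * (b + 1) := hex h₂ b
    have h3 : pr (ι (a, b, c)) = d₁ * d₂ * pr (a, b, c) := by
      unfold pr
      rw [h1, h2]
      simp only [ι]
      ring
    rw [h1, h2, if_pos (Dvd.intro _ rfl), if_pos (Dvd.intro _ rfl), h3]
    push_cast
    rw [mul_one, one_mul]
    congr 1
    ring
  · rintro ⟨a, b, c⟩ hq
    rw [Function.mem_support] at hq
    have h1 : d₁ ∣ a + 1 := by
      by_contra h
      apply hq
      simp only [if_neg h, zero_mul]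
    have h2 : d₂ ∣ b + 1 := by
      by_contra h
      apply hq
      simp only [if_neg h, zero_mul, mul_zero]
    obtain ⟨a', ha'⟩ := h1
    obtain ⟨b', hb'⟩ := h2
    have ha0 : a' ≠ 0 := by rintro rfl; simp at ha'
    have hb0 : b' ≠ 0 := by rintro rfl; simp at hb'
    obtain ⟨a'', rfl⟩ := Nat.exists_eq_succ_of_ne_zero ha0
    obtain ⟨b'', rfl⟩ := Nat.exists_eq_succ_of_ne_zero hb0
    refine ⟨(a'', b'', c), ?_⟩
    simp only [ι, Prod.mk.injEq]
    refine ⟨?_, ?_, trivial⟩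
    · rw [← Nat.succ_eq_add_one, ← ha']; omega
    · rw [← Nat.succ_eq_add_one, ← hb']; omega

theorem sum_dvd {n : ℕ} (hn : 1 ≤ n) {θ : ℂ} (hθ : 0 < θ.re) :
    ∑' q : ℕ × ℕ × ℕ, dvi n ((q.1 + 1) * (q.2.1 + 1)) * cexp (-((pr q : ℂ) * θ)) =
      ∑ e ∈ n.divisors, ((ArithmeticFunction.moebius e : ℤ) : ℂ) * ((n / e).divisors.card : ℂ) *
        F3 (((n * e : ℕ) : ℂ) * θ) := by
  have hsum := F3_summable hθ
  have hs2 : ∀ d₁ d₂ : ℕ, Summable fun q : ℕ × ℕ × ℕ =>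
      ((if d₁ ∣ q.1 + 1 then (1:ℂ) else 0) * (if d₂ ∣ q.2.1 + 1 then 1 else 0)) *
      cexp (-((pr q : ℂ) * θ)) := by
    intro d₁ d₂
    refine Summable.of_norm_bounded hsum fun q => ?_
    rw [norm_mul]
    refine mul_le_of_le_one_left (norm_nonneg _) ?_
    split_ifs <;> simp
  have h1 : ∀ q : ℕ × ℕ × ℕ, dvi n ((q.1 + 1) * (q.2.1 + 1)) * cexp (-((pr q : ℂ) * θ)) =
      ∑ g ∈ n.divisors, ∑ e ∈ (n / g).divisors,
      ((ArithmeticFunction.moebius e : ℤ) : ℂ) *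
        (((if g * e ∣ q.1 + 1 then (1:ℂ) else 0) * (if n / g ∣ q.2.1 + 1 then 1 else 0)) *
          cexp (-((pr q : ℂ) * θ))) := by
    intro q
    rw [x10a_point hn (Nat.succ_pos q.1), Finset.sum_mul]
    refine Finset.sum_congr rfl fun g _ => ?_
    rw [Finset.sum_mul]
    refine Finset.sum_congr rfl fun e _ => ?_
    rw [mul_assoc]
  rw [tsum_congr h1, Summable.tsum_finsetSum
    (fun g _ => summable_sum fun e _ => (hs2 _ _).mul_left _)]
  have h2 : ∀ g ∈ n.divisors, ∑' q : ℕ × ℕ × ℕ, ∑ e ∈ (n / g).divisors,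
      ((ArithmeticFunction.moebius e : ℤ) : ℂ) *
        (((if g * e ∣ q.1 + 1 then (1:ℂ) else 0) * (if n / g ∣ q.2.1 + 1 then 1 else 0)) *
          cexp (-((pr q : ℂ) * θ))) =
      ∑ e ∈ (n / g).divisors, ((ArithmeticFunction.moebius e : ℤ) : ℂ) *
        F3 (((n * e : ℕ) : ℂ) * θ) := by
    intro g hg
    have hgn := Nat.dvd_of_mem_divisors hg
    have hg0 : 1 ≤ g := Nat.pos_of_mem_divisors hg
    have hng : 1 ≤ n / g := Nat.div_pos (Nat.le_of_dvd hn hgn) hg0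
    rw [Summable.tsum_finsetSum (fun e _ => (hs2 _ _).mul_left _)]
    refine Finset.sum_congr rfl fun e he => ?_
    have he0 : 1 ≤ e := Nat.pos_of_mem_divisors he
    rw [tsum_mul_left, x10a_reindex (Nat.mul_pos hg0 he0) hng]
    have h3 : g * e * (n / g) = n * e := by
      rw [mul_right_comm, Nat.mul_div_cancel' hgn]
    rw [h3]
  rw [Finset.sum_congr rfl h2, Finset.sum_comm' (s' := fun e => (n / e).divisors)
    (t' := n.divisors)]
  · refine Finset.sum_congr rfl fun e _ => ?_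
    rw [Finset.sum_const, nsmul_eq_mul]
    ring
  · intro g e
    simp only [Nat.mem_divisors]
    constructor
    · rintro ⟨⟨hg, hn0⟩, he, hng⟩
      have hg0 : 0 < g := Nat.pos_of_dvd_of_pos hg hn
      have h3 : g * e ∣ n := by
        obtain ⟨k, rfl⟩ := hg
        rw [Nat.mul_div_cancel_left k hg0] at he
        exact mul_dvd_mul_left g he
      have he0 : 0 < e := Nat.pos_of_dvd_of_pos ((Dvd.intro_left g rfl).trans h3) hn
      refine ⟨⟨?_, ?_⟩, (Dvd.intro_left g rfl).trans h3, hn0⟩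
      · obtain ⟨k, rfl⟩ := h3
        rw [show g * e * k = e * (g * k) by ring, Nat.mul_div_cancel_left _ he0]
        exact Dvd.intro k rfl
      · have := Nat.div_pos (Nat.le_of_dvd hn ((Dvd.intro_left g rfl).trans h3)) he0
        omega
    · rintro ⟨⟨hg, hne⟩, he, hn0⟩
      have he0 : 0 < e := Nat.pos_of_dvd_of_pos he hn
      have h3 : g * e ∣ n := by
        obtain ⟨k, rfl⟩ := he
        rw [Nat.mul_div_cancel_left k he0] at hg
        rw [mul_comm g e]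
        exact mul_dvd_mul_left e hg
      have hg0 : 0 < g := Nat.pos_of_dvd_of_pos ((Dvd.intro e rfl).trans h3) hn
      refine ⟨⟨(Dvd.intro e rfl).trans h3, hn0⟩, ?_, ?_⟩
      · obtain ⟨k, rfl⟩ := h3
        rw [show g * e * k = g * (e * k) by ring, Nat.mul_div_cancel_left _ hg0]
        exact Dvd.intro k rfl
      · have := Nat.div_pos (Nat.le_of_dvd hn ((Dvd.intro e rfl).trans h3)) hg0
        omega

end Pool.Agent.LibPH
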