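import Mathlib
import Pool.Agent.LibPH.X03
import Pool.Agent.LibPH.X10a

/-! ROW X10 (sum_gcd, nun_eq): sums with divisibility conditions in terms of `F3`.

sum_dvd: for `h : ℕ → ℂ` and `a, b ≥ 1`: `n ∣ ab ↔ (n/(a,n)) ∣ b`. With `g = (a,n)`, `a = g a'`, `(a', n/g) = 1` (Möbius:
`∑_{e ∣ (a', n/g)} μ(e)`), `b = (n/g) b'`: `ab = n a' b'`, `a' = e a''`: so
`∑_{a,b: n ∣ ab} h(ab) = ∑_{g ∣ n} ∑_{e ∣ n/g} μ(e) ∑_{a'',b'} h(n e a'' b') = ∑_{e ∣ n} μ(e) τ(n/e) ∑_{a,b} h(n e a b)`.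
Possible shortcut: prove the identity of the arithmetic function `k ↦ #{(a,b): ab = k, n ∣ k}` first: for every `k`,
`[n ∣ k] τ(k) = ∑_{e ∣ n, ne ∣ k} μ(e) τ(n/e) τ(k/(ne))` (multiplicative in both; at prime powers
`(j+1) τ(p^{k-j}) - j τ(p^{k-j-1}) = k+1` for `k ≥ j`).
sum_gcd: `(a,n) = ∑_{d ∣ a, d ∣ n} φ(d)` (Nat.sum_totient). nun_eq: `∑_{r<n} (r,n) = ∑_{d ∣ n} φ(d) n/d`. -/

set_option autoImplicit false

namespace Pool.Agent.LibPH

open MeasureTheory Set Filter Topology Complex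
open scoped ComplexConjugate

theorem x10_gcd {n : ℕ} (hn : 1 ≤ n) (a : ℕ) :
    Nat.gcd a n = ∑ d ∈ n.divisors, Nat.totient d * (if d ∣ a then 1 else 0) := by
  have hg : 0 < Nat.gcd a n := Nat.gcd_pos_of_pos_right a hn
  conv_lhs => rw [← Nat.sum_totient (Nat.gcd a n)]
  simp only [mul_ite, mul_one, mul_zero]
  rw [← Finset.sum_filter]
  refine Finset.sum_congr ?_ fun _ _ => rfl
  ext d
  simp only [Finset.mem_filter, Nat.mem_divisors, Nat.dvd_gcd_iff]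
  constructor
  · rintro ⟨⟨h1, h2⟩, h3⟩
    exact ⟨⟨h2, by omega⟩, h1⟩
  · rintro ⟨⟨h1, h2⟩, h3⟩
    exact ⟨⟨h3, h1⟩, hg.ne'⟩

theorem sum_gcd {n : ℕ} (hn : 1 ≤ n) {θ : ℂ} (hθ : 0 < θ.re) :
    ∑' q : ℕ × ℕ × ℕ, (Nat.gcd (q.1 + 1) n : ℂ) * cexp (-((pr q : ℂ) * θ)) =
      ∑ d ∈ n.divisors, (Nat.totient d : ℂ) * F3 ((d : ℂ) * θ) := by
  have hsum := F3_summable hθ
  have hs2 : ∀ d₁ d₂ : ℕ, Summable fun q : ℕ × ℕ × ℕ =>
      ((if d₁ ∣ q.1 + 1 then (1:ℂ) else 0) * (if d₂ ∣ q.2.1 + 1 then 1 else 0)) *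
      cexp (-((pr q : ℂ) * θ)) := by
    intro d₁ d₂
    refine Summable.of_norm_bounded hsum fun q => ?_
    rw [norm_mul]
    refine mul_le_of_le_one_left (norm_nonneg _) ?_
    split_ifs <;> simp
  have h1 : ∀ q : ℕ × ℕ × ℕ, (Nat.gcd (q.1 + 1) n : ℂ) * cexp (-((pr q : ℂ) * θ)) =
      ∑ d ∈ n.divisors, (Nat.totient d : ℂ) *
        (((if d ∣ q.1 + 1 then (1:ℂ) else 0) * (if 1 ∣ q.2.1 + 1 then 1 else 0)) *
          cexp (-((pr q : ℂ) * θ))) := by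
    intro q
    have h2 : (Nat.gcd (q.1 + 1) n : ℂ) =
        ∑ d ∈ n.divisors, (Nat.totient d : ℂ) * (if d ∣ q.1 + 1 then (1:ℂ) else 0) := by
      have h3 := x10_gcd hn (q.1 + 1)
      have h4 : ((Nat.gcd (q.1 + 1) n : ℕ) : ℂ) =
        ((∑ d ∈ n.divisors, Nat.totient d * (if d ∣ q.1 + 1 then 1 else 0) : ℕ) : ℂ) := by
        rw [← h3]
      rw [h4]
      push_cast
      rfl
    rw [h2, Finset.sum_mul]
    refine Finset.sum_congr rfl fun d _ => ?_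
    rw [if_pos (one_dvd (q.2.1 + 1)), mul_one, mul_assoc]
  rw [tsum_congr h1, Summable.tsum_finsetSum (fun g _ => (hs2 _ _).mul_left _)]
  refine Finset.sum_congr rfl fun d hd => ?_
  have hd0 : 1 ≤ d := Nat.pos_of_mem_divisors hd
  rw [tsum_mul_left, x10a_reindex hd0 le_rfl, mul_one]

theorem x10_card {n d : ℕ} (hn : 1 ≤ n) (hd : d ∣ n) :
    ((Finset.range n).filter (fun r => d ∣ r)).card = n / d := by
  have hd0 : 0 < d := Nat.pos_of_dvd_of_pos hd hn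
  obtain ⟨k, rfl⟩ := hd
  rw [Nat.mul_div_cancel_left k hd0]
  have h2 : (Finset.range (d * k)).filter (fun r => d ∣ r) =
      (Finset.range k).image (fun j => d * j) := by
    ext c
    simp only [Finset.mem_filter, Finset.mem_range, Finset.mem_image]
    constructor
    · rintro ⟨hc, j, rfl⟩
      exact ⟨j, lt_of_mul_lt_mul_left hc (Nat.zero_le d), rfl⟩
    · rintro ⟨j, hj, rfl⟩
      exact ⟨Nat.mul_lt_mul_of_pos_left hj hd0, Dvd.intro j rfl⟩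
  rw [h2, Finset.card_image_of_injective _ (fun x y hxy => Nat.eq_of_mul_eq_mul_left hd0 hxy),
    Finset.card_range]

theorem nun_eq {n : ℕ} (hn : 1 ≤ n) : ((nun n : ℝ) : ℂ) = 1 / n * fB n 0 := by
  have hn' : (n:ℂ) ≠ 0 := by exact_mod_cast (by omega : n ≠ 0)
  have h1 : ∑ r ∈ Finset.range n, Nat.gcd r n = ∑ d ∈ n.divisors, Nat.totient d * (n / d) := by
    simp only [x10_gcd hn]
    rw [Finset.sum_comm]
    refine Finset.sum_congr rfl fun d hd => ?_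
    rw [← Finset.mul_sum, Finset.sum_boole, x10_card hn (Nat.dvd_of_mem_divisors hd)]
    simp
  have h2 : (∑ r ∈ Finset.range n, (Nat.gcd r n : ℂ)) =
      ∑ d ∈ n.divisors, (Nat.totient d : ℂ) * ((n : ℂ) / d) := by
    have h3 : ((∑ r ∈ Finset.range n, Nat.gcd r n : ℕ) : ℂ) =
        ((∑ d ∈ n.divisors, Nat.totient d * (n / d) : ℕ) : ℂ) := by rw [h1]
    push_cast at h3
    rw [h3]
    refine Finset.sum_congr rfl fun d hd => ?_
    have hd0 : (d:ℂ) ≠ 0 := by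
      have := Nat.pos_of_mem_divisors hd
      exact_mod_cast this.ne'
    rw [Nat.cast_div (Nat.dvd_of_mem_divisors hd) hd0]
  unfold nun fB
  push_cast
  rw [h2, Finset.sum_div, Finset.mul_sum]
  refine Finset.sum_congr rfl fun d hd => ?_
  have hd0 : (d:ℂ) ≠ 0 := by
    have := Nat.pos_of_mem_divisors hd
    exact_mod_cast this.ne'
  rw [add_zero, Complex.cpow_neg_one]
  field_simp

end Pool.Agent.LibPH
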