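import Mathlib
import Pool.Agent.LibPH.X09
import Pool.Agent.LibPH.X10

/-! ROW X11: `F3` near the point `2πi m/n`.

`e^{-pr(θ + 2πi m/n)} = e^{-pr θ} e(-m pr/n)` and `e(-mabc/n) = vv + [n∣ab] + [n∣bc] + [n∣ca] - ((a,n)+(b,n)+(c,n))/n + ν_n`;
the three sums of the same kind are equal (permute the variables: Equiv.tsum_eq), X10. -/

set_option autoImplicit false

namespace Pool.Agent.LibPH

open MeasureTheory Set Filter Topology Complex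
open scoped ComplexConjugate

/-- the terms of `F3` -/
noncomputable def x11_f (θ : ℂ) (q : ℕ × ℕ × ℕ) : ℂ := cexp (-((pr q : ℂ) * θ))

/-- cyclic permutation of the coordinates -/
def x11_rot : ℕ × ℕ × ℕ ≃ ℕ × ℕ × ℕ where
  toFun q := (q.2.1, q.2.2, q.1)
  invFun q := (q.2.2, q.1, q.2.1)
  left_inv _ := rfl
  right_inv _ := rfl

theorem x11_pr (q : ℕ × ℕ × ℕ) : pr (x11_rot q) = pr q := by
  simp only [pr, x11_rot, Equiv.coe_fn_mk]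
  ring

theorem x11_f_rot (θ : ℂ) (q : ℕ × ℕ × ℕ) : x11_f θ (x11_rot q) = x11_f θ q := by
  unfold x11_f
  rw [x11_pr]

theorem x11_sum {θ : ℂ} (hθ : 0 < θ.re) {g : ℕ × ℕ × ℕ → ℂ} {C : ℝ} (hg : ∀ q, ‖g q‖ ≤ C) :
    Summable fun q => g q * x11_f θ q := by
  refine Summable.of_norm_bounded ((F3_summable hθ).mul_left C) fun q => ?_
  rw [norm_mul]
  exact mul_le_mul_of_nonneg_right (hg q) (norm_nonneg _)

theorem x11_dvi (n k : ℕ) : ‖dvi n k‖ ≤ 1 := by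
  unfold dvi
  split_ifs <;> simp

theorem x11_gcd {n : ℕ} (hn : 1 ≤ n) (k : ℕ) : ‖(Nat.gcd k n : ℂ)‖ ≤ n := by
  rw [Complex.norm_natCast]
  exact_mod_cast Nat.gcd_le_right k hn

theorem F3_shift {m n : ℕ} (hn : 1 ≤ n) {θ : ℂ} (hθ : 0 < θ.re) :
    F3 (θ + ((2 * Real.pi * m / n : ℝ) : ℂ) * I) = E3 m n θ +
      3 * ∑ e ∈ n.divisors, ((ArithmeticFunction.moebius e : ℤ) : ℂ) * ((n / e).divisors.card : ℂ) *
        F3 (((n * e : ℕ) : ℂ) * θ) -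
      3 / n * ∑ d ∈ n.divisors, (Nat.totient d : ℂ) * F3 ((d : ℂ) * θ) + 1 / n * fB n 0 * F3 θ := by
  have hre : 0 < (θ + ((2 * Real.pi * m / n : ℝ) : ℂ) * I).re := by
    rw [Complex.add_re, Complex.re_ofReal_mul, Complex.I_re, mul_zero, add_zero]
    exact hθ
  -- the pieces
  have hf : Summable fun q => x11_f θ q := by
    have := x11_sum hθ (g := fun _ => 1) (C := 1) (fun _ => by simp)
    simpa using this
  have hd1 : Summable fun q : ℕ × ℕ × ℕ => dvi n ((q.1 + 1) * (q.2.1 + 1)) * x11_f θ q :=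
    x11_sum hθ fun q => x11_dvi _ _
  have hd2 : Summable fun q : ℕ × ℕ × ℕ => dvi n ((q.2.1 + 1) * (q.2.2 + 1)) * x11_f θ q :=
    x11_sum hθ fun q => x11_dvi _ _
  have hd3 : Summable fun q : ℕ × ℕ × ℕ => dvi n ((q.2.2 + 1) * (q.1 + 1)) * x11_f θ q :=
    x11_sum hθ fun q => x11_dvi _ _
  have hg1 : Summable fun q : ℕ × ℕ × ℕ => (Nat.gcd (q.1 + 1) n : ℂ) * x11_f θ q :=
    x11_sum hθ fun q => x11_gcd hn _
  have hg2 : Summable fun q : ℕ × ℕ × ℕ => (Nat.gcd (q.2.1 + 1) n : ℂ) * x11_f θ q :=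
    x11_sum hθ fun q => x11_gcd hn _
  have hg3 : Summable fun q : ℕ × ℕ × ℕ => (Nat.gcd (q.2.2 + 1) n : ℂ) * x11_f θ q :=
    x11_sum hθ fun q => x11_gcd hn _
  have hs : Summable fun q : ℕ × ℕ × ℕ =>
      cexp (-((pr q : ℂ) * (θ + ((2 * Real.pi * m / n : ℝ) : ℂ) * I))) :=
    (F3_summable hre).of_norm
  -- the pointwise identity
  have H : ∀ q : ℕ × ℕ × ℕ,
      vv m n (q.1 + 1) (q.2.1 + 1) (q.2.2 + 1) * x11_f θ q =
        cexp (-((pr q : ℂ) * (θ + ((2 * Real.pi * m / n : ℝ) : ℂ) * I))) -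
          dvi n ((q.1 + 1) * (q.2.1 + 1)) * x11_f θ q -
          dvi n ((q.2.1 + 1) * (q.2.2 + 1)) * x11_f θ q -
          dvi n ((q.2.2 + 1) * (q.1 + 1)) * x11_f θ q +
          1 / n * ((Nat.gcd (q.1 + 1) n : ℂ) * x11_f θ q + (Nat.gcd (q.2.1 + 1) n : ℂ) * x11_f θ q +
            (Nat.gcd (q.2.2 + 1) n : ℂ) * x11_f θ q) -
          ((nun n : ℝ) : ℂ) * x11_f θ q := by
    intro q
    have h1 : cexp (-((pr q : ℂ) * (θ + ((2 * Real.pi * m / n : ℝ) : ℂ) * I))) =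
        cexp (-((2 * Real.pi * m * (((q.1 + 1 : ℕ) : ℝ) * ((q.2.1 + 1 : ℕ) : ℝ) *
          ((q.2.2 + 1 : ℕ) : ℝ)) / n : ℝ) : ℂ) * I) * x11_f θ q := by
      unfold x11_f
      rw [← Complex.exp_add]
      congr 1
      unfold pr
      push_cast
      ring
    rw [h1]
    unfold vv
    push_cast
    ring
  have hv : Summable fun q : ℕ × ℕ × ℕ =>
      vv m n (q.1 + 1) (q.2.1 + 1) (q.2.2 + 1) * x11_f θ q := by
    simp_rw [H]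
    exact ((((hs.sub hd1).sub hd2).sub hd3).add (((hg1.add hg2).add hg3).mul_left _)).sub
      (hf.mul_left _)
  have E : E3 m n θ = ∑' q : ℕ × ℕ × ℕ,
      vv m n (q.1 + 1) (q.2.1 + 1) (q.2.2 + 1) * x11_f θ q := rfl
  -- symmetry
  have s1 : ∑' q : ℕ × ℕ × ℕ, dvi n ((q.1 + 1) * (q.2.1 + 1)) * x11_f θ q =
      ∑ e ∈ n.divisors, ((ArithmeticFunction.moebius e : ℤ) : ℂ) * ((n / e).divisors.card : ℂ) *
        F3 (((n * e : ℕ) : ℂ) * θ) := sum_dvd hn hθ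
  have s2 : ∑' q : ℕ × ℕ × ℕ, dvi n ((q.2.1 + 1) * (q.2.2 + 1)) * x11_f θ q =
      ∑' q : ℕ × ℕ × ℕ, dvi n ((q.1 + 1) * (q.2.1 + 1)) * x11_f θ q := by
    rw [← x11_rot.tsum_eq (fun q : ℕ × ℕ × ℕ => dvi n ((q.1 + 1) * (q.2.1 + 1)) * x11_f θ q)]
    refine tsum_congr fun q => ?_
    rw [x11_f_rot]
    rfl
  have s3 : ∑' q : ℕ × ℕ × ℕ, dvi n ((q.2.2 + 1) * (q.1 + 1)) * x11_f θ q =
      ∑' q : ℕ × ℕ × ℕ, dvi n ((q.2.1 + 1) * (q.2.2 + 1)) * x11_f θ q := by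
    rw [← x11_rot.tsum_eq (fun q : ℕ × ℕ × ℕ => dvi n ((q.2.1 + 1) * (q.2.2 + 1)) * x11_f θ q)]
    refine tsum_congr fun q => ?_
    rw [x11_f_rot]
    rfl
  have t1 : ∑' q : ℕ × ℕ × ℕ, (Nat.gcd (q.1 + 1) n : ℂ) * x11_f θ q =
      ∑ d ∈ n.divisors, (Nat.totient d : ℂ) * F3 ((d : ℂ) * θ) := sum_gcd hn hθ
  have t2 : ∑' q : ℕ × ℕ × ℕ, (Nat.gcd (q.2.1 + 1) n : ℂ) * x11_f θ q =
      ∑' q : ℕ × ℕ × ℕ, (Nat.gcd (q.1 + 1) n : ℂ) * x11_f θ q := by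
    rw [← x11_rot.tsum_eq (fun q : ℕ × ℕ × ℕ => (Nat.gcd (q.1 + 1) n : ℂ) * x11_f θ q)]
    refine tsum_congr fun q => ?_
    rw [x11_f_rot]
    rfl
  have t3 : ∑' q : ℕ × ℕ × ℕ, (Nat.gcd (q.2.2 + 1) n : ℂ) * x11_f θ q =
      ∑' q : ℕ × ℕ × ℕ, (Nat.gcd (q.2.1 + 1) n : ℂ) * x11_f θ q := by
    rw [← x11_rot.tsum_eq (fun q : ℕ × ℕ × ℕ => (Nat.gcd (q.2.1 + 1) n : ℂ) * x11_f θ q)]
    refine tsum_congr fun q => ?_
    rw [x11_f_rot]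
    rfl
  have ff : F3 θ = ∑' q : ℕ × ℕ × ℕ, x11_f θ q := rfl
  have key : E3 m n θ = F3 (θ + ((2 * Real.pi * m / n : ℝ) : ℂ) * I) -
      (∑' q : ℕ × ℕ × ℕ, dvi n ((q.1 + 1) * (q.2.1 + 1)) * x11_f θ q) -
      (∑' q : ℕ × ℕ × ℕ, dvi n ((q.2.1 + 1) * (q.2.2 + 1)) * x11_f θ q) -
      (∑' q : ℕ × ℕ × ℕ, dvi n ((q.2.2 + 1) * (q.1 + 1)) * x11_f θ q) +
      1 / n * ((∑' q : ℕ × ℕ × ℕ, (Nat.gcd (q.1 + 1) n : ℂ) * x11_f θ q) +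
        (∑' q : ℕ × ℕ × ℕ, (Nat.gcd (q.2.1 + 1) n : ℂ) * x11_f θ q) +
        (∑' q : ℕ × ℕ × ℕ, (Nat.gcd (q.2.2 + 1) n : ℂ) * x11_f θ q)) -
      ((nun n : ℝ) : ℂ) * F3 θ := by
    rw [E, tsum_congr H, ff]
    rw [Summable.tsum_sub ((((hs.sub hd1).sub hd2).sub hd3).add
        (((hg1.add hg2).add hg3).mul_left _)) (hf.mul_left _),
      Summable.tsum_add (((hs.sub hd1).sub hd2).sub hd3) (((hg1.add hg2).add hg3).mul_left _),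
      Summable.tsum_sub ((hs.sub hd1).sub hd2) hd3, Summable.tsum_sub (hs.sub hd1) hd2,
      Summable.tsum_sub hs hd1, tsum_mul_left, tsum_mul_left,
      Summable.tsum_add (hg1.add hg2) hg3, Summable.tsum_add hg1 hg2]
    rfl
  rw [key, s3, s2, s1, t3, t2, t1, nun_eq hn]
  ring

end Pool.Agent.LibPH
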