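import Mathlib
import Pool.Agent.LibPH.X11
import Pool.Agent.LibPH.X07
import Pool.Agent.LibPH.X06

/-! ROW X12a (Hn_analytic, Hn_bd, polar_eq): the polar part.

polar_eq: `F3(kθ) = P3(kθ) + I3(kθ)`, `(kθ)^{-(1+s)} = k^{-(1+s)} θ^{-(1+s)}` and linearity of `C2` (X00, G0_analytic):
`3 ∑ μτ P3(neθ) - (3/n) ∑ φ P3(dθ) + (fB n 0/n) P3(θ) = C2 (fun s => G0 s * Hn n s * θ^{-(1+s)})`.
The rest: I3_bound for `kθ` (`‖kθ‖/Re(kθ) = ‖θ‖/Re θ`, `‖kθ‖^{-1/2} ≤ ‖θ‖^{-1/2}`), `∑_{e∣n} τ(n/e) ≤ n²`, `∑ φ(d) = n`,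
`‖fB n 0‖ ≤ n`. -/

set_option autoImplicit false

namespace Pool.Agent.LibPH

open MeasureTheory Set Filter Topology Complex
open scoped ComplexConjugate

theorem x12a_diff {e : ℕ} (he : 1 ≤ e) : Differentiable ℂ fun s : ℂ => (e : ℂ) ^ (-(1 + s)) := by
  have h : (e : ℂ) ≠ 0 := by
    have : e ≠ 0 := by omega
    exact_mod_cast this
  exact ((differentiable_const 1).add differentiable_id).neg.const_cpow (Or.inl h)

theorem x12a_pos {n e : ℕ} (he : e ∈ n.divisors) : 1 ≤ e := Nat.pos_of_mem_divisors he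

theorem x12a_fA (n : ℕ) : Differentiable ℂ (fA n) := by
  unfold fA
  refine Differentiable.fun_sum fun e he => ?_
  exact (differentiable_const _).mul (x12a_diff (x12a_pos he))

theorem x12a_fB (n : ℕ) : Differentiable ℂ (fB n) := by
  unfold fB
  refine Differentiable.fun_sum fun e he => ?_
  exact (differentiable_const _).mul (x12a_diff (x12a_pos he))

theorem Hn_analytic {n : ℕ} (hn : 1 ≤ n) (s : ℂ) : AnalyticAt ℂ (Hn n) s := by
  apply Differentiable.analyticAt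
  unfold Hn
  exact ((((differentiable_const _).mul (x12a_diff hn)).mul (x12a_fA n)).sub
    ((differentiable_const _).mul (x12a_fB n))).add (differentiable_const _)

theorem x12a_norm {e : ℕ} (he : 1 ≤ e) {s : ℂ} (hs : ‖s‖ ≤ 1/4) : ‖(e : ℂ) ^ (-(1 + s))‖ ≤ 1 := by
  rw [Complex.norm_natCast_cpow_of_pos (by omega)]
  have h1 : (1 : ℝ) ≤ e := by exact_mod_cast he
  have h2 := Complex.abs_re_le_norm s
  have h3 := neg_abs_le s.re
  apply Real.rpow_le_one_of_one_le_of_nonpos h1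
  rw [Complex.neg_re, Complex.add_re, Complex.one_re]
  linarith

theorem x12a_coef {n e : ℕ} (_he : e ∈ n.divisors) :
    ‖((ArithmeticFunction.moebius e : ℤ) : ℂ) * ((n / e).divisors.card : ℂ)‖ ≤ n := by
  rw [norm_mul, Complex.norm_intCast, Complex.norm_natCast]
  have h1 : |((ArithmeticFunction.moebius e : ℤ) : ℝ)| ≤ 1 := by
    have := ArithmeticFunction.abs_moebius_le_one (n := e)
    exact_mod_cast this
  have h2 : ((n / e).divisors.card : ℝ) ≤ n := by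
    exact_mod_cast (Nat.card_divisors_le_self _).trans (Nat.div_le_self n e)
  calc |((ArithmeticFunction.moebius e : ℤ) : ℝ)| * ((n / e).divisors.card : ℝ) ≤ 1 * n :=
        mul_le_mul h1 h2 (by positivity) (by norm_num)
    _ = n := one_mul _

theorem x12a_card (n : ℕ) : (n.divisors.card : ℝ) ≤ n := by
  exact_mod_cast Nat.card_divisors_le_self n

theorem x12a_tot (n : ℕ) : ∑ d ∈ n.divisors, (Nat.totient d : ℝ) = n := by
  exact_mod_cast Nat.sum_totient n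

theorem x12a_fB_bd {n : ℕ} {s : ℂ} (hs : ‖s‖ ≤ 1/4) : ‖fB n s‖ ≤ n := by
  unfold fB
  rw [← x12a_tot n]
  refine norm_sum_le_of_le _ fun d hd => ?_
  rw [norm_mul, Complex.norm_natCast]
  have := x12a_norm (x12a_pos hd) hs
  nlinarith [Nat.cast_nonneg (α := ℝ) (Nat.totient d)]

theorem x12a_fA_bd {n : ℕ} {s : ℂ} (hs : ‖s‖ ≤ 1/4) : ‖fA n s‖ ≤ (n : ℝ) ^ 2 := by
  unfold fA
  have h1 : ∀ e ∈ n.divisors, ‖((ArithmeticFunction.moebius e : ℤ) : ℂ) *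
      ((n / e).divisors.card : ℂ) * (e : ℂ) ^ (-(1 + s))‖ ≤ n := by
    intro e he
    rw [norm_mul]
    have h2 := x12a_norm (x12a_pos he) hs
    have h3 := x12a_coef he
    calc _ ≤ (n : ℝ) * 1 := mul_le_mul h3 h2 (norm_nonneg _) (Nat.cast_nonneg _)
      _ = n := mul_one _
  refine (norm_sum_le_of_le _ h1).trans ?_
  rw [Finset.sum_const, nsmul_eq_mul, pow_two]
  exact mul_le_mul_of_nonneg_right (x12a_card n) (Nat.cast_nonneg _)

theorem Hn_bd {n : ℕ} (hn : 1 ≤ n) {s : ℂ} (hs : ‖s‖ ≤ 1/4) : ‖Hn n s‖ ≤ 10 * (n:ℝ) ^ 2 := by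
  have hn' : (1 : ℝ) ≤ n := by exact_mod_cast hn
  have h1 : ‖3 * (n : ℂ) ^ (-(1 + s)) * fA n s‖ ≤ 3 * (n : ℝ) ^ 2 := by
    rw [norm_mul, norm_mul]
    have h2 := x12a_norm hn hs
    have h3 := x12a_fA_bd (n := n) hs
    have h4 : ‖(3 : ℂ)‖ = 3 := by norm_num
    rw [h4]
    calc 3 * ‖(n : ℂ) ^ (-(1 + s))‖ * ‖fA n s‖ ≤ 3 * 1 * (n : ℝ) ^ 2 := by
          apply mul_le_mul _ h3 (norm_nonneg _) (by norm_num)
          linarith
      _ = 3 * (n : ℝ) ^ 2 := by ring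
  have h5 : ‖3 / (n : ℂ) * fB n s‖ ≤ 3 := by
    rw [norm_mul, norm_div, Complex.norm_natCast]
    have h4 : ‖(3 : ℂ)‖ = 3 := by norm_num
    rw [h4]
    calc 3 / (n : ℝ) * ‖fB n s‖ ≤ 3 / (n : ℝ) * n :=
          mul_le_mul_of_nonneg_left (x12a_fB_bd hs) (by positivity)
      _ = 3 := div_mul_cancel₀ _ (by linarith)
  have h6 : ‖1 / (n : ℂ) * fB n 0‖ ≤ 1 := by
    rw [norm_mul, norm_div, Complex.norm_natCast, norm_one]
    calc 1 / (n : ℝ) * ‖fB n 0‖ ≤ 1 / (n : ℝ) * n :=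
          mul_le_mul_of_nonneg_left (x12a_fB_bd (by norm_num)) (by positivity)
      _ = 1 := div_mul_cancel₀ _ (by linarith)
  unfold Hn
  calc _ ≤ ‖3 * (n : ℂ) ^ (-(1 + s)) * fA n s - 3 / n * fB n s‖ + ‖1 / (n : ℂ) * fB n 0‖ :=
        norm_add_le _ _
    _ ≤ (‖3 * (n : ℂ) ^ (-(1 + s)) * fA n s‖ + ‖3 / (n : ℂ) * fB n s‖) +
        ‖1 / (n : ℂ) * fB n 0‖ := by
        gcongr
        exact norm_sub_le _ _
    _ ≤ 3 * (n : ℝ) ^ 2 + 3 + 1 := by linarith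
    _ ≤ 10 * (n : ℝ) ^ 2 := by nlinarith

theorem x12a_cpow {k : ℕ} (hk : 1 ≤ k) {θ : ℂ} (hθ : θ ≠ 0) (w : ℂ) :
    ((k : ℂ) * θ) ^ w = (k : ℂ) ^ w * θ ^ w := by
  have hk0 : (0 : ℝ) < k := by
    have : 0 < k := by omega
    exact_mod_cast this
  have hk' : (k : ℂ) ≠ 0 := by exact_mod_cast hk0.ne'
  have h1 := Complex.log_ofReal_mul hk0 hθ
  rw [Complex.ofReal_natCast] at h1
  rw [Complex.cpow_def_of_ne_zero (mul_ne_zero hk' hθ), Complex.cpow_def_of_ne_zero hk',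
    Complex.cpow_def_of_ne_zero hθ, ← Complex.exp_add, h1, Complex.natCast_log]
  congr 1
  ring

/-- the analytic factor without `k` -/
noncomputable def x12a_A (θ : ℂ) (s : ℂ) : ℂ := G0 s * θ ^ (-(1 + s))

theorem x12a_A_an {θ : ℂ} (hθ : θ ≠ 0) : AnalyticAt ℂ (x12a_A θ) 0 := by
  have h1 : Differentiable ℂ fun s : ℂ => θ ^ (-(1 + s)) :=
    ((differentiable_const 1).add differentiable_id).neg.const_cpow (Or.inl hθ)
  exact (G0_analytic (by norm_num)).mul (h1.analyticAt 0)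

theorem x12a_kA_an {θ : ℂ} (hθ : θ ≠ 0) {k : ℕ} (hk : 1 ≤ k) :
    AnalyticAt ℂ (fun s => (k : ℂ) ^ (-(1 + s)) * x12a_A θ s) 0 :=
  ((x12a_diff hk).analyticAt 0).mul (x12a_A_an hθ)

theorem x12a_P3 {θ : ℂ} (hθ : θ ≠ 0) {k : ℕ} (hk : 1 ≤ k) :
    P3 ((k : ℂ) * θ) = C2 (fun s => (k : ℂ) ^ (-(1 + s)) * x12a_A θ s) := by
  unfold P3 x12a_A
  congr 1
  funext s
  rw [x12a_cpow hk hθ]
  ring

theorem x12a_polar {n : ℕ} (hn : 1 ≤ n) {θ : ℂ} (hθ : θ ≠ 0) :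
    C2 (fun s => G0 s * Hn n s * θ ^ (-(1 + s))) =
      3 * ∑ e ∈ n.divisors, ((ArithmeticFunction.moebius e : ℤ) : ℂ) * ((n / e).divisors.card : ℂ) *
        P3 (((n * e : ℕ) : ℂ) * θ) -
      3 / n * ∑ d ∈ n.divisors, (Nat.totient d : ℂ) * P3 ((d : ℂ) * θ) + 1 / n * fB n 0 * P3 θ := by
  have hne : ∀ e ∈ n.divisors, 1 ≤ n * e := fun e he =>
    Nat.mul_pos hn (x12a_pos he)
  have h0 : P3 θ = C2 (x12a_A θ) := rfl
  have h1 : (fun s => G0 s * Hn n s * θ ^ (-(1 + s))) = fun s =>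
      (∑ e ∈ n.divisors, 3 * (((ArithmeticFunction.moebius e : ℤ) : ℂ) *
          ((n / e).divisors.card : ℂ)) * (((n * e : ℕ) : ℂ) ^ (-(1 + s)) * x12a_A θ s)) +
        ((∑ d ∈ n.divisors, (-(3 / n) * (Nat.totient d : ℂ)) *
          ((d : ℂ) ^ (-(1 + s)) * x12a_A θ s)) + 1 / n * fB n 0 * x12a_A θ s) := by
    funext s
    have h2 : ∑ e ∈ n.divisors, 3 * (((ArithmeticFunction.moebius e : ℤ) : ℂ) *
          ((n / e).divisors.card : ℂ)) * (((n * e : ℕ) : ℂ) ^ (-(1 + s)) * x12a_A θ s) =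
        3 * (n : ℂ) ^ (-(1 + s)) * fA n s * x12a_A θ s := by
      unfold fA
      rw [Finset.mul_sum, Finset.sum_mul]
      refine Finset.sum_congr rfl fun e _ => ?_
      rw [Nat.cast_mul, Complex.natCast_mul_natCast_cpow]
      ring
    have h3 : ∑ d ∈ n.divisors, (-(3 / n) * (Nat.totient d : ℂ)) *
          ((d : ℂ) ^ (-(1 + s)) * x12a_A θ s) = -(3 / n) * fB n s * x12a_A θ s := by
      unfold fB
      rw [Finset.mul_sum, Finset.sum_mul]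
      refine Finset.sum_congr rfl fun e _ => ?_
      ring
    rw [h2, h3]
    unfold Hn x12a_A
    ring
  have a1 : ∀ e ∈ n.divisors, AnalyticAt ℂ (fun s => 3 * (((ArithmeticFunction.moebius e : ℤ) : ℂ) *
          ((n / e).divisors.card : ℂ)) * (((n * e : ℕ) : ℂ) ^ (-(1 + s)) * x12a_A θ s)) 0 :=
    fun e he => analyticAt_const.mul (x12a_kA_an hθ (hne e he))
  have a2 : ∀ d ∈ n.divisors, AnalyticAt ℂ (fun s => (-(3 / n) * (Nat.totient d : ℂ)) *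
          ((d : ℂ) ^ (-(1 + s)) * x12a_A θ s)) 0 :=
    fun d hd => analyticAt_const.mul (x12a_kA_an hθ (x12a_pos hd))
  have b1 : AnalyticAt ℂ (fun s => ∑ e ∈ n.divisors, 3 * (((ArithmeticFunction.moebius e : ℤ) : ℂ) *
          ((n / e).divisors.card : ℂ)) * (((n * e : ℕ) : ℂ) ^ (-(1 + s)) * x12a_A θ s)) 0 :=
    Finset.analyticAt_fun_sum _ a1
  have b2 : AnalyticAt ℂ (fun s => ∑ d ∈ n.divisors, (-(3 / n) * (Nat.totient d : ℂ)) *
          ((d : ℂ) ^ (-(1 + s)) * x12a_A θ s)) 0 :=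
    Finset.analyticAt_fun_sum _ a2
  have b3 : AnalyticAt ℂ (fun s => 1 / n * fB n 0 * x12a_A θ s) 0 :=
    analyticAt_const.mul (x12a_A_an hθ)
  have b23 : AnalyticAt ℂ (fun s => (∑ d ∈ n.divisors, (-(3 / n) * (Nat.totient d : ℂ)) *
          ((d : ℂ) ^ (-(1 + s)) * x12a_A θ s)) + 1 / n * fB n 0 * x12a_A θ s) 0 := b2.add b3
  rw [h1, C2_add b1 b23, C2_add b2 b3, C2_sum _ _ a1, C2_sum _ _ a2,
    C2_const_mul _ (x12a_A_an hθ), h0]
  have c1 : ∑ e ∈ n.divisors, C2 (fun s => 3 * (((ArithmeticFunction.moebius e : ℤ) : ℂ) *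
          ((n / e).divisors.card : ℂ)) * (((n * e : ℕ) : ℂ) ^ (-(1 + s)) * x12a_A θ s)) =
      3 * ∑ e ∈ n.divisors, ((ArithmeticFunction.moebius e : ℤ) : ℂ) * ((n / e).divisors.card : ℂ) *
        P3 (((n * e : ℕ) : ℂ) * θ) := by
    rw [Finset.mul_sum]
    refine Finset.sum_congr rfl fun e he => ?_
    rw [C2_const_mul _ (x12a_kA_an hθ (hne e he)), x12a_P3 hθ (hne e he)]
    ring
  have c2 : ∑ d ∈ n.divisors, C2 (fun s => (-(3 / n) * (Nat.totient d : ℂ)) *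
          ((d : ℂ) ^ (-(1 + s)) * x12a_A θ s)) =
      -(3 / n * ∑ d ∈ n.divisors, (Nat.totient d : ℂ) * P3 ((d : ℂ) * θ)) := by
    rw [Finset.mul_sum, ← Finset.sum_neg_distrib]
    refine Finset.sum_congr rfl fun d hd => ?_
    rw [C2_const_mul _ (x12a_kA_an hθ (x12a_pos hd)), x12a_P3 hθ (x12a_pos hd)]
    ring
  rw [c1, c2]
  ring

theorem polar_eq : ∃ C : ℝ, 0 < C ∧ ∀ m n : ℕ, 1 ≤ m → 1 ≤ n → Nat.Coprime m n → ∀ θ : ℂ, 0 < θ.re →
    ‖F3 (θ + ((2 * Real.pi * m / n : ℝ) : ℂ) * I) - C2 (fun s => G0 s * Hn n s * θ ^ (-(1 + s)))‖ ≤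
      C * (n:ℝ) ^ 2 * (‖θ‖ / θ.re) ^ 5 * (θ.re ^ (-(3/4) : ℝ) + θ.re ^ (-(1/2) : ℝ)) := by
  obtain ⟨C1, hC1, h1⟩ := E3_bound
  obtain ⟨C3, hC3, h3⟩ := I3_bound
  refine ⟨C1 + 7 * C3, by positivity, fun m n hm hn hmn θ hθ => ?_⟩
  have hθ0 : θ ≠ 0 := by
    intro h
    rw [h, Complex.zero_re] at hθ
    exact lt_irrefl _ hθ
  have hn' : (1 : ℝ) ≤ n := by exact_mod_cast hn
  have hr : 1 ≤ ‖θ‖ / θ.re := by
    rw [one_le_div hθ]
    exact (le_abs_self _).trans (Complex.abs_re_le_norm θ)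
  set r := ‖θ‖ / θ.re with hrdef
  have hr5 : r ≤ r ^ 5 := le_self_pow₀ hr (by norm_num)
  set B := C3 * θ.re ^ (-(1/2) : ℝ) * r ^ 5 with hB
  have hB0 : 0 ≤ B := by positivity
  have hI : ∀ k : ℕ, 1 ≤ k → ‖I3 ((k : ℂ) * θ)‖ ≤ B := by
    intro k hk
    have hk' : (1 : ℝ) ≤ k := by exact_mod_cast hk
    have hre : ((k : ℂ) * θ).re = k * θ.re := by
      rw [← Complex.ofReal_natCast, Complex.re_ofReal_mul]
    have hnorm : ‖(k : ℂ) * θ‖ = k * ‖θ‖ := by rw [norm_mul, Complex.norm_natCast]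
    have h4 := (h3 ((k : ℂ) * θ) (by rw [hre]; positivity)).2
    rw [hre, hnorm, mul_div_mul_left _ _ (by linarith : (k : ℝ) ≠ 0)] at h4
    refine h4.trans ?_
    rw [hB]
    apply mul_le_mul_of_nonneg_right _ (by positivity)
    apply mul_le_mul_of_nonneg_left _ hC3.le
    apply Real.rpow_le_rpow_of_nonpos hθ _ (by norm_num)
    have h5 : θ.re ≤ ‖θ‖ := (le_abs_self _).trans (Complex.abs_re_le_norm θ)
    nlinarith [norm_nonneg θ]
  rw [F3_shift hn hθ, x12a_polar hn hθ0]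
  have hF : ∀ k : ℕ, 1 ≤ k → F3 ((k : ℂ) * θ) = I3 ((k : ℂ) * θ) + P3 ((k : ℂ) * θ) := by
    intro k hk
    have hk' : (1 : ℝ) ≤ k := by exact_mod_cast hk
    apply F3_eq
    rw [← Complex.ofReal_natCast, Complex.re_ofReal_mul]
    positivity
  have s1 : ∑ e ∈ n.divisors, ((ArithmeticFunction.moebius e : ℤ) : ℂ) *
      ((n / e).divisors.card : ℂ) * F3 (((n * e : ℕ) : ℂ) * θ) =
      (∑ e ∈ n.divisors, ((ArithmeticFunction.moebius e : ℤ) : ℂ) *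
      ((n / e).divisors.card : ℂ) * I3 (((n * e : ℕ) : ℂ) * θ)) +
      ∑ e ∈ n.divisors, ((ArithmeticFunction.moebius e : ℤ) : ℂ) *
      ((n / e).divisors.card : ℂ) * P3 (((n * e : ℕ) : ℂ) * θ) := by
    rw [← Finset.sum_add_distrib]
    refine Finset.sum_congr rfl fun e he => ?_
    rw [hF _ (Nat.mul_pos hn (x12a_pos he))]
    ring
  have s2 : ∑ d ∈ n.divisors, (Nat.totient d : ℂ) * F3 ((d : ℂ) * θ) =
      (∑ d ∈ n.divisors, (Nat.totient d : ℂ) * I3 ((d : ℂ) * θ)) +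
      ∑ d ∈ n.divisors, (Nat.totient d : ℂ) * P3 ((d : ℂ) * θ) := by
    rw [← Finset.sum_add_distrib]
    refine Finset.sum_congr rfl fun d hd => ?_
    rw [hF _ (x12a_pos hd)]
    ring
  have s3 : F3 θ = I3 θ + P3 θ := F3_eq hθ
  have key : E3 m n θ +
      3 * ∑ e ∈ n.divisors, ((ArithmeticFunction.moebius e : ℤ) : ℂ) * ((n / e).divisors.card : ℂ) *
        F3 (((n * e : ℕ) : ℂ) * θ) -
      3 / n * ∑ d ∈ n.divisors, (Nat.totient d : ℂ) * F3 ((d : ℂ) * θ) + 1 / n * fB n 0 * F3 θ -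
      (3 * ∑ e ∈ n.divisors, ((ArithmeticFunction.moebius e : ℤ) : ℂ) *
        ((n / e).divisors.card : ℂ) * P3 (((n * e : ℕ) : ℂ) * θ) -
      3 / n * ∑ d ∈ n.divisors, (Nat.totient d : ℂ) * P3 ((d : ℂ) * θ) + 1 / n * fB n 0 * P3 θ) =
      E3 m n θ + (3 * (∑ e ∈ n.divisors, ((ArithmeticFunction.moebius e : ℤ) : ℂ) *
        ((n / e).divisors.card : ℂ) * I3 (((n * e : ℕ) : ℂ) * θ)) -
        3 / n * (∑ d ∈ n.divisors, (Nat.totient d : ℂ) * I3 ((d : ℂ) * θ)) +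
        1 / n * fB n 0 * I3 θ) := by
    rw [s1, s2, s3]
    ring
  rw [key]
  have b1 : ‖∑ e ∈ n.divisors, ((ArithmeticFunction.moebius e : ℤ) : ℂ) *
        ((n / e).divisors.card : ℂ) * I3 (((n * e : ℕ) : ℂ) * θ)‖ ≤ (n : ℝ) ^ 2 * B := by
    have h2 : ∀ e ∈ n.divisors, ‖((ArithmeticFunction.moebius e : ℤ) : ℂ) *
        ((n / e).divisors.card : ℂ) * I3 (((n * e : ℕ) : ℂ) * θ)‖ ≤ n * B := by
      intro e he
      rw [norm_mul]
      exact mul_le_mul (x12a_coef he) (hI _ (Nat.mul_pos hn (x12a_pos he))) (norm_nonneg _)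
        (Nat.cast_nonneg _)
    refine (norm_sum_le_of_le _ h2).trans ?_
    rw [Finset.sum_const, nsmul_eq_mul, pow_two, mul_assoc]
    exact mul_le_mul_of_nonneg_right (x12a_card n) (by positivity)
  have b2 : ‖∑ d ∈ n.divisors, (Nat.totient d : ℂ) * I3 ((d : ℂ) * θ)‖ ≤ n * B := by
    have h2 : ∀ d ∈ n.divisors, ‖(Nat.totient d : ℂ) * I3 ((d : ℂ) * θ)‖ ≤ Nat.totient d * B := by
      intro d hd
      rw [norm_mul, Complex.norm_natCast]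
      exact mul_le_mul_of_nonneg_left (hI _ (x12a_pos hd)) (Nat.cast_nonneg _)
    refine (norm_sum_le_of_le _ h2).trans ?_
    rw [← Finset.sum_mul, x12a_tot]
  have b3 : ‖I3 θ‖ ≤ B := by
    have := hI 1 le_rfl
    simpa using this
  have b4 : ‖fB n 0‖ ≤ n := x12a_fB_bd (by norm_num)
  have n3 : ‖(3 : ℂ)‖ = 3 := by norm_num
  have e1 : ‖3 * (∑ e ∈ n.divisors, ((ArithmeticFunction.moebius e : ℤ) : ℂ) *
        ((n / e).divisors.card : ℂ) * I3 (((n * e : ℕ) : ℂ) * θ))‖ ≤ 3 * ((n : ℝ) ^ 2 * B) := by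
    rw [norm_mul, n3]
    linarith
  have e2 : ‖3 / (n : ℂ) * (∑ d ∈ n.divisors, (Nat.totient d : ℂ) * I3 ((d : ℂ) * θ))‖ ≤ 3 * B := by
    rw [norm_mul, norm_div, n3, Complex.norm_natCast]
    calc 3 / (n : ℝ) * ‖∑ d ∈ n.divisors, (Nat.totient d : ℂ) * I3 ((d : ℂ) * θ)‖ ≤
        3 / (n : ℝ) * (n * B) := mul_le_mul_of_nonneg_left b2 (by positivity)
      _ = 3 * B := by field_simp
  have e3 : ‖1 / (n : ℂ) * fB n 0 * I3 θ‖ ≤ B := by
    rw [norm_mul, norm_mul, norm_div, norm_one, Complex.norm_natCast]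
    calc 1 / (n : ℝ) * ‖fB n 0‖ * ‖I3 θ‖ ≤ 1 / (n : ℝ) * n * B := by
          apply mul_le_mul _ b3 (norm_nonneg _) (by positivity)
          exact mul_le_mul_of_nonneg_left b4 (by positivity)
      _ = B := by field_simp
  have e4 := h1 m n hn hmn θ hθ
  rw [← hrdef] at e4
  have e5 : C1 * n * r * θ.re ^ (-(3/4) : ℝ) ≤ C1 * (n:ℝ) ^ 2 * r ^ 5 * θ.re ^ (-(3/4) : ℝ) := by
    apply mul_le_mul_of_nonneg_right _ (by positivity)
    refine mul_le_mul ?_ hr5 (zero_le_one.trans hr) (by positivity)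
    refine mul_le_mul_of_nonneg_left ?_ hC1.le
    nlinarith
  calc _ ≤ ‖E3 m n θ‖ + (‖3 * (∑ e ∈ n.divisors, ((ArithmeticFunction.moebius e : ℤ) : ℂ) *
        ((n / e).divisors.card : ℂ) * I3 (((n * e : ℕ) : ℂ) * θ))‖ +
        ‖3 / (n : ℂ) * (∑ d ∈ n.divisors, (Nat.totient d : ℂ) * I3 ((d : ℂ) * θ))‖ +
        ‖1 / (n : ℂ) * fB n 0 * I3 θ‖) := by
        refine (norm_add_le _ _).trans (add_le_add le_rfl ?_)
        refine (norm_add_le _ _).trans (add_le_add ?_ le_rfl)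
        exact norm_sub_le _ _
    _ ≤ C1 * (n:ℝ) ^ 2 * r ^ 5 * θ.re ^ (-(3/4) : ℝ) + (3 * ((n : ℝ) ^ 2 * B) + 3 * B + B) := by
        linarith
    _ ≤ C1 * (n:ℝ) ^ 2 * r ^ 5 * θ.re ^ (-(3/4) : ℝ) + 7 * ((n : ℝ) ^ 2 * B) := by
        have : B ≤ (n : ℝ) ^ 2 * B := le_mul_of_one_le_left hB0 (one_le_pow₀ hn')
        linarith
    _ ≤ (C1 + 7 * C3) * (n:ℝ) ^ 2 * r ^ 5 * (θ.re ^ (-(3/4) : ℝ) + θ.re ^ (-(1/2) : ℝ)) := by
        have p1 : 0 ≤ (n:ℝ) ^ 2 * r ^ 5 * θ.re ^ (-(3/4) : ℝ) := by positivity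
        have p2 : 0 ≤ (n:ℝ) ^ 2 * r ^ 5 * θ.re ^ (-(1/2) : ℝ) := by positivity
        rw [hB]
        nlinarith [mul_nonneg hC1.le p2, mul_nonneg hC3.le p1]

end Pool.Agent.LibPH
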