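import Mathlib
import Pool.Agent.LibPH.X12a
import Pool.Agent.LibPH.X07
import Pool.Agent.LibPH.X06

/-! ROW X12 (th_bd, polar_w): the polar part.

polar_eq: `F3(kθ) = P3(kθ) + I3(kθ)`, `(kθ)^{-(1+s)} = k^{-(1+s)} θ^{-(1+s)}` and linearity of `C2` (X00, G0_analytic):
`3 ∑ μτ P3(neθ) - (3/n) ∑ φ P3(dθ) + (fB n 0/n) P3(θ) = C2 (fun s => G0 s * Hn n s * θ^{-(1+s)})`.
The rest: I3_bound for `kθ` (`‖kθ‖/Re(kθ) = ‖θ‖/Re θ`, `‖kθ‖^{-1/2} ≤ ‖θ‖^{-1/2}`), `∑_{e∣n} τ(n/e) ≤ n²`, `∑ φ(d) = n`,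
`‖fB n 0‖ ≤ n`. -/

set_option autoImplicit false

namespace Pool.Agent.LibPH

open MeasureTheory Set Filter Topology Complex
open scoped ComplexConjugate

lemma x12_th_eq (m n : ℕ) (w : ℂ) :
    th m n w = ((2 * Real.pi * m / n : ℝ) : ℂ) * (I * (cexp (-(I * w)) - 1)) := by
  unfold th zw
  ring

lemma x12_sub (m n : ℕ) {w : ℂ} (h1 : ‖w‖ ≤ 1/2) :
    ‖th m n w - ((2 * Real.pi * m / n : ℝ) : ℂ) * w‖ ≤ (2 * Real.pi * m / n) * ‖w‖ ^ 2 := by
  have h2 : th m n w - ((2 * Real.pi * m / n : ℝ) : ℂ) * w =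
      ((2 * Real.pi * m / n : ℝ) : ℂ) * (I * (cexp (-(I * w)) - 1 - (-(I * w)))) := by
    rw [x12_th_eq]
    have : I * (cexp (-(I * w)) - 1 - (-(I * w))) = I * (cexp (-(I * w)) - 1) + (I * I) * w := by ring
    rw [this, I_mul_I]
    ring
  have hc : 0 ≤ 2 * Real.pi * m / n := by positivity
  have hn : ‖-(I * w)‖ = ‖w‖ := by rw [norm_neg, norm_mul, norm_I, one_mul]
  have h3 : ‖cexp (-(I * w)) - 1 - (-(I * w))‖ ≤ ‖w‖ ^ 2 := by
    have := Complex.norm_exp_sub_one_sub_id_le (x := -(I * w)) (by rw [hn]; linarith)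
    rwa [hn] at this
  rw [h2, norm_mul, norm_mul, norm_I, one_mul, Complex.norm_real, Real.norm_of_nonneg hc]
  gcongr

/-- replacing `θ` by `(2πm/n) w` -/
theorem th_bd {m n : ℕ} (hm : 1 ≤ m) (hn : 1 ≤ n) {w : ℂ} (h0 : 0 < w.re) (h1 : ‖w‖ ≤ 1/2) :
    (m:ℝ) / n * w.re ≤ (th m n w).re ∧ ‖th m n w‖ ≤ 10 * ((m:ℝ) / n) * ‖w‖ ∧
    ‖th m n w - ((2 * Real.pi * m / n : ℝ) : ℂ) * w‖ ≤ 10 * ((m:ℝ) / n) * ‖w‖ ^ 2 := by
  have hm' : (1:ℝ) ≤ m := by exact_mod_cast hm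
  have hn' : (1:ℝ) ≤ n := by exact_mod_cast hn
  have hmn : 0 ≤ (m:ℝ) / n := by positivity
  have hpi : Real.pi ≤ 3.15 := by linarith [Real.pi_lt_d2]
  have hpi3 : 3 < Real.pi := Real.pi_gt_three
  have hc : 2 * Real.pi * m / n = 2 * Real.pi * ((m:ℝ) / n) := by ring
  have hsub := x12_sub m n h1
  have hw0 : 0 ≤ ‖w‖ := norm_nonneg w
  have hre : |w.re| ≤ ‖w‖ := Complex.abs_re_le_norm w
  have him : |w.im| ≤ ‖w‖ := Complex.abs_im_le_norm w
  rw [abs_le] at hre him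
  refine ⟨?_, ?_, ?_⟩
  · have h2 : (th m n w).re = (2 * Real.pi * m / n) * (Real.exp w.im * Real.sin w.re) := by
      rw [x12_th_eq, Complex.re_ofReal_mul]
      congr 1
      have h3 : -(I * w) = ((w.im : ℝ) : ℂ) + ((-w.re : ℝ) : ℂ) * I := by
        apply Complex.ext <;> simp
      rw [h3, Complex.exp_add, ← Complex.ofReal_exp, Complex.exp_mul_I]
      rw [← Complex.ofReal_cos, ← Complex.ofReal_sin]
      simp
      rw [Complex.exp_ofReal_re, Complex.sin_ofReal_re]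
    rw [h2, hc]
    have hsin : 2 / Real.pi * w.re ≤ Real.sin w.re :=
      Real.mul_le_sin h0.le (by linarith)
    have hexp : 1 / 2 ≤ Real.exp w.im := by
      have := Real.add_one_le_exp w.im
      linarith
    have h4 : (1:ℝ) / 2 * (2 / Real.pi * w.re) ≤ Real.exp w.im * Real.sin w.re := by
      apply mul_le_mul hexp hsin
      · positivity
      · exact (Real.exp_pos _).le
    have h5 : 2 * Real.pi * ((1:ℝ) / 2 * (2 / Real.pi * w.re)) = 2 * w.re := by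
      have : Real.pi ≠ 0 := Real.pi_ne_zero
      field_simp
    calc (m:ℝ) / n * w.re ≤ (m:ℝ) / n * (2 * w.re) := by
          apply mul_le_mul_of_nonneg_left _ hmn
          linarith
      _ = (m:ℝ) / n * (2 * Real.pi * ((1:ℝ) / 2 * (2 / Real.pi * w.re))) := by rw [h5]
      _ ≤ (m:ℝ) / n * (2 * Real.pi * (Real.exp w.im * Real.sin w.re)) := by
          apply mul_le_mul_of_nonneg_left _ hmn
          apply mul_le_mul_of_nonneg_left h4
          positivity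
      _ = _ := by ring
  · have h2 : ‖((2 * Real.pi * m / n : ℝ) : ℂ) * w‖ = (2 * Real.pi * m / n) * ‖w‖ := by
      rw [norm_mul, Complex.norm_real, Real.norm_of_nonneg (by positivity)]
    have h3 : ‖th m n w‖ ≤ ‖((2 * Real.pi * m / n : ℝ) : ℂ) * w‖ +
        ‖th m n w - ((2 * Real.pi * m / n : ℝ) : ℂ) * w‖ := by
      have := norm_add_le (((2 * Real.pi * m / n : ℝ) : ℂ) * w)
        (th m n w - ((2 * Real.pi * m / n : ℝ) : ℂ) * w)
      rwa [add_sub_cancel] at this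
    rw [h2] at h3
    have h4 : ‖w‖ ^ 2 ≤ 1 / 2 * ‖w‖ := by nlinarith
    calc ‖th m n w‖ ≤ (2 * Real.pi * m / n) * ‖w‖ + (2 * Real.pi * m / n) * ‖w‖ ^ 2 := by linarith
      _ ≤ (2 * Real.pi * m / n) * ‖w‖ + (2 * Real.pi * m / n) * (1 / 2 * ‖w‖) := by gcongr
      _ = (3 * Real.pi) * (((m:ℝ) / n) * ‖w‖) := by ring
      _ ≤ 10 * (((m:ℝ) / n) * ‖w‖) := by
          apply mul_le_mul_of_nonneg_right _ (by positivity)
          linarith
      _ = _ := by ring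
  · refine hsub.trans ?_
    rw [hc]
    apply mul_le_mul_of_nonneg_right _ (by positivity)
    apply mul_le_mul_of_nonneg_right _ hmn
    linarith

lemma x12_cpow_diff {m n : ℕ} (hm : 1 ≤ m) (hn : 1 ≤ n) {w : ℂ} (h0 : 0 < w.re) (h1 : ‖w‖ ≤ 1/2)
    {s : ℂ} (hs : ‖s‖ ≤ 1/4) :
    ‖(th m n w) ^ (-(1 + s)) - (((2 * Real.pi * m / n : ℝ) : ℂ) * w) ^ (-(1 + s))‖ ≤
      8 * ((m:ℝ) * n) ^ 2 * w.re ^ (-(1/4) : ℝ) := by
  have hm' : (1:ℝ) ≤ m := by exact_mod_cast hm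
  have hn' : (1:ℝ) ≤ n := by exact_mod_cast hn
  have hpi3 : 3 < Real.pi := Real.pi_gt_three
  have hpi4 : Real.pi ≤ 3.15 := by linarith [Real.pi_lt_d2]
  have hw0 : 0 < ‖w‖ := lt_of_lt_of_le h0 (Complex.re_le_norm w)
  set c : ℝ := 2 * Real.pi * m / n with hc
  have hcpos : 0 < c := by rw [hc]; positivity
  have hcw : ‖(c : ℂ) * w‖ = c * ‖w‖ := by
    rw [norm_mul, Complex.norm_real, Real.norm_of_nonneg hcpos.le]
  set S : Set ℂ := {z : ℂ | 0 < z.re} ∩ Metric.closedBall ((c : ℂ) * w) (c * ‖w‖ / 2) with hS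
  have hconv : Convex ℝ S :=
    (convex_halfSpace_re_gt 0).inter (convex_closedBall _ _)
  have hmemw : (c : ℂ) * w ∈ S := by
    refine ⟨?_, ?_⟩
    · show 0 < ((c : ℂ) * w).re
      rw [Complex.re_ofReal_mul]
      exact mul_pos hcpos h0
    · exact Metric.mem_closedBall_self (by positivity)
  have hsub := x12_sub m n h1
  rw [← hc] at hsub
  have hmemt : th m n w ∈ S := by
    refine ⟨?_, ?_⟩
    · show 0 < (th m n w).re
      have := (th_bd hm hn h0 h1).1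
      have h2 : 0 < (m:ℝ) / n * w.re := by positivity
      linarith
    · rw [Metric.mem_closedBall, dist_eq_norm]
      refine hsub.trans ?_
      have : ‖w‖ ^ 2 ≤ 1 / 2 * ‖w‖ := by nlinarith
      calc c * ‖w‖ ^ 2 ≤ c * (1 / 2 * ‖w‖) := by gcongr
        _ = c * ‖w‖ / 2 := by ring
  have hnorm : ∀ z ∈ S, c * ‖w‖ / 2 ≤ ‖z‖ ∧ ‖z‖ ≤ 3 * (c * ‖w‖) / 2 := by
    intro z hz
    have h2 := hz.2
    rw [Metric.mem_closedBall, dist_eq_norm] at h2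
    have h3 : ‖(c : ℂ) * w‖ ≤ ‖z‖ + ‖z - (c : ℂ) * w‖ := by
      have := norm_sub_le z (z - (c : ℂ) * w)
      rwa [sub_sub_cancel] at this
    have h4 : ‖z‖ ≤ ‖(c : ℂ) * w‖ + ‖z - (c : ℂ) * w‖ := by
      have := norm_add_le ((c : ℂ) * w) (z - (c : ℂ) * w)
      rwa [add_sub_cancel] at this
    rw [hcw] at h3 h4
    constructor <;> linarith
  set Q : ℝ := 4 * ((m:ℝ) * n) / w.re with hQ
  have hmn1 : 1 ≤ (m:ℝ) * n := by nlinarith
  have hwre : w.re ≤ ‖w‖ := Complex.re_le_norm w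
  have hQ1 : 1 ≤ Q := by
    rw [hQ, le_div_iff₀ h0]
    linarith
  have hinv : 1 / (c * ‖w‖ / 2) ≤ (n : ℝ) / w.re := by
    have h2 : 1 / (c * ‖w‖ / 2) = 2 / (c * ‖w‖) := by field_simp
    rw [h2, div_le_div_iff₀ (by positivity) h0]
    have h3 : (n:ℝ) * c = 2 * Real.pi * m := by
      rw [hc]
      field_simp
    calc 2 * w.re ≤ 2 * ‖w‖ := by linarith
      _ ≤ (2 * Real.pi * m) * ‖w‖ := by
          apply mul_le_mul_of_nonneg_right _ hw0.le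
          nlinarith
      _ = (n:ℝ) * (c * ‖w‖) := by rw [← h3]; ring
  have hZ : ∀ z ∈ S, ‖z‖ + ‖z‖⁻¹ ≤ Q := by
    intro z hz
    obtain ⟨h2, h3⟩ := hnorm z hz
    have hz0 : 0 < ‖z‖ := lt_of_lt_of_le (by positivity) h2
    have h4 : ‖z‖⁻¹ ≤ (n : ℝ) / w.re := by
      refine le_trans ?_ hinv
      rw [← one_div]
      exact one_div_le_one_div_of_le (by positivity) h2
    have h5 : ‖z‖ ≤ 5 * (m:ℝ) / 2 / w.re := by
      rw [le_div_iff₀ h0]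
      have hc2 : c ≤ 6.3 * m := by
        rw [hc, div_le_iff₀ (by positivity)]
        have : 2 * Real.pi * m ≤ 6.3 * m := by nlinarith
        nlinarith
      have h6 : ‖z‖ ≤ 3 * (6.3 * m * (1/2)) / 2 := by
        refine h3.trans ?_
        have : c * ‖w‖ ≤ 6.3 * m * (1/2) := by
          apply mul_le_mul hc2 h1 hw0.le (by positivity)
        linarith
      have h7 : w.re ≤ 1/2 := by linarith
      calc ‖z‖ * w.re ≤ (3 * (6.3 * m * (1/2)) / 2) * (1/2) := by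
            apply mul_le_mul h6 h7 h0.le (by positivity)
        _ ≤ 5 * (m:ℝ) / 2 := by linarith
    rw [hQ]
    calc ‖z‖ + ‖z‖⁻¹ ≤ 5 * (m:ℝ) / 2 / w.re + (n : ℝ) / w.re := add_le_add h5 h4
      _ = (5 * (m:ℝ) / 2 + n) / w.re := by ring
      _ ≤ 4 * ((m:ℝ) * n) / w.re := by
          apply div_le_div_of_nonneg_right _ h0.le
          nlinarith
  have hderiv : ∀ z ∈ S, HasDerivWithinAt (fun z : ℂ => z ^ (-(1 + s)))
      (-(1 + s) * z ^ (-(1 + s) - 1) * 1) S z := by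
    intro z hz
    have hzs : z ∈ Complex.slitPlane := Or.inl hz.1
    exact ((hasDerivAt_id z).cpow_const hzs).hasDerivWithinAt
  have hbound : ∀ z ∈ S, ‖-(1 + s) * z ^ (-(1 + s) - 1) * 1‖ ≤ 10 / (c * ‖w‖) ^ 2 * Q ^ (1/4 : ℝ) := by
    intro z hz
    obtain ⟨h2, h3⟩ := hnorm z hz
    have hz0 : 0 < ‖z‖ := lt_of_lt_of_le (by positivity) h2
    have hzne : z ≠ 0 := norm_pos_iff.1 hz0
    have h4 : ‖z ^ (-(1 + s) - 1)‖ ≤ 2 * ‖z‖⁻¹ * Q ^ (1/4 : ℝ) * ‖z‖⁻¹ := by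
      rw [Complex.cpow_sub _ _ hzne, Complex.cpow_one, norm_div, div_eq_mul_inv]
      apply mul_le_mul_of_nonneg_right _ (by positivity)
      refine (cpow_bd hz.1 hs).trans ?_
      apply mul_le_mul_of_nonneg_left _ (by positivity)
      exact Real.rpow_le_rpow (by positivity) (hZ z hz) (by norm_num)
    have h5 : ‖-(1 + s)‖ ≤ 5 / 4 := by
      rw [norm_neg]
      have := norm_add_le (1:ℂ) s
      rw [norm_one] at this
      linarith
    have h6 : ‖z‖⁻¹ ≤ 2 / (c * ‖w‖) := by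
      have : 2 / (c * ‖w‖) = 1 / (c * ‖w‖ / 2) := by field_simp
      rw [this, ← one_div]
      exact one_div_le_one_div_of_le (by positivity) h2
    have hQp : 0 ≤ Q ^ (1/4 : ℝ) := by positivity
    rw [mul_one, norm_mul]
    calc ‖-(1 + s)‖ * ‖z ^ (-(1 + s) - 1)‖ ≤ 5 / 4 * (2 * ‖z‖⁻¹ * Q ^ (1/4 : ℝ) * ‖z‖⁻¹) := by
          apply mul_le_mul h5 h4 (norm_nonneg _) (by norm_num)
      _ = 5 / 2 * (‖z‖⁻¹) ^ 2 * Q ^ (1/4 : ℝ) := by ring
      _ ≤ 5 / 2 * (2 / (c * ‖w‖)) ^ 2 * Q ^ (1/4 : ℝ) := by gcongr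
      _ = 10 / (c * ‖w‖) ^ 2 * Q ^ (1/4 : ℝ) := by
          field_simp
          norm_num
  have hmv := hconv.norm_image_sub_le_of_norm_hasDerivWithin_le hderiv hbound hmemw hmemt
  refine hmv.trans ?_
  have hQ4 : Q ^ (1/4 : ℝ) ≤ 4 * ((m:ℝ) * n) * w.re ^ (-(1/4) : ℝ) := by
    rw [hQ, Real.div_rpow (by positivity) h0.le, Real.rpow_neg h0.le, div_eq_mul_inv]
    apply mul_le_mul_of_nonneg_right _ (by positivity)
    calc (4 * ((m:ℝ) * n)) ^ (1/4 : ℝ) ≤ (4 * ((m:ℝ) * n)) ^ (1 : ℝ) :=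
          Real.rpow_le_rpow_of_exponent_le (by linarith) (by norm_num)
      _ = _ := Real.rpow_one _
  have hc10 : 10 / c ≤ 2 * ((m:ℝ) * n) := by
    rw [div_le_iff₀ hcpos, hc]
    have : 2 * ((m:ℝ) * n) * (2 * Real.pi * m / n) = 4 * Real.pi * (m:ℝ) ^ 2 := by
      field_simp
      ring
    rw [this]
    nlinarith
  calc 10 / (c * ‖w‖) ^ 2 * Q ^ (1/4 : ℝ) * ‖th m n w - (c : ℂ) * w‖
      ≤ 10 / (c * ‖w‖) ^ 2 * Q ^ (1/4 : ℝ) * (c * ‖w‖ ^ 2) := by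
        apply mul_le_mul_of_nonneg_left hsub
        positivity
    _ = 10 / c * Q ^ (1/4 : ℝ) := by
        field_simp
    _ ≤ 2 * ((m:ℝ) * n) * (4 * ((m:ℝ) * n) * w.re ^ (-(1/4) : ℝ)) := by
        apply mul_le_mul hc10 hQ4 (by positivity) (by positivity)
    _ = 8 * ((m:ℝ) * n) ^ 2 * w.re ^ (-(1/4) : ℝ) := by ring

theorem polar_w : ∃ C : ℝ, 0 < C ∧ ∀ m n : ℕ, 1 ≤ m → 1 ≤ n → ∀ w : ℂ, 0 < w.re → ‖w‖ ≤ 1/2 →
    ‖C2 (fun s => G0 s * Hn n s * (th m n w) ^ (-(1 + s))) -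
      C2 (fun s => G0 s * Hn n s * (((2 * Real.pi * m / n : ℝ) : ℂ) * w) ^ (-(1 + s)))‖ ≤
      C * ((m:ℝ) * n) ^ 4 * w.re ^ (-(1/4) : ℝ) := by
  obtain ⟨C0, hC0, hG⟩ := G0_bd
  refine ⟨1280 * C0, by positivity, ?_⟩
  intro m n hm hn w h0 h1
  have hm' : (1:ℝ) ≤ m := by exact_mod_cast hm
  have hn' : (1:ℝ) ≤ n := by exact_mod_cast hn
  have hcpos : 0 < 2 * Real.pi * m / n := by positivity
  have hthre : 0 < (th m n w).re := by
    have := (th_bd hm hn h0 h1).1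
    have h2 : 0 < (m:ℝ) / n * w.re := by positivity
    linarith
  have hcwre : 0 < (((2 * Real.pi * m / n : ℝ) : ℂ) * w).re := by
    rw [Complex.re_ofReal_mul]
    exact mul_pos hcpos h0
  have hpow : ∀ z : ℂ, 0 < z.re → ∀ s : ℂ, AnalyticAt ℂ (fun s : ℂ => z ^ (-(1 + s))) s := by
    intro z hz s
    exact AnalyticAt.cpow analyticAt_const ((analyticAt_const.add analyticAt_id).neg) (Or.inl hz)
  have hana : ∀ z : ℂ, 0 < z.re → ∀ s : ℂ, ‖s‖ ≤ 1/4 →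
      AnalyticAt ℂ (fun s => G0 s * Hn n s * z ^ (-(1 + s))) s := by
    intro z hz s hs
    exact ((G0_analytic (by linarith)).mul (Hn_analytic hn s)).mul (hpow z hz s)
  have h00 : ‖(0:ℂ)‖ ≤ 1/4 := by rw [norm_zero]; norm_num
  have hdiff : C2 (fun s => G0 s * Hn n s * (th m n w) ^ (-(1 + s))) -
      C2 (fun s => G0 s * Hn n s * (((2 * Real.pi * m / n : ℝ) : ℂ) * w) ^ (-(1 + s))) =
      C2 (fun s => G0 s * Hn n s * (th m n w) ^ (-(1 + s)) +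
        (-1) * (G0 s * Hn n s * (((2 * Real.pi * m / n : ℝ) : ℂ) * w) ^ (-(1 + s)))) := by
    have e1 := C2_add (f := fun s => G0 s * Hn n s * (th m n w) ^ (-(1 + s)))
      (g := fun s => (-1) * (G0 s * Hn n s * (((2 * Real.pi * m / n : ℝ) : ℂ) * w) ^ (-(1 + s))))
      (hana _ hthre 0 h00) (analyticAt_const.mul (hana _ hcwre 0 h00))
    have e2 := C2_const_mul (-1)
      (f := fun s => G0 s * Hn n s * (((2 * Real.pi * m / n : ℝ) : ℂ) * w) ^ (-(1 + s)))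
      (hana _ hcwre 0 h00)
    rw [e1, e2]
    ring
  rw [hdiff]
  have hle := C2_le (f := fun s => G0 s * Hn n s * (th m n w) ^ (-(1 + s)) +
        (-1) * (G0 s * Hn n s * (((2 * Real.pi * m / n : ℝ) : ℂ) * w) ^ (-(1 + s))))
    (r := 1/4) (M := 80 * C0 * ((m:ℝ) * n) ^ 4 * w.re ^ (-(1/4) : ℝ)) (by norm_num)
    (fun s hs => (hana _ hthre s hs).add (analyticAt_const.mul (hana _ hcwre s hs)))
    (by
      intro s hs
      have h2 : G0 s * Hn n s * (th m n w) ^ (-(1 + s)) +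
        (-1) * (G0 s * Hn n s * (((2 * Real.pi * m / n : ℝ) : ℂ) * w) ^ (-(1 + s))) =
        G0 s * Hn n s * ((th m n w) ^ (-(1 + s)) -
          (((2 * Real.pi * m / n : ℝ) : ℂ) * w) ^ (-(1 + s))) := by ring
      rw [h2, norm_mul, norm_mul]
      have h3 := (hG s hs.le).1
      have h4 := Hn_bd hn hs.le
      have h5 := x12_cpow_diff hm hn h0 h1 hs.le
      have h6 : (n:ℝ) ^ 2 ≤ ((m:ℝ) * n) ^ 2 := by
        apply pow_le_pow_left₀ (by positivity)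
        nlinarith
      calc ‖G0 s‖ * ‖Hn n s‖ * ‖(th m n w) ^ (-(1 + s)) -
            (((2 * Real.pi * m / n : ℝ) : ℂ) * w) ^ (-(1 + s))‖
          ≤ C0 * (10 * (n:ℝ) ^ 2) * (8 * ((m:ℝ) * n) ^ 2 * w.re ^ (-(1/4) : ℝ)) := by gcongr
        _ ≤ C0 * (10 * ((m:ℝ) * n) ^ 2) * (8 * ((m:ℝ) * n) ^ 2 * w.re ^ (-(1/4) : ℝ)) := by
            gcongr
        _ = _ := by ring)
  refine hle.trans (le_of_eq ?_)
  ring

end Pool.Agent.LibPH
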