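import Mathlib
import Pool.Agent.LibPH.X12

/-! ROW X13: the twisted moment with complex exponential weights.

`I3(zw) = F3(zw) - P3(zw)` (X04, zw_re), `zw = th + 2πi m/n`, X12, `2π √(m/n) (2πm/n)^{-(1+s)} = (2π)^{-s} n^{1/2+s} m^{-(1/2+s)}`;
`‖P3 (zw)‖ ≤ C (mn)²` (X07, `‖zw‖ = (2πm/n) e^{Im w}`); `|e^{-iw/2} - 1| ≤ ‖w‖` times
`‖C2(G0 Hn ((2πm/n)w)^{-(1+s)})‖ ≤ C (mn)^4 ‖w‖^{-5/4}`. -/

set_option autoImplicit false

namespace Pool.Agent.LibPH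

open MeasureTheory Set Filter Topology Complex
open scoped ComplexConjugate

lemma x13_pow {m n : ℕ} (hm : 1 ≤ m) (hn : 1 ≤ n) {w : ℂ} (h0 : 0 < w.re) (s : ℂ) :
    ((2 * Real.pi * √((m:ℝ) / n) : ℝ) : ℂ) *
      (((2 * Real.pi * m / n : ℝ) : ℂ) * w) ^ (-(1 + s)) =
      ((2 * Real.pi : ℝ) : ℂ) ^ (-s) * ((n : ℂ) ^ (1 / 2 + s) * (m : ℂ) ^ (-(1 / 2 + s))) *
        w ^ (-(1 + s)) := by
  have hm' : (0:ℝ) < m := by exact_mod_cast hm
  have hn' : (0:ℝ) < n := by exact_mod_cast hn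
  have hw : w ≠ 0 := by
    intro h
    rw [h] at h0
    simp at h0
  have hpi : (0:ℝ) < 2 * Real.pi := by positivity
  have hc : (0:ℝ) < 2 * Real.pi * m / n := by positivity
  have hcw : ((2 * Real.pi * m / n : ℝ) : ℂ) * w ≠ 0 :=
    mul_ne_zero (Complex.ofReal_ne_zero.2 hc.ne') hw
  have hlogc : Real.log (2 * Real.pi * m / n) =
      Real.log (2 * Real.pi) + Real.log m - Real.log n := by
    rw [Real.log_div (by positivity) hn'.ne', Real.log_mul hpi.ne' hm'.ne']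
  have hA : (2 * Real.pi * √((m:ℝ) / n) : ℝ) =
      Real.exp (Real.log (2 * Real.pi) + (Real.log m - Real.log n) / 2) := by
    rw [Real.exp_add, Real.exp_log hpi]
    congr 1
    rw [← Real.log_div hm'.ne' hn'.ne', Real.sqrt_eq_rpow, Real.rpow_def_of_pos (by positivity)]
    ring_nf
  have hln : Complex.log (n : ℂ) = ((Real.log n : ℝ) : ℂ) := by
    rw [Complex.natCast_log]
  have hlm : Complex.log (m : ℂ) = ((Real.log m : ℝ) : ℂ) := by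
    rw [Complex.natCast_log]
  have hn0 : (n : ℂ) ≠ 0 := by exact_mod_cast hn'.ne'
  have hm0 : (m : ℂ) ≠ 0 := by exact_mod_cast hm'.ne'
  rw [Complex.cpow_def_of_ne_zero hcw, Complex.log_ofReal_mul hc hw, hlogc, hA,
    Complex.cpow_def_of_ne_zero (Complex.ofReal_ne_zero.2 hpi.ne'),
    Complex.cpow_def_of_ne_zero hn0, Complex.cpow_def_of_ne_zero hm0,
    Complex.cpow_def_of_ne_zero hw, hln, hlm, ← Complex.ofReal_log hpi.le, Complex.ofReal_exp,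
    ← Complex.exp_add, ← Complex.exp_add, ← Complex.exp_add, ← Complex.exp_add]
  congr 1
  push_cast
  ring

lemma x13_K {m n : ℕ} (hm : 1 ≤ m) (hn : 1 ≤ n) {w : ℂ} (h0 : 0 < w.re) :
    C2 (fun s => G0 s * ((2 * Real.pi : ℝ) : ℂ) ^ (-s) * kk m n s * w ^ (-(1 + s))) =
      ((2 * Real.pi * √((m:ℝ) / n) : ℝ) : ℂ) *
      C2 (fun s => G0 s * Hn n s * (((2 * Real.pi * m / n : ℝ) : ℂ) * w) ^ (-(1 + s))) := by
  have hm' : (0:ℝ) < m := by exact_mod_cast hm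
  have hn' : (0:ℝ) < n := by exact_mod_cast hn
  have hcwre : 0 < (((2 * Real.pi * m / n : ℝ) : ℂ) * w).re := by
    rw [Complex.re_ofReal_mul]
    exact mul_pos (by positivity) h0
  have hana : AnalyticAt ℂ (fun s => G0 s * Hn n s *
      (((2 * Real.pi * m / n : ℝ) : ℂ) * w) ^ (-(1 + s))) 0 := by
    refine ((G0_analytic (by rw [norm_zero]; norm_num)).mul (Hn_analytic hn 0)).mul ?_
    exact AnalyticAt.cpow analyticAt_const ((analyticAt_const.add analyticAt_id).neg) (Or.inl hcwre)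
  rw [← C2_const_mul _ hana]
  apply C2_congr
  refine Filter.Eventually.of_forall fun s => ?_
  have h := x13_pow hm hn h0 s
  unfold kk
  calc G0 s * ((2 * Real.pi : ℝ) : ℂ) ^ (-s) *
        ((n : ℂ) ^ (1 / 2 + s) * (m : ℂ) ^ (-(1 / 2 + s)) * Hn n s) * w ^ (-(1 + s))
      = G0 s * Hn n s * (((2 * Real.pi : ℝ) : ℂ) ^ (-s) *
          ((n : ℂ) ^ (1 / 2 + s) * (m : ℂ) ^ (-(1 / 2 + s))) * w ^ (-(1 + s))) := by ring
    _ = G0 s * Hn n s * (((2 * Real.pi * √((m:ℝ) / n) : ℝ) : ℂ) *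
          (((2 * Real.pi * m / n : ℝ) : ℂ) * w) ^ (-(1 + s))) := by rw [h]
    _ = _ := by ring

lemma x13_Kbd : ∃ C : ℝ, 0 < C ∧ ∀ m n : ℕ, 1 ≤ m → 1 ≤ n → ∀ w : ℂ, 0 < w.re → ‖w‖ ≤ 1/2 →
    ‖C2 (fun s => G0 s * Hn n s * (((2 * Real.pi * m / n : ℝ) : ℂ) * w) ^ (-(1 + s)))‖ ≤
      C * ((m:ℝ) * n) ^ 4 * ‖w‖⁻¹ * w.re ^ (-(1/4) : ℝ) := by
  obtain ⟨C0, hC0, hG⟩ := G0_bd
  refine ⟨1280 * C0, by positivity, ?_⟩
  intro m n hm hn w h0 h1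
  have hm' : (1:ℝ) ≤ m := by exact_mod_cast hm
  have hn' : (1:ℝ) ≤ n := by exact_mod_cast hn
  have hpi3 : 3 < Real.pi := Real.pi_gt_three
  have hpi4 : Real.pi ≤ 3.15 := by linarith [Real.pi_lt_d2]
  have hw0 : 0 < ‖w‖ := lt_of_lt_of_le h0 (Complex.re_le_norm w)
  have hwre : w.re ≤ ‖w‖ := Complex.re_le_norm w
  set c : ℝ := 2 * Real.pi * m / n with hc
  have hcpos : 0 < c := by rw [hc]; positivity
  have hcw : ‖(c : ℂ) * w‖ = c * ‖w‖ := by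
    rw [norm_mul, Complex.norm_real, Real.norm_of_nonneg hcpos.le]
  have hcwre : 0 < ((c : ℂ) * w).re := by
    rw [Complex.re_ofReal_mul]
    exact mul_pos hcpos h0
  have hmn1 : 1 ≤ (m:ℝ) * n := by nlinarith
  have hc2 : c ≤ 6.3 * m := by
    rw [hc, div_le_iff₀ (by positivity)]
    have : 2 * Real.pi * m ≤ 6.3 * m := by nlinarith
    nlinarith
  have hinv : (c * ‖w‖)⁻¹ ≤ (n:ℝ) * ‖w‖⁻¹ := by
    rw [mul_inv]
    apply mul_le_mul_of_nonneg_right _ (by positivity)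
    rw [hc, inv_div, div_le_iff₀ (by positivity)]
    nlinarith
  have hsum : c * ‖w‖ + (c * ‖w‖)⁻¹ ≤ 4 * ((m:ℝ) * n) / w.re := by
    have h2 : (n:ℝ) * ‖w‖⁻¹ ≤ (n:ℝ) / w.re := by
      rw [div_eq_mul_inv]
      apply mul_le_mul_of_nonneg_left _ (by positivity)
      rw [← one_div, ← one_div]
      exact one_div_le_one_div_of_le h0 hwre
    have h3 : c * ‖w‖ ≤ 2 * (m:ℝ) / w.re := by
      rw [le_div_iff₀ h0]
      have h4 : c * ‖w‖ ≤ 6.3 * m * (1/2) := mul_le_mul hc2 h1 hw0.le (by positivity)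
      have h5 : w.re ≤ 1/2 := by linarith
      calc c * ‖w‖ * w.re ≤ (6.3 * m * (1/2)) * (1/2) := mul_le_mul h4 h5 h0.le (by positivity)
        _ ≤ 2 * (m:ℝ) := by linarith
    calc c * ‖w‖ + (c * ‖w‖)⁻¹ ≤ 2 * (m:ℝ) / w.re + (n:ℝ) / w.re := by linarith
      _ = (2 * (m:ℝ) + n) / w.re := by ring
      _ ≤ 4 * ((m:ℝ) * n) / w.re := by
          apply div_le_div_of_nonneg_right _ h0.le
          nlinarith
  have hQ4 : (c * ‖w‖ + (c * ‖w‖)⁻¹) ^ (1/4 : ℝ) ≤ 4 * ((m:ℝ) * n) * w.re ^ (-(1/4) : ℝ) := by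
    refine (Real.rpow_le_rpow (by positivity) hsum (by norm_num)).trans ?_
    rw [Real.div_rpow (by positivity) h0.le, Real.rpow_neg h0.le, div_eq_mul_inv]
    apply mul_le_mul_of_nonneg_right _ (by positivity)
    calc (4 * ((m:ℝ) * n)) ^ (1/4 : ℝ) ≤ (4 * ((m:ℝ) * n)) ^ (1 : ℝ) :=
          Real.rpow_le_rpow_of_exponent_le (by linarith) (by norm_num)
      _ = _ := Real.rpow_one _
  have hana : ∀ s : ℂ, ‖s‖ ≤ 1/4 → AnalyticAt ℂ (fun s => G0 s * Hn n s *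
      ((c : ℂ) * w) ^ (-(1 + s))) s := by
    intro s hs
    refine ((G0_analytic (by linarith)).mul (Hn_analytic hn s)).mul ?_
    exact AnalyticAt.cpow analyticAt_const ((analyticAt_const.add analyticAt_id).neg) (Or.inl hcwre)
  have hle := C2_le (r := 1/4)
    (M := 80 * C0 * ((m:ℝ) * n) ^ 4 * ‖w‖⁻¹ * w.re ^ (-(1/4) : ℝ)) (by norm_num) hana
    (by
      intro s hs
      have h3 := (hG s hs.le).1
      have h4 := Hn_bd hn hs.le
      have h5 := cpow_bd hcwre hs.le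
      rw [hcw] at h5
      have h6 : 2 * (c * ‖w‖)⁻¹ * (c * ‖w‖ + (c * ‖w‖)⁻¹) ^ (1/4 : ℝ) ≤
          2 * ((n:ℝ) * ‖w‖⁻¹) * (4 * ((m:ℝ) * n) * w.re ^ (-(1/4) : ℝ)) := by
        apply mul_le_mul _ hQ4 (by positivity) (by positivity)
        linarith
      rw [norm_mul, norm_mul]
      have hn3 : (n:ℝ) ^ 3 ≤ ((m:ℝ) * n) ^ 3 := by
        apply pow_le_pow_left₀ (by positivity)
        nlinarith
      calc ‖G0 s‖ * ‖Hn n s‖ * ‖((c : ℂ) * w) ^ (-(1 + s))‖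
          ≤ C0 * (10 * (n:ℝ) ^ 2) *
            (2 * ((n:ℝ) * ‖w‖⁻¹) * (4 * ((m:ℝ) * n) * w.re ^ (-(1/4) : ℝ))) := by
            apply mul_le_mul (mul_le_mul h3 h4 (norm_nonneg _) hC0.le) (h5.trans h6)
              (norm_nonneg _) (by positivity)
        _ = (80 * C0 * ((m:ℝ) * n) * ‖w‖⁻¹ * w.re ^ (-(1/4) : ℝ)) * (n:ℝ) ^ 3 := by ring
        _ ≤ (80 * C0 * ((m:ℝ) * n) * ‖w‖⁻¹ * w.re ^ (-(1/4) : ℝ)) * ((m:ℝ) * n) ^ 3 := by
            apply mul_le_mul_of_nonneg_left hn3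
            positivity
        _ = _ := by ring)
  refine hle.trans (le_of_eq ?_)
  ring

lemma x13_F : ∃ C : ℝ, 0 < C ∧ ∀ m n : ℕ, 1 ≤ m → 1 ≤ n → Nat.Coprime m n →
    ∀ w : ℂ, 0 < w.re → ‖w‖ ≤ 1/2 →
    ‖F3 (zw m n w) - C2 (fun s => G0 s * Hn n s * (th m n w) ^ (-(1 + s)))‖ ≤
      C * ((m:ℝ) * n) ^ 3 * (‖w‖ / w.re) ^ 6 * w.re ^ (-(3/4) : ℝ) := by
  obtain ⟨C2', hC2, hF⟩ := polar_eq
  refine ⟨200000 * C2', by positivity, ?_⟩
  intro m n hm hn hcop w h0 h1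
  have hm' : (1:ℝ) ≤ m := by exact_mod_cast hm
  have hn' : (1:ℝ) ≤ n := by exact_mod_cast hn
  have hwre : w.re ≤ ‖w‖ := Complex.re_le_norm w
  have hw0 : 0 < ‖w‖ := lt_of_lt_of_le h0 hwre
  have hre1 : w.re ≤ 1 := by linarith
  have hρ1 : 1 ≤ ‖w‖ / w.re := by rw [le_div_iff₀ h0]; linarith
  obtain ⟨ht1, ht2, -⟩ := th_bd hm hn h0 h1
  have htre : 0 < (th m n w).re := by
    have h2 : 0 < (m:ℝ) / n * w.re := by positivity
    linarith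
  have hzth : th m n w + ((2 * Real.pi * m / n : ℝ) : ℂ) * I = zw m n w := by
    unfold th
    ring
  have hF' := hF m n hm hn hcop (th m n w) htre
  rw [hzth] at hF'
  refine hF'.trans ?_
  clear hF' hzth
  have h2 : ‖th m n w‖ / (th m n w).re ≤ 10 * (‖w‖ / w.re) := by
    rw [div_le_iff₀ htre]
    calc ‖th m n w‖ ≤ 10 * ((m:ℝ) / n) * ‖w‖ := ht2
      _ = 10 * (‖w‖ / w.re) * ((m:ℝ) / n * w.re) := by field_simp
      _ ≤ 10 * (‖w‖ / w.re) * (th m n w).re := by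
          apply mul_le_mul_of_nonneg_left ht1
          positivity
  have hlow : w.re / n ≤ (th m n w).re := by
    refine le_trans ?_ ht1
    rw [div_mul_eq_mul_div]
    apply div_le_div_of_nonneg_right _ (by positivity)
    nlinarith
  have hpw : ∀ a : ℝ, 0 < a → a ≤ 1 → (th m n w).re ^ (-a) ≤ n * w.re ^ (-a) := by
    intro a ha ha1
    have h4 : (th m n w).re ^ (-a) ≤ (w.re / n) ^ (-a) :=
      Real.rpow_le_rpow_of_nonpos (by positivity) hlow (by linarith)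
    refine h4.trans ?_
    rw [Real.div_rpow h0.le (by positivity), Real.rpow_neg (by positivity : (0:ℝ) ≤ n),
      div_inv_eq_mul, mul_comm]
    apply mul_le_mul_of_nonneg_right _ (by positivity)
    calc (n:ℝ) ^ a ≤ (n:ℝ) ^ (1:ℝ) := Real.rpow_le_rpow_of_exponent_le hn' ha1
      _ = n := Real.rpow_one _
  have h6 := hpw (3/4) (by norm_num) (by norm_num)
  have h7 := hpw (1/2) (by norm_num) (by norm_num)
  have hR2 : w.re ^ (-(1/2) : ℝ) ≤ w.re ^ (-(3/4) : ℝ) :=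
    Real.rpow_le_rpow_of_exponent_ge h0 hre1 (by norm_num)
  have hq0 : 0 ≤ ‖th m n w‖ / (th m n w).re := by positivity
  have ht34 : 0 ≤ (th m n w).re ^ (-(3/4) : ℝ) := Real.rpow_nonneg htre.le _
  have ht12 : 0 ≤ (th m n w).re ^ (-(1/2) : ℝ) := Real.rpow_nonneg htre.le _
  have hR0 : 0 ≤ w.re ^ (-(3/4) : ℝ) := Real.rpow_nonneg h0.le _
  generalize w.re ^ (-(3/4) : ℝ) = R at *
  generalize w.re ^ (-(1/2) : ℝ) = R2 at *
  generalize (th m n w).re ^ (-(3/4) : ℝ) = S at *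
  generalize (th m n w).re ^ (-(1/2) : ℝ) = S2 at *
  generalize ‖th m n w‖ / (th m n w).re = q at *
  generalize ‖w‖ / w.re = ρ at *
  have h3 : q ^ 5 ≤ 100000 * ρ ^ 6 := by
    calc q ^ 5 ≤ (10 * ρ) ^ 5 := pow_le_pow_left₀ hq0 h2 5
      _ = 100000 * ρ ^ 5 := by ring
      _ ≤ 100000 * ρ ^ 6 := by
          have : ρ ^ 5 ≤ ρ ^ 6 := pow_le_pow_right₀ hρ1 (by norm_num)
          linarith
  have h5 : S + S2 ≤ 2 * n * R := by
    have h8 : (n:ℝ) * R2 ≤ n * R := by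
      apply mul_le_mul_of_nonneg_left hR2
      positivity
    linarith
  have hn3 : (n:ℝ) ^ 3 ≤ ((m:ℝ) * n) ^ 3 := by
    apply pow_le_pow_left₀ (by positivity)
    nlinarith
  calc C2' * (n:ℝ) ^ 2 * q ^ 5 * (S + S2)
      ≤ C2' * (n:ℝ) ^ 2 * (100000 * ρ ^ 6) * (2 * n * R) := by
        refine mul_le_mul (mul_le_mul_of_nonneg_left h3 (by positivity)) h5 ?_ (by positivity)
        exact add_nonneg ht34 ht12
    _ = (200000 * C2' * ρ ^ 6 * R) * (n:ℝ) ^ 3 := by ring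
    _ ≤ (200000 * C2' * ρ ^ 6 * R) * ((m:ℝ) * n) ^ 3 := by
        apply mul_le_mul_of_nonneg_left hn3
        positivity
    _ = _ := by ring

lemma x13_P : ∃ C : ℝ, 0 < C ∧ ∀ m n : ℕ, 1 ≤ m → 1 ≤ n →
    ∀ w : ℂ, 0 < w.re → ‖w‖ ≤ 1/2 → ‖P3 (zw m n w)‖ ≤ C * ((m:ℝ) * n) ^ 2 := by
  obtain ⟨C4, hC4, hP⟩ := P3_bound
  refine ⟨14 * C4, by positivity, ?_⟩
  intro m n hm hn w h0 h1
  have hm' : (1:ℝ) ≤ m := by exact_mod_cast hm
  have hn' : (1:ℝ) ≤ n := by exact_mod_cast hn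
  have hpi3 : 3 < Real.pi := Real.pi_gt_three
  have hpi4 : Real.pi ≤ 3.15 := by linarith [Real.pi_lt_d2]
  have hmn1 : 1 ≤ (m:ℝ) * n := by nlinarith
  have hcpos : 0 < 2 * Real.pi * m / n := by positivity
  have hP' := hP (zw m n w) (zw_re hm hn h0 h1)
  have hz : ‖zw m n w‖ = (2 * Real.pi * m / n) * Real.exp w.im := by
    unfold zw
    rw [norm_mul, norm_mul, norm_I, one_mul, Complex.norm_real, Real.norm_of_nonneg hcpos.le,
      Complex.norm_exp]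
    congr 2
    simp
  refine hP'.trans ?_
  clear hP'
  have him : |w.im| ≤ ‖w‖ := Complex.abs_im_le_norm w
  rw [abs_le] at him
  have hel : 1 / 2 ≤ Real.exp w.im := by
    have := Real.add_one_le_exp w.im
    linarith
  have heu : Real.exp w.im ≤ 2 := by
    have h2 := Real.exp_bound_div_one_sub_of_interval (x := 1/2) (by norm_num) (by norm_num)
    have h3 : Real.exp w.im ≤ Real.exp (1/2) := Real.exp_le_exp.2 (by linarith)
    norm_num at h2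
    linarith
  have hcm : 2 * Real.pi * m / n ≤ 6.3 * m := by
    rw [div_le_iff₀ (by positivity)]
    have : 2 * Real.pi * m ≤ 6.3 * m := by nlinarith
    nlinarith
  have hzu : ‖zw m n w‖ ≤ 13 * ((m:ℝ) * n) := by
    rw [hz]
    calc 2 * Real.pi * m / n * Real.exp w.im ≤ (6.3 * m) * 2 :=
          mul_le_mul hcm heu (Real.exp_pos _).le (by positivity)
      _ ≤ 13 * m := by linarith
      _ ≤ 13 * ((m:ℝ) * n) := by nlinarith
  have hzpos : 0 < ‖zw m n w‖ := by rw [hz]; positivity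
  have hzl : ‖zw m n w‖⁻¹ ≤ (m:ℝ) * n := by
    rw [inv_le_comm₀ hzpos (by positivity), hz]
    have h3 : (n:ℝ)⁻¹ * 6 ≤ 2 * Real.pi * m / n := by
      rw [div_eq_mul_inv, mul_comm]
      apply mul_le_mul_of_nonneg_right _ (by positivity)
      nlinarith
    have h4 : ((m:ℝ) * n)⁻¹ ≤ (n:ℝ)⁻¹ := by
      apply inv_anti₀ (by positivity)
      nlinarith
    have h5 : 0 < (n:ℝ)⁻¹ := by positivity
    nlinarith
  generalize ‖zw m n w‖ = Z at *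
  generalize (m:ℝ) * n = N at *
  have h6 : (Z + Z⁻¹) ^ (1/4 : ℝ) ≤ 14 * N := by
    calc (Z + Z⁻¹) ^ (1/4 : ℝ) ≤ (14 * N) ^ (1/4 : ℝ) :=
          Real.rpow_le_rpow (by positivity) (by linarith) (by norm_num)
      _ ≤ (14 * N) ^ (1 : ℝ) :=
          Real.rpow_le_rpow_of_exponent_le (by linarith) (by norm_num)
      _ = _ := Real.rpow_one _
  calc C4 * Z⁻¹ * (Z + Z⁻¹) ^ (1/4 : ℝ) ≤ C4 * N * (14 * N) := by
        refine mul_le_mul (mul_le_mul_of_nonneg_left hzl hC4.le) h6 ?_ (by positivity)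
        exact Real.rpow_nonneg (by positivity) _
    _ = _ := by ring

/-- the assembly, with all objects abstract -/
lemma x13_asm (J K Kt Iz F P e : ℂ) (A N ρ R R4 v C1 C2' C3 C4 C5 : ℝ)
    (hC1 : 0 < C1) (hC2 : 0 < C2') (hC3 : 0 < C3) (hC4 : 0 < C4) (hC5 : 0 < C5)
    (hA0 : 0 ≤ A) (hA7 : A ≤ 7 * N) (hN : 1 ≤ N) (hρ : 1 ≤ ρ) (hR1 : 1 ≤ R) (hv : 0 < v)
    (hR4p : 0 ≤ R4) (hR4 : R4 ≤ R) (he1 : ‖e - 1‖ ≤ v) (he2 : ‖e‖ ≤ 2)
    (hIF : Iz = F - P)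
    (h1 : ‖((A : ℝ) : ℂ) * e * Iz - J‖ ≤ C1)
    (h2 : ‖F - Kt‖ ≤ C2' * N ^ 3 * ρ ^ 6 * R)
    (h3 : ‖Kt - K‖ ≤ C3 * N ^ 4 * R4)
    (h4 : ‖P‖ ≤ C4 * N ^ 2)
    (h5 : ‖K‖ ≤ C5 * N ^ 4 * v⁻¹ * R4) :
    ‖J - ((A : ℝ) : ℂ) * K‖ ≤
      (C1 + 14 * C2' + 14 * C3 + 14 * C4 + 7 * C5) * N ^ 6 * ρ ^ 6 * R := by
  have hkey : J - ((A : ℝ) : ℂ) * K =
      -(((A : ℝ) : ℂ) * e * Iz - J) + ((A : ℝ) : ℂ) * e * (F - Kt) +
        ((A : ℝ) : ℂ) * e * (Kt - K) - ((A : ℝ) : ℂ) * e * P +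
        ((A : ℝ) : ℂ) * (e - 1) * K := by
    rw [hIF]
    ring
  rw [hkey]
  have hAn : ‖((A : ℝ) : ℂ)‖ = A := by rw [Complex.norm_real, Real.norm_of_nonneg hA0]
  have hAe : ‖((A : ℝ) : ℂ) * e‖ ≤ 14 * N := by
    rw [norm_mul, hAn]
    calc A * ‖e‖ ≤ (7 * N) * 2 := mul_le_mul hA7 he2 (norm_nonneg _) (by positivity)
      _ = _ := by ring
  have hT : ∀ k : ℕ, k ≤ 6 → N ^ k ≤ N ^ 6 * ρ ^ 6 := by
    intro k hk
    have h2 : N ^ k ≤ N ^ 6 := pow_le_pow_right₀ hN hk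
    have h3 : 1 ≤ ρ ^ 6 := one_le_pow₀ hρ
    have h4 : 0 ≤ N ^ 6 := by positivity
    nlinarith
  have hT1 : 1 ≤ N ^ 6 * ρ ^ 6 * R := by
    have h2 := hT 0 (by norm_num)
    rw [pow_zero] at h2
    have h3 : 0 ≤ N ^ 6 * ρ ^ 6 := by positivity
    nlinarith
  have b1 : ‖((A : ℝ) : ℂ) * e * Iz - J‖ ≤ C1 * (N ^ 6 * ρ ^ 6 * R) := by
    refine h1.trans ?_
    nlinarith
  have b2 : ‖((A : ℝ) : ℂ) * e * (F - Kt)‖ ≤ 14 * C2' * (N ^ 6 * ρ ^ 6 * R) := by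
    rw [norm_mul]
    calc ‖((A : ℝ) : ℂ) * e‖ * ‖F - Kt‖
        ≤ (14 * N) * (C2' * N ^ 3 * ρ ^ 6 * R) :=
          mul_le_mul hAe h2 (norm_nonneg _) (by positivity)
      _ = (14 * C2' * ρ ^ 6 * R) * N ^ 4 := by ring
      _ ≤ (14 * C2' * ρ ^ 6 * R) * N ^ 6 := by
          apply mul_le_mul_of_nonneg_left (pow_le_pow_right₀ hN (by norm_num))
          positivity
      _ = _ := by ring
  have b3 : ‖((A : ℝ) : ℂ) * e * (Kt - K)‖ ≤ 14 * C3 * (N ^ 6 * ρ ^ 6 * R) := by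
    rw [norm_mul]
    calc ‖((A : ℝ) : ℂ) * e‖ * ‖Kt - K‖
        ≤ (14 * N) * (C3 * N ^ 4 * R4) := mul_le_mul hAe h3 (norm_nonneg _) (by positivity)
      _ = (14 * C3) * (N ^ 5 * R4) := by ring
      _ ≤ (14 * C3) * ((N ^ 6 * ρ ^ 6) * R) := by
          apply mul_le_mul_of_nonneg_left _ (by positivity)
          exact mul_le_mul (hT 5 (by norm_num)) hR4 hR4p (by positivity)
  have b4 : ‖((A : ℝ) : ℂ) * e * P‖ ≤ 14 * C4 * (N ^ 6 * ρ ^ 6 * R) := by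
    rw [norm_mul]
    calc ‖((A : ℝ) : ℂ) * e‖ * ‖P‖
        ≤ (14 * N) * (C4 * N ^ 2) := mul_le_mul hAe h4 (norm_nonneg _) (by positivity)
      _ = (14 * C4) * (N ^ 3 * 1) := by ring
      _ ≤ (14 * C4) * ((N ^ 6 * ρ ^ 6) * R) := by
          apply mul_le_mul_of_nonneg_left _ (by positivity)
          exact mul_le_mul (hT 3 (by norm_num)) hR1 (by norm_num) (by positivity)
  have b5 : ‖((A : ℝ) : ℂ) * (e - 1) * K‖ ≤ 7 * C5 * (N ^ 6 * ρ ^ 6 * R) := by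
    rw [norm_mul, norm_mul, hAn]
    calc A * ‖e - 1‖ * ‖K‖
        ≤ (7 * N) * v * (C5 * N ^ 4 * v⁻¹ * R4) := by
          apply mul_le_mul _ h5 (norm_nonneg _) (by positivity)
          exact mul_le_mul hA7 he1 (norm_nonneg _) (by positivity)
      _ = (7 * C5) * (N ^ 5 * R4) := by
          field_simp
      _ ≤ (7 * C5) * ((N ^ 6 * ρ ^ 6) * R) := by
          apply mul_le_mul_of_nonneg_left _ (by positivity)
          exact mul_le_mul (hT 5 (by norm_num)) hR4 hR4p (by positivity)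
  have hfin : ‖-(((A : ℝ) : ℂ) * e * Iz - J) +
        ((A : ℝ) : ℂ) * e * (F - Kt) +
        ((A : ℝ) : ℂ) * e * (Kt - K) - ((A : ℝ) : ℂ) * e * P +
        ((A : ℝ) : ℂ) * (e - 1) * K‖ ≤
      ‖((A : ℝ) : ℂ) * e * Iz - J‖ + ‖((A : ℝ) : ℂ) * e * (F - Kt)‖ +
        ‖((A : ℝ) : ℂ) * e * (Kt - K)‖ + ‖((A : ℝ) : ℂ) * e * P‖ +
        ‖((A : ℝ) : ℂ) * (e - 1) * K‖ := by
    refine (norm_add_le _ _).trans (add_le_add_left ?_ _)
    refine (norm_sub_le _ _).trans (add_le_add_left ?_ _)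
    refine (norm_add_le _ _).trans (add_le_add_left ?_ _)
    refine (norm_add_le _ _).trans ?_
    rw [norm_neg]
  refine hfin.trans ?_
  have : (C1 + 14 * C2' + 14 * C3 + 14 * C4 + 7 * C5) * N ^ 6 * ρ ^ 6 * R =
      C1 * (N ^ 6 * ρ ^ 6 * R) + 14 * C2' * (N ^ 6 * ρ ^ 6 * R) + 14 * C3 * (N ^ 6 * ρ ^ 6 * R) +
      14 * C4 * (N ^ 6 * ρ ^ 6 * R) + 7 * C5 * (N ^ 6 * ρ ^ 6 * R) := by ring
  rw [this]
  linarith

theorem exp21 : ∃ C : ℝ, 0 < C ∧ ∀ m n : ℕ, 1 ≤ m → 1 ≤ n → Nat.Coprime m n →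
    ∀ w : ℂ, 0 < w.re → ‖w‖ ≤ 1/2 →
    ‖(∫ t in Ioi (0:ℝ), z21 t * tw m n t * cexp (-(w * t))) -
      C2 (fun s => G0 s * ((2 * Real.pi : ℝ) : ℂ) ^ (-s) * kk m n s * w ^ (-(1 + s)))‖ ≤
      C * ((m:ℝ) * n) ^ 6 * (‖w‖ / w.re) ^ 6 * w.re ^ (-(3/4) : ℝ) := by
  obtain ⟨C1, hC1, hI⟩ := I3_zw
  obtain ⟨C2', hC2, hF⟩ := x13_F
  obtain ⟨C3, hC3, hW⟩ := polar_w
  obtain ⟨C4, hC4, hP⟩ := x13_P
  obtain ⟨C5, hC5, hK⟩ := x13_Kbd
  refine ⟨C1 + 14 * C2' + 14 * C3 + 14 * C4 + 7 * C5, by positivity, ?_⟩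
  intro m n hm hn hcop w h0 h1
  have hm' : (1:ℝ) ≤ m := by exact_mod_cast hm
  have hn' : (1:ℝ) ≤ n := by exact_mod_cast hn
  have hpi3 : 3 < Real.pi := Real.pi_gt_three
  have hpi4 : Real.pi ≤ 3.15 := by linarith [Real.pi_lt_d2]
  have hwre : w.re ≤ ‖w‖ := Complex.re_le_norm w
  have hw0 : 0 < ‖w‖ := lt_of_lt_of_le h0 hwre
  have hre1 : w.re ≤ 1 := by linarith
  have hmn1 : 1 ≤ (m:ℝ) * n := by nlinarith
  have hρ1 : 1 ≤ ‖w‖ / w.re := by rw [le_div_iff₀ h0]; linarith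
  have hR1 : 1 ≤ w.re ^ (-(3/4) : ℝ) :=
    Real.one_le_rpow_of_pos_of_le_one_of_nonpos h0 hre1 (by norm_num)
  have hR4 : w.re ^ (-(1/4) : ℝ) ≤ w.re ^ (-(3/4) : ℝ) :=
    Real.rpow_le_rpow_of_exponent_ge h0 hre1 (by norm_num)
  have hA7 : 2 * Real.pi * √((m:ℝ) / n) ≤ 7 * ((m:ℝ) * n) := by
    have h2 : √((m:ℝ) / n) ≤ m := by
      rw [Real.sqrt_le_iff]
      refine ⟨by positivity, ?_⟩
      rw [div_le_iff₀ (by positivity)]
      nlinarith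
    calc 2 * Real.pi * √((m:ℝ) / n) ≤ 2 * Real.pi * m := by
          apply mul_le_mul_of_nonneg_left h2
          positivity
      _ ≤ 7 * m := by
          apply mul_le_mul_of_nonneg_right _ (by positivity)
          linarith
      _ ≤ 7 * ((m:ℝ) * n) := by nlinarith
  have hnorm2 : ‖-(I * w / 2)‖ = ‖w‖ / 2 := by
    rw [norm_neg, norm_div, norm_mul, norm_I, one_mul]
    norm_num
  have he1 : ‖cexp (-(I * w / 2)) - 1‖ ≤ ‖w‖ := by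
    have := Complex.norm_exp_sub_one_le (x := -(I * w / 2)) (by rw [hnorm2]; linarith)
    rw [hnorm2] at this
    linarith
  have he2 : ‖cexp (-(I * w / 2))‖ ≤ 2 := by
    have h2 := norm_add_le (cexp (-(I * w / 2)) - 1) 1
    rw [sub_add_cancel, norm_one] at h2
    linarith
  have hIF : I3 (zw m n w) = F3 (zw m n w) - P3 (zw m n w) := by
    rw [F3_eq (zw_re hm hn h0 h1)]; ring
  rw [x13_K hm hn h0]
  exact x13_asm _ _ _ _ _ _ _ _ _ _ _ _ _ C1 C2' C3 C4 C5 hC1 hC2 hC3 hC4 hC5 (by positivity)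
    hA7 hmn1 hρ1 hR1 hw0 (Real.rpow_nonneg h0.le _) hR4 he1 he2 hIF (hI m n hm hn w h0 h1)
    (hF m n hm hn hcop w h0 h1) (hW m n hm hn w h0 h1) (hP m n hm hn w h0 h1)
    (hK m n hm hn w h0 h1)

end Pool.Agent.LibPH
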