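import Mathlib
import Pool.Agent.LibPH.W02
import Pool.Agent.LibPH.X13
import Pool.Agent.LibPH.Q01

/-! ROW W03: the twisted moment with the weight `W(t/T)`.

W02 with `G = z21 * tw m n`, `B(s) = Z0 s (2π)^{-s} kk m n s`. The difference is `∫ g(u) D(u) du`,
`D(u) = ∫_{t>0} z21 tw e^{-wt} - C2(...)`, `w = (1+iu)/T`. For `|u| ≤ U = T^{δ}`: exp21 (`‖w‖/Re w = |1+iu| ≤ 2U`,
`Re w = 1/T`). For `|u| > U`: `|∫ z21 tw e^{-wt}| ≤ ∫ |ζ|³ e^{-t/T} ≤ 2T + ∫ |ζ|⁴ e^{-t/T} ≤ C T (log T)^8` (Q01, `x³ ≤ 1 + x⁴`),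
`|C2(...)| ≤ C (mn)^4 ‖w‖^{-5/4}...` — more carefully use `‖w‖ ≥ 1/T` and radius `r = δ/10` in C2_le to get `≤ C (mn)^4 T^{1+δ/10}`;
`∫_{|u|>U} |g| ≤ C η^{-2}/U`. Choose `δ` small (e.g. 1/1000; T^{-δ'} ≤ η with δ' much smaller than δ). -/

set_option autoImplicit false

namespace Pool.Agent.LibPH

open MeasureTheory Set Filter Topology Complex
open scoped ComplexConjugate

theorem w03_cpow_diff {n : ℕ} (hn : 1 ≤ n) {f : ℂ → ℂ} (hf : Differentiable ℂ f) :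
    Differentiable ℂ fun s => (n : ℂ) ^ f s := fun s =>
  (hf s).const_cpow (Or.inl (by exact_mod_cast (by omega : n ≠ 0)))

theorem w03_fA_diff (n : ℕ) : Differentiable ℂ (fA n) := by
  unfold fA
  refine Differentiable.fun_sum fun e he => ?_
  exact (w03_cpow_diff (Nat.pos_of_mem_divisors he) (by fun_prop)).const_mul _

theorem w03_fB_diff (n : ℕ) : Differentiable ℂ (fB n) := by
  unfold fB
  refine Differentiable.fun_sum fun e he => ?_
  exact (w03_cpow_diff (Nat.pos_of_mem_divisors he) (by fun_prop)).const_mul _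

theorem w03_kk_diff {m n : ℕ} (hm : 1 ≤ m) (hn : 1 ≤ n) : Differentiable ℂ (kk m n) := by
  unfold kk Hn
  have h1 := w03_fA_diff n
  have h2 := w03_fB_diff n
  refine ((w03_cpow_diff hn (by fun_prop)).mul (w03_cpow_diff hm (by fun_prop))).mul ?_
  refine ((((w03_cpow_diff hn (by fun_prop)).const_mul 3).mul h1).sub (h2.const_mul _)).add ?_
  exact differentiable_const _

theorem w03_cpow_le {e : ℕ} (he : 1 ≤ e) {s : ℂ} (hs : 0 ≤ s.re) : ‖(e : ℂ) ^ (-s)‖ ≤ 1 := by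
  rw [Complex.norm_natCast_cpow_of_pos he, Complex.neg_re]
  exact Real.rpow_le_one_of_one_le_of_nonpos (by exact_mod_cast he) (by linarith)

theorem w03_fA_le {n : ℕ} {s : ℂ} (hs : ‖s‖ ≤ 1/4) : ‖fA n s‖ ≤ (n:ℝ) ^ 2 := by
  have hre : 0 ≤ (1 + s).re := by
    have := (abs_le.1 ((Complex.abs_re_le_norm s).trans hs)).1
    rw [Complex.add_re, Complex.one_re]
    linarith
  unfold fA
  refine (norm_sum_le _ _).trans ?_
  have h1 : ∀ e ∈ n.divisors, ‖((ArithmeticFunction.moebius e : ℤ) : ℂ) * ((n / e).divisors.card : ℂ) *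
      (e : ℂ) ^ (-(1 + s))‖ ≤ n := by
    intro e he
    rw [norm_mul, norm_mul]
    have e1 : ‖((ArithmeticFunction.moebius e : ℤ) : ℂ)‖ ≤ 1 := by
      rw [Complex.norm_intCast]
      exact_mod_cast ArithmeticFunction.abs_moebius_le_one
    have e2 : ‖((n / e).divisors.card : ℂ)‖ ≤ n := by
      rw [Complex.norm_natCast]
      exact_mod_cast (Nat.card_divisors_le_self _).trans (Nat.div_le_self _ _)
    have e3 := w03_cpow_le (Nat.pos_of_mem_divisors he) hre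
    calc _ ≤ 1 * (n:ℝ) * 1 := by gcongr
      _ = n := by ring
  refine (Finset.sum_le_card_nsmul _ _ _ h1).trans ?_
  rw [nsmul_eq_mul, sq]
  exact mul_le_mul_of_nonneg_right (by exact_mod_cast Nat.card_divisors_le_self n) (Nat.cast_nonneg _)

theorem w03_fB_le {n : ℕ} {s : ℂ} (hs : ‖s‖ ≤ 1/4) : ‖fB n s‖ ≤ (n:ℝ) ^ 2 := by
  have hre : 0 ≤ (1 + s).re := by
    have := (abs_le.1 ((Complex.abs_re_le_norm s).trans hs)).1
    rw [Complex.add_re, Complex.one_re]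
    linarith
  unfold fB
  refine (norm_sum_le _ _).trans ?_
  have h1 : ∀ d ∈ n.divisors, ‖(Nat.totient d : ℂ) * (d : ℂ) ^ (-(1 + s))‖ ≤ n := by
    intro d hd
    rw [norm_mul]
    have e2 : ‖(Nat.totient d : ℂ)‖ ≤ n := by
      rw [Complex.norm_natCast]
      exact_mod_cast (Nat.totient_le d).trans (Nat.divisor_le hd)
    have e3 := w03_cpow_le (Nat.pos_of_mem_divisors hd) hre
    calc _ ≤ (n:ℝ) * 1 := by gcongr
      _ = n := by ring
  refine (Finset.sum_le_card_nsmul _ _ _ h1).trans ?_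
  rw [nsmul_eq_mul, sq]
  exact mul_le_mul_of_nonneg_right (by exact_mod_cast Nat.card_divisors_le_self n) (Nat.cast_nonneg _)

theorem w03_kk_le {m n : ℕ} (hm : 1 ≤ m) (hn : 1 ≤ n) {s : ℂ} (hs : ‖s‖ ≤ 1/4) : ‖kk m n s‖ ≤ 7 * (n:ℝ) ^ 3 := by
  have hre := abs_le.1 ((Complex.abs_re_le_norm s).trans hs)
  have hn1 : (1:ℝ) ≤ n := by exact_mod_cast hn
  have hn0 : (0:ℝ) < n := by linarith
  have e1 : ‖(n : ℂ) ^ (1 / 2 + s)‖ ≤ n := by
    rw [Complex.norm_natCast_cpow_of_pos hn]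
    calc (n:ℝ) ^ (1 / 2 + s).re ≤ (n:ℝ) ^ (1:ℝ) := by
          refine Real.rpow_le_rpow_of_exponent_le hn1 ?_
          rw [Complex.add_re]
          have : (1 / 2 : ℂ).re = 1 / 2 := by norm_num
          rw [this]
          linarith [hre.2]
      _ = n := Real.rpow_one _
  have e2 : ‖(m : ℂ) ^ (-(1 / 2 + s))‖ ≤ 1 := by
    refine w03_cpow_le hm ?_
    rw [Complex.add_re]
    have : (1 / 2 : ℂ).re = 1 / 2 := by norm_num
    rw [this]
    linarith [hre.1]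
  have e3 : ‖(n : ℂ) ^ (-(1 + s))‖ ≤ 1 := by
    refine w03_cpow_le hn ?_
    rw [Complex.add_re, Complex.one_re]
    linarith [hre.1]
  have e4 := w03_fA_le (n := n) hs
  have e5 := w03_fB_le (n := n) hs
  have e6 := w03_fB_le (n := n) (s := 0) (by simp)
  have e7 : ‖(3 / n : ℂ)‖ ≤ 3 := by
    rw [norm_div, Complex.norm_natCast, Complex.norm_ofNat]
    exact div_le_self (by norm_num) hn1
  have e8 : ‖(1 / n : ℂ)‖ ≤ 1 := by
    rw [norm_div, Complex.norm_natCast, norm_one]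
    exact div_le_self (by norm_num) hn1
  have hH : ‖Hn n s‖ ≤ 7 * (n:ℝ) ^ 2 := by
    unfold Hn
    refine (norm_add_le _ _).trans ?_
    refine (add_le_add (norm_sub_le _ _) le_rfl).trans ?_
    rw [norm_mul, norm_mul, norm_mul, norm_mul, Complex.norm_ofNat]
    have t1 : 3 * ‖(n : ℂ) ^ (-(1 + s))‖ * ‖fA n s‖ ≤ 3 * 1 * (n:ℝ) ^ 2 := by gcongr
    have t2 : ‖(3 / n : ℂ)‖ * ‖fB n s‖ ≤ 3 * (n:ℝ) ^ 2 := by gcongr
    have t3 : ‖(1 / n : ℂ)‖ * ‖fB n 0‖ ≤ 1 * (n:ℝ) ^ 2 := by gcongr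
    linarith
  unfold kk
  rw [norm_mul, norm_mul]
  calc ‖(n : ℂ) ^ (1 / 2 + s)‖ * ‖(m : ℂ) ^ (-(1 / 2 + s))‖ * ‖Hn n s‖ ≤ (n:ℝ) * 1 * (7 * (n:ℝ) ^ 2) := by gcongr
    _ = 7 * (n:ℝ) ^ 3 := by ring

/-- the arithmetic factor of the main term with `Z0` -/
noncomputable def w03_B (m n : ℕ) (s : ℂ) : ℂ := Z0 s * ((2 * Real.pi : ℝ) : ℂ) ^ (-s) * kk m n s

theorem w03_pi : ((2 * Real.pi : ℝ) : ℂ) ≠ 0 := by
  exact_mod_cast (by positivity : (2 * Real.pi : ℝ) ≠ 0)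

theorem w03_B_an {m n : ℕ} (hm : 1 ≤ m) (hn : 1 ≤ n) (s : ℂ) : AnalyticAt ℂ (w03_B m n) s := by
  unfold w03_B
  have h1 : Differentiable ℂ fun s : ℂ => ((2 * Real.pi : ℝ) : ℂ) ^ (-s) := fun s =>
    (differentiable_neg s).const_cpow (Or.inl w03_pi)
  exact ((Z0_analytic s).mul (h1.analyticAt s)).mul ((w03_kk_diff hm hn).analyticAt s)

/-- bound for the polar term -/
theorem w03_polar : ∃ C : ℝ, 0 < C ∧ ∀ (T : ℝ) (m n : ℕ) (u : ℝ), 1 ≤ T → 1 ≤ m → 1 ≤ n →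
    ‖C2 (fun s => w03_B m n s * Complex.Gamma (1 + s) * ((1 + u * I) / T) ^ (-(1 + s)))‖ ≤
      C * (n:ℝ) ^ 3 * T ^ (1 + 1/1000 : ℝ) := by
  obtain ⟨C0, hC0, hG⟩ := G0_bd
  refine ⟨C0 * 8 * 7 * 3 * 1000000, by positivity, fun T m n u hT hm hn => ?_⟩
  have hT0 : 0 < T := by linarith
  have hTc : (T : ℂ) ≠ 0 := by exact_mod_cast hT0.ne'
  have hw0 : (1 + u * I : ℂ) / T ≠ 0 := by
    refine div_ne_zero (fun h => ?_) hTc
    have := congrArg Complex.re h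
    simp at this
  have hwn : 1 / T ≤ ‖(1 + u * I : ℂ) / T‖ := by
    rw [norm_div, Complex.norm_real, Real.norm_of_nonneg hT0.le]
    refine div_le_div_of_nonneg_right ?_ hT0.le
    have := Complex.abs_re_le_norm (1 + u * I : ℂ)
    simpa using this
  have hwpos : 0 < ‖(1 + u * I : ℂ) / T‖ := norm_pos_iff.2 hw0
  have hle : ‖C2 (fun s => w03_B m n s * Complex.Gamma (1 + s) * ((1 + u * I) / T) ^ (-(1 + s)))‖ ≤
      (C0 * 8 * (7 * (n:ℝ) ^ 3) * (3 * T ^ (1 + 1/1000 : ℝ))) / (1/1000 : ℝ) ^ 2 := by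
    refine C2_le (by norm_num) (fun s hs => ?_) (fun s hs => ?_)
    · have hs1 : ‖s‖ < 1 := by linarith
      have h1 : AnalyticAt ℂ (fun s : ℂ => Complex.Gamma (1 + s)) s := by
        have hU : IsOpen {z : ℂ | 0 < z.re} := isOpen_lt continuous_const Complex.continuous_re
        have hd : DifferentiableOn ℂ (fun z : ℂ => Complex.Gamma z) {z : ℂ | 0 < z.re} := fun z hz =>
          (Complex.differentiableAt_Gamma z (fun k hk => by
            have := congrArg Complex.re hk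
            rw [Complex.neg_re, Complex.natCast_re] at this
            have h3 : (0:ℝ) ≤ k := Nat.cast_nonneg k
            have h4 : 0 < z.re := hz
            linarith)).differentiableWithinAt
        have hmem : 0 < (1 + s).re := by
          have := (abs_le.1 ((Complex.abs_re_le_norm s).trans hs)).1
          rw [Complex.add_re, Complex.one_re]
          linarith
        have ha : AnalyticAt ℂ (fun z : ℂ => Complex.Gamma z) (1 + s) :=
          (hd.analyticAt (hU.mem_nhds hmem))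
        exact ha.comp_of_eq (f := fun s : ℂ => 1 + s) (by fun_prop) rfl
      have h2 : Differentiable ℂ fun s : ℂ => ((1 + u * I : ℂ) / T) ^ (-(1 + s)) := fun s =>
        (by fun_prop : DifferentiableAt ℂ (fun s : ℂ => -(1 + s)) s).const_cpow (Or.inl hw0)
      exact ((w03_B_an hm hn s).mul h1).mul (h2.analyticAt s)
    · have hs4 : ‖s‖ ≤ 1/4 := by rw [hs]; norm_num
      have hre := abs_le.1 ((Complex.abs_re_le_norm s).trans hs.le)
      have him := abs_le.1 ((Complex.abs_im_le_norm s).trans hs.le)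
      have e1 : w03_B m n s * Complex.Gamma (1 + s) = G0 s * ((2 * Real.pi : ℝ) : ℂ) ^ (-s) * kk m n s := by
        rw [G0_eq]
        unfold w03_B
        ring
      rw [e1, norm_mul, norm_mul, norm_mul]
      have t1 : ‖G0 s‖ ≤ C0 := (hG s hs4).1
      have t2 : ‖((2 * Real.pi : ℝ) : ℂ) ^ (-s)‖ ≤ 8 := by
        rw [Complex.norm_cpow_eq_rpow_re_of_pos (by positivity)]
        have h1 : (1:ℝ) ≤ 2 * Real.pi := by linarith [Real.pi_gt_three]
        calc (2 * Real.pi) ^ (-s).re ≤ (2 * Real.pi) ^ (1:ℝ) :=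
              Real.rpow_le_rpow_of_exponent_le h1 (by rw [Complex.neg_re]; linarith [hre.1])
          _ ≤ 8 := by rw [Real.rpow_one]; linarith [Real.pi_lt_four]
      have t3 := w03_kk_le hm hn hs4
      have t4 : ‖((1 + u * I : ℂ) / T) ^ (-(1 + s))‖ ≤ 3 * T ^ (1 + 1/1000 : ℝ) := by
        rw [Complex.norm_cpow_of_ne_zero hw0]
        have a1 : ‖(1 + u * I : ℂ) / T‖ ^ (-(1 + s)).re ≤ T ^ (1 + 1/1000 : ℝ) := by
          have b1 : (-(1 + s)).re = -(1 + s.re) := by simp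
          rw [b1]
          calc ‖(1 + u * I : ℂ) / T‖ ^ (-(1 + s.re)) ≤ (1 / T) ^ (-(1 + s.re)) :=
                Real.rpow_le_rpow_of_nonpos (by positivity) hwn (by linarith [hre.1])
            _ = T ^ (1 + s.re) := by
                rw [one_div, Real.inv_rpow hT0.le, ← Real.rpow_neg hT0.le, neg_neg]
            _ ≤ T ^ (1 + 1/1000 : ℝ) := Real.rpow_le_rpow_of_exponent_le hT (by linarith [hre.2])
        have a2 : 1 / 3 ≤ Real.exp (((1 + u * I : ℂ) / T).arg * (-(1 + s)).im) := by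
          have b1 : (-(1 + s)).im = -s.im := by simp
          rw [b1]
          have b2 := Complex.abs_arg_le_pi ((1 + u * I : ℂ) / T)
          have b3 : |((1 + u * I : ℂ) / T).arg * -s.im| ≤ 1 := by
            rw [abs_mul, abs_neg]
            have : |s.im| ≤ 1/1000 := (Complex.abs_im_le_norm s).trans hs.le
            calc |((1 + u * I : ℂ) / T).arg| * |s.im| ≤ Real.pi * (1/1000) := by gcongr
              _ ≤ 1 := by linarith [Real.pi_lt_four]
          have b4 : Real.exp (-1) ≤ Real.exp (((1 + u * I : ℂ) / T).arg * -s.im) :=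
            Real.exp_le_exp.2 (abs_le.1 b3).1
          have b5 : 1 / 3 ≤ Real.exp (-1) := by
            rw [Real.exp_neg, one_div]
            exact inv_anti₀ (Real.exp_pos 1) (by linarith [Real.exp_one_lt_d9])
          linarith
        rw [div_le_iff₀ (Real.exp_pos _)]
        have a3 : 0 ≤ T ^ (1 + 1/1000 : ℝ) := by positivity
        calc ‖(1 + u * I : ℂ) / T‖ ^ (-(1 + s)).re ≤ T ^ (1 + 1/1000 : ℝ) := a1
          _ = 3 * T ^ (1 + 1/1000 : ℝ) * (1/3) := by ring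
          _ ≤ 3 * T ^ (1 + 1/1000 : ℝ) * Real.exp (((1 + u * I : ℂ) / T).arg * (-(1 + s)).im) :=
              mul_le_mul_of_nonneg_left a2 (by positivity)
      gcongr
  refine hle.trans (le_of_eq ?_)
  norm_num
  ring

theorem w03_cont : Continuous z21 := by
  have hc : Continuous fun t : ℝ => riemannZeta (1 / 2 + t * I) := by
    rw [continuous_iff_continuousAt]
    intro t
    have h1 : (1 / 2 + t * I : ℂ) ≠ 1 := by
      intro h
      have := congrArg Complex.re h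
      norm_num at this
    exact ContinuousAt.comp (f := fun t : ℝ => (1 / 2 + t * I : ℂ)) (g := riemannZeta)
      (differentiableAt_riemannZeta h1).continuousAt (by fun_prop)
  unfold z21
  exact (hc.pow 2).mul (Complex.continuous_conj.comp hc)

theorem w03_tw_cont (m n : ℕ) : Continuous (tw m n) := by
  unfold tw
  fun_prop

theorem w03_norm (m n : ℕ) (t : ℝ) : ‖z21 t * tw m n t‖ ≤ 1 + ‖riemannZeta (1 / 2 + t * I)‖ ^ 4 := by
  have h1 : ‖tw m n t‖ = 1 := by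
    unfold tw
    rw [← neg_mul, ← Complex.ofReal_neg, Complex.norm_exp_ofReal_mul_I]
  have h2 : ‖z21 t‖ = ‖riemannZeta (1 / 2 + t * I)‖ ^ 3 := by
    unfold z21
    rw [norm_mul, norm_pow, Complex.norm_conj]
    ring
  rw [norm_mul, h1, mul_one, h2]
  have h3 : 0 ≤ ‖riemannZeta (1 / 2 + t * I)‖ := norm_nonneg _
  generalize ‖riemannZeta (1 / 2 + t * I)‖ = x at h3
  rcases le_or_gt x 1 with h | h
  · have : x ^ 3 ≤ 1 := pow_le_one₀ h3 h
    have : 0 ≤ x ^ 4 := by positivity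
    linarith
  · have : x ^ 3 ≤ x ^ 4 := pow_le_pow_right₀ h.le (by norm_num)
    linarith

theorem w03_exp {T : ℝ} (hT : 0 < T) : IntegrableOn (fun t : ℝ => Real.exp (-(t / T))) (Ioi 0) ∧
    ∫ t in Ioi (0:ℝ), Real.exp (-(t / T)) = T := by
  have e : ∀ t : ℝ, Real.exp (-(t / T)) = Real.exp (-(T⁻¹) * t) := by
    intro t
    congr 1
    field_simp
  simp only [e]
  constructor
  · exact integrableOn_exp_mul_Ioi (by simpa using hT) 0
  · rw [integral_exp_mul_Ioi (by simpa using hT) 0]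
    simp

theorem w03_int : ∃ C T0 : ℝ, 0 < C ∧ 3 ≤ T0 ∧ ∀ T : ℝ, T0 ≤ T → ∀ m n : ℕ,
    IntegrableOn (fun t => ‖z21 t * tw m n t‖ * Real.exp (-(t / T))) (Ioi 0) ∧
    ∀ u : ℝ, ‖∫ t in Ioi (0:ℝ), z21 t * tw m n t * cexp (-((1 + u * I) / T * t))‖ ≤ C * T * (Real.log T) ^ 8 := by
  obtain ⟨C, T0, hC, hT0, h⟩ := fourth_crude
  refine ⟨C + 1, T0, by positivity, hT0, fun T hT m n => ?_⟩
  have hT3 : 3 ≤ T := hT0.trans hT
  have hTp : 0 < T := by linarith
  obtain ⟨i4, b4⟩ := h T hT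
  obtain ⟨i1, b1⟩ := w03_exp hTp
  have hbi : IntegrableOn (fun t : ℝ => Real.exp (-(t / T)) +
      ‖riemannZeta (1 / 2 + t * I)‖ ^ 4 * Real.exp (-(t / T))) (Ioi 0) := i1.add i4
  have hle : ∀ t : ℝ, ‖z21 t * tw m n t‖ * Real.exp (-(t / T)) ≤ Real.exp (-(t / T)) +
      ‖riemannZeta (1 / 2 + t * I)‖ ^ 4 * Real.exp (-(t / T)) := by
    intro t
    have := mul_le_mul_of_nonneg_right (w03_norm m n t) (Real.exp_pos (-(t / T))).le
    rw [add_mul, one_mul] at this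
    exact this
  have hcont : Continuous fun t => z21 t * tw m n t := w03_cont.mul (w03_tw_cont m n)
  constructor
  · refine Integrable.mono' hbi ?_ (Eventually.of_forall fun t => ?_)
    · exact ((hcont.norm).mul (by fun_prop)).aestronglyMeasurable
    · rw [Real.norm_of_nonneg (by positivity)]
      exact hle t
  · intro u
    have h1 : ‖∫ t in Ioi (0:ℝ), z21 t * tw m n t * cexp (-((1 + u * I) / T * t))‖ ≤
        ∫ t in Ioi (0:ℝ), (Real.exp (-(t / T)) + ‖riemannZeta (1 / 2 + t * I)‖ ^ 4 * Real.exp (-(t / T))) := by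
      refine norm_integral_le_of_norm_le hbi (Eventually.of_forall fun t => ?_)
      rw [norm_mul]
      have e1 : ‖cexp (-((1 + u * I) / T * t))‖ = Real.exp (-(t / T)) := by
        rw [Complex.norm_exp]
        congr 1
        have : (-((1 + u * I) / T * t) : ℂ) = ((-(t / T) : ℝ) : ℂ) + ((-(u * t / T) : ℝ) : ℂ) * I := by
          push_cast
          ring
        rw [this]
        simp
      rw [e1]
      exact hle t
    refine h1.trans ?_
    rw [integral_add i1 i4, b1]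
    have hlog : 1 ≤ Real.log T := by
      rw [Real.le_log_iff_exp_le hTp]
      linarith [Real.exp_one_lt_d9]
    have h8 : 1 ≤ Real.log T ^ 8 := one_le_pow₀ hlog
    nlinarith

theorem w03_J : Integrable (fun u : ℝ => (1 + u ^ 2) ^ (-(3/4) : ℝ)) := by
  have h := integrable_rpow_neg_one_add_norm_sq (E := ℝ) (μ := volume) (r := 3/2) (by
    rw [Module.finrank_self]; norm_num)
  refine h.congr (Eventually.of_forall fun u => ?_)
  simp only [Real.norm_eq_abs, sq_abs]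
  norm_num

theorem smooth21 : ∃ δ C T0 : ℝ, 0 < δ ∧ δ ≤ 1 / 100 ∧ 0 < C ∧ 1 ≤ T0 ∧ ∀ (T η : ℝ) (m n : ℕ), T0 ≤ T → T ^ (-δ) ≤ η → η ≤ 1 →
    1 ≤ m → 1 ≤ n → Nat.Coprime m n → (m : ℝ) ≤ T ^ δ → (n : ℝ) ≤ T ^ δ →
    ‖(∫ t in Ioi (0:ℝ), z21 t * tw m n t * ((Wt η (t / T) : ℝ) : ℂ)) -
      C2 (fun s => Z0 s * ((2 * Real.pi : ℝ) : ℂ) ^ (-s) * kk m n s * (T : ℂ) ^ (1 + s) * Mw η s)‖ ≤
      C * T ^ (1 - 4 * δ) := by
  obtain ⟨Cg, hCg, hW⟩ := Wt_fourier
  obtain ⟨C1, hC1, hexp⟩ := exp21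
  obtain ⟨C3, hC3, hpol⟩ := w03_polar
  obtain ⟨C4, T4, hC4, hT4, hint⟩ := w03_int
  have hlogo := (isLittleO_log_rpow_atTop (show (0:ℝ) < 1/2000 by norm_num)).bound (show (0:ℝ) < 1 by norm_num)
  obtain ⟨T5, hT5⟩ := Filter.eventually_atTop.1 hlogo
  obtain ⟨J, hJ⟩ : ∃ J : ℝ, J = ∫ u : ℝ, (1 + u ^ 2) ^ (-(3/4) : ℝ) := ⟨_, rfl⟩
  have hJ0 : 0 ≤ J := by rw [hJ]; exact integral_nonneg fun u => by positivity
  refine ⟨1/1000, Cg * (C1 * 64 + (C4 + C3)) * J + 1, max (max T4 T5) 16, by norm_num, by norm_num,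
    by positivity, le_trans (by norm_num) (le_max_right _ _), ?_⟩
  intro T η m n hT hη hη1 hm hn hmn hmT hnT
  have hTT4 : T4 ≤ T := (le_max_left _ _).trans ((le_max_left _ _).trans hT)
  have hTT5 : T5 ≤ T := (le_max_right _ _).trans ((le_max_left _ _).trans hT)
  have hT16 : 16 ≤ T := (le_max_right _ _).trans hT
  have hT1 : 1 ≤ T := by linarith
  have hT0 : 0 < T := by linarith
  have hη0 : 0 < η := lt_of_lt_of_le (by positivity) hη
  obtain ⟨g, hgc, hgb, hgW⟩ := hW η hη0 hη1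
  obtain ⟨hGi, hIb⟩ := hint T hTT4 m n
  have hcont : Continuous fun t => z21 t * tw m n t := w03_cont.mul (w03_tw_cont m n)
  obtain ⟨s1, s2⟩ := super_int hη0 hη1 hT0 hgc hgb hgW hcont hGi
  obtain ⟨r1, r2⟩ := super_C2 hη0 hη1 hT1 hgc hgb hgW (B := w03_B m n) (fun s _ => w03_B_an hm hn s)
  have hC2e : C2 (fun s => Z0 s * ((2 * Real.pi : ℝ) : ℂ) ^ (-s) * kk m n s * (T : ℂ) ^ (1 + s) * Mw η s) =
      C2 (fun s => w03_B m n s * (T : ℂ) ^ (1 + s) * Mw η s) := rfl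
  rw [hC2e, s2, ← r2, ← integral_sub s1 r1]
  have hηT : η ^ (-2 : ℝ) ≤ T ^ (2/1000 : ℝ) := by
    calc η ^ (-2 : ℝ) ≤ (T ^ (-(1/1000) : ℝ)) ^ (-2 : ℝ) :=
          Real.rpow_le_rpow_of_nonpos (by positivity) hη (by norm_num)
      _ = T ^ (2/1000 : ℝ) := by rw [← Real.rpow_mul hT0.le]; norm_num
  have hlogT : Real.log T ^ 8 ≤ T ^ (4/1000 : ℝ) := by
    have h1 := hT5 T hTT5
    have hlog0 : 0 ≤ Real.log T := Real.log_nonneg hT1
    rw [one_mul, Real.norm_of_nonneg hlog0, Real.norm_of_nonneg (by positivity)] at h1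
    calc Real.log T ^ 8 ≤ (T ^ (1/2000 : ℝ)) ^ 8 := pow_le_pow_left₀ hlog0 h1 8
      _ = T ^ (4/1000 : ℝ) := by
          rw [← Real.rpow_natCast, ← Real.rpow_mul hT0.le]
          norm_num
  have hn3 : (n:ℝ) ^ 3 ≤ T ^ (3/1000 : ℝ) := by
    calc (n:ℝ) ^ 3 ≤ (T ^ (1/1000 : ℝ)) ^ 3 := pow_le_pow_left₀ (Nat.cast_nonneg n) hnT 3
      _ = T ^ (3/1000 : ℝ) := by
          rw [← Real.rpow_natCast, ← Real.rpow_mul hT0.le]
          norm_num
  have hmn6 : ((m:ℝ) * n) ^ 6 ≤ T ^ (12/1000 : ℝ) := by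
    have h1 : (m:ℝ) * n ≤ T ^ (1/1000 : ℝ) * T ^ (1/1000 : ℝ) :=
      mul_le_mul hmT hnT (Nat.cast_nonneg n) (by positivity)
    calc ((m:ℝ) * n) ^ 6 ≤ (T ^ (1/1000 : ℝ) * T ^ (1/1000 : ℝ)) ^ 6 := pow_le_pow_left₀ (by positivity) h1 6
      _ = T ^ (12/1000 : ℝ) := by
          rw [← Real.rpow_add hT0, ← Real.rpow_natCast, ← Real.rpow_mul hT0.le]
          norm_num
  -- pointwise bound
  have key : ∀ u : ℝ, ‖g u * (∫ t in Ioi (0:ℝ), z21 t * tw m n t * cexp (-((1 + u * I) / T * t))) -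
      g u * C2 (fun s => w03_B m n s * Complex.Gamma (1 + s) * ((1 + u * I) / T) ^ (-(1 + s)))‖ ≤
      Cg * (C1 * 64 + (C4 + C3)) * T ^ (1 - 4 * (1/1000) : ℝ) * (1 + u ^ 2) ^ (-(3/4) : ℝ) := by
    intro u
    have hq : 0 < 1 + u ^ 2 := by positivity
    have hq1 : 1 ≤ 1 + u ^ 2 := by nlinarith [sq_nonneg u]
    have hgu : ‖g u‖ ≤ Cg * T ^ (2/1000 : ℝ) * (1 + u ^ 2)⁻¹ := by
      refine (hgb u).trans ?_
      rw [div_eq_mul_inv]
      gcongr
    rw [← mul_sub, norm_mul]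
    set D := (∫ t in Ioi (0:ℝ), z21 t * tw m n t * cexp (-((1 + u * I) / T * t))) -
      C2 (fun s => w03_B m n s * Complex.Gamma (1 + s) * ((1 + u * I) / T) ^ (-(1 + s))) with hD
    rcases le_or_gt |u| (T ^ (1/50 : ℝ)) with hu | hu
    · -- the main range
      have hU1 : 1 ≤ T ^ (1/50 : ℝ) := Real.one_le_rpow hT1 (by norm_num)
      have hnu : ‖(1 + u * I : ℂ)‖ ≤ 2 * T ^ (1/50 : ℝ) := by
        refine (norm_add_le _ _).trans ?_
        rw [norm_one, norm_mul, Complex.norm_I, mul_one, Complex.norm_real, Real.norm_eq_abs]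
        linarith
      have hwre : (((1 + u * I) / T : ℂ)).re = 1 / T := by
        rw [Complex.div_ofReal_re]
        simp
      have hwn : ‖((1 + u * I) / T : ℂ)‖ = ‖(1 + u * I : ℂ)‖ / T := by
        rw [norm_div, Complex.norm_real, Real.norm_of_nonneg hT0.le]
      have hw12 : ‖((1 + u * I) / T : ℂ)‖ ≤ 1/2 := by
        rw [hwn, div_le_iff₀ hT0]
        have h1 : (4:ℝ) ≤ T ^ (49/50 : ℝ) := by
          calc (4:ℝ) = (16:ℝ) ^ (1/2 : ℝ) := by
                rw [← Real.sqrt_eq_rpow]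
                rw [show (16:ℝ) = 4 ^ 2 by norm_num, Real.sqrt_sq (by norm_num)]
            _ ≤ T ^ (1/2 : ℝ) := Real.rpow_le_rpow (by norm_num) hT16 (by norm_num)
            _ ≤ T ^ (49/50 : ℝ) := Real.rpow_le_rpow_of_exponent_le hT1 (by norm_num)
        have h2 : T = T ^ (1/50 : ℝ) * T ^ (49/50 : ℝ) := by
          rw [← Real.rpow_add hT0]
          norm_num
        have h3 : 4 * T ^ (1/50 : ℝ) ≤ T := by
          calc 4 * T ^ (1/50 : ℝ) = T ^ (1/50 : ℝ) * 4 := by ring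
            _ ≤ T ^ (1/50 : ℝ) * T ^ (49/50 : ℝ) := mul_le_mul_of_nonneg_left h1 (by positivity)
            _ = T := h2.symm
        linarith
      have hx := hexp m n hm hn hmn ((1 + u * I) / T) (by rw [hwre]; positivity) hw12
      have hDe : (∫ t in Ioi (0:ℝ), z21 t * tw m n t * cexp (-((1 + u * I) / T * t))) -
          C2 (fun s => G0 s * ((2 * Real.pi : ℝ) : ℂ) ^ (-s) * kk m n s * ((1 + u * I) / T) ^ (-(1 + s))) = D := by
        rw [hD]
        congr 2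
        funext s
        rw [G0_eq]
        unfold w03_B
        ring
      rw [hDe, hwre, hwn] at hx
      have e1 : ‖(1 + u * I : ℂ)‖ / T / (1 / T) = ‖(1 + u * I : ℂ)‖ := by field_simp
      have e2 : (1 / T : ℝ) ^ (-(3/4) : ℝ) = T ^ (3/4 : ℝ) := by
        rw [one_div, Real.inv_rpow hT0.le, ← Real.rpow_neg hT0.le, neg_neg]
      rw [e1, e2] at hx
      have e3 : ‖(1 + u * I : ℂ)‖ ^ 6 ≤ 64 * T ^ (120/1000 : ℝ) := by
        calc ‖(1 + u * I : ℂ)‖ ^ 6 ≤ (2 * T ^ (1/50 : ℝ)) ^ 6 := pow_le_pow_left₀ (norm_nonneg _) hnu 6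
          _ = 64 * T ^ (120/1000 : ℝ) := by
              rw [mul_pow, ← Real.rpow_natCast (T ^ (1/50 : ℝ)), ← Real.rpow_mul hT0.le]
              norm_num
      have hDb : ‖D‖ ≤ C1 * T ^ (12/1000 : ℝ) * (64 * T ^ (120/1000 : ℝ)) * T ^ (3/4 : ℝ) := by
        refine hx.trans ?_
        gcongr
      have hq2 : (1 + u ^ 2)⁻¹ ≤ (1 + u ^ 2) ^ (-(3/4) : ℝ) := by
        rw [← Real.rpow_neg_one]
        exact Real.rpow_le_rpow_of_exponent_le hq1 (by norm_num)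
      calc ‖g u‖ * ‖D‖ ≤ (Cg * T ^ (2/1000 : ℝ) * (1 + u ^ 2)⁻¹) *
            (C1 * T ^ (12/1000 : ℝ) * (64 * T ^ (120/1000 : ℝ)) * T ^ (3/4 : ℝ)) :=
            mul_le_mul hgu hDb (norm_nonneg _) (by positivity)
        _ ≤ (Cg * T ^ (2/1000 : ℝ) * (1 + u ^ 2) ^ (-(3/4) : ℝ)) *
            (C1 * T ^ (12/1000 : ℝ) * (64 * T ^ (120/1000 : ℝ)) * T ^ (3/4 : ℝ)) := by gcongr
        _ = Cg * (C1 * 64) * (T ^ (2/1000 : ℝ) * T ^ (12/1000 : ℝ) * T ^ (120/1000 : ℝ) * T ^ (3/4 : ℝ)) *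
            (1 + u ^ 2) ^ (-(3/4) : ℝ) := by ring
        _ = Cg * (C1 * 64) * T ^ (884/1000 : ℝ) * (1 + u ^ 2) ^ (-(3/4) : ℝ) := by
            rw [← Real.rpow_add hT0, ← Real.rpow_add hT0, ← Real.rpow_add hT0]
            norm_num
        _ ≤ Cg * (C1 * 64 + (C4 + C3)) * T ^ (1 - 4 * (1/1000) : ℝ) * (1 + u ^ 2) ^ (-(3/4) : ℝ) := by
            have h1 : T ^ (884/1000 : ℝ) ≤ T ^ (1 - 4 * (1/1000) : ℝ) :=
              Real.rpow_le_rpow_of_exponent_le hT1 (by norm_num)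
            have h2 : C1 * 64 ≤ C1 * 64 + (C4 + C3) := by linarith
            gcongr
    · -- the tail
      have hDb : ‖D‖ ≤ (C4 + C3) * T ^ (1 + 4/1000 : ℝ) := by
        have h1 := hIb u
        have h2 := hpol T m n u hT1 hm hn
        have h3 : C4 * T * Real.log T ^ 8 ≤ C4 * T ^ (1 + 4/1000 : ℝ) := by
          rw [Real.rpow_add hT0, Real.rpow_one]
          calc C4 * T * Real.log T ^ 8 ≤ C4 * T * T ^ (4/1000 : ℝ) := by gcongr
            _ = C4 * (T * T ^ (4/1000 : ℝ)) := by ring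
        have h4 : C3 * (n:ℝ) ^ 3 * T ^ (1 + 1/1000 : ℝ) ≤ C3 * T ^ (1 + 4/1000 : ℝ) := by
          calc C3 * (n:ℝ) ^ 3 * T ^ (1 + 1/1000 : ℝ) ≤ C3 * T ^ (3/1000 : ℝ) * T ^ (1 + 1/1000 : ℝ) := by gcongr
            _ = C3 * (T ^ (3/1000 : ℝ) * T ^ (1 + 1/1000 : ℝ)) := by ring
            _ = C3 * T ^ (1 + 4/1000 : ℝ) := by
                rw [← Real.rpow_add hT0]
                norm_num
        calc ‖D‖ ≤ _ := norm_sub_le _ _
          _ ≤ C4 * T * Real.log T ^ 8 + C3 * (n:ℝ) ^ 3 * T ^ (1 + 1/1000 : ℝ) := add_le_add h1 h2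
          _ ≤ (C4 + C3) * T ^ (1 + 4/1000 : ℝ) := by rw [add_mul]; exact add_le_add h3 h4
      have hq2 : (1 + u ^ 2)⁻¹ ≤ T ^ (-(10/1000) : ℝ) * (1 + u ^ 2) ^ (-(3/4) : ℝ) := by
        have h1 : (1 + u ^ 2)⁻¹ = (1 + u ^ 2) ^ (-(1/4) : ℝ) * (1 + u ^ 2) ^ (-(3/4) : ℝ) := by
          rw [← Real.rpow_add hq, ← Real.rpow_neg_one]
          norm_num
        rw [h1]
        refine mul_le_mul_of_nonneg_right ?_ (by positivity)
        have h2 : T ^ (40/1000 : ℝ) ≤ 1 + u ^ 2 := by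
          have h3 : T ^ (40/1000 : ℝ) = (T ^ (1/50 : ℝ)) ^ 2 := by
            rw [← Real.rpow_natCast, ← Real.rpow_mul hT0.le]
            norm_num
          rw [h3]
          have h4 : (T ^ (1/50 : ℝ)) ^ 2 ≤ |u| ^ 2 := pow_le_pow_left₀ (by positivity) hu.le 2
          rw [sq_abs] at h4
          linarith
        calc (1 + u ^ 2) ^ (-(1/4) : ℝ) ≤ (T ^ (40/1000 : ℝ)) ^ (-(1/4) : ℝ) :=
              Real.rpow_le_rpow_of_nonpos (by positivity) h2 (by norm_num)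
          _ = T ^ (-(10/1000) : ℝ) := by
              rw [← Real.rpow_mul hT0.le]
              norm_num
      calc ‖g u‖ * ‖D‖ ≤ (Cg * T ^ (2/1000 : ℝ) * (1 + u ^ 2)⁻¹) * ((C4 + C3) * T ^ (1 + 4/1000 : ℝ)) :=
            mul_le_mul hgu hDb (norm_nonneg _) (by positivity)
        _ ≤ (Cg * T ^ (2/1000 : ℝ) * (T ^ (-(10/1000) : ℝ) * (1 + u ^ 2) ^ (-(3/4) : ℝ))) *
            ((C4 + C3) * T ^ (1 + 4/1000 : ℝ)) := by gcongr
        _ = Cg * (C4 + C3) * (T ^ (2/1000 : ℝ) * T ^ (-(10/1000) : ℝ) * T ^ (1 + 4/1000 : ℝ)) *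
            (1 + u ^ 2) ^ (-(3/4) : ℝ) := by ring
        _ = Cg * (C4 + C3) * T ^ (1 - 4 * (1/1000) : ℝ) * (1 + u ^ 2) ^ (-(3/4) : ℝ) := by
            rw [← Real.rpow_add hT0, ← Real.rpow_add hT0]
            norm_num
        _ ≤ Cg * (C1 * 64 + (C4 + C3)) * T ^ (1 - 4 * (1/1000) : ℝ) * (1 + u ^ 2) ^ (-(3/4) : ℝ) := by
            have h2 : C4 + C3 ≤ C1 * 64 + (C4 + C3) := by
              have : 0 ≤ C1 * 64 := by positivity
              linarith
            gcongr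
  have hfin := norm_integral_le_of_norm_le (w03_J.const_mul
    (Cg * (C1 * 64 + (C4 + C3)) * T ^ (1 - 4 * (1/1000) : ℝ))) (Eventually.of_forall key)
  rw [integral_const_mul, ← hJ] at hfin
  refine hfin.trans ?_
  have hTp : 0 ≤ T ^ (1 - 4 * (1/1000) : ℝ) := by positivity
  calc Cg * (C1 * 64 + (C4 + C3)) * T ^ (1 - 4 * (1/1000) : ℝ) * J =
        (Cg * (C1 * 64 + (C4 + C3)) * J) * T ^ (1 - 4 * (1/1000) : ℝ) := by ring
    _ ≤ (Cg * (C1 * 64 + (C4 + C3)) * J + 1) * T ^ (1 - 4 * (1/1000) : ℝ) := by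
        refine mul_le_mul_of_nonneg_right ?_ hTp
        linarith

end Pool.Agent.LibPH
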