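import Mathlib
import Pool.Agent.LibPH.XDefs

/-! ROW J03: the arithmetic functions `fA`, `fB` as products over primes. -/

set_option autoImplicit false

namespace Pool.Agent.LibPH

open MeasureTheory Filter Topology Complex
open scoped ComplexConjugate

noncomputable def j03_M (s : ℂ) : ArithmeticFunction ℂ :=
  ⟨fun e => ((ArithmeticFunction.moebius e : ℤ) : ℂ) * (e : ℂ) ^ (-(1 + s)), by simp⟩

noncomputable def j03_T : ArithmeticFunction ℂ := ⟨fun n => (n.divisors.card : ℂ), by simp⟩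

noncomputable def j03_P (s : ℂ) : ArithmeticFunction ℂ :=
  ⟨fun e => (Nat.totient e : ℂ) * (e : ℂ) ^ (-(1 + s)), by simp⟩

noncomputable def j03_U : ArithmeticFunction ℂ := ⟨fun n => if n = 0 then 0 else 1, by simp⟩

theorem j03_cpow_mul (m n : ℕ) (z : ℂ) : ((m * n : ℕ) : ℂ) ^ z = (m : ℂ) ^ z * (n : ℂ) ^ z := by
  rw [Nat.cast_mul, Complex.natCast_mul_natCast_cpow]

theorem j03_M_mul (s : ℂ) : (j03_M s).IsMultiplicative := by
  rw [ArithmeticFunction.IsMultiplicative.iff_ne_zero]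
  refine ⟨by simp [j03_M], ?_⟩
  intro m n hm hn hmn
  have h := ArithmeticFunction.isMultiplicative_moebius.map_mul_of_coprime hmn
  show ((ArithmeticFunction.moebius (m * n) : ℤ) : ℂ) * ((m * n : ℕ) : ℂ) ^ (-(1 + s)) = _ * _
  rw [h, j03_cpow_mul]
  simp only [j03_M, ArithmeticFunction.coe_mk]
  push_cast
  ring

theorem j03_T_mul : j03_T.IsMultiplicative := by
  rw [ArithmeticFunction.IsMultiplicative.iff_ne_zero]
  refine ⟨by simp [j03_T], ?_⟩
  intro m n hm hn hmn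
  show (((m * n).divisors.card : ℕ) : ℂ) = (m.divisors.card : ℂ) * (n.divisors.card : ℂ)
  rw [Nat.Coprime.card_divisors_mul hmn]
  push_cast
  ring

theorem j03_P_mul (s : ℂ) : (j03_P s).IsMultiplicative := by
  rw [ArithmeticFunction.IsMultiplicative.iff_ne_zero]
  refine ⟨by simp [j03_P], ?_⟩
  intro m n hm hn hmn
  show (Nat.totient (m * n) : ℂ) * ((m * n : ℕ) : ℂ) ^ (-(1 + s)) = _ * _
  rw [Nat.totient_mul hmn, j03_cpow_mul]
  simp only [j03_P, ArithmeticFunction.coe_mk]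
  push_cast
  ring

theorem j03_U_mul : j03_U.IsMultiplicative := by
  rw [ArithmeticFunction.IsMultiplicative.iff_ne_zero]
  refine ⟨by simp [j03_U], ?_⟩
  intro m n hm hn hmn
  simp [j03_U, hm, hn]

theorem j03_fA_eq (n : ℕ) (s : ℂ) : fA n s = (j03_M s * j03_T) n := by
  rw [ArithmeticFunction.mul_apply, Nat.sum_divisorsAntidiagonal (fun a b => j03_M s a * j03_T b)]
  unfold fA
  refine Finset.sum_congr rfl fun e _ => ?_
  simp only [j03_M, j03_T, ArithmeticFunction.coe_mk]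
  ring

theorem j03_fB_eq (n : ℕ) (s : ℂ) : fB n s = (j03_P s * j03_U) n := by
  rw [ArithmeticFunction.mul_apply, Nat.sum_divisorsAntidiagonal (fun a b => j03_P s a * j03_U b)]
  unfold fB
  refine Finset.sum_congr rfl fun e he => ?_
  have h : n / e ≠ 0 := by
    have h1 := Nat.mem_divisors.1 he
    have h2 : 0 < n / e := Nat.div_pos (Nat.le_of_dvd (Nat.pos_of_ne_zero h1.2) h1.1)
      (Nat.pos_of_mem_divisors he)
    omega
  simp only [j03_P, j03_U, ArithmeticFunction.coe_mk, h, if_false, mul_one]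

theorem j03_fA_pow {p : ℕ} (hp : p.Prime) {k : ℕ} (hk : k ≠ 0) (s : ℂ) :
    fA (p ^ k) s = (k : ℂ) + 1 - (k : ℂ) * (p : ℂ) ^ (-(1 + s)) := by
  obtain ⟨j, rfl⟩ : ∃ j, k = j + 1 := ⟨k - 1, by omega⟩
  unfold fA
  rw [Nat.sum_divisors_prime_pow hp, Finset.sum_range_succ', Finset.sum_range_succ']
  have h0 : ∑ x ∈ Finset.range j, ((ArithmeticFunction.moebius (p ^ (x + 1 + 1)) : ℤ) : ℂ) *
      ((p ^ (j + 1) / p ^ (x + 1 + 1)).divisors.card : ℂ) * ((p ^ (x + 1 + 1) : ℕ) : ℂ) ^ (-(1 + s)) = 0 := by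
    refine Finset.sum_eq_zero fun x _ => ?_
    rw [ArithmeticFunction.moebius_apply_prime_pow hp (by omega), if_neg (by omega)]
    simp
  rw [h0]
  have h1 : p ^ (j + 1) / p ^ (0 + 1) = p ^ j := by
    rw [Nat.pow_div (by omega) hp.pos]
    simp
  rw [h1, ArithmeticFunction.moebius_apply_prime_pow hp (by omega), if_pos (by omega)]
  simp only [pow_zero, Nat.div_one, Nat.divisors_prime_pow hp, Finset.card_map, Finset.card_range]
  simp
  ring

theorem j03_fB_pow {p : ℕ} (hp : p.Prime) (k : ℕ) (s : ℂ) :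
    fB (p ^ k) s = 1 + (1 - (p : ℂ)⁻¹) * ∑ a ∈ Finset.Icc 1 k, ((p : ℂ) ^ (-s)) ^ a := by
  have hp0 : (p : ℂ) ≠ 0 := by exact_mod_cast hp.ne_zero
  unfold fB
  rw [Nat.sum_divisors_prime_pow hp]
  induction k with
  | zero => simp
  | succ k ih =>
    rw [Finset.sum_range_succ, ih, Finset.sum_Icc_succ_top (by omega), mul_add, ← add_assoc]
    congr 1
    rw [Nat.totient_prime_pow hp (by omega)]
    have h1 : (((p ^ (k + 1) : ℕ) : ℂ)) ^ (-(1 + s)) = ((p : ℂ) ^ (k + 1))⁻¹ * ((p : ℂ) ^ (-s)) ^ (k + 1) := by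
      rw [Nat.cast_pow, ← Complex.natCast_cpow_natCast_mul]
      rw [← Complex.cpow_nat_mul]
      have : ((k + 1 : ℕ) : ℂ) * -(1 + s) = -((k + 1 : ℕ) : ℂ) + ((k + 1 : ℕ) : ℂ) * -s := by ring
      rw [this, Complex.cpow_add _ _ hp0, Complex.cpow_neg, Complex.cpow_natCast]
    rw [h1]
    have h2 : ((p ^ (k + 1 - 1) * (p - 1) : ℕ) : ℂ) = (p : ℂ) ^ k * ((p : ℂ) - 1) := by
      rw [Nat.add_sub_cancel, Nat.cast_mul, Nat.cast_pow, Nat.cast_sub hp.one_le]
      simp
    rw [h2]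
    field_simp
    ring

theorem fA_prod {n : ℕ} (hn : n ≠ 0) (s : ℂ) :
    fA n s = ∏ p ∈ n.primeFactors, ((n.factorization p : ℂ) + 1 - (n.factorization p : ℂ) * (p : ℂ) ^ (-(1 + s))) := by
  rw [j03_fA_eq, ((j03_M_mul s).mul j03_T_mul).multiplicative_factorization _ hn, Finsupp.prod, Nat.support_factorization]
  refine Finset.prod_congr rfl fun p hp => ?_
  have hpp := Nat.prime_of_mem_primeFactors hp
  have hk : n.factorization p ≠ 0 := by
    rw [← Finsupp.mem_support_iff, Nat.support_factorization]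
    exact hp
  rw [← j03_fA_eq, j03_fA_pow hpp hk]

theorem fB_prod {n : ℕ} (hn : n ≠ 0) (s : ℂ) :
    fB n s = ∏ p ∈ n.primeFactors, (1 + (1 - (p : ℂ)⁻¹) * ∑ a ∈ Finset.Icc 1 (n.factorization p), ((p : ℂ) ^ (-s)) ^ a) := by
  rw [j03_fB_eq, ((j03_P_mul s).mul j03_U_mul).multiplicative_factorization _ hn, Finsupp.prod, Nat.support_factorization]
  refine Finset.prod_congr rfl fun p hp => ?_
  have hpp := Nat.prime_of_mem_primeFactors hp
  rw [← j03_fB_eq, j03_fB_pow hpp]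

end Pool.Agent.LibPH
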