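import Mathlib
import Pool.Agent.LibPH45.Defs
import Pool.Agent.LibPH45.PH_20
import Pool.Agent.LibPH.XDefs

/-! # Phase moments of zeta: the arithmetic factor of the main term for arbitrary `m, n`. -/

set_option autoImplicit false

namespace Pool.Agent.LibPH

open MeasureTheory Filter Topology Complex
open scoped ComplexConjugate
open Pool.Agent.LibMM99 Pool.Agent.LibTG78 Pool.Agent.LibPH45

/-- the arithmetic factor for arbitrary `m, n` -/
noncomputable def k0 (q : ℕ × ℕ) (s : ℂ) : ℂ := kk (q.1 / Nat.gcd q.1 q.2) (q.2 / Nat.gcd q.1 q.2) s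

/-- the functional of the third moment: `(2,1)`-moments of three families of shifted Euler products -/
noncomputable def Jt (y : ℝ) (Φ : Om → ℂ) (s : ℂ) : ℂ := 3 * JP 0 0 s y Φ - 3 * JP 0 (-s) s y Φ + JP (-s) (-s) s y Φ

/-- the functional of the first moment -/
noncomputable def k1 (q : ℕ × ℕ) : ℂ := if q.1 ∣ q.2 then (((q.2 / q.1 : ℕ) : ℝ) ^ (-(1/2) : ℝ) : ℝ) else 0

end Pool.Agent.LibPH
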