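import Mathlib
import Pool.Agent.LibPH.JDefs

/-! ROW J04a (rloc_shift, rloc_gcd): the three kernels.

`rloc` depends only on the difference (rloc_shift), so the product over `p ∣ mn` only depends on the reduced fraction.
Local factors, `x = zp 0 p = p^{-1/2}`, `y = zp s p = p^{-1/2-s}`, `u = zp (-s) p = p^{-1/2+s}`, `x y = p^{-1-s}`, `u y = p^{-1}`:
`rloc (i, 0) = y^i`; `rloc x x y 0 j = x^j ((j+1) - j x y)`; `rloc x u y 0 j = x^j p^{js}(1 + (1-1/p)∑_{a=1}^j p^{-as})`;
`rloc u u y 0 j = u^j (1 + j (1-1/p))`. J03; `(n:ℂ)^w = ∏ (p^w)^{v_p(n)}` (LibTG78 D2b_cpow_prod). -/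

set_option autoImplicit false

namespace Pool.Agent.LibPH

open MeasureTheory Filter Topology Complex
open scoped ComplexConjugate
open Pool.Agent.LibMM99 Pool.Agent.LibTG78 Pool.Agent.LibPH45

theorem rloc_shift (a b c : ℂ) (i j k : ℕ) : rloc a b c (i + k) (j + k) = rloc a b c i j := by
  unfold rloc
  simp only [add_le_add_iff_right, Nat.add_sub_add_right]

theorem j04a_rloc_zero (a b c : ℂ) : rloc a b c 0 0 = 1 := by
  simp [rloc]

theorem j04a_fac {m g : ℕ} (hm : m ≠ 0) (hg : g ∣ m) (p : ℕ) :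
    m.factorization p = (m / g).factorization p + g.factorization p := by
  have hg0 : g ≠ 0 := fun h => hm (by rw [h] at hg; exact Nat.eq_zero_of_zero_dvd hg)
  have hmg : m / g ≠ 0 := (Nat.div_pos (Nat.le_of_dvd (Nat.pos_of_ne_zero hm) hg)
    (Nat.pos_of_ne_zero hg0)).ne'
  conv_lhs => rw [← Nat.div_mul_cancel hg]
  rw [Nat.factorization_mul hmg hg0]
  rfl

theorem rloc_gcd (A B C : ℕ → ℂ) {m n : ℕ} (hm : 1 ≤ m) (hn : 1 ≤ n) :
    ∏ p ∈ (m * n).primeFactors, rloc (A p) (B p) (C p) (m.factorization p) (n.factorization p) =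
      ∏ p ∈ ((m / Nat.gcd m n) * (n / Nat.gcd m n)).primeFactors, rloc (A p) (B p) (C p)
        ((m / Nat.gcd m n).factorization p) ((n / Nat.gcd m n).factorization p) := by
  have hm0 : m ≠ 0 := by omega
  have hn0 : n ≠ 0 := by omega
  set g := Nat.gcd m n with hg
  have hgm : g ∣ m := Nat.gcd_dvd_left m n
  have hgn : g ∣ n := Nat.gcd_dvd_right m n
  have hg0 : g ≠ 0 := Nat.gcd_ne_zero_left hm0
  have hmg : m / g ≠ 0 := (Nat.div_pos (Nat.le_of_dvd (Nat.pos_of_ne_zero hm0) hgm)
    (Nat.pos_of_ne_zero hg0)).ne'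
  have hng : n / g ≠ 0 := (Nat.div_pos (Nat.le_of_dvd (Nat.pos_of_ne_zero hn0) hgn)
    (Nat.pos_of_ne_zero hg0)).ne'
  have e1 : ∀ p, rloc (A p) (B p) (C p) (m.factorization p) (n.factorization p) =
      rloc (A p) (B p) (C p) ((m / g).factorization p) ((n / g).factorization p) := by
    intro p
    rw [j04a_fac hm0 hgm p, j04a_fac hn0 hgn p, rloc_shift]
  rw [Finset.prod_congr rfl fun p _ => e1 p]
  symm
  apply Finset.prod_subset
  · apply Nat.primeFactors_mono
    · exact mul_dvd_mul (Nat.div_dvd_of_dvd hgm) (Nat.div_dvd_of_dvd hgn)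
    · exact mul_ne_zero hm0 hn0
  · intro p _ hp
    rw [Nat.primeFactors_mul hmg hng, Finset.mem_union, not_or] at hp
    have h1 : (m / g).factorization p = 0 := by
      rw [← Nat.support_factorization, Finsupp.notMem_support_iff] at hp
      exact hp.1
    have h2 : (n / g).factorization p = 0 := by
      rw [← Nat.support_factorization (n / g), Finsupp.notMem_support_iff] at hp
      exact hp.2
    rw [h1, h2, j04a_rloc_zero]

end Pool.Agent.LibPH
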