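import Mathlib
import Pool.Agent.LibPH.J04a
import Pool.Agent.LibPH.J03

/-! ROW J04 (kern1, kern2, kern3): the three kernels.

`rloc` depends only on the difference (rloc_shift), so the product over `p ∣ mn` only depends on the reduced fraction.
Local factors, `x = zp 0 p = p^{-1/2}`, `y = zp s p = p^{-1/2-s}`, `u = zp (-s) p = p^{-1/2+s}`, `x y = p^{-1-s}`, `u y = p^{-1}`:
`rloc (i, 0) = y^i`; `rloc x x y 0 j = x^j ((j+1) - j x y)`; `rloc x u y 0 j = x^j p^{js}(1 + (1-1/p)∑_{a=1}^j p^{-as})`;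
`rloc u u y 0 j = u^j (1 + j (1-1/p))`. J03; `(n:ℂ)^w = ∏ (p^w)^{v_p(n)}` (LibTG78 D2b_cpow_prod). -/

set_option autoImplicit false

namespace Pool.Agent.LibPH

open MeasureTheory Filter Topology Complex
open scoped ComplexConjugate
open Pool.Agent.LibMM99 Pool.Agent.LibTG78 Pool.Agent.LibPH45

theorem j04_cpow {n : ℕ} (hn : n ≠ 0) (w : ℂ) :
    (n : ℂ) ^ w = ∏ p ∈ n.primeFactors, ((p : ℂ) ^ w) ^ n.factorization p := by
  conv_lhs => rw [D2b_nat_prod n.primeFactors hn (Finset.Subset.refl _)]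
  rw [D2b_cpow_prod]

theorem j04_asm (A B C : ℕ → ℂ) (g : ℕ → ℂ) (w v : ℂ) {m n : ℕ} (hm : 1 ≤ m) (hn : 1 ≤ n)
    (hmn : Nat.Coprime m n) (hC : ∀ p, C p = (p : ℂ) ^ w)
    (hl : ∀ p ∈ n.primeFactors, rloc (A p) (B p) (C p) 0 (n.factorization p) =
      ((p : ℂ) ^ v) ^ (n.factorization p) * g p) :
    ∏ p ∈ (m * n).primeFactors, rloc (A p) (B p) (C p) (m.factorization p) (n.factorization p) =
      (m : ℂ) ^ w * ((n : ℂ) ^ v * ∏ p ∈ n.primeFactors, g p) := by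
  rw [hmn.primeFactors_mul, Finset.prod_union hmn.disjoint_primeFactors,
    j04_cpow (by omega : m ≠ 0) w, j04_cpow (by omega : n ≠ 0) v, ← Finset.prod_mul_distrib]
  congr 1
  · refine Finset.prod_congr rfl fun p hp => ?_
    have h1 : n.factorization p = 0 := by
      rw [← Finsupp.notMem_support_iff, Nat.support_factorization]
      exact fun h => (Finset.disjoint_left.1 hmn.disjoint_primeFactors hp) h
    rw [h1]
    unfold rloc
    rw [if_pos (Nat.zero_le _), tsub_zero, hC]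
  · refine Finset.prod_congr rfl fun p hp => ?_
    have h1 : m.factorization p = 0 := by
      rw [← Finsupp.notMem_support_iff, Nat.support_factorization]
      exact fun h => (Finset.disjoint_left.1 hmn.disjoint_primeFactors h) hp
    rw [h1, hl p hp]

theorem j04_rloc (a b c : ℂ) (k : ℕ) :
    rloc a b c 0 (k + 1) = hh a b (k + 1) - a * b * c * hh a b k := by
  unfold rloc
  rw [if_neg (by omega)]
  rfl

theorem j04_hh1 (x : ℂ) (j : ℕ) : hh x x j = ((j : ℂ) + 1) * x ^ j := by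
  unfold hh
  have h : ∀ i ∈ Finset.range (j + 1), x ^ i * x ^ (j - i) = x ^ j := fun i hi => by
    rw [Finset.mem_range] at hi
    rw [← pow_add]
    congr 1
    omega
  rw [Finset.sum_congr rfl h, Finset.sum_const, Finset.card_range, nsmul_eq_mul]
  push_cast
  rfl

theorem j04_hh2 (x P : ℂ) (j : ℕ) :
    hh x (x * P) j = x ^ j * ∑ i ∈ Finset.range (j + 1), P ^ i := by
  unfold hh
  have h : ∀ i ∈ Finset.range (j + 1), x ^ i * (x * P) ^ (j - i) = x ^ j * P ^ (j + 1 - 1 - i) :=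
    fun i hi => by
      rw [Finset.mem_range] at hi
      rw [mul_pow, ← mul_assoc, ← pow_add]
      congr 2
      omega
  rw [Finset.sum_congr rfl h, ← Finset.mul_sum, Finset.sum_range_reflect fun i => P ^ i]

theorem j04_geo {P : ℂ} (hP : P ≠ 0) (k : ℕ) :
    P ^ k * ∑ a ∈ Finset.Icc 1 k, (P⁻¹) ^ a = ∑ i ∈ Finset.range k, P ^ i := by
  induction k with
  | zero => simp
  | succ k ih =>
    rw [Finset.sum_Icc_succ_top (by omega), Finset.sum_range_succ', mul_add]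
    have h1 : P ^ (k + 1) * (P⁻¹) ^ (k + 1) = 1 := by
      rw [← mul_pow, mul_inv_cancel₀ hP, one_pow]
    have h2 : ∑ i ∈ Finset.range k, P ^ (i + 1) = P * ∑ i ∈ Finset.range k, P ^ i := by
      rw [Finset.mul_sum]
      exact Finset.sum_congr rfl fun i _ => by ring
    rw [h1, h2, ← ih, pow_zero]
    ring

theorem j04_fac {n p : ℕ} (hp : p ∈ n.primeFactors) :
    (p : ℂ) ≠ 0 ∧ ∃ k, n.factorization p = k + 1 := by
  have h1 := Nat.prime_of_mem_primeFactors hp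
  refine ⟨by exact_mod_cast h1.ne_zero, ?_⟩
  have h2 : n.factorization p ≠ 0 := by
    rw [← Finsupp.mem_support_iff, Nat.support_factorization]
    exact hp
  exact ⟨n.factorization p - 1, by omega⟩

theorem kern1 (s : ℂ) {m n : ℕ} (hm : 1 ≤ m) (hn : 1 ≤ n) (hmn : Nat.Coprime m n) :
    ∏ p ∈ (m * n).primeFactors, rloc (zp 0 p) (zp 0 p) (zp s p) (m.factorization p) (n.factorization p) =
      (n : ℂ) ^ (1 / 2 + s) * (m : ℂ) ^ (-(1 / 2 + s)) * ((n : ℂ) ^ (-(1 + s)) * fA n s) := by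
  have hn0 : (n : ℂ) ≠ 0 := by exact_mod_cast (by omega : n ≠ 0)
  rw [j04_asm (fun p => zp 0 p) (fun p => zp 0 p) (fun p => zp s p)
    (fun p => (n.factorization p : ℂ) + 1 - (n.factorization p : ℂ) * (p : ℂ) ^ (-(1 + s)))
    (-(1 / 2 + s)) (-(1 / 2)) hm hn hmn, fA_prod (by omega : n ≠ 0)]
  · have h1 : (n : ℂ) ^ (-(1 / 2) : ℂ) = (n : ℂ) ^ (1 / 2 + s) * (n : ℂ) ^ (-(1 + s)) := by
      rw [← Complex.cpow_add _ _ hn0]
      congr 1
      ring
    rw [h1]
    ring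
  · intro p
    unfold zp
    congr 1
    ring
  · intro p hp
    obtain ⟨hp0, k, hk⟩ := j04_fac hp
    have hxy : zp 0 p * zp s p = (p : ℂ) ^ (-(1 + s)) := by
      unfold zp
      rw [← Complex.cpow_add _ _ hp0]
      congr 1
      ring
    have hx : (p : ℂ) ^ (-(1 / 2) : ℂ) = zp 0 p := by
      unfold zp
      rw [sub_zero]
    rw [hk, j04_rloc, j04_hh1, j04_hh1, hx, ← hxy]
    push_cast
    ring

theorem kern2 (s : ℂ) {m n : ℕ} (hm : 1 ≤ m) (hn : 1 ≤ n) (hmn : Nat.Coprime m n) :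
    ∏ p ∈ (m * n).primeFactors, rloc (zp 0 p) (zp (-s) p) (zp s p) (m.factorization p) (n.factorization p) =
      (n : ℂ) ^ (1 / 2 + s) * (m : ℂ) ^ (-(1 / 2 + s)) * (1 / n * fB n s) := by
  have hn0 : (n : ℂ) ≠ 0 := by exact_mod_cast (by omega : n ≠ 0)
  rw [j04_asm (fun p => zp 0 p) (fun p => zp (-s) p) (fun p => zp s p)
    (fun p => 1 + (1 - (p : ℂ)⁻¹) * ∑ a ∈ Finset.Icc 1 (n.factorization p), ((p : ℂ) ^ (-s)) ^ a)
    (-(1 / 2 + s)) (-(1 / 2) + s) hm hn hmn, fB_prod (by omega : n ≠ 0)]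
  · have h1 : (n : ℂ) ^ (-(1 / 2) + s : ℂ) = (n : ℂ) ^ (1 / 2 + s) * (1 / n) := by
      have h2 : (1 : ℂ) / n = (n : ℂ) ^ (-1 : ℂ) := by rw [Complex.cpow_neg_one, one_div]
      rw [h2, ← Complex.cpow_add _ _ hn0]
      congr 1
      ring
    rw [h1]
    ring
  · intro p
    unfold zp
    congr 1
    ring
  · intro p hp
    obtain ⟨hp0, k, hk⟩ := j04_fac hp
    have hP0 : (p : ℂ) ^ s ≠ 0 := by
      rw [Ne, Complex.cpow_eq_zero_iff]
      exact fun h => hp0 h.1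
    have hu : zp (-s) p = zp 0 p * (p : ℂ) ^ s := by
      unfold zp
      rw [← Complex.cpow_add _ _ hp0]
      congr 1
      ring
    have huy : zp (-s) p * zp s p = (p : ℂ)⁻¹ := by
      unfold zp
      rw [← Complex.cpow_add _ _ hp0, ← Complex.cpow_neg_one]
      congr 1
      ring
    have hv : (p : ℂ) ^ (-(1 / 2) + s : ℂ) = zp (-s) p := by
      unfold zp
      rw [sub_neg_eq_add]
    have hs : (p : ℂ) ^ (-s) = ((p : ℂ) ^ s)⁻¹ := Complex.cpow_neg _ _
    rw [hk, j04_rloc, hv, hs]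
    have h3 : zp 0 p * zp (-s) p * zp s p = zp 0 p * (p : ℂ)⁻¹ := by
      rw [mul_assoc, huy]
    rw [h3, hu, j04_hh2, j04_hh2]
    have h4 := j04_geo hP0 (k + 1)
    rw [Finset.sum_range_succ (fun i => ((p : ℂ) ^ s) ^ i) (k + 1), ← h4, mul_pow]
    ring

theorem kern3 (s : ℂ) {m n : ℕ} (hm : 1 ≤ m) (hn : 1 ≤ n) (hmn : Nat.Coprime m n) :
    ∏ p ∈ (m * n).primeFactors, rloc (zp (-s) p) (zp (-s) p) (zp s p) (m.factorization p) (n.factorization p) =
      (n : ℂ) ^ (1 / 2 + s) * (m : ℂ) ^ (-(1 / 2 + s)) * (1 / n * fB n 0) := by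
  have hn0 : (n : ℂ) ≠ 0 := by exact_mod_cast (by omega : n ≠ 0)
  rw [j04_asm (fun p => zp (-s) p) (fun p => zp (-s) p) (fun p => zp s p)
    (fun p => 1 + (1 - (p : ℂ)⁻¹) * ∑ a ∈ Finset.Icc 1 (n.factorization p), ((p : ℂ) ^ (-0 : ℂ)) ^ a)
    (-(1 / 2 + s)) (-(1 / 2) + s) hm hn hmn, fB_prod (by omega : n ≠ 0)]
  · have h1 : (n : ℂ) ^ (-(1 / 2) + s : ℂ) = (n : ℂ) ^ (1 / 2 + s) * (1 / n) := by
      have h2 : (1 : ℂ) / n = (n : ℂ) ^ (-1 : ℂ) := by rw [Complex.cpow_neg_one, one_div]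
      rw [h2, ← Complex.cpow_add _ _ hn0]
      congr 1
      ring
    rw [h1]
    ring
  · intro p
    unfold zp
    congr 1
    ring
  · intro p hp
    obtain ⟨hp0, k, hk⟩ := j04_fac hp
    have huy : zp (-s) p * zp s p = (p : ℂ)⁻¹ := by
      unfold zp
      rw [← Complex.cpow_add _ _ hp0, ← Complex.cpow_neg_one]
      congr 1
      ring
    have hv : (p : ℂ) ^ (-(1 / 2) + s : ℂ) = zp (-s) p := by
      unfold zp
      rw [sub_neg_eq_add]
    have h0 : (p : ℂ) ^ (-0 : ℂ) = 1 := by rw [neg_zero, Complex.cpow_zero]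
    rw [hk, j04_rloc, j04_hh1, j04_hh1, hv, h0]
    have h3 : zp (-s) p * zp (-s) p * zp s p = zp (-s) p * (p : ℂ)⁻¹ := by
      rw [mul_assoc, huy]
    rw [h3]
    have h4 : ∑ a ∈ Finset.Icc 1 (k + 1), (1 : ℂ) ^ a = (k : ℂ) + 1 := by
      simp only [one_pow, Finset.sum_const, Nat.card_Icc, nsmul_eq_mul]
      push_cast
      ring
    rw [h4]
    push_cast
    ring

end Pool.Agent.LibPH
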