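import Mathlib
import Pool.Agent.LibPH.J04

/-! ROW J05: the functional of a polynomial: `∑ c(q) k0(q, s) = Jt y Φ s`, `y = e^L`.

`JP` is linear in `Φ` (finite sums of continuous functions on a compact space), JP_mono (PH 20) for each monomial
(`Adm (-s) L`, `Adm 0 L` from `Adm s L`; primes of `m, n` are in `prm 1 (exp L)`), rloc_gcd, kern1-3, definition of `kk`, `Hn`. -/

set_option autoImplicit false

namespace Pool.Agent.LibPH

open MeasureTheory Filter Topology Complex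
open scoped ComplexConjugate
open Pool.Agent.LibMM99 Pool.Agent.LibTG78 Pool.Agent.LibPH45

theorem j05_adm_neg {s : ℂ} {L : ℝ} (h : Adm s L) : Adm (-s) L := ⟨h.1, by rw [norm_neg]; exact h.2⟩

theorem j05_adm_conj {s : ℂ} {L : ℝ} (h : Adm s L) : Adm (conj s) L :=
  ⟨h.1, by rw [RCLike.norm_conj]; exact h.2⟩

theorem j05_adm_zero {s : ℂ} {L : ℝ} (h : Adm s L) : Adm 0 L := ⟨h.1, by
  have := h.1
  rw [norm_zero]; positivity⟩

/-- linearity of the main functional -/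
theorem j05_lin {L : ℝ} {α β γ : ℂ} (hα : Adm α L) (hβ : Adm β L) (hγ : Adm γ L)
    (S : Finset (ℕ × ℕ)) (c : ℕ × ℕ → ℂ) {Φ : Om → ℂ}
    (hΦ : ∀ x, Φ x = ∑ q ∈ S, c q * ch x q.1 * conj (ch x q.2)) :
    JP α β γ (Real.exp L) Φ =
      ∑ q ∈ S, c q * JP α β γ (Real.exp L) (fun x => ch x q.1 * conj (ch x q.2)) := by
  unfold JP
  have c1 : Continuous (ZZ α 1 (Real.exp L)) := D2b_cont_ZZ hα _ _
  have c2 : Continuous (ZZ β 1 (Real.exp L)) := D2b_cont_ZZ hβ _ _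
  have c3 : Continuous (ZZ (conj γ) 1 (Real.exp L)) := D2b_cont_ZZ (j05_adm_conj hγ) _ _
  have cZ : Continuous fun x => ZZ α 1 (Real.exp L) x * ZZ β 1 (Real.exp L) x *
      conj (ZZ (conj γ) 1 (Real.exp L) x) :=
    (c1.mul c2).mul (Complex.continuous_conj.comp c3)
  have h1 : (fun x => ZZ α 1 (Real.exp L) x * ZZ β 1 (Real.exp L) x *
      conj (ZZ (conj γ) 1 (Real.exp L) x) * Φ x) = fun x => ∑ q ∈ S,
        c q * (ZZ α 1 (Real.exp L) x * ZZ β 1 (Real.exp L) x *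
          conj (ZZ (conj γ) 1 (Real.exp L) x) * (ch x q.1 * conj (ch x q.2))) := by
    funext x
    rw [hΦ x, Finset.mul_sum]
    exact Finset.sum_congr rfl fun q _ => by ring
  rw [h1, integral_finsetSum]
  · rw [Finset.mul_sum]
    refine Finset.sum_congr rfl fun q _ => ?_
    rw [integral_const_mul]
    ring
  · intro q _
    refine (integrable_of_continuous ?_).const_mul (c q)
    exact cZ.mul ((continuous_ch q.1).mul (Complex.continuous_conj.comp (continuous_ch q.2)))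

theorem j05_sub {L : ℝ} {n : ℕ} (h : ∀ p ∈ n.primeFactors, (p : ℝ) ≤ Real.exp L) :
    n.primeFactors ⊆ prm 1 (Real.exp L) := by
  intro p hp
  have hpp := Nat.prime_of_mem_primeFactors hp
  exact D2b_mem_prm.2 ⟨hpp, by exact_mod_cast hpp.one_lt, h p hp⟩

theorem Jt_eq {s : ℂ} {L : ℝ} (h : Adm s L) (S : Finset (ℕ × ℕ)) (c : ℕ × ℕ → ℂ)
    (hS : ∀ q ∈ S, 1 ≤ q.1 ∧ 1 ≤ q.2 ∧
      (∀ p ∈ q.1.primeFactors, (p : ℝ) ≤ Real.exp L) ∧ (∀ p ∈ q.2.primeFactors, (p : ℝ) ≤ Real.exp L))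
    {Φ : Om → ℂ} (hΦ : ∀ x, Φ x = ∑ q ∈ S, c q * ch x q.1 * conj (ch x q.2)) :
    ∑ q ∈ S, c q * k0 q s = Jt (Real.exp L) Φ s := by
  have h0 := j05_adm_zero h
  have hn := j05_adm_neg h
  unfold Jt
  rw [j05_lin h0 h0 h S c hΦ, j05_lin h0 hn h S c hΦ, j05_lin hn hn h S c hΦ,
    Finset.mul_sum, Finset.mul_sum, ← Finset.sum_sub_distrib, ← Finset.sum_add_distrib]
  refine Finset.sum_congr rfl fun q hq => ?_
  obtain ⟨h1, h2, h3, h4⟩ := hS q hq
  have e1 := JP_mono h0 h0 h (m := q.1) (n := q.2) (by omega) (by omega) (j05_sub h3) (j05_sub h4)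
  have e2 := JP_mono h0 hn h (m := q.1) (n := q.2) (by omega) (by omega) (j05_sub h3) (j05_sub h4)
  have e3 := JP_mono hn hn h (m := q.1) (n := q.2) (by omega) (by omega) (j05_sub h3) (j05_sub h4)
  have hg : 0 < Nat.gcd q.1 q.2 := Nat.gcd_pos_of_pos_left _ h1
  have hm' : 1 ≤ q.1 / Nat.gcd q.1 q.2 := Nat.div_pos (Nat.gcd_le_left _ h1) hg
  have hn' : 1 ≤ q.2 / Nat.gcd q.1 q.2 := Nat.div_pos (Nat.gcd_le_right _ h2) hg
  have hcop : Nat.Coprime (q.1 / Nat.gcd q.1 q.2) (q.2 / Nat.gcd q.1 q.2) :=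
    Nat.coprime_div_gcd_div_gcd hg
  rw [rloc_gcd (fun p => zp 0 p) (fun p => zp 0 p) (fun p => zp s p) h1 h2,
    kern1 s hm' hn' hcop] at e1
  rw [rloc_gcd (fun p => zp 0 p) (fun p => zp (-s) p) (fun p => zp s p) h1 h2,
    kern2 s hm' hn' hcop] at e2
  rw [rloc_gcd (fun p => zp (-s) p) (fun p => zp (-s) p) (fun p => zp s p) h1 h2,
    kern3 s hm' hn' hcop] at e3
  rw [e1, e2, e3]
  unfold k0 kk Hn
  ring

end Pool.Agent.LibPH
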