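import Mathlib
import Pool.Agent.LibPH.X07
import Pool.Agent.LibPH.X12a
import Pool.Agent.LibPH.J06a

/-! ROW J06 (kk_analytic, circle_main): the Mellin transform of the weight, analyticity of `kk`, and the main term.

Mw: `Mw η` is analytic on `Re s > -1` (differentiation under the integral; compact support, or `mellin_differentiableAt...`),
`‖Mw η s‖ ≤ ∫_0^2 max(x^{-1/4}, x^{1/4}) ≤ 8` for `‖s‖ ≤ 1/4`; `‖Mw η s - 1‖ ≤ η + C‖s‖` (`|x^s - 1| ≤ ‖s‖ |log x| x^{-1/4}∨..`).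
circle_main: `f(s) = Z0 s (2π)^{-s} J(s) T^{1+s} Mw η s`, `C2_circle` with `r = 1/log T`; on the circle `|T^s| ≤ e`; replace
`Z0 s (2π)^{-s} J(s) Mw η s` by the constant `a` (error `≤ C (ε' + |a|(η + 1/log T))`), and `C2 (fun s => a T^{1+s}) = a T (log T)²/2`. -/

set_option autoImplicit false

namespace Pool.Agent.LibPH

open MeasureTheory Set Filter Topology Complex
open scoped ComplexConjugate

theorem j06_natpow {n : ℕ} (hn : 1 ≤ n) {g : ℂ → ℂ} {s : ℂ} (hg : AnalyticAt ℂ g s) :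
    AnalyticAt ℂ (fun z => (n : ℂ) ^ g z) s := by
  apply AnalyticAt.cpow analyticAt_const hg
  rw [Complex.natCast_mem_slitPlane]
  omega

theorem kk_analytic {m n : ℕ} (hm : 1 ≤ m) (hn : 1 ≤ n) (s : ℂ) : AnalyticAt ℂ (kk m n) s := by
  have h1 : AnalyticAt ℂ (fun z : ℂ => (n : ℂ) ^ (1 / 2 + z)) s :=
    j06_natpow hn (analyticAt_const.add analyticAt_id)
  have h2 : AnalyticAt ℂ (fun z : ℂ => (m : ℂ) ^ (-(1 / 2 + z))) s :=
    j06_natpow hm (analyticAt_const.add analyticAt_id).neg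
  exact (h1.mul h2).mul (Hn_analytic hn s)

theorem j06_cpow {T : ℝ} (hT : 0 < T) (s : ℂ) :
    (T : ℂ) ^ (1 + s) = (T : ℂ) * cexp (s * (Real.log T : ℝ)) := by
  have h : (T : ℂ) ≠ 0 := by exact_mod_cast hT.ne'
  rw [Complex.cpow_add _ _ h, Complex.cpow_one, Complex.cpow_def_of_ne_zero h, ← Complex.ofReal_log hT.le,
    mul_comm s]

theorem j06_g : ∃ K : ℝ, 0 ≤ K ∧ ∀ s : ℂ, ‖s‖ ≤ 1/4 →
    ‖Z0 s * ((2 * Real.pi : ℝ) : ℂ) ^ (-s) - 1‖ ≤ K * ‖s‖ ∧ ‖Z0 s * ((2 * Real.pi : ℝ) : ℂ) ^ (-s)‖ ≤ 1 + K := by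
  set g : ℂ → ℂ := fun s => Z0 s * ((2 * Real.pi : ℝ) : ℂ) ^ (-s) with hg
  have hpi : (0:ℝ) < 2 * Real.pi := by positivity
  have hd : Differentiable ℂ g := by
    intro s
    apply DifferentiableAt.mul (Z0_analytic s).differentiableAt
    apply DifferentiableAt.const_cpow (by fun_prop)
    left
    exact_mod_cast hpi.ne'
  have hc : Continuous (deriv g) := (hd.contDiff (n := 1)).continuous_deriv le_rfl
  obtain ⟨K, hK⟩ := (isCompact_closedBall (0:ℂ) (1/4)).exists_bound_of_continuousOn hc.continuousOn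
  have hK0 : 0 ≤ K := (norm_nonneg _).trans (hK 0 (by simp))
  have h0 : g 0 = 1 := by
    rw [hg]
    simp only [neg_zero, Complex.cpow_zero, mul_one]
    exact Z0_zero
  have hlip : ∀ s : ℂ, ‖s‖ ≤ 1/4 → ‖g s - 1‖ ≤ K * ‖s‖ := by
    intro s hs
    have h := Convex.norm_image_sub_le_of_norm_deriv_le (𝕜 := ℂ) (f := g) (s := Metric.closedBall (0:ℂ) (1/4))
      (C := K) (x := 0) (y := s) (fun x _ => hd x) (fun x hx => hK x hx) (convex_closedBall _ _) (by simp)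
      (by simpa using hs)
    rwa [h0, sub_zero] at h
  refine ⟨K, hK0, fun s hs => ⟨hlip s hs, ?_⟩⟩
  have h1 : ‖g s‖ ≤ ‖g s - 1‖ + ‖(1:ℂ)‖ := by
    have := norm_add_le (g s - 1) 1
    rwa [sub_add_cancel] at this
  have h2 := hlip s hs
  rw [norm_one] at h1
  have h3 : K * ‖s‖ ≤ K := by nlinarith [norm_nonneg s]
  linarith

theorem j06_log {T : ℝ} (hT : 100 ≤ T) : 4 ≤ Real.log T := by
  rw [Real.le_log_iff_exp_le (by linarith)]
  have h1 := Real.exp_one_lt_d9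
  have h2 : Real.exp 4 = Real.exp 1 ^ 4 := by
    rw [← Real.exp_nat_mul]
    norm_num
  have h3 : Real.exp 1 ^ 4 ≤ (2.7182818286:ℝ) ^ 4 := pow_le_pow_left₀ (Real.exp_pos _).le h1.le 4
  have h4 : (2.7182818286:ℝ) ^ 4 ≤ 100 := by norm_num
  linarith

theorem circle_main : ∃ C : ℝ, 1 ≤ C ∧ ∀ (T η : ℝ) (J : ℂ → ℂ) (a ε : ℝ), 100 ≤ T → 0 < η → η ≤ 1 → 0 ≤ a →
    (∀ s : ℂ, ‖s‖ ≤ 1/4 → AnalyticAt ℂ J s) → (∀ s : ℂ, ‖s‖ ≤ 1 / Real.log T → ‖J s - a‖ ≤ ε) →
    ‖C2 (fun s => Z0 s * ((2 * Real.pi : ℝ) : ℂ) ^ (-s) * J s * (T : ℂ) ^ (1 + s) * Mw η s) -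
      ((a * T * (Real.log T) ^ 2 / 2 : ℝ) : ℂ)‖ ≤ C * T * (Real.log T) ^ 2 * (ε + a * (η + 1 / Real.log T)) := by
  obtain ⟨K, hK0, hK⟩ := j06_g
  obtain ⟨Cm, hCm, hMw⟩ := Mw_near
  set C : ℝ := Real.exp 1 * ((1 + K) * (2 + Cm) + K) with hCdef
  refine ⟨max C 1, le_max_right _ _, ?_⟩
  intro T η J a ε hT hη hη1 ha hJ hJa
  set l := Real.log T with hl
  have hl4 : 4 ≤ l := j06_log hT
  have hl0 : 0 < l := by linarith
  have hT0 : 0 < T := by linarith
  have hr0 : 0 < 1 / l := by positivity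
  have hr4 : 1 / l ≤ 1/4 := by
    rw [div_le_div_iff₀ hl0 (by norm_num)]
    linarith
  have hε : 0 ≤ ε := (norm_nonneg _).trans (hJa 0 (by rw [norm_zero]; exact hr0.le))
  set A : ℂ → ℂ := fun s => Z0 s * ((2 * Real.pi : ℝ) : ℂ) ^ (-s) * J s * Mw η s with hA
  have hAan : ∀ s : ℂ, ‖s‖ ≤ 1/4 → AnalyticAt ℂ A s := by
    intro s hs
    have h1 : AnalyticAt ℂ (fun z : ℂ => ((2 * Real.pi : ℝ) : ℂ) ^ (-z)) s := by
      apply AnalyticAt.cpow analyticAt_const analyticAt_id.neg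
      rw [Complex.ofReal_mem_slitPlane]
      positivity
    exact (((Z0_analytic s).mul h1).mul (hJ s hs)).mul (Mw_analytic hη hη1 hs)
  have hexp : ∀ s : ℂ, AnalyticAt ℂ (fun z : ℂ => cexp (z * (l : ℝ))) s := by
    intro s
    exact (analyticAt_id.mul analyticAt_const).cexp
  have hf : (fun s => Z0 s * ((2 * Real.pi : ℝ) : ℂ) ^ (-s) * J s * (T : ℂ) ^ (1 + s) * Mw η s)
      = fun s => (A s - a) * (T * cexp (s * (l : ℝ))) + (a * T : ℂ) * cexp (s * (l : ℝ)) := by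
    funext s
    rw [j06_cpow hT0 s, hA]
    ring
  have h1an : ∀ s : ℂ, ‖s‖ ≤ 1/4 → AnalyticAt ℂ (fun s => (A s - a) * (T * cexp (s * (l : ℝ)))) s := by
    intro s hs
    exact ((hAan s hs).sub analyticAt_const).mul (analyticAt_const.mul (hexp s))
  have h2an : AnalyticAt ℂ (fun s : ℂ => (a * T : ℂ) * cexp (s * (l : ℝ))) 0 :=
    analyticAt_const.mul (hexp 0)
  rw [hf, C2_add (h1an 0 (by simp)) h2an]
  have h2 : C2 (fun s : ℂ => (a * T : ℂ) * cexp (s * (l : ℝ))) = ((a * T * l ^ 2 / 2 : ℝ) : ℂ) := by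
    rw [C2_mul_exp (A := fun _ => (a * T : ℂ)) analyticAt_const (l : ℝ)]
    have hc : C2 (fun _ : ℂ => (a * T : ℂ)) = 0 := by
      unfold C2
      simp
    rw [hc, deriv_const]
    push_cast
    ring
  rw [h2, add_sub_cancel_right]
  have hbound : ∀ s : ℂ, ‖s‖ = 1 / l → ‖(A s - a) * (T * cexp (s * (l : ℝ)))‖ ≤
      C * T * (ε + a * (η + 1 / l)) := by
    intro s hs
    have hs4 : ‖s‖ ≤ 1/4 := by rw [hs]; exact hr4
    obtain ⟨g1, g2⟩ := hK s hs4
    have m1 := hMw η hη hη1 s hs4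
    have j1 := hJa s hs.le
    set g := Z0 s * ((2 * Real.pi : ℝ) : ℂ) ^ (-s) with hg
    have m2 : ‖Mw η s‖ ≤ 2 + Cm := by
      have : ‖Mw η s‖ ≤ ‖Mw η s - 1‖ + ‖(1:ℂ)‖ := by
        have := norm_add_le (Mw η s - 1) 1
        rwa [sub_add_cancel] at this
      rw [norm_one] at this
      have h3 : Cm * ‖s‖ ≤ Cm := by nlinarith [norm_nonneg s]
      linarith
    have hdec : A s - a = g * Mw η s * (J s - a) + a * (g * (Mw η s - 1) + (g - 1)) := by
      rw [hA]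
      simp only
      rw [← hg]
      ring
    have hAb : ‖A s - a‖ ≤ ((1 + K) * (2 + Cm) + K) * (ε + a * (η + 1 / l)) := by
      rw [hdec]
      refine (norm_add_le _ _).trans ?_
      rw [norm_mul (g * Mw η s), norm_mul g, norm_mul (a : ℂ), Complex.norm_real, Real.norm_eq_abs,
        abs_of_nonneg ha]
      have t1 : ‖g‖ * ‖Mw η s‖ * ‖J s - a‖ ≤ (1 + K) * (2 + Cm) * ε := by
        have : 0 ≤ 1 + K := by linarith
        have : 0 ≤ 2 + Cm := by linarith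
        gcongr
      have t2 : ‖g * (Mw η s - 1) + (g - 1)‖ ≤ (1 + K) * (η + Cm * (1 / l)) + K * (1 / l) := by
        refine (norm_add_le _ _).trans ?_
        rw [norm_mul]
        rw [hs] at m1 g1
        have : 0 ≤ 1 + K := by linarith
        gcongr
      have t3 : (1 + K) * (η + Cm * (1 / l)) + K * (1 / l) ≤ ((1 + K) * (2 + Cm) + K) * (η + 1 / l) := by
        have e1 : 0 ≤ (1 + K) * η := by positivity
        have e2 : 0 ≤ (1 + K) * Cm * η := by positivity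
        have e3 : 0 ≤ (1 + K) * (1 / l) := by positivity
        have e4 : 0 ≤ K * η := by positivity
        nlinarith
      have t4 : a * ‖g * (Mw η s - 1) + (g - 1)‖ ≤ a * (((1 + K) * (2 + Cm) + K) * (η + 1 / l)) :=
        mul_le_mul_of_nonneg_left (t2.trans t3) ha
      have t5 : (1 + K) * (2 + Cm) * ε ≤ ((1 + K) * (2 + Cm) + K) * ε := by
        have : 0 ≤ K * ε := by positivity
        linarith
      nlinarith
    have hexpb : ‖cexp (s * (l : ℝ))‖ ≤ Real.exp 1 := by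
      rw [Complex.norm_exp]
      apply Real.exp_le_exp.2
      rw [Complex.re_mul_ofReal]
      have h5 : s.re ≤ 1 / l := by
        rw [← hs]
        exact (Complex.re_le_norm s)
      calc s.re * l ≤ 1 / l * l := mul_le_mul_of_nonneg_right h5 hl0.le
        _ = 1 := by field_simp
    rw [norm_mul, norm_mul, Complex.norm_real, Real.norm_eq_abs, abs_of_pos hT0]
    have hpos : 0 ≤ ((1 + K) * (2 + Cm) + K) * (ε + a * (η + 1 / l)) := (norm_nonneg _).trans hAb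
    calc ‖A s - a‖ * (T * ‖cexp (s * (l : ℝ))‖)
        ≤ (((1 + K) * (2 + Cm) + K) * (ε + a * (η + 1 / l))) * (T * Real.exp 1) := by gcongr
      _ = C * T * (ε + a * (η + 1 / l)) := by rw [hCdef]; ring
  have hfin := C2_le hr0 (fun s hs => h1an s (hs.trans hr4)) hbound
  refine hfin.trans ?_
  have hE : 0 ≤ ε + a * (η + 1 / l) := by positivity
  calc C * T * (ε + a * (η + 1 / l)) / (1 / l) ^ 2 = C * (T * l ^ 2 * (ε + a * (η + 1 / l))) := by
        field_simp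
    _ ≤ max C 1 * (T * l ^ 2 * (ε + a * (η + 1 / l))) := by
        gcongr
        exact le_max_left _ _
    _ = _ := by ring

end Pool.Agent.LibPH
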