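import Mathlib
import Pool.Agent.LibPH.W03
import Pool.Agent.LibPH.J05
import Pool.Agent.LibPH.J06

/-! ROW A02: the smoothed (2,1)-moment of a short polynomial.

smooth_rep (LibTG78/D1.lean) with `a = δ log T`; `ch (xt t) m conj (ch (xt t) n) = tw m n t` (LibTG78 D4_ch, TW.tw_e) `= tw m' n' t`
(D4_e_gcd), smooth21 for `(m', n')`, `∑ ‖c q‖ ≤ T^δ`, linearity of `C2` (X00) and circle_main with `J s = ∑ c q k0 q s`
(analytic by kk_analytic), `= Jt y Φ s` on `‖s‖ ≤ 1/log T` (Jt_eq; `Adm s L` since `20 L ≤ log T`). -/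

set_option autoImplicit false

namespace Pool.Agent.LibPH

open MeasureTheory Set Filter Topology Complex
open scoped ComplexConjugate
open Pool.Agent.LibMM99 Pool.Agent.LibTG78 Pool.Agent.LibPH45

theorem a02_tw (m n : ℕ) (t : ℝ) : tw m n t = TW.tw_e m n t := by
  unfold tw TW.tw_e
  rw [neg_mul]

theorem a02_red {m n : ℕ} (hm : 1 ≤ m) (hn : 1 ≤ n) : 1 ≤ m / Nat.gcd m n ∧ 1 ≤ n / Nat.gcd m n ∧
    Nat.Coprime (m / Nat.gcd m n) (n / Nat.gcd m n) ∧ m / Nat.gcd m n ≤ m ∧ n / Nat.gcd m n ≤ n ∧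
    ∀ t : ℝ, ch (xt t) m * conj (ch (xt t) n) = tw (m / Nat.gcd m n) (n / Nat.gcd m n) t := by
  have hg : 0 < Nat.gcd m n := Nat.gcd_pos_of_pos_left n hm
  have h1 : 1 ≤ m / Nat.gcd m n := Nat.div_pos (Nat.le_of_dvd hm (Nat.gcd_dvd_left m n)) hg
  have h2 : 1 ≤ n / Nat.gcd m n := Nat.div_pos (Nat.le_of_dvd hn (Nat.gcd_dvd_right m n)) hg
  refine ⟨h1, h2, Nat.coprime_div_gcd_div_gcd hg, Nat.div_le_self _ _, Nat.div_le_self _ _, fun t => ?_⟩
  rw [D4_ch hm hn, a02_tw]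
  exact D4_e_gcd hg h1 h2 (Nat.mul_div_cancel' (Nat.gcd_dvd_left m n)).symm
    (Nat.mul_div_cancel' (Nat.gcd_dvd_right m n)).symm t

theorem a02_z21_cont : Continuous z21 := by
  have h := LibZM.continuous_zeta_crit
  have h' : Continuous fun t : ℝ => riemannZeta (1 / 2 + t * I) := h
  unfold z21
  exact (h'.pow 2).mul (Complex.continuous_conj.comp h')

theorem a02_int {η T : ℝ} (hη : 0 < η) (hη1 : η ≤ 1) (hT : 0 < T) {g : ℝ → ℂ} (hg : Continuous g) :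
    IntegrableOn (fun t : ℝ => z21 t * g t * ((Wt η (t / T) : ℝ) : ℂ)) (Ioi 0) := by
  have hc : Continuous fun t : ℝ => z21 t * g t * ((Wt η (t / T) : ℝ) : ℂ) :=
    (a02_z21_cont.mul hg).mul (Complex.continuous_ofReal.comp ((Wt_cont η).comp (continuous_id.div_const T)))
  have h1 : IntegrableOn (fun t : ℝ => z21 t * g t * ((Wt η (t / T) : ℝ) : ℂ)) (Ioc 0 (2 * T)) :=
    (hc.integrableOn_Icc).mono_set Ioc_subset_Icc_self
  have h2 : IntegrableOn (fun t : ℝ => z21 t * g t * ((Wt η (t / T) : ℝ) : ℂ)) (Ioi (2 * T)) := by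
    refine IntegrableOn.congr_fun (f := fun _ : ℝ => (0:ℂ)) integrableOn_zero (fun t ht => ?_) measurableSet_Ioi
    have ht' : 2 * T < t := ht
    have h3 : Wt η (t / T) = 0 := Wt_zero hη (by
      rw [le_div_iff₀ hT]
      nlinarith)
    rw [h3]
    simp
  have h3 : Ioi (0:ℝ) = Ioc 0 (2 * T) ∪ Ioi (2 * T) := (Ioc_union_Ioi_eq_Ioi (by linarith)).symm
  rw [h3]
  exact h1.union h2

theorem smooth_moment : ∃ δ C T0 : ℝ, 0 < δ ∧ 1 ≤ C ∧ 100 ≤ T0 ∧ ∀ (T L : ℝ) (Φ : Om → ℂ) (a ε : ℝ), T0 ≤ T → 1 ≤ L →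
    20 * L ≤ Real.log T → IsPoly (δ * Real.log T) Φ → DependsOn Φ (coo 1 (Real.exp L)) → 0 ≤ a → 0 ≤ ε →
    (∀ s : ℂ, ‖s‖ ≤ 1 / Real.log T → ‖Jt (Real.exp L) Φ s - a‖ ≤ ε) →
    ‖(∫ t in Ioi (0:ℝ), z21 t * Φ (xt t) * ((Wt ((Real.log T) ^ (-20 : ℝ)) (t / T) : ℝ) : ℂ)) -
      ((a * T * (Real.log T) ^ 2 / 2 : ℝ) : ℂ)‖ ≤ C * T * (Real.log T) ^ 2 * (ε + (a + 1) / Real.log T) := by
  obtain ⟨δ, C1, T1, hδ, hδ1, hC1, hT1, h21⟩ := smooth21
  obtain ⟨C3, hC3, hcm⟩ := circle_main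
  have hev : ∀ᶠ T : ℝ in atTop, T ^ (-δ) ≤ (Real.log T) ^ (-20 : ℝ) := by
    have h1 : Tendsto (fun T : ℝ => (Real.log T) ^ (20:ℝ) / T ^ δ) atTop (𝓝 0) :=
      (isLittleO_log_rpow_rpow_atTop 20 hδ).tendsto_div_nhds_zero
    filter_upwards [h1.eventually (gt_mem_nhds (zero_lt_one)), eventually_gt_atTop 1] with T h2 h3
    have hl : 0 < Real.log T := Real.log_pos h3
    have hT : 0 < T := by linarith
    have hTd : 0 < T ^ δ := Real.rpow_pos_of_pos hT _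
    rw [div_lt_one hTd] at h2
    rw [Real.rpow_neg hT.le, Real.rpow_neg hl.le]
    exact inv_anti₀ (Real.rpow_pos_of_pos hl _) h2.le
  obtain ⟨T2, hT2⟩ := eventually_atTop.1 hev
  refine ⟨δ, C1 + 2 * C3, max T1 (max T2 100), hδ, by linarith, (le_max_right _ _).trans (le_max_right _ _), ?_⟩
  intro T L Φ a ε hT hL hLT hΦ hd ha hε hJ
  have hTT1 : T1 ≤ T := (le_max_left _ _).trans hT
  have hTT2 : T2 ≤ T := (le_max_left _ _).trans ((le_max_right _ _).trans hT)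
  have hT100 : 100 ≤ T := (le_max_right _ _).trans ((le_max_right _ _).trans hT)
  have hTp : 0 < T := by linarith
  have hlog : 20 ≤ Real.log T := by linarith
  have hlogp : 0 < Real.log T := by linarith
  obtain ⟨η, hη⟩ : ∃ η : ℝ, η = (Real.log T) ^ (-20 : ℝ) := ⟨_, rfl⟩
  have hη0 : 0 < η := by rw [hη]; exact Real.rpow_pos_of_pos hlogp _
  have hηinv : η ≤ 1 / Real.log T := by
    rw [hη, one_div, ← Real.rpow_neg_one]
    exact Real.rpow_le_rpow_of_exponent_le (by linarith) (by norm_num)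
  have hη1 : η ≤ 1 := hηinv.trans (by rw [div_le_one hlogp]; linarith)
  have hηd : T ^ (-δ) ≤ η := by rw [hη]; exact hT2 T hTT2
  rw [← hη]
  obtain ⟨S, c, hS, hcS, hrep⟩ := smooth_rep (L := L) hΦ hd
  have hexp : Real.exp (δ * Real.log T) = T ^ δ := by
    rw [Real.rpow_def_of_pos hTp, mul_comm]
  rw [hexp] at hS hcS
  obtain ⟨F, hF⟩ : ∃ F : ℕ × ℕ → ℂ → ℂ, F = fun q s => Z0 s * ((2 * Real.pi : ℝ) : ℂ) ^ (-s) * k0 q s *
    (T : ℂ) ^ (1 + s) * Mw η s := ⟨_, rfl⟩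
  have hTc : (T:ℂ) ≠ 0 := by exact_mod_cast hTp.ne'
  have h2pi : ((2 * Real.pi : ℝ) : ℂ) ≠ 0 := by
    have : (2 * Real.pi : ℝ) ≠ 0 := by positivity
    exact_mod_cast this
  have hkan : ∀ q ∈ S, ∀ s : ℂ, AnalyticAt ℂ (k0 q) s := by
    intro q hq s
    obtain ⟨r1, r2, _⟩ := a02_red (hS q hq).1 (hS q hq).2.1
    exact kk_analytic r1 r2 s
  have hFan : ∀ q ∈ S, AnalyticAt ℂ (F q) 0 := by
    intro q hq
    rw [hF]
    have a1 : AnalyticAt ℂ (fun s : ℂ => ((2 * Real.pi : ℝ) : ℂ) ^ (-s)) 0 := by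
      refine AnalyticAt.cpow analyticAt_const analyticAt_id.neg ?_
      left
      rw [Complex.ofReal_re]
      positivity
    have a2 : AnalyticAt ℂ (fun s : ℂ => (T:ℂ) ^ (1 + s)) 0 := by
      refine AnalyticAt.cpow analyticAt_const (analyticAt_const.add analyticAt_id) ?_
      left
      rw [Complex.ofReal_re]
      exact hTp
    exact ((((Z0_analytic 0).mul a1).mul (hkan q hq 0)).mul a2).mul
      (Mw_analytic hη0 hη1 (by rw [norm_zero]; norm_num))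
  -- the individual terms
  have hterm : ∀ q ∈ S, ‖(∫ t in Ioi (0:ℝ), z21 t * (ch (xt t) q.1 * conj (ch (xt t) q.2)) * ((Wt η (t / T) : ℝ) : ℂ)) -
      C2 (F q)‖ ≤ C1 * T ^ (1 - 4 * δ) := by
    intro q hq
    obtain ⟨r1, r2, r3, r4, r5, r6⟩ := a02_red (hS q hq).1 (hS q hq).2.1
    have h1 := h21 T η (q.1 / Nat.gcd q.1 q.2) (q.2 / Nat.gcd q.1 q.2) hTT1 hηd hη1 r1 r2 r3
      (le_trans (by exact_mod_cast r4) (hS q hq).2.2.1) (le_trans (by exact_mod_cast r5) (hS q hq).2.2.2.1)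
    simp only [r6]
    rw [hF]
    exact h1
  have hchc : ∀ q : ℕ × ℕ, Continuous fun t : ℝ => ch (xt t) q.1 * conj (ch (xt t) q.2) := by
    intro q
    exact ((continuous_ch q.1).comp continuous_xt).mul
      (Complex.continuous_conj.comp ((continuous_ch q.2).comp continuous_xt))
  have hsum : (∫ t in Ioi (0:ℝ), z21 t * Φ (xt t) * ((Wt η (t / T) : ℝ) : ℂ)) =
      ∑ q ∈ S, c q * ∫ t in Ioi (0:ℝ), z21 t * (ch (xt t) q.1 * conj (ch (xt t) q.2)) * ((Wt η (t / T) : ℝ) : ℂ) := by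
    have h1 : ∀ t : ℝ, z21 t * Φ (xt t) * ((Wt η (t / T) : ℝ) : ℂ) =
        ∑ q ∈ S, c q * (z21 t * (ch (xt t) q.1 * conj (ch (xt t) q.2)) * ((Wt η (t / T) : ℝ) : ℂ)) := by
      intro t
      rw [hrep, Finset.mul_sum, Finset.sum_mul]
      exact Finset.sum_congr rfl fun q _ => by ring
    simp_rw [h1]
    rw [integral_finsetSum S fun q _ => (a02_int hη0 hη1 hTp (hchc q)).const_mul (c q)]
    exact Finset.sum_congr rfl fun q _ => integral_const_mul _ _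
  have hC2 : ∑ q ∈ S, c q * C2 (F q) =
      C2 (fun s => Z0 s * ((2 * Real.pi : ℝ) : ℂ) ^ (-s) * (∑ q ∈ S, c q * k0 q s) * (T : ℂ) ^ (1 + s) * Mw η s) := by
    have h1 : (fun s => Z0 s * ((2 * Real.pi : ℝ) : ℂ) ^ (-s) * (∑ q ∈ S, c q * k0 q s) * (T : ℂ) ^ (1 + s) * Mw η s) =
        fun s => ∑ q ∈ S, c q * F q s := by
      funext s
      rw [hF, Finset.mul_sum, Finset.sum_mul, Finset.sum_mul]
      exact Finset.sum_congr rfl fun q _ => by ring
    rw [h1, C2_sum S (fun q s => c q * F q s) (fun q hq => analyticAt_const.mul (hFan q hq))]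
    exact Finset.sum_congr rfl fun q hq => (C2_const_mul (c q) (hFan q hq)).symm
  have hmain := hcm T η (fun s => ∑ q ∈ S, c q * k0 q s) a ε hT100 hη0 hη1 ha
    (fun s _ => Finset.analyticAt_fun_sum S fun q hq => analyticAt_const.mul (hkan q hq s))
    (fun s hs => by
      have hadm : Adm s L := ⟨hL, hs.trans (by
        apply one_div_le_one_div_of_le (by linarith) hLT)⟩
      rw [Jt_eq hadm S c (fun q hq => ⟨(hS q hq).1, (hS q hq).2.1, (hS q hq).2.2.2.2.1, (hS q hq).2.2.2.2.2⟩) hrep]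
      exact hJ s hs)
  rw [← hC2] at hmain
  have herr : ‖(∫ t in Ioi (0:ℝ), z21 t * Φ (xt t) * ((Wt η (t / T) : ℝ) : ℂ)) - ∑ q ∈ S, c q * C2 (F q)‖ ≤ C1 * T := by
    rw [hsum, ← Finset.sum_sub_distrib]
    calc _ ≤ ∑ q ∈ S, ‖c q‖ * (C1 * T ^ (1 - 4 * δ)) := by
          refine (norm_sum_le _ _).trans (Finset.sum_le_sum fun q hq => ?_)
          rw [← mul_sub, norm_mul]
          exact mul_le_mul_of_nonneg_left (hterm q hq) (norm_nonneg _)
      _ = (∑ q ∈ S, ‖c q‖) * (C1 * T ^ (1 - 4 * δ)) := by rw [Finset.sum_mul]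
      _ ≤ T ^ δ * (C1 * T ^ (1 - 4 * δ)) := mul_le_mul_of_nonneg_right hcS (by positivity)
      _ = C1 * (T ^ δ * T ^ (1 - 4 * δ)) := by ring
      _ = C1 * T ^ (1 - 3 * δ) := by
          rw [← Real.rpow_add hTp]
          congr 2
          ring
      _ ≤ C1 * T := by
          refine mul_le_mul_of_nonneg_left ?_ hC1.le
          calc T ^ (1 - 3 * δ) ≤ T ^ (1:ℝ) := Real.rpow_le_rpow_of_exponent_le (by linarith) (by linarith)
            _ = T := Real.rpow_one T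
  have hfin := (norm_sub_le_norm_sub_add_norm_sub (∫ t in Ioi (0:ℝ), z21 t * Φ (xt t) * ((Wt η (t / T) : ℝ) : ℂ))
    (∑ q ∈ S, c q * C2 (F q)) ((a * T * (Real.log T) ^ 2 / 2 : ℝ) : ℂ)).trans (add_le_add herr hmain)
  refine hfin.trans ?_
  have hl2 : 0 ≤ T * (Real.log T) ^ 2 := by positivity
  have e1 : C1 * T ≤ C1 * (T * (Real.log T) ^ 2 * (1 / Real.log T)) := by
    refine mul_le_mul_of_nonneg_left ?_ hC1.le
    have : T * (Real.log T) ^ 2 * (1 / Real.log T) = T * Real.log T := by field_simp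
    rw [this]
    nlinarith
  have e2 : C3 * T * (Real.log T) ^ 2 * (ε + a * (η + 1 / Real.log T)) ≤
      C3 * (T * (Real.log T) ^ 2 * (ε + a * (2 / Real.log T))) := by
    have : η + 1 / Real.log T ≤ 2 / Real.log T := by
      have e : (2:ℝ) / Real.log T = 1 / Real.log T + 1 / Real.log T := by ring
      rw [e]
      linarith
    have h3 : a * (η + 1 / Real.log T) ≤ a * (2 / Real.log T) := mul_le_mul_of_nonneg_left this ha
    calc _ = C3 * (T * (Real.log T) ^ 2 * (ε + a * (η + 1 / Real.log T))) := by ring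
      _ ≤ _ := by
        refine mul_le_mul_of_nonneg_left (mul_le_mul_of_nonneg_left (by linarith) hl2) (by linarith)
  refine (add_le_add e1 e2).trans ?_
  have e3 : (C1 + 2 * C3) * T * (Real.log T) ^ 2 * (ε + (a + 1) / Real.log T) -
      (C1 * (T * (Real.log T) ^ 2 * (1 / Real.log T)) + C3 * (T * (Real.log T) ^ 2 * (ε + a * (2 / Real.log T)))) =
      T * (Real.log T) ^ 2 * ((C1 + C3) * ε + (C1 * a + 2 * C3) / Real.log T) := by
    field_simp
    ring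
  have e4 : 0 ≤ T * (Real.log T) ^ 2 * ((C1 + C3) * ε + (C1 * a + 2 * C3) / Real.log T) := by
    have : 0 ≤ (C1 + C3) * ε := by
      have := hC1.le
      have h4 : (0:ℝ) ≤ C3 := by linarith
      positivity
    have h5 : 0 ≤ (C1 * a + 2 * C3) / Real.log T := by
      have := hC1.le
      have h4 : (0:ℝ) ≤ C3 := by linarith
      positivity
    positivity
  linarith

end Pool.Agent.LibPH
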