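import Mathlib
import Pool.Agent.LibPH45.PH_01
import Pool.Agent.LibPH45.PH_19
import Pool.Agent.LibPH.A01
import Pool.Agent.LibPH.A02

/-! ROW A03: the third moment.

`∫_0^T z21 conj(u) = ∫_0^∞ z21 Φ W(t/T) + O(∫_0^{2T}|ζ|³‖conj u - Φ‖ + ∫_T^{T(1+η)}|ζ|³)`, `η = (log T)^{-20}` (edge3), `Φ` from
phase_model at `2T` with `δ/2`, `K = 20` (`IsPoly (δ/2 log 2T) ⊂ IsPoly (δ log T)`), err3; smooth_moment with
`a = a_{3/2} (e^γ log y)^{1/4}`, `‖Jt - a‖ ≤ 7 ε (log y)^{1/4}` (`Jt = 3JP - 3JP + JP`, shifts `≤ 1/log T ≤ 2/log 2T`). `y = e^L`. -/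

set_option autoImplicit false

namespace Pool.Agent.LibPH

open MeasureTheory Set Filter Topology Complex
open scoped ComplexConjugate
open Pool.Agent.LibMM99 Pool.Agent.LibTG78 Pool.Agent.LibPH45

theorem a03_uu (y : ℝ) (x : Om) : ‖conj (uu y x)‖ ≤ 1 := by
  rw [RCLike.norm_conj]
  unfold uu
  rw [norm_div, Complex.norm_real, norm_norm]
  exact div_self_le_one _

theorem a03_z21 (t : ℝ) : ‖z21 t‖ = ‖riemannZeta (1 / 2 + t * I)‖ ^ 3 := by
  unfold z21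
  rw [norm_mul, norm_pow, RCLike.norm_conj]
  ring

/-- from the smoothed moment of `Φ` to the sharp moment of `U` -/
theorem a03_cmp {η T : ℝ} (hη : 0 < η) (hη1 : η ≤ 1) (hT : 0 < T) {U P : ℝ → ℂ} (hU : Continuous U) (hP : Continuous P)
    (hU1 : ∀ t, ‖U t‖ ≤ 1) :
    ‖(∫ t in (0:ℝ)..T, z21 t * U t) - ∫ t in Ioi (0:ℝ), z21 t * P t * ((Wt η (t / T) : ℝ) : ℂ)‖ ≤
      (∫ t in (0:ℝ)..(2 * T), ‖riemannZeta (1 / 2 + t * I)‖ ^ 3 * ‖U t - P t‖) +
      ∫ t in T..(T * (1 + η)), ‖riemannZeta (1 / 2 + t * I)‖ ^ 3 := by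
  have hz : Continuous fun t : ℝ => riemannZeta (1 / 2 + t * I) := LibZM.continuous_zeta_crit
  have hW : Continuous fun t : ℝ => ((Wt η (t / T) : ℝ) : ℂ) :=
    Complex.continuous_ofReal.comp ((Wt_cont η).comp (continuous_id.div_const T))
  have hTη : T * (1 + η) ≤ 2 * T := by nlinarith
  have hTη' : T ≤ T * (1 + η) := by nlinarith
  have hW1 : ∀ t, ‖((Wt η (t / T) : ℝ) : ℂ)‖ ≤ 1 := fun t => by
    rw [Complex.norm_real, Real.norm_eq_abs, abs_of_nonneg (Wt_mem _).1]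
    exact (Wt_mem _).2
  have hWz : ∀ t, T * (1 + η) ≤ t → ((Wt η (t / T) : ℝ) : ℂ) = 0 := fun t ht => by
    rw [Wt_zero hη (by rw [le_div_iff₀ hT]; linarith)]
    simp
  have hWo : ∀ t, t ≤ T → ((Wt η (t / T) : ℝ) : ℂ) = 1 := fun t ht => by
    rw [Wt_one hη (by rw [div_le_one hT]; exact ht)]
    simp
  have hcP : Continuous fun t : ℝ => z21 t * P t * ((Wt η (t / T) : ℝ) : ℂ) := (a02_z21_cont.mul hP).mul hW
  have hcU : Continuous fun t : ℝ => z21 t * U t * ((Wt η (t / T) : ℝ) : ℂ) := (a02_z21_cont.mul hU).mul hW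
  have e1 : (∫ t in Ioi (0:ℝ), z21 t * P t * ((Wt η (t / T) : ℝ) : ℂ)) =
      ∫ t in (0:ℝ)..(2 * T), z21 t * P t * ((Wt η (t / T) : ℝ) : ℂ) := by
    rw [intervalIntegral.integral_of_le (by linarith)]
    refine (setIntegral_eq_of_subset_of_forall_sdiff_eq_zero measurableSet_Ioi Ioc_subset_Ioi_self fun t ht => ?_)
    have h1 : 0 < t := ht.1
    have h2 : 2 * T < t := by
      by_contra h
      exact ht.2 ⟨h1, not_lt.1 h⟩
    rw [hWz t (by linarith), mul_zero]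
  have e2 : (∫ t in (0:ℝ)..(2 * T), z21 t * U t * ((Wt η (t / T) : ℝ) : ℂ)) =
      (∫ t in (0:ℝ)..T, z21 t * U t) + ∫ t in T..(T * (1 + η)), z21 t * U t * ((Wt η (t / T) : ℝ) : ℂ) := by
    rw [← intervalIntegral.integral_add_adjacent_intervals (hcU.intervalIntegrable 0 T) (hcU.intervalIntegrable T (2 * T)),
      ← intervalIntegral.integral_add_adjacent_intervals (hcU.intervalIntegrable T (T * (1 + η)))
        (hcU.intervalIntegrable (T * (1 + η)) (2 * T))]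
    have h1 : (∫ t in (T * (1 + η))..(2 * T), z21 t * U t * ((Wt η (t / T) : ℝ) : ℂ)) = 0 := by
      rw [← intervalIntegral.integral_zero (a := T * (1 + η)) (b := 2 * T) (μ := volume) (E := ℂ)]
      refine intervalIntegral.integral_congr fun t ht => ?_
      rw [uIcc_of_le hTη] at ht
      rw [hWz t ht.1, mul_zero]
    have h2 : (∫ t in (0:ℝ)..T, z21 t * U t * ((Wt η (t / T) : ℝ) : ℂ)) = ∫ t in (0:ℝ)..T, z21 t * U t := by
      refine intervalIntegral.integral_congr fun t ht => ?_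
      rw [uIcc_of_le hT.le] at ht
      rw [hWo t ht.2, mul_one]
    rw [h1, h2, add_zero]
  have e3 : (∫ t in (0:ℝ)..T, z21 t * U t) - (∫ t in (0:ℝ)..(2 * T), z21 t * P t * ((Wt η (t / T) : ℝ) : ℂ)) =
      (∫ t in (0:ℝ)..(2 * T), z21 t * (U t - P t) * ((Wt η (t / T) : ℝ) : ℂ)) -
        ∫ t in T..(T * (1 + η)), z21 t * U t * ((Wt η (t / T) : ℝ) : ℂ) := by
    have h1 : (∫ t in (0:ℝ)..(2 * T), z21 t * (U t - P t) * ((Wt η (t / T) : ℝ) : ℂ)) =
        (∫ t in (0:ℝ)..(2 * T), z21 t * U t * ((Wt η (t / T) : ℝ) : ℂ)) -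
          ∫ t in (0:ℝ)..(2 * T), z21 t * P t * ((Wt η (t / T) : ℝ) : ℂ) := by
      rw [← intervalIntegral.integral_sub (hcU.intervalIntegrable _ _) (hcP.intervalIntegrable _ _)]
      refine intervalIntegral.integral_congr fun t _ => ?_
      ring
    rw [h1, e2]
    ring
  rw [e1, e3]
  refine (norm_sub_le _ _).trans (add_le_add ?_ ?_)
  · refine intervalIntegral.norm_integral_le_of_norm_le (by linarith) (Eventually.of_forall fun t _ => ?_)
      (((hz.norm.pow 3).mul (hU.sub hP).norm).intervalIntegrable _ _)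
    rw [norm_mul, norm_mul, a03_z21]
    exact mul_le_of_le_one_right (by positivity) (hW1 t)
  · refine intervalIntegral.norm_integral_le_of_norm_le hTη' (Eventually.of_forall fun t _ => ?_)
      ((hz.norm.pow 3).intervalIntegrable _ _)
    rw [norm_mul, norm_mul, a03_z21]
    have h1 : ‖riemannZeta (1 / 2 + t * I)‖ ^ 3 * ‖U t‖ ≤ ‖riemannZeta (1 / 2 + t * I)‖ ^ 3 :=
      mul_le_of_le_one_right (by positivity) (hU1 t)
    exact (mul_le_of_le_one_right (by positivity) (hW1 t)).trans h1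

theorem third : ∃ c : ℝ, 0 < c ∧ ∀ ε : ℝ, 0 < ε → ∃ A : ℝ, 3 ≤ A ∧ ∀ y T : ℝ, A ≤ y → A ≤ T →
    Real.log y * Real.log (Real.log T) ≤ c * Real.log T →
    ‖((1 / T : ℝ) : ℂ) * (∫ t in (0:ℝ)..T, z21 t * conj (uu y (xt t))) -
      ((1 / 2 * LibZM.Aconst (3 / 2) * (Real.log T) ^ 2 *
        (Real.exp Real.eulerMascheroniConstant * Real.log y) ^ (1 / 4 : ℝ) : ℝ) : ℂ)‖ ≤
      ε * (Real.log T) ^ 2 * (Real.log y) ^ (1 / 4 : ℝ) := by
  obtain ⟨δ, C, T1, hδ, hC, hT1, hsm⟩ := smooth_moment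
  obtain ⟨c0, hc0, hpm⟩ := phase_model (δ / 2) 20 (by positivity)
  obtain ⟨T2, hT2, hedge⟩ := edge3
  obtain ⟨Ce, T3, hCe, hT3, herr⟩ := err3
  refine ⟨c0 / 2, by positivity, fun ε hε => ?_⟩
  obtain ⟨m0, hm0⟩ : ∃ m0 : ℝ, m0 = LibZM.Aconst (3 / 2) * (Real.exp Real.eulerMascheroniConstant) ^ (1 / 4 : ℝ) := ⟨_, rfl⟩
  have hApos : 0 ≤ LibZM.Aconst (3 / 2) := (LibZM.Aconst_pos (by norm_num)).le
  have hm0n : 0 ≤ m0 := by rw [hm0]; positivity
  obtain ⟨ε1, hε1⟩ : ∃ ε1 : ℝ, ε1 = ε / (21 * C) := ⟨_, rfl⟩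
  have hε1p : 0 < ε1 := by rw [hε1]; positivity
  obtain ⟨A0, hA0, hA⟩ := hpm ε1 hε1p
  -- largeness of T
  have hev : ∀ᶠ T : ℝ in atTop, (1 + 2 * Ce + C * (m0 + 1)) / Real.log T ≤ 2 * ε / 3 ∧ 10 * c0 ≤ Real.log (Real.log T) ∧
      1 ≤ Real.log (Real.log T) := by
    have h1 : Tendsto (fun T : ℝ => (1 + 2 * Ce + C * (m0 + 1)) / Real.log T) atTop (𝓝 0) :=
      tendsto_const_nhds.div_atTop Real.tendsto_log_atTop
    have h2 : Tendsto (fun T : ℝ => Real.log (Real.log T)) atTop atTop := Real.tendsto_log_atTop.comp Real.tendsto_log_atTop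
    filter_upwards [h1.eventually (ge_mem_nhds (by positivity : (0:ℝ) < 2 * ε / 3)), h2.eventually_ge_atTop (10 * c0),
      h2.eventually_ge_atTop 1] with T a b c
    exact ⟨a, b, c⟩
  obtain ⟨T4, hT4⟩ := eventually_atTop.1 hev
  refine ⟨max A0 (max T1 (max T2 (max T3 (max T4 100)))), hA0.trans (le_max_left _ _), fun y T hy hT hyT => ?_⟩
  have hA0y : A0 ≤ y := (le_max_left _ _).trans hy
  have hA0T : A0 ≤ T := (le_max_left _ _).trans hT
  have hT' := (le_max_right _ _).trans hT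
  have hTT1 : T1 ≤ T := (le_max_left _ _).trans hT'
  have hT'' := (le_max_right _ _).trans hT'
  have hTT2 : T2 ≤ T := (le_max_left _ _).trans hT''
  have hT''' := (le_max_right _ _).trans hT''
  have hTT3 : T3 ≤ T := (le_max_left _ _).trans hT'''
  have hT'''' := (le_max_right _ _).trans hT'''
  have hTT4 : T4 ≤ T := (le_max_left _ _).trans hT''''
  have hT100 : 100 ≤ T := (le_max_right _ _).trans hT''''
  obtain ⟨g1, g2, g3⟩ := hT4 T hTT4
  have hTp : 0 < T := by linarith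
  have hy3 : 3 ≤ y := hA0.trans hA0y
  have hyp : 0 < y := by linarith
  obtain ⟨l, hl⟩ : ∃ l : ℝ, l = Real.log T := ⟨_, rfl⟩
  obtain ⟨L, hL⟩ : ∃ L : ℝ, L = Real.log y := ⟨_, rfl⟩
  rw [← hl] at g1 g2 g3
  rw [← hl, ← hL] at hyT
  have hexpL : Real.exp L = y := by rw [hL]; exact Real.exp_log hyp
  have hL1 : 1 ≤ L := by
    rw [hL, Real.le_log_iff_exp_le hyp]
    linarith [Real.exp_one_lt_three]
  have hl4 : 4 ≤ l := by
    rw [hl, Real.le_log_iff_exp_le hTp]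
    have h1 : Real.exp 4 = Real.exp 1 ^ 4 := by rw [← Real.exp_nat_mul]; norm_num
    have h2 := Real.exp_one_lt_d9
    have h3 : Real.exp 1 ^ 4 ≤ 2.7182818286 ^ 4 := by
      have := Real.exp_pos 1
      gcongr
    rw [h1]
    refine h3.trans ?_
    norm_num
    linarith
  have hlp : 0 < l := by linarith
  -- the range of y
  have h20 : 20 * L ≤ l := by
    by_contra h
    push Not at h
    have h1 : L * (10 * c0) ≤ L * Real.log l := mul_le_mul_of_nonneg_left g2 (by linarith)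
    nlinarith
  have hlog2 : Real.log 2 ≤ 1 := by
    have := Real.log_two_lt_d9
    linarith
  have hlog2T : Real.log (2 * T) = Real.log 2 + l := by rw [Real.log_mul (by norm_num) hTp.ne', hl]
  have hlog2p : 0 < Real.log 2 := Real.log_pos (by norm_num)
  have hl2T : l ≤ Real.log (2 * T) := by rw [hlog2T]; linarith
  have hl2T' : Real.log (2 * T) ≤ 2 * l := by rw [hlog2T]; linarith
  have hrange : Real.log y * Real.log (Real.log (2 * T)) ≤ c0 * Real.log (2 * T) := by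
    have h1 : Real.log (Real.log (2 * T)) ≤ 2 * Real.log l := by
      have h2 : Real.log (2 * T) ≤ l ^ 2 := by nlinarith
      have h3 := Real.log_le_log (by linarith) h2
      rw [Real.log_pow] at h3
      exact_mod_cast h3
    rw [← hL]
    calc L * Real.log (Real.log (2 * T)) ≤ L * (2 * Real.log l) := mul_le_mul_of_nonneg_left h1 (by linarith)
      _ = 2 * (L * Real.log l) := by ring
      _ ≤ 2 * (c0 / 2 * l) := by linarith
      _ = c0 * l := by ring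
      _ ≤ c0 * Real.log (2 * T) := mul_le_mul_of_nonneg_left hl2T hc0.le
  obtain ⟨Φ, hΦ, hd, hJ, _, hsec⟩ := hA y (2 * T) hA0y (by linarith) hrange
  have hΦ' : IsPoly (δ * Real.log T) Φ := hΦ.mono (by rw [← hl]; nlinarith)
  obtain ⟨a, ha⟩ : ∃ a : ℝ, a = LibZM.Aconst (3 / 2) * (Real.exp Real.eulerMascheroniConstant * Real.log y) ^ (1 / 4 : ℝ) :=
    ⟨_, rfl⟩
  obtain ⟨q, hq⟩ : ∃ q : ℝ, q = L ^ (1 / 4 : ℝ) := ⟨_, rfl⟩
  have hq1 : 1 ≤ q := by rw [hq]; exact Real.one_le_rpow hL1 (by norm_num)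
  have ham : a = m0 * q := by
    rw [ha, hm0, hq, ← hL, Real.mul_rpow (Real.exp_pos _).le (by linarith)]
    ring
  have ha0 : 0 ≤ a := by rw [ham]; positivity
  have hJt : ∀ s : ℂ, ‖s‖ ≤ 1 / Real.log T → ‖Jt (Real.exp L) Φ s - a‖ ≤ 7 * (ε1 * q) := by
    intro s hs
    have hs2 : ‖s‖ ≤ 2 / Real.log (2 * T) := by
      refine hs.trans ?_
      rw [← hl, div_le_div_iff₀ hlp (by linarith)]
      linarith
    have h0 : ‖(0:ℂ)‖ ≤ 2 / Real.log (2 * T) := by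
      rw [norm_zero]
      have : 0 < Real.log (2 * T) := by linarith
      positivity
    have hn : ‖-s‖ ≤ 2 / Real.log (2 * T) := by rw [norm_neg]; exact hs2
    have j1 := hJ 0 0 s h0 h0 hs2
    have j2 := hJ 0 (-s) s h0 hn hs2
    have j3 := hJ (-s) (-s) s hn hn hs2
    rw [← ha, ← hL, ← hq] at j1 j2 j3
    rw [hexpL]
    unfold Jt
    have e : 3 * JP 0 0 s y Φ - 3 * JP 0 (-s) s y Φ + JP (-s) (-s) s y Φ - (a:ℂ) =
        3 * (JP 0 0 s y Φ - a) - 3 * (JP 0 (-s) s y Φ - a) + (JP (-s) (-s) s y Φ - a) := by ring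
    rw [e]
    have h3 : ‖(3:ℂ)‖ = 3 := by norm_num
    refine (norm_add_le _ _).trans ?_
    have h4 := norm_sub_le (3 * (JP 0 0 s y Φ - a)) (3 * (JP 0 (-s) s y Φ - (a:ℂ)))
    rw [norm_mul, norm_mul, h3] at h4
    linarith
  have hmain := hsm T L Φ a (7 * (ε1 * q)) hTT1 hL1 (by rw [← hl]; exact h20) hΦ' (by rw [hexpL]; exact hd) ha0
    (by positivity) hJt
  obtain ⟨η, hη⟩ : ∃ η : ℝ, η = (Real.log T) ^ (-20 : ℝ) := ⟨_, rfl⟩
  have hη0 : 0 < η := by rw [hη, ← hl]; exact Real.rpow_pos_of_pos hlp _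
  have hη1 : η ≤ 1 := by
    rw [hη, ← hl]
    exact Real.rpow_le_one_of_one_le_of_nonpos (by linarith) (by norm_num)
  have huc : Continuous fun t : ℝ => conj (uu y (xt t)) :=
    Complex.continuous_conj.comp ((uu_cont y).1.comp continuous_xt)
  have hPc : Continuous fun t : ℝ => Φ (xt t) := hΦ.continuous.comp continuous_xt
  have hcmp := a03_cmp hη0 hη1 hTp huc hPc (fun t => a03_uu y (xt t))
  have hed := hedge T hTT2
  have her := herr T (fun t => ‖conj (uu y (xt t)) - Φ (xt t)‖) hTT3 (huc.sub hPc).norm (fun t => norm_nonneg _)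
  rw [← hη] at hmain hed
  -- the error integral
  have hI : (∫ t in (0:ℝ)..(2 * T), ‖riemannZeta (1 / 2 + t * I)‖ ^ 2 * ‖conj (uu y (xt t)) - Φ (xt t)‖ ^ 2) ≤
      T * (2 * l ^ (-20 : ℝ)) := by
    have h1 : (Real.log (2 * T)) ^ (-20 : ℝ) ≤ l ^ (-20 : ℝ) :=
      Real.rpow_le_rpow_of_nonpos hlp hl2T (by norm_num)
    have h2 := hsec.trans h1
    rw [one_div, inv_mul_le_iff₀ (by positivity)] at h2
    linarith
  have hsq : √(∫ t in (0:ℝ)..(2 * T), ‖riemannZeta (1 / 2 + t * I)‖ ^ 2 * ‖conj (uu y (xt t)) - Φ (xt t)‖ ^ 2) ≤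
      √T * (2 * l ^ (-10 : ℝ)) := by
    refine (Real.sqrt_le_sqrt hI).trans ?_
    rw [Real.sqrt_mul hTp.le]
    refine mul_le_mul_of_nonneg_left ?_ (Real.sqrt_nonneg _)
    rw [Real.sqrt_le_left (by positivity), mul_pow, ← Real.rpow_natCast (l ^ (-10 : ℝ)) 2, ← Real.rpow_mul hlp.le]
    have e : (-10 : ℝ) * ((2 : ℕ) : ℝ) = -20 := by norm_num
    rw [e]
    have := Real.rpow_pos_of_pos hlp (-20)
    linarith
  have her2 : (∫ t in (0:ℝ)..(2 * T), ‖riemannZeta (1 / 2 + t * I)‖ ^ 3 * ‖conj (uu y (xt t)) - Φ (xt t)‖) ≤ 2 * Ce * T := by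
    refine her.trans ?_
    rw [← hl]
    calc Ce * l ^ 4 * √T * √(∫ t in (0:ℝ)..(2 * T), ‖riemannZeta (1 / 2 + t * I)‖ ^ 2 *
          ‖conj (uu y (xt t)) - Φ (xt t)‖ ^ 2) ≤ Ce * l ^ 4 * √T * (√T * (2 * l ^ (-10 : ℝ))) :=
          mul_le_mul_of_nonneg_left hsq (by positivity)
      _ = 2 * Ce * (√T * √T) * (l ^ 4 * l ^ (-10 : ℝ)) := by ring
      _ ≤ 2 * Ce * T * 1 := by
          rw [Real.mul_self_sqrt hTp.le]
          refine mul_le_mul_of_nonneg_left ?_ (by positivity)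
          rw [← Real.rpow_natCast l 4, ← Real.rpow_add hlp]
          exact Real.rpow_le_one_of_one_le_of_nonpos (by linarith) (by norm_num)
      _ = 2 * Ce * T := by ring
  have htot : ‖(∫ t in (0:ℝ)..T, z21 t * conj (uu y (xt t))) - ((a * T * (Real.log T) ^ 2 / 2 : ℝ) : ℂ)‖ ≤
      (2 * Ce * T + T) + C * T * (Real.log T) ^ 2 * (7 * (ε1 * q) + (a + 1) / Real.log T) := by
    refine (norm_sub_le_norm_sub_add_norm_sub _ (∫ t in Ioi (0:ℝ), z21 t * Φ (xt t) * ((Wt η (t / T) : ℝ) : ℂ)) _).trans ?_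
    exact add_le_add (hcmp.trans (add_le_add her2 hed)) hmain
  have hgoal : ((1 / T : ℝ) : ℂ) * (∫ t in (0:ℝ)..T, z21 t * conj (uu y (xt t))) -
      ((1 / 2 * LibZM.Aconst (3 / 2) * (Real.log T) ^ 2 *
        (Real.exp Real.eulerMascheroniConstant * Real.log y) ^ (1 / 4 : ℝ) : ℝ) : ℂ) =
      ((1 / T : ℝ) : ℂ) * ((∫ t in (0:ℝ)..T, z21 t * conj (uu y (xt t))) - ((a * T * (Real.log T) ^ 2 / 2 : ℝ) : ℂ)) := by
    rw [mul_sub, ← Complex.ofReal_mul (1 / T), ha]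
    congr 2
    field_simp
  rw [hgoal, norm_mul, Complex.norm_real, Real.norm_eq_abs, abs_of_pos (by positivity : (0:ℝ) < 1 / T)]
  refine (mul_le_mul_of_nonneg_left htot (by positivity)).trans ?_
  rw [← hl, ← hL, ← hq]
  have e1 : 1 / T * (2 * Ce * T + T + C * T * l ^ 2 * (7 * (ε1 * q) + (a + 1) / l)) =
      (1 + 2 * Ce) + 7 * C * ε1 * (l ^ 2 * q) + C * (a + 1) * l := by
    field_simp
    ring
  rw [e1]
  have e2 : 7 * C * ε1 = ε / 3 := by
    rw [hε1]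
    field_simp
    norm_num
  rw [e2]
  have e3 : (1 + 2 * Ce) + C * (a + 1) * l ≤ 2 * ε / 3 * (l ^ 2 * q) := by
    have h1 : (1 + 2 * Ce) + C * (a + 1) * l ≤ (1 + 2 * Ce + C * (m0 + 1)) * (l * q) := by
      rw [ham]
      have h2 : (1 + 2 * Ce) ≤ (1 + 2 * Ce) * (l * q) := by
        have : 1 ≤ l * q := by nlinarith
        nlinarith
      have h3 : C * (m0 * q + 1) * l ≤ C * (m0 + 1) * (l * q) := by
        have h4 : (m0 * q + 1) ≤ (m0 + 1) * q := by nlinarith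
        have h5 : C * (m0 * q + 1) * l ≤ C * ((m0 + 1) * q) * l := by gcongr
        linarith
      linarith
    have h6 : 1 + 2 * Ce + C * (m0 + 1) ≤ 2 * ε / 3 * l := by
      rw [div_le_iff₀ hlp] at g1
      exact g1
    have h7 : (1 + 2 * Ce + C * (m0 + 1)) * (l * q) ≤ 2 * ε / 3 * l * (l * q) :=
      mul_le_mul_of_nonneg_right h6 (by positivity)
    calc _ ≤ _ := h1
      _ ≤ _ := h7
      _ = 2 * ε / 3 * (l ^ 2 * q) := by ring
  have e4 : ε * l ^ 2 * q = ε / 3 * (l ^ 2 * q) + 2 * ε / 3 * (l ^ 2 * q) := by ring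
  rw [e4]
  linarith

end Pool.Agent.LibPH
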