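import Mathlib
import Pool.Agent.LibPH.X05

/-! ROW B01: the twisted first moment.

`f(s) = ζ(s) e^{-(s-1/2)(log m - log n)}` on the rectangle `[1/2, 2] × [1, T]` (no pole;
Complex.integral_boundary_rect_eq_zero_of_differentiableOn). Horizontal sides: `|ζ(σ+it)| ≤ C t^{1/2}` for `1/2 ≤ σ ≤ 2`, `t ≥ 1`
(LibZM.zeta_approx with `N = ⌊t⌋`, see LibZM/ZetaApprox.lean: `‖ζ(s) - (∑_{a≤N} a^{-s} - N^{1-s}/(1-s))‖ ≤ ‖s‖/σ N^{-σ}`), times
`(mn)^{3/2}`. On `Re s = 2`: `∑_a a^{-2-it} (m/n)^{-3/2-it}`: the term `am = n` (only if `m = 1`, `a = n`) gives `n^{-1/2}(T-1)`, the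
others `≤ ∑ a^{-2} (n/m)^{3/2} 2/|log(am/n)|`, `|log(am/n)| ≥ 1/(2n)`. `[0,1]`: bounded. -/

set_option autoImplicit false

namespace Pool.Agent.LibPH

open MeasureTheory Set Filter Topology Complex
open scoped ComplexConjugate

lemma b01_sum_half (N : ℕ) : ∑ a ∈ Finset.Icc 1 N, (a:ℝ) ^ (-(1/2) : ℝ) ≤ 2 * √N := by
  induction N with
  | zero => simp
  | succ N ih =>
    rw [Finset.sum_Icc_succ_top (by omega)]
    have h0 : (0:ℝ) ≤ N := Nat.cast_nonneg N
    have h1 : (((N + 1 : ℕ) : ℝ)) ^ (-(1/2) : ℝ) = 1 / √((N + 1 : ℕ) : ℝ) := by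
      rw [Real.rpow_neg (by positivity), ← Real.sqrt_eq_rpow, one_div]
    have h2 : 0 < √((N + 1 : ℕ) : ℝ) := Real.sqrt_pos.2 (by positivity)
    have h3 : √((N + 1 : ℕ) : ℝ) ^ 2 = N + 1 := by
      rw [Real.sq_sqrt (by positivity)]
      push_cast
      ring
    have h4 : √(N : ℝ) ^ 2 = N := Real.sq_sqrt h0
    have h5 : 2 * √(N:ℝ) + 1 / √((N + 1 : ℕ) : ℝ) ≤ 2 * √((N + 1 : ℕ) : ℝ) := by
      rw [← sub_nonneg]
      have h6 : 2 * √((N + 1 : ℕ) : ℝ) - (2 * √(N:ℝ) + 1 / √((N + 1 : ℕ) : ℝ)) =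
          (√((N + 1 : ℕ) : ℝ) - √(N:ℝ)) ^ 2 / √((N + 1 : ℕ) : ℝ) := by
        field_simp
        nlinarith
      rw [h6]
      positivity
    rw [h1]
    linarith

lemma b01_zeta {σ t : ℝ} (h1 : 1/2 ≤ σ) (h2 : σ ≤ 2) (ht : 1 ≤ t) :
    ‖riemannZeta (σ + t * I)‖ ≤ 12 * √t := by
  set s : ℂ := σ + t * I with hs
  have hre : s.re = σ := by simp [hs]
  have him : s.im = t := by simp [hs]
  have hs1 : s ≠ 1 := by
    intro h
    rw [h, Complex.one_im] at him
    linarith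
  set N : ℕ := ⌊t⌋₊ with hN
  have hN1 : 1 ≤ N := Nat.le_floor (by simpa using ht)
  have hN1' : (1:ℝ) ≤ N := by exact_mod_cast hN1
  have hNt : (N:ℝ) ≤ t := Nat.floor_le (by linarith)
  have htN : t < N + 1 := Nat.lt_floor_add_one t
  have h3 := LibZM.zeta_approx (s := s) (by rw [hre]; linarith) hs1 hN1
  rw [hre] at h3
  have hsq : √(N:ℝ) ≤ √t := Real.sqrt_le_sqrt hNt
  have hsN : 0 < √(N:ℝ) := Real.sqrt_pos.2 (by linarith)
  have hst : 1 ≤ √t := Real.one_le_sqrt.2 ht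
  have htt : √t * √t = t := Real.mul_self_sqrt (by linarith)
  have hNN : √(N:ℝ) * √(N:ℝ) = N := Real.mul_self_sqrt (by linarith)
  have hpow : ∀ a : ℕ, 1 ≤ a → (a:ℝ) ^ (-σ) ≤ (a:ℝ) ^ (-(1/2) : ℝ) := fun a ha =>
    Real.rpow_le_rpow_of_exponent_le (by exact_mod_cast ha) (by linarith)
  have hhalf : (N:ℝ) ^ (-(1/2) : ℝ) = 1 / √(N:ℝ) := by
    rw [Real.rpow_neg (by positivity), ← Real.sqrt_eq_rpow, one_div]
  have e1 : ‖∑ a ∈ Finset.Icc 1 N, (a:ℂ) ^ (-s)‖ ≤ 2 * √t := by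
    refine (norm_sum_le _ _).trans ?_
    refine le_trans (Finset.sum_le_sum (g := fun a : ℕ => (a:ℝ) ^ (-(1/2) : ℝ)) fun a ha => ?_)
      ((b01_sum_half N).trans (by linarith))
    rw [Finset.mem_Icc] at ha
    rw [Complex.norm_natCast_cpow_of_pos ha.1, Complex.neg_re, hre]
    exact hpow a ha.1
  have e2 : ‖(N:ℂ) ^ (1-s) / (1-s)‖ ≤ √t := by
    rw [norm_div, Complex.norm_natCast_cpow_of_pos hN1, Complex.sub_re, Complex.one_re, hre]
    have h4 : 1 ≤ ‖1 - s‖ := by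
      have := Complex.abs_im_le_norm (1 - s)
      rw [Complex.sub_im, Complex.one_im, him, zero_sub, abs_neg, abs_of_pos (by linarith)] at this
      linarith
    have h5 : (N:ℝ) ^ (1 - σ) ≤ √(N:ℝ) := by
      rw [Real.sqrt_eq_rpow]
      exact Real.rpow_le_rpow_of_exponent_le hN1' (by linarith)
    calc (N:ℝ) ^ (1 - σ) / ‖1 - s‖ ≤ (N:ℝ) ^ (1 - σ) / 1 := by
          apply div_le_div_of_nonneg_left (by positivity) one_pos h4
      _ ≤ √t := by rw [div_one]; linarith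
  have e3 : ‖s‖ / σ * (N:ℝ) ^ (-σ) ≤ 9 * √t := by
    have h4 : ‖s‖ ≤ 3 * t := by
      have := Complex.norm_le_abs_re_add_abs_im s
      rw [hre, him, abs_of_pos (by linarith), abs_of_pos (by linarith)] at this
      linarith
    have h5 : ‖s‖ / σ ≤ 6 * t := by
      rw [div_le_iff₀ (by linarith)]
      nlinarith
    have h6 : (N:ℝ) ^ (-σ) ≤ 1 / √(N:ℝ) := by
      rw [← hhalf]
      exact hpow N hN1
    have h7 : √t ≤ 3 / 2 * √(N:ℝ) := by
      apply Real.sqrt_le_iff.2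
      constructor
      · positivity
      · rw [mul_pow, sq √(N:ℝ), hNN]
        nlinarith
    calc ‖s‖ / σ * (N:ℝ) ^ (-σ) ≤ (6 * t) * (1 / √(N:ℝ)) :=
          mul_le_mul h5 h6 (by positivity) (by linarith)
      _ ≤ 9 * √t := by
          rw [mul_one_div, div_le_iff₀ hsN]
          nlinarith
  have h8 : riemannZeta s = (riemannZeta s - (∑ n ∈ Finset.Icc 1 N, (n:ℂ) ^ (-s) - (N:ℂ) ^ (1-s) / (1-s))) +
      ∑ n ∈ Finset.Icc 1 N, (n:ℂ) ^ (-s) - (N:ℂ) ^ (1-s) / (1-s) := by ring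
  rw [h8]
  refine (norm_sub_le _ _).trans ?_
  have h9 := norm_add_le (riemannZeta s - (∑ n ∈ Finset.Icc 1 N, (n:ℂ) ^ (-s) - (N:ℂ) ^ (1-s) / (1-s)))
    (∑ n ∈ Finset.Icc 1 N, (n:ℂ) ^ (-s))
  linarith

/-- the twisted zeta function -/
noncomputable def b01_f (l : ℝ) (s : ℂ) : ℂ := riemannZeta s * cexp (-((s - 1/2) * l))

lemma b01_f_crit (m n : ℕ) (t : ℝ) :
    b01_f (Real.log m - Real.log n) (1/2 + t * I) = riemannZeta (1/2 + t * I) * tw m n t := by
  unfold b01_f tw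
  congr 2
  push_cast
  ring

lemma b01_f_norm (l : ℝ) {σ t : ℝ} (h1 : 1/2 ≤ σ) (h2 : σ ≤ 2) (ht : 1 ≤ t) :
    ‖b01_f l (σ + t * I)‖ ≤ 12 * √t * Real.exp (2 * |l|) := by
  unfold b01_f
  rw [norm_mul, Complex.norm_exp]
  refine mul_le_mul (b01_zeta h1 h2 ht) (Real.exp_le_exp.2 ?_) (Real.exp_pos _).le (by positivity)
  have : (-((((σ:ℂ) + t * I) - 1/2) * (l:ℂ))).re = -((σ - 1/2) * l) := by
    simp
  rw [this]
  have h3 := neg_abs_le l
  have h4 := abs_nonneg l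
  nlinarith

lemma b01_rect (l : ℝ) {T : ℝ} (hT : 1 ≤ T) :
    ‖(∫ y in (1:ℝ)..T, b01_f l (1/2 + y * I)) - ∫ y in (1:ℝ)..T, b01_f l (2 + y * I)‖ ≤
      36 * √T * Real.exp (2 * |l|) := by
  have hd : DifferentiableOn ℂ (b01_f l) (Set.uIcc (⟨1/2, 1⟩ : ℂ).re (⟨2, T⟩ : ℂ).re ×ℂ
      Set.uIcc (⟨1/2, 1⟩ : ℂ).im (⟨2, T⟩ : ℂ).im) := by
    intro s hs
    rw [Complex.mem_reProdIm] at hs
    have h1 := hs.2
    simp only [Set.uIcc_of_le hT] at h1
    have hs1 : s ≠ 1 := by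
      rintro rfl
      rw [Complex.one_im] at h1
      linarith [h1.1]
    have h2 : DifferentiableAt ℂ (b01_f l) s := by
      unfold b01_f
      exact (differentiableAt_riemannZeta hs1).mul (by fun_prop)
    exact h2.differentiableWithinAt
  have h := Complex.integral_boundary_rect_eq_zero_of_differentiableOn (b01_f l) ⟨1/2, 1⟩ ⟨2, T⟩ hd
  simp only at h
  have e1 : ∀ y : ℝ, b01_f l (((2:ℝ):ℂ) + y * I) = b01_f l (2 + y * I) := fun y => by push_cast; rfl
  have e2 : ∀ y : ℝ, b01_f l ((((1/2:ℝ)):ℂ) + y * I) = b01_f l (1/2 + y * I) := fun y => by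
    push_cast; rfl
  simp only [e1, e2, smul_eq_mul] at h
  set A := ∫ x in (1/2:ℝ)..2, b01_f l (x + ((1:ℝ):ℂ) * I) with hA
  set B := ∫ x in (1/2:ℝ)..2, b01_f l (x + (T:ℂ) * I) with hB
  have hA' : ‖A‖ ≤ 12 * √T * Real.exp (2 * |l|) * |2 - 1/2| := by
    apply intervalIntegral.norm_integral_le_of_norm_le_const
    intro x hx
    rw [Set.uIoc_of_le (by norm_num)] at hx
    refine (b01_f_norm l hx.1.le hx.2 le_rfl).trans ?_
    gcongr
  have hB' : ‖B‖ ≤ 12 * √T * Real.exp (2 * |l|) * |2 - 1/2| := by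
    apply intervalIntegral.norm_integral_le_of_norm_le_const
    intro x hx
    rw [Set.uIoc_of_le (by norm_num)] at hx
    exact b01_f_norm l hx.1.le hx.2 hT
  have h3 : (∫ y in (1:ℝ)..T, b01_f l (1/2 + y * I)) - ∫ y in (1:ℝ)..T, b01_f l (2 + y * I) =
      -I * (A - B) := by
    have hI : I * I = -1 := Complex.I_mul_I
    have h4 : I * ((∫ y in (1:ℝ)..T, b01_f l (1/2 + y * I)) - ∫ y in (1:ℝ)..T, b01_f l (2 + y * I)) =
        A - B := by
      linear_combination -h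
    calc (∫ y in (1:ℝ)..T, b01_f l (1/2 + y * I)) - ∫ y in (1:ℝ)..T, b01_f l (2 + y * I)
        = -I * (I * ((∫ y in (1:ℝ)..T, b01_f l (1/2 + y * I)) -
          ∫ y in (1:ℝ)..T, b01_f l (2 + y * I))) := by
          linear_combination ((∫ y in (1:ℝ)..T, b01_f l (1/2 + y * I)) -
            ∫ y in (1:ℝ)..T, b01_f l (2 + y * I)) * hI
      _ = -I * (A - B) := by rw [h4]
  rw [h3, norm_mul, norm_neg, Complex.norm_I, one_mul]
  refine (norm_sub_le _ _).trans ?_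
  rw [abs_of_pos (by norm_num : (0:ℝ) < 2 - 1/2)] at hA' hB'
  linarith

lemma b01_log {u v : ℕ} (hu : 1 ≤ u) (hv : 1 ≤ v) (h : u ≠ v) :
    1 / (2 * (v:ℝ)) ≤ |Real.log u - Real.log v| := by
  have hu0 : (0:ℝ) < u := by exact_mod_cast hu
  have hv0 : (0:ℝ) < v := by exact_mod_cast hv
  rcases lt_or_gt_of_ne h with h1 | h1
  · have h2 : (u:ℝ) + 1 ≤ v := by exact_mod_cast h1
    have h3 := Real.one_sub_inv_le_log_of_pos (x := (v:ℝ) / u) (by positivity)
    rw [Real.log_div hv0.ne' hu0.ne', inv_div] at h3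
    have h4 : 1 / (2 * (v:ℝ)) ≤ 1 - u / v := by
      rw [one_sub_div hv0.ne', div_le_div_iff₀ (by positivity) hv0]
      nlinarith
    rw [abs_sub_comm]
    exact (h4.trans h3).trans (le_abs_self _)
  · have h2 : (v:ℝ) + 1 ≤ u := by exact_mod_cast h1
    have h3 := Real.one_sub_inv_le_log_of_pos (x := (u:ℝ) / v) (by positivity)
    rw [Real.log_div hu0.ne' hv0.ne', inv_div] at h3
    have h4 : 1 / (2 * (v:ℝ)) ≤ 1 - v / u := by
      have h5 : (1:ℝ) ≤ v := by exact_mod_cast hv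
      rw [one_sub_div hu0.ne', div_le_div_iff₀ (by positivity) hu0]
      nlinarith
    exact (h4.trans h3).trans (le_abs_self _)

/-- one term on the line `Re s = 2` -/
noncomputable def b01_F (l : ℝ) (a : ℕ) (y : ℝ) : ℂ :=
  1 / ((a:ℂ) + 1) ^ (2 + y * I) * cexp (-((2 + y * I - 1/2) * l))

lemma b01_F_eq (l : ℝ) (a : ℕ) (y : ℝ) : b01_F l a y =
    ((1 / ((a:ℝ) + 1) ^ 2 * Real.exp (-(3/2 * l)) : ℝ) : ℂ) *
      cexp (-(((Real.log (a + 1) + l : ℝ) : ℂ) * I) * y) := by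
  unfold b01_F
  have h0 : (0:ℝ) < (a:ℝ) + 1 := by positivity
  have h1 : ((a:ℂ) + 1) = (((a:ℝ) + 1 : ℝ) : ℂ) := by push_cast; rfl
  have h2 : ((a:ℂ) + 1) ≠ 0 := by
    rw [h1]
    exact_mod_cast h0.ne'
  have h3 : ((a:ℂ) + 1) ^ (2 + y * I) = cexp (2 * (Real.log (a + 1) : ℝ)) * cexp ((Real.log (a + 1) : ℝ) * (y * I)) := by
    rw [Complex.cpow_def_of_ne_zero h2, ← Complex.exp_add]
    congr 1
    rw [h1, ← Complex.ofReal_log h0.le]
    ring
  have h4 : cexp (2 * (Real.log (a + 1) : ℝ)) = ((((a:ℝ) + 1) ^ 2 : ℝ) : ℂ) := by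
    rw [show (2:ℂ) * ((Real.log (a + 1) : ℝ) : ℂ) = ((2 * Real.log (a + 1) : ℝ) : ℂ) by push_cast; ring,
      ← Complex.ofReal_exp]
    congr 1
    rw [mul_comm, Real.exp_mul, Real.exp_log h0]
    norm_num
  have h5 : cexp (-(((2:ℂ) + y * I - 1/2) * l)) = ((Real.exp (-(3/2 * l)) : ℝ) : ℂ) * cexp (-(y * I * l)) := by
    rw [Complex.ofReal_exp, ← Complex.exp_add]
    congr 1
    push_cast
    ring
  have h6 : cexp (-(((Real.log (a + 1) + l : ℝ) : ℂ) * I) * y) =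
      (cexp ((Real.log (a + 1) : ℝ) * (y * I)))⁻¹ * cexp (-(y * I * l)) := by
    rw [← Complex.exp_neg, ← Complex.exp_add]
    congr 1
    push_cast
    ring
  rw [h3, h4, h5, h6]
  push_cast
  rw [one_div, mul_inv]
  ring

lemma b01_F_norm (l : ℝ) (a : ℕ) (y : ℝ) :
    ‖b01_F l a y‖ = 1 / ((a:ℝ) + 1) ^ 2 * Real.exp (-(3/2 * l)) := by
  rw [b01_F_eq, norm_mul, Complex.norm_real, Real.norm_of_nonneg (by positivity)]
  rw [show -(((Real.log (a + 1) + l : ℝ) : ℂ) * I) * y =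
    ((-((Real.log (a + 1) + l) * y) : ℝ) : ℂ) * I by push_cast; ring, Complex.norm_exp_ofReal_mul_I, mul_one]

lemma b01_summ : Summable fun a : ℕ => 1 / ((a:ℝ) + 1) ^ 2 := by
  have h := (summable_nat_add_iff 1).2 (Real.summable_one_div_nat_pow.2 (by norm_num : 1 < 2))
  refine h.congr fun a => ?_
  push_cast
  rfl

lemma b01_hasSum (l : ℝ) (y : ℝ) : HasSum (fun a : ℕ => b01_F l a y) (b01_f l (2 + y * I)) := by
  have hs : 1 < (2 + (y:ℂ) * I).re := by simp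
  unfold b01_f
  rw [zeta_eq_tsum_one_div_nat_add_one_cpow hs]
  refine HasSum.mul_right _ (Summable.hasSum ?_)
  refine Summable.of_norm_bounded b01_summ fun a => ?_
  have h1 : ((a:ℂ) + 1) = ((a + 1 : ℕ) : ℂ) := by push_cast; rfl
  rw [norm_div, norm_one, h1, Complex.norm_natCast_cpow_of_pos (Nat.succ_pos a)]
  have h2 : (2 + (y:ℂ) * I).re = ((2:ℕ) : ℝ) := by simp
  rw [h2, Real.rpow_natCast]
  push_cast
  exact le_rfl

lemma b01_int_hasSum (l T : ℝ) : HasSum (fun a : ℕ => ∫ y in (1:ℝ)..T, b01_F l a y)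
    (∫ y in (1:ℝ)..T, b01_f l (2 + y * I)) := by
  refine intervalIntegral.hasSum_integral_of_dominated_convergence
    (fun a _ => 1 / ((a:ℝ) + 1) ^ 2 * Real.exp (-(3/2 * l))) ?_ ?_ ?_ ?_ ?_
  · intro a
    have : Continuous (b01_F l a) := by
      have h : b01_F l a = fun y : ℝ => ((1 / ((a:ℝ) + 1) ^ 2 * Real.exp (-(3/2 * l)) : ℝ) : ℂ) *
          cexp (-(((Real.log (a + 1) + l : ℝ) : ℂ) * I) * y) := funext fun y => b01_F_eq l a y
      rw [h]
      fun_prop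
    exact this.aestronglyMeasurable
  · intro a
    exact Eventually.of_forall fun y _ => (b01_F_norm l a y).le
  · exact Eventually.of_forall fun y _ => b01_summ.mul_right _
  · exact intervalIntegrable_const
  · exact Eventually.of_forall fun y _ => b01_hasSum l y

lemma b01_int_F (l : ℝ) (a : ℕ) {T : ℝ} (h : Real.log (a + 1) + l ≠ 0) :
    ‖∫ y in (1:ℝ)..T, b01_F l a y‖ ≤
      1 / ((a:ℝ) + 1) ^ 2 * Real.exp (-(3/2 * l)) * (2 / |Real.log (a + 1) + l|) := by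
  simp_rw [b01_F_eq]
  rw [intervalIntegral.integral_const_mul, norm_mul, Complex.norm_real,
    Real.norm_of_nonneg (by positivity)]
  refine mul_le_mul_of_nonneg_left ?_ (by positivity)
  have hc : -(((Real.log (a + 1) + l : ℝ) : ℂ) * I) ≠ 0 := by
    rw [neg_ne_zero]
    exact mul_ne_zero (by exact_mod_cast h) Complex.I_ne_zero
  rw [integral_exp_mul_complex hc, norm_div, norm_neg, norm_mul, Complex.norm_I, mul_one,
    Complex.norm_real, Real.norm_eq_abs]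
  refine div_le_div_of_nonneg_right ?_ (abs_nonneg _)
  refine (norm_sub_le _ _).trans ?_
  have e : ∀ y : ℝ, ‖cexp (-(((Real.log (a + 1) + l : ℝ) : ℂ) * I) * y)‖ = 1 := by
    intro y
    rw [show -(((Real.log (a + 1) + l : ℝ) : ℂ) * I) * y =
      ((-((Real.log (a + 1) + l) * y) : ℝ) : ℂ) * I by push_cast; ring, Complex.norm_exp_ofReal_mul_I]
  rw [e, e]
  norm_num

lemma b01_int_F0 (l : ℝ) (a : ℕ) {T : ℝ} (h : Real.log (a + 1) + l = 0) :
    ∫ y in (1:ℝ)..T, b01_F l a y =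
      ((1 / ((a:ℝ) + 1) ^ 2 * Real.exp (-(3/2 * l)) * (T - 1) : ℝ) : ℂ) := by
  simp_rw [b01_F_eq]
  rw [intervalIntegral.integral_const_mul, h]
  simp

lemma b01_two {m n : ℕ} (hm : 1 ≤ m) (hn : 1 ≤ n) (hc : Nat.Coprime m n) (T : ℝ) :
    ‖(∫ y in (1:ℝ)..T, b01_f (Real.log m - Real.log n) (2 + y * I)) -
      (if m = 1 then (((T - 1) * (n:ℝ) ^ (-(1/2) : ℝ) : ℝ) : ℂ) else 0)‖ ≤
      4 * (∑' a : ℕ, 1 / ((a:ℝ) + 1) ^ 2) * (Real.exp (2 * |Real.log m - Real.log n|) * n) := by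
  set l : ℝ := Real.log m - Real.log n with hl
  set D : ℂ := if m = 1 then (((T - 1) * (n:ℝ) ^ (-(1/2) : ℝ) : ℝ) : ℂ) else 0 with hD
  have hn0 : (0:ℝ) < n := by exact_mod_cast hn
  have hm0 : (0:ℝ) < m := by exact_mod_cast hm
  have h1 := b01_int_hasSum l T
  have h2 : HasSum (fun a : ℕ => if a = n - 1 then D else 0) D := hasSum_ite_eq (n - 1) D
  have h3 := h1.sub h2
  have h4 : ∀ a : ℕ, ‖(∫ y in (1:ℝ)..T, b01_F l a y) - (if a = n - 1 then D else 0)‖ ≤
      (1 / ((a:ℝ) + 1) ^ 2) * (Real.exp (2 * |l|) * (4 * n)) := by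
    intro a
    have hexp : Real.exp (-(3/2 * l)) ≤ Real.exp (2 * |l|) := by
      apply Real.exp_le_exp.2
      have := neg_abs_le l
      have := abs_nonneg l
      nlinarith
    have ha0 : (0:ℝ) < (a:ℝ) + 1 := by positivity
    have hk : Real.log (a + 1) + l = Real.log (((a + 1) * m : ℕ) : ℝ) - Real.log n := by
      rw [hl]
      push_cast
      rw [Real.log_mul ha0.ne' hm0.ne']
      ring
    by_cases hu : (a + 1) * m = n
    · have hm1 : m = 1 := by
        have h7 : m ∣ n := ⟨a + 1, by rw [← hu]; ring⟩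
        exact Nat.dvd_one.1 (hc ▸ Nat.dvd_gcd dvd_rfl h7)
      have ha : a = n - 1 := by
        rw [hm1] at hu
        omega
      have hna : (n:ℝ) = a + 1 := by
        rw [← hu, hm1]
        push_cast
        ring
      have h0 : Real.log (a + 1) + l = 0 := by
        rw [hk, hu, sub_self]
      have hl' : l = -Real.log n := by
        rw [hl, hm1]
        simp
      rw [b01_int_F0 l a h0, if_pos ha, hD, if_pos hm1, ← hna]
      have h8 : 1 / (n:ℝ) ^ 2 * Real.exp (-(3/2 * l)) = (n:ℝ) ^ (-(1/2) : ℝ) := by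
        rw [hl', show -(3/2 * -Real.log n) = Real.log n * (3/2) by ring, Real.exp_mul,
          Real.exp_log hn0, one_div, ← Real.rpow_natCast, ← Real.rpow_neg hn0.le,
          ← Real.rpow_add hn0]
        norm_num
      rw [h8, mul_comm, sub_self, norm_zero]
      positivity
    · have hne : (if a = n - 1 then D else 0) = 0 := by
        split_ifs with h5
        · rw [hD, if_neg]
          rintro rfl
          apply hu
          omega
        · rfl
      rw [hne, sub_zero]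
      have h6 := b01_log (u := (a + 1) * m) (v := n) (Nat.mul_pos (Nat.succ_pos a) hm) hn hu
      rw [← hk] at h6
      have h7 : Real.log (a + 1) + l ≠ 0 := by
        intro h0
        rw [h0, abs_zero] at h6
        have : 0 < 1 / (2 * (n:ℝ)) := by positivity
        linarith
      have h8 : 2 / |Real.log (a + 1) + l| ≤ 4 * n := by
        rw [div_le_iff₀ (abs_pos.2 h7)]
        calc (2:ℝ) = 4 * n * (1 / (2 * n)) := by field_simp; norm_num
          _ ≤ 4 * n * |Real.log (a + 1) + l| := mul_le_mul_of_nonneg_left h6 (by positivity)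
      refine (b01_int_F l a h7).trans ?_
      rw [mul_assoc]
      refine mul_le_mul_of_nonneg_left ?_ (by positivity)
      exact mul_le_mul hexp h8 (by positivity) (Real.exp_pos _).le
  have h5 : HasSum (fun a : ℕ => (1 / ((a:ℝ) + 1) ^ 2) * (Real.exp (2 * |l|) * (4 * n)))
      ((∑' a : ℕ, 1 / ((a:ℝ) + 1) ^ 2) * (Real.exp (2 * |l|) * (4 * n))) :=
    b01_summ.hasSum.mul_right _
  have h6 := tsum_of_norm_bounded h5 h4
  rw [h3.tsum_eq] at h6
  refine h6.trans (le_of_eq ?_)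
  ring

theorem tw_first : ∃ C : ℝ, 0 < C ∧ ∀ m n : ℕ, 1 ≤ m → 1 ≤ n → Nat.Coprime m n → ∀ T : ℝ, 1 ≤ T →
    ‖(∫ t in (0:ℝ)..T, riemannZeta (1 / 2 + t * I) * tw m n t) -
      (if m = 1 then ((T * (n:ℝ) ^ (-(1/2) : ℝ) : ℝ) : ℂ) else 0)‖ ≤ C * ((m:ℝ) * n) ^ 3 * T ^ (1/2 : ℝ) := by
  obtain ⟨C1, hC1, hz⟩ := zeta_crit_bd
  set S : ℝ := ∑' a : ℕ, 1 / ((a:ℝ) + 1) ^ 2 with hS
  have hS0 : 0 ≤ S := tsum_nonneg fun a => by positivity
  refine ⟨2 * C1 + 36 + 4 * S + 1, by positivity, ?_⟩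
  intro m n hm hn hc T hT
  have hn0 : (1:ℝ) ≤ n := by exact_mod_cast hn
  have hm0 : (1:ℝ) ≤ m := by exact_mod_cast hm
  set l : ℝ := Real.log m - Real.log n with hl
  have hcont : Continuous fun t : ℝ => riemannZeta (1 / 2 + t * I) * tw m n t := by
    refine Continuous.mul ?_ ?_
    · rw [continuous_iff_continuousAt]
      intro t
      have h1 : ((1:ℂ) / 2 + t * I) ≠ 1 := by
        intro h
        have := congrArg Complex.re h
        norm_num at this
      exact ContinuousAt.comp (f := fun t : ℝ => (1:ℂ) / 2 + t * I) (g := riemannZeta)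
        (differentiableAt_riemannZeta h1).continuousAt (by fun_prop)
    · unfold tw
      fun_prop
  have hsplit : (∫ t in (0:ℝ)..T, riemannZeta (1 / 2 + t * I) * tw m n t) =
      (∫ t in (0:ℝ)..1, riemannZeta (1 / 2 + t * I) * tw m n t) +
      ∫ t in (1:ℝ)..T, b01_f l (1/2 + t * I) := by
    rw [← intervalIntegral.integral_add_adjacent_intervals (b := 1) (hcont.intervalIntegrable _ _)
      (hcont.intervalIntegrable _ _)]
    congr 1
    refine intervalIntegral.integral_congr fun t _ => ?_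
    rw [hl]
    exact (b01_f_crit m n t).symm
  have h1 : ‖∫ t in (0:ℝ)..1, riemannZeta (1 / 2 + t * I) * tw m n t‖ ≤ 2 * C1 := by
    have h2 : ‖∫ t in (0:ℝ)..1, riemannZeta (1 / 2 + t * I) * tw m n t‖ ≤ (2 * C1) * |1 - 0| := by
      apply intervalIntegral.norm_integral_le_of_norm_le_const
      intro t ht
      rw [Set.uIoc_of_le (by norm_num)] at ht
      have h3 : ‖tw m n t‖ = 1 := by
        unfold tw
        rw [show -(((t * (Real.log m - Real.log n) : ℝ) : ℂ) * I) =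
          ((-(t * (Real.log m - Real.log n)) : ℝ) : ℂ) * I by push_cast; ring,
          Complex.norm_exp_ofReal_mul_I]
      rw [norm_mul, h3, mul_one]
      refine (hz t).trans ?_
      rw [abs_of_pos ht.1]
      nlinarith [ht.2]
    rwa [sub_zero, abs_one, mul_one] at h2
  have h2 := b01_rect l hT
  have h3 := b01_two hm hn hc T
  rw [← hl, ← hS] at h3
  have hmn : (1:ℝ) ≤ (m:ℝ) * n := by nlinarith
  have hexp : Real.exp (2 * |l|) ≤ ((m:ℝ) * n) ^ 2 := by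
    have h4 : |l| ≤ Real.log ((m:ℝ) * n) := by
      rw [Real.log_mul (by positivity) (by positivity), hl]
      have h5 := Real.log_nonneg hm0
      have h6 := Real.log_nonneg hn0
      rw [abs_le]
      constructor <;> linarith
    calc Real.exp (2 * |l|) ≤ Real.exp (2 * Real.log ((m:ℝ) * n)) := Real.exp_le_exp.2 (by linarith)
      _ = ((m:ℝ) * n) ^ 2 := by
          rw [mul_comm, Real.exp_mul, Real.exp_log (by positivity)]
          norm_num
  have hT1 : 1 ≤ √T := Real.one_le_sqrt.2 hT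
  rw [hsplit, ← Real.sqrt_eq_rpow]
  set P : ℝ := ((m:ℝ) * n) ^ 3 with hP
  have hP1 : 1 ≤ P := one_le_pow₀ hmn
  have hP2 : ((m:ℝ) * n) ^ 2 ≤ P := pow_le_pow_right₀ hmn (by norm_num)
  have hP3 : ((m:ℝ) * n) ^ 2 * n ≤ P := by
    rw [hP, pow_succ]
    refine mul_le_mul_of_nonneg_left ?_ (by positivity)
    nlinarith
  set J := ∫ t in (0:ℝ)..1, riemannZeta (1 / 2 + t * I) * tw m n t with hJ
  set A := ∫ t in (1:ℝ)..T, b01_f l (1/2 + t * I) with hA
  set B := ∫ t in (1:ℝ)..T, b01_f l (2 + t * I) with hB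
  set D1 : ℂ := if m = 1 then (((T - 1) * (n:ℝ) ^ (-(1/2) : ℝ) : ℝ) : ℂ) else 0 with hD1
  set D2 : ℂ := if m = 1 then ((T * (n:ℝ) ^ (-(1/2) : ℝ) : ℝ) : ℂ) else 0 with hD2
  have h4 : ‖D1 - D2‖ ≤ 1 := by
    rw [hD1, hD2]
    split_ifs
    · rw [← Complex.ofReal_sub, Complex.norm_real, Real.norm_eq_abs]
      have h5 : (T - 1) * (n:ℝ) ^ (-(1/2) : ℝ) - T * (n:ℝ) ^ (-(1/2) : ℝ) = -((n:ℝ) ^ (-(1/2) : ℝ)) := by ring
      rw [h5, abs_neg, abs_of_nonneg (by positivity)]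
      exact Real.rpow_le_one_of_one_le_of_nonpos hn0 (by norm_num)
    · rw [sub_zero, norm_zero]
      norm_num
  have h5 : J + A - D2 = J + (A - B) + (B - D1) + (D1 - D2) := by ring
  have h6 : ‖J + A - D2‖ ≤ ‖J‖ + ‖A - B‖ + ‖B - D1‖ + ‖D1 - D2‖ := by
    rw [h5]
    refine (norm_add_le _ _).trans ?_
    gcongr
    refine (norm_add_le _ _).trans ?_
    gcongr
    exact norm_add_le _ _
  have h7 : ‖A - B‖ ≤ 36 * (P * √T) := by
    refine h2.trans ?_
    have : Real.exp (2 * |l|) ≤ P := hexp.trans hP2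
    calc 36 * √T * Real.exp (2 * |l|) ≤ 36 * √T * P := mul_le_mul_of_nonneg_left this (by positivity)
      _ = 36 * (P * √T) := by ring
  have hPT : 1 ≤ P * √T := one_le_mul_of_one_le_of_one_le hP1 hT1
  have hPP : P ≤ P * √T := le_mul_of_one_le_right (by linarith) hT1
  have h8 : ‖B - D1‖ ≤ 4 * S * (P * √T) := by
    refine h3.trans (mul_le_mul_of_nonneg_left ?_ (by positivity))
    have : Real.exp (2 * |l|) * n ≤ P := (mul_le_mul_of_nonneg_right hexp (by linarith)).trans hP3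
    linarith
  have h9 : ‖J‖ ≤ 2 * C1 * (P * √T) := by
    refine h1.trans ?_
    exact le_mul_of_one_le_right (by positivity) hPT
  calc ‖J + A - D2‖ ≤ 2 * C1 * (P * √T) + 36 * (P * √T) + 4 * S * (P * √T) + 1 * (P * √T) := by linarith
    _ = (2 * C1 + 36 + 4 * S + 1) * P * √T := by ring

end Pool.Agent.LibPH
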