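import Mathlib
import Pool.Agent.LibPH.JDefs

/-! ROW B02: the functional for `k = 1`: `∫ ZZ ch m conj(ch n) = [m ∣ n] (n/m)^{-1/2}` (product over primes, local factor
LibTG78 D2a_one: `z^{j-i}` if `i ≤ j`, else `0`; `zp 0 p = p^{-1/2}`; see LibTG78/D2b.lean for the product). -/

set_option autoImplicit false

namespace Pool.Agent.LibPH

open MeasureTheory Filter Topology Complex
open scoped ComplexConjugate
open Pool.Agent.LibMM99 Pool.Agent.LibTG78 Pool.Agent.LibPH45

theorem b02_single {L : ℝ} (hL : 1 ≤ L) {m n : ℕ} (hm : m ≠ 0) (hn : n ≠ 0)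
    (hsm : m.primeFactors ⊆ prm 1 (Real.exp L)) (hsn : n.primeFactors ⊆ prm 1 (Real.exp L)) :
    ∫ x, ZZ 0 1 (Real.exp L) x * (ch x m * conj (ch x n)) ∂mu = k1 (m, n) := by
  have h : Adm 0 L := ⟨hL, by rw [norm_zero]; positivity⟩
  set P := prm 1 (Real.exp L) with hP
  have hpr : ∀ p ∈ P, p.Prime := fun p hp => (D2b_mem_prm.1 hp).1
  set H : ℕ → Om → ℂ := fun p x => (1 - zp 0 p * ch x p)⁻¹
    * (ch x (p ^ m.factorization p) * conj (ch x (p ^ n.factorization p))) with hH
  have e1 : ∀ x, ZZ 0 1 (Real.exp L) x * (ch x m * conj (ch x n)) = ∏ p ∈ P, H p x := by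
    intro x
    unfold ZZ
    rw [D2b_ch_prod x P hsm, D2b_ch_prod x P hsn, map_prod, ← hP,
      ← Finset.prod_mul_distrib, ← Finset.prod_mul_distrib]
  have hcH : ∀ p ∈ P, Continuous (H p) := fun p hp => by
    have hz := D2b_zp_lt h (hpr p hp)
    exact ((continuous_const.sub (continuous_const.mul (continuous_ch _))).inv₀
      fun x => D2a_ne x p hz).mul
      ((continuous_ch _).mul (Complex.continuous_conj.comp (continuous_ch _)))
  have hdH : ∀ p ∈ P, DependsOn (H p) ({p} : Set ℕ) := fun p hp x y hxy => by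
    have d1 := D2b_dep_pow (hpr p hp) 1 hxy
    have d2 := D2b_dep_pow (hpr p hp) (m.factorization p) hxy
    have d3 := D2b_dep_pow (hpr p hp) (n.factorization p) hxy
    simp only [pow_one] at d1 d2 d3
    rw [hH]
    simp only []
    rw [d1, d2, d3]
  simp_rw [e1]
  rw [D2b_prod_int P H hcH hdH]
  have e2 : ∏ p ∈ P, ∫ x, H p x ∂mu = ∏ p ∈ P,
      (if m.factorization p ≤ n.factorization p then
        zp 0 p ^ (n.factorization p - m.factorization p) else 0) := by
    refine Finset.prod_congr rfl fun p hp => ?_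
    rw [hH]
    simp only []
    exact D2a_one (hpr p hp) (D2b_zp_lt h (hpr p hp)) _ _
  rw [e2]
  unfold k1
  simp only []
  by_cases hd : m ∣ n
  · rw [if_pos hd]
    have hle := (Nat.factorization_le_iff_dvd hm hn).2 hd
    have hq : n / m ≠ 0 := (Nat.div_pos (Nat.le_of_dvd (Nat.pos_of_ne_zero hn) hd)
      (Nat.pos_of_ne_zero hm)).ne'
    have hsq : (n / m).primeFactors ⊆ P :=
      (Nat.primeFactors_mono (Nat.div_dvd_of_dvd hd) hn).trans hsn
    have e3 : ∏ p ∈ P, (if m.factorization p ≤ n.factorization p then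
        zp 0 p ^ (n.factorization p - m.factorization p) else 0) =
        ∏ p ∈ P, ((p : ℂ) ^ (-(1 / 2 : ℂ) - 0)) ^ (n / m).factorization p := by
      refine Finset.prod_congr rfl fun p _ => ?_
      rw [if_pos (hle p), Nat.factorization_div hd]
      rfl
    rw [e3, ← D2b_cpow_prod, ← D2b_nat_prod P hq hsq]
    have e4 : (((n / m : ℕ) : ℝ) : ℂ) = ((n / m : ℕ) : ℂ) := by norm_num
    rw [Complex.ofReal_cpow (Nat.cast_nonneg _), e4]
    congr 1
    push_cast
    ring
  · rw [if_neg hd]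
    have h1 : ¬ m.factorization ≤ n.factorization := fun hle =>
      hd ((Nat.factorization_le_iff_dvd hm hn).1 hle)
    have h2 : ∃ p, ¬ m.factorization p ≤ n.factorization p := by
      by_contra hcon
      push Not at hcon
      exact h1 (fun p => hcon p)
    obtain ⟨p, hp⟩ := h2
    have hpm : p ∈ m.primeFactors := by
      rw [← Nat.support_factorization, Finsupp.mem_support_iff]
      omega
    exact Finset.prod_eq_zero (hsm hpm) (if_neg hp)

theorem J1_eq {L : ℝ} (hL : 1 ≤ L) (S : Finset (ℕ × ℕ)) (c : ℕ × ℕ → ℂ)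
    (hS : ∀ q ∈ S, 1 ≤ q.1 ∧ 1 ≤ q.2 ∧
      (∀ p ∈ q.1.primeFactors, (p : ℝ) ≤ Real.exp L) ∧ (∀ p ∈ q.2.primeFactors, (p : ℝ) ≤ Real.exp L))
    {Φ : Om → ℂ} (hΦ : ∀ x, Φ x = ∑ q ∈ S, c q * ch x q.1 * conj (ch x q.2)) :
    ∑ q ∈ S, c q * k1 q = ∫ x, ZZ 0 1 (Real.exp L) x * Φ x ∂mu := by
  have h : Adm 0 L := ⟨hL, by rw [norm_zero]; positivity⟩
  have hsub : ∀ m : ℕ, (∀ p ∈ m.primeFactors, (p : ℝ) ≤ Real.exp L) →
      m.primeFactors ⊆ prm 1 (Real.exp L) := fun m hm p hp => by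
    have hpp := Nat.prime_of_mem_primeFactors hp
    exact D2b_mem_prm.2 ⟨hpp, by exact_mod_cast hpp.one_lt, hm p hp⟩
  have e : ∀ x, ZZ 0 1 (Real.exp L) x * Φ x
      = ∑ q ∈ S, c q * (ZZ 0 1 (Real.exp L) x * (ch x q.1 * conj (ch x q.2))) := by
    intro x
    rw [hΦ x, Finset.mul_sum]
    refine Finset.sum_congr rfl fun q _ => ?_
    ring
  simp_rw [e]
  have hi : ∀ q ∈ S, Integrable (fun x : Om => c q * (ZZ 0 1 (Real.exp L) x
      * (ch x q.1 * conj (ch x q.2)))) mu := fun q _ =>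
    (integrable_of_continuous ((D2b_cont_ZZ h _ _).mul
      ((continuous_ch _).mul (Complex.continuous_conj.comp (continuous_ch _))))).const_mul (c q)
  rw [integral_finsetSum S hi]
  refine Finset.sum_congr rfl fun q hq => ?_
  obtain ⟨h1, h2, h3, h4⟩ := hS q hq
  rw [integral_const_mul, b02_single hL (m := q.1) (n := q.2) (by omega) (by omega) (hsub _ h3) (hsub _ h4)]

end Pool.Agent.LibPH
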