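import Mathlib
import Pool.Agent.LibPH45.PH_19
import Pool.Agent.LibPH.A01
import Pool.Agent.LibPH.B01
import Pool.Agent.LibPH.B02
import Pool.Agent.LibTG78.C0

/-! ROW A04: the first moment. phase_model with small `δ` (e.g. 1/100), err1, smooth_rep (LibTG78/D1), tw_first for the reduced
fraction (the main term `[m' = 1] T n'^{-1/2} = T k1 (m, n)`), J1_eq. -/

set_option autoImplicit false

namespace Pool.Agent.LibPH

open MeasureTheory Set Filter Topology Complex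
open scoped ComplexConjugate
open Pool.Agent.LibMM99 Pool.Agent.LibTG78 Pool.Agent.LibPH45

theorem a04_tw (m n : ℕ) (t : ℝ) : TW.tw_e m n t = tw m n t := by
  unfold TW.tw_e tw
  congr 1
  ring

/-- one term -/
theorem a04_pair {C1 : ℝ} (hC1 : 0 < C1) (htw : ∀ m n : ℕ, 1 ≤ m → 1 ≤ n → Nat.Coprime m n → ∀ T : ℝ, 1 ≤ T →
    ‖(∫ t in (0:ℝ)..T, riemannZeta (1 / 2 + t * I) * tw m n t) -
      (if m = 1 then ((T * (n:ℝ) ^ (-(1/2) : ℝ) : ℝ) : ℂ) else 0)‖ ≤ C1 * ((m:ℝ) * n) ^ 3 * T ^ (1/2 : ℝ))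
    {m n : ℕ} (hm : 1 ≤ m) (hn : 1 ≤ n) {T X : ℝ} (hT : 1 ≤ T) (hmX : (m:ℝ) ≤ X) (hnX : (n:ℝ) ≤ X) :
    ‖(∫ t in (0:ℝ)..T, riemannZeta (1 / 2 + t * I) * (ch (xt t) m * conj (ch (xt t) n))) -
      (T : ℂ) * k1 (m, n)‖ ≤ C1 * (X * X) ^ 3 * T ^ (1/2 : ℝ) := by
  obtain ⟨g, hg⟩ : ∃ g, g = Nat.gcd m n := ⟨_, rfl⟩
  have hg0 : 0 < g := by rw [hg]; exact Nat.gcd_pos_of_pos_left n hm
  obtain ⟨m', hm'⟩ : g ∣ m := by rw [hg]; exact Nat.gcd_dvd_left m n
  obtain ⟨n', hn'⟩ : g ∣ n := by rw [hg]; exact Nat.gcd_dvd_right m n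
  have hmd : m / g = m' := by rw [hm', Nat.mul_div_cancel_left _ hg0]
  have hnd : n / g = n' := by rw [hn', Nat.mul_div_cancel_left _ hg0]
  have hcop : Nat.Coprime m' n' := by
    have h1 := Nat.coprime_div_gcd_div_gcd (m := m) (n := n) (by rw [← hg]; exact hg0)
    rw [← hg, hmd, hnd] at h1
    exact h1
  have hm'0 : 1 ≤ m' := by
    rcases Nat.eq_zero_or_pos m' with h0 | h0
    · rw [h0, mul_zero] at hm'; omega
    · exact h0
  have hn'0 : 1 ≤ n' := by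
    rcases Nat.eq_zero_or_pos n' with h0 | h0
    · rw [h0, mul_zero] at hn'; omega
    · exact h0
  have h1 := htw m' n' hm'0 hn'0 hcop T hT
  have h2 : ∀ t : ℝ, riemannZeta (1 / 2 + t * I) * (ch (xt t) m * conj (ch (xt t) n)) =
      riemannZeta (1 / 2 + t * I) * tw m' n' t := by
    intro t
    rw [D4_ch hm hn, D4_e_gcd hg0 hm'0 hn'0 hm' hn', a04_tw]
  simp only [h2]
  have h3 : (T : ℂ) * k1 (m, n) = if m' = 1 then ((T * (n':ℝ) ^ (-(1/2) : ℝ) : ℝ) : ℂ) else 0 := by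
    unfold k1
    simp only
    by_cases hm1 : m' = 1
    · have hdvd : m ∣ n := by
        rw [hm', hn', hm1, mul_one]
        exact ⟨n', rfl⟩
      have hq : n / m = n' := by
        rw [hm', hm1, mul_one, hnd]
      rw [if_pos hdvd, if_pos hm1, hq]
      push_cast
      ring
    · have hdvd : ¬ m ∣ n := by
        intro hd
        rw [hm', hn'] at hd
        have h4 : m' ∣ n' := Nat.dvd_of_mul_dvd_mul_left hg0 hd
        exact hm1 (Nat.eq_one_of_dvd_coprimes hcop (dvd_refl _) h4)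
      rw [if_neg hdvd, if_neg hm1, mul_zero]
  rw [h3]
  refine h1.trans ?_
  have hm'm : (m':ℝ) ≤ X := by
    have : m' ≤ m := by rw [hm']; exact Nat.le_mul_of_pos_left _ hg0
    exact le_trans (by exact_mod_cast this) hmX
  have hn'n : (n':ℝ) ≤ X := by
    have : n' ≤ n := by rw [hn']; exact Nat.le_mul_of_pos_left _ hg0
    exact le_trans (by exact_mod_cast this) hnX
  have hX0 : 0 ≤ X := le_trans (Nat.cast_nonneg _) hmX
  have h5 : (m':ℝ) * n' ≤ X * X := mul_le_mul hm'm hn'n (Nat.cast_nonneg _) hX0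
  have h6 : ((m':ℝ) * n') ^ 3 ≤ (X * X) ^ 3 := pow_le_pow_left₀ (by positivity) h5 3
  have h7 : (0:ℝ) ≤ T ^ (1/2 : ℝ) := by positivity
  exact mul_le_mul_of_nonneg_right (mul_le_mul_of_nonneg_left h6 hC1.le) h7

theorem a04_uu_cont {y : ℝ} (hy : 1 ≤ Real.log y) (hy0 : 0 < y) : Continuous fun t : ℝ => uu y (xt t) := by
  have hv : y ≤ Real.exp (Real.log y) := by rw [Real.exp_log hy0]
  have h1 : Continuous (ZZ 0 1 y) := continuous_ZZ (adm_zero hy) hv
  have h2 : Continuous fun t : ℝ => ZZ 0 1 y (xt t) := h1.comp continuous_xt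
  unfold uu
  refine h2.div (Complex.continuous_ofReal.comp h2.norm) fun t => ?_
  have := ZZ_ne_zero (adm_zero hy) hv (u := 1) (xt t)
  exact_mod_cast norm_ne_zero_iff.2 this

theorem first : ∃ c : ℝ, 0 < c ∧ ∀ ε : ℝ, 0 < ε → ∃ A : ℝ, 3 ≤ A ∧ ∀ y T : ℝ, A ≤ y → A ≤ T →
    Real.log y * Real.log (Real.log T) ≤ c * Real.log T →
    ‖((1 / T : ℝ) : ℂ) * (∫ t in (0:ℝ)..T, riemannZeta (1 / 2 + t * I) * conj (uu y (xt t))) -
      ((LibZM.Aconst (1 / 2) * (Real.exp Real.eulerMascheroniConstant * Real.log y) ^ (1 / 4 : ℝ) : ℝ) : ℂ)‖ ≤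
      ε * (Real.log y) ^ (1 / 4 : ℝ) := by
  obtain ⟨c, hc, hmodel⟩ := phase_model (1/100) 2 (by norm_num)
  obtain ⟨C1, hC1, htw⟩ := tw_first
  refine ⟨c, hc, fun ε hε => ?_⟩
  obtain ⟨A1, hA1, hm⟩ := hmodel (ε / 3) (by positivity)
  have hev1 : ∀ᶠ T : ℝ in atTop, C1 * T ^ (-(43/100) : ℝ) < ε / 3 := by
    have h1 := (tendsto_rpow_neg_atTop (by norm_num : (0:ℝ) < 43/100)).const_mul C1
    rw [mul_zero] at h1
    exact h1.eventually (eventually_lt_nhds (by positivity))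
  have hev2 : ∀ᶠ T : ℝ in atTop, 3 / ε + 1 ≤ Real.log T := Real.tendsto_log_atTop.eventually_ge_atTop _
  obtain ⟨A2, hA2⟩ := eventually_atTop.1 (hev1.and hev2)
  refine ⟨max A1 (max A2 3), (le_max_right _ _).trans' (le_max_right _ _), fun y T hy hT hyT => ?_⟩
  have hy1 : A1 ≤ y := (le_max_left _ _).trans hy
  have hT1 : A1 ≤ T := (le_max_left _ _).trans hT
  have hT2 : A2 ≤ T := (le_max_left _ _).trans ((le_max_right _ _).trans hT)
  have hT3 : 3 ≤ T := (le_max_right _ _).trans ((le_max_right _ _).trans hT)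
  have hy3 : 3 ≤ y := (le_max_right _ _).trans ((le_max_right _ _).trans hy)
  obtain ⟨hb1, hb2⟩ := hA2 T hT2
  have hTp : 0 < T := by linarith
  have hyp : 0 < y := by linarith
  have hL : 1 ≤ Real.log y := by
    rw [Real.le_log_iff_exp_le hyp]
    linarith [Real.exp_one_lt_d9]
  have hexp : Real.exp (Real.log y) = y := Real.exp_log hyp
  have hLT : 0 < Real.log T := by
    have : 0 < 3 / ε := by positivity
    linarith
  obtain ⟨Φ, hP, hD, -, h2, h3⟩ := hm y T hy1 hT1 hyT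
  obtain ⟨S, cc, hS, hcsum, hrep⟩ := smooth_rep hP (L := Real.log y) (by rw [hexp]; exact hD)
  have hJ := J1_eq hL S cc (fun q hq => ⟨(hS q hq).1, (hS q hq).2.1, (hS q hq).2.2.2.2.1, (hS q hq).2.2.2.2.2⟩) hrep
  rw [hexp] at hJ
  -- continuity
  have hzc : Continuous fun t : ℝ => riemannZeta (1 / 2 + t * I) := D5_zeta_cont
  have huc : Continuous fun t : ℝ => conj (uu y (xt t)) := Complex.continuous_conj.comp (a04_uu_cont hL hyp)
  have hΦc : Continuous fun t : ℝ => Φ (xt t) := hP.continuous.comp continuous_xt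
  set F : ℝ → ℝ := fun t => ‖conj (uu y (xt t)) - Φ (xt t)‖ with hF
  have hFc : Continuous F := (huc.sub hΦc).norm
  have hF0 : ∀ t, 0 ≤ F t := fun t => norm_nonneg _
  -- the error
  set I2 : ℂ := ∫ t in (0:ℝ)..T, riemannZeta (1 / 2 + t * I) * (conj (uu y (xt t)) - Φ (xt t)) with hI2
  have hI2le : ‖I2‖ ≤ T * (Real.log T) ⁻¹ := by
    have e1 : ‖I2‖ ≤ ∫ t in (0:ℝ)..T, ‖riemannZeta (1 / 2 + t * I)‖ * F t := by
      refine (intervalIntegral.norm_integral_le_integral_norm hTp.le).trans (le_of_eq ?_)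
      apply intervalIntegral.integral_congr
      intro t _
      simp only [norm_mul, hF]
    have e2 := err1 hTp hFc hF0
    have e3 : ∫ t in (0:ℝ)..T, ‖riemannZeta (1 / 2 + t * I)‖ ^ 2 * F t ^ 2 ≤ T * (Real.log T) ^ (-2 : ℝ) := by
      have := h3
      rw [one_div, inv_mul_le_iff₀ hTp] at this
      exact this
    have e4 : √T * √(∫ t in (0:ℝ)..T, ‖riemannZeta (1 / 2 + t * I)‖ ^ 2 * F t ^ 2) ≤ T * (Real.log T) ⁻¹ := by
      rw [← Real.sqrt_mul hTp.le]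
      rw [Real.sqrt_le_left (by positivity)]
      have e5 : (T * (Real.log T)⁻¹) ^ 2 = T * (T * (Real.log T) ^ (-2 : ℝ)) := by
        rw [Real.rpow_neg hLT.le, Real.rpow_two, mul_pow, inv_pow]
        ring
      rw [e5]
      exact mul_le_mul_of_nonneg_left e3 hTp.le
    exact (e1.trans e2).trans e4
  -- the main integral
  have hic : ∀ q : ℕ × ℕ, Continuous fun t : ℝ => riemannZeta (1 / 2 + t * I) *
      (ch (xt t) q.1 * conj (ch (xt t) q.2)) := by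
    intro q
    have a1 := (continuous_ch q.1).comp continuous_xt
    have a2 := Complex.continuous_conj.comp ((continuous_ch q.2).comp continuous_xt)
    exact hzc.mul (a1.mul a2)
  have hI1 : ∫ t in (0:ℝ)..T, riemannZeta (1 / 2 + t * I) * Φ (xt t) =
      ∑ q ∈ S, cc q * ∫ t in (0:ℝ)..T, riemannZeta (1 / 2 + t * I) * (ch (xt t) q.1 * conj (ch (xt t) q.2)) := by
    have a1 : ∀ t : ℝ, riemannZeta (1 / 2 + t * I) * Φ (xt t) =
        ∑ q ∈ S, cc q * (riemannZeta (1 / 2 + t * I) * (ch (xt t) q.1 * conj (ch (xt t) q.2))) := by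
      intro t
      rw [hrep, Finset.mul_sum]
      refine Finset.sum_congr rfl fun q _ => ?_
      ring
    simp_rw [a1]
    rw [intervalIntegral.integral_finsetSum]
    · refine Finset.sum_congr rfl fun q _ => ?_
      rw [intervalIntegral.integral_const_mul]
    · intro q _
      exact (continuous_const.mul (hic q)).intervalIntegrable _ _
  have hsplit : ∫ t in (0:ℝ)..T, riemannZeta (1 / 2 + t * I) * conj (uu y (xt t)) =
      (∑ q ∈ S, cc q * ∫ t in (0:ℝ)..T, riemannZeta (1 / 2 + t * I) * (ch (xt t) q.1 * conj (ch (xt t) q.2))) + I2 := by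
    have i1 : IntervalIntegrable (fun t : ℝ => riemannZeta (1 / 2 + t * I) * Φ (xt t)) volume 0 T :=
      (hzc.mul hΦc).intervalIntegrable _ _
    have i2 : IntervalIntegrable (fun t : ℝ => riemannZeta (1 / 2 + t * I) * (conj (uu y (xt t)) - Φ (xt t))) volume 0 T :=
      (hzc.mul (huc.sub hΦc)).intervalIntegrable _ _
    rw [← hI1, hI2, ← intervalIntegral.integral_add i1 i2]
    apply intervalIntegral.integral_congr
    intro t _
    simp only
    ring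
  -- the sum
  set X : ℝ := Real.exp (1/100 * Real.log T) with hX
  have hXT : X = T ^ (1/100 : ℝ) := by
    rw [Real.rpow_def_of_pos hTp, hX]
    congr 1
    ring
  have hsum : ‖(∑ q ∈ S, cc q * ∫ t in (0:ℝ)..T, riemannZeta (1 / 2 + t * I) * (ch (xt t) q.1 * conj (ch (xt t) q.2))) -
      (T:ℂ) * ∑ q ∈ S, cc q * k1 q‖ ≤ T * (C1 * T ^ (-(43/100) : ℝ)) := by
    rw [Finset.mul_sum, ← Finset.sum_sub_distrib]
    refine (norm_sum_le _ _).trans ?_
    have a1 : ∀ q ∈ S, ‖cc q * (∫ t in (0:ℝ)..T, riemannZeta (1 / 2 + t * I) * (ch (xt t) q.1 * conj (ch (xt t) q.2))) -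
        (T:ℂ) * (cc q * k1 q)‖ ≤ ‖cc q‖ * (C1 * (X * X) ^ 3 * T ^ (1/2 : ℝ)) := by
      intro q hq
      have a2 := a04_pair hC1 htw (hS q hq).1 (hS q hq).2.1 (by linarith : (1:ℝ) ≤ T) (hS q hq).2.2.1 (hS q hq).2.2.2.1
      have a3 : cc q * (∫ t in (0:ℝ)..T, riemannZeta (1 / 2 + t * I) * (ch (xt t) q.1 * conj (ch (xt t) q.2))) -
        (T:ℂ) * (cc q * k1 q) = cc q * ((∫ t in (0:ℝ)..T, riemannZeta (1 / 2 + t * I) *
          (ch (xt t) q.1 * conj (ch (xt t) q.2))) - (T:ℂ) * k1 (q.1, q.2)) := by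
        rw [Prod.mk.eta]
        ring
      rw [a3, norm_mul]
      exact mul_le_mul_of_nonneg_left a2 (norm_nonneg _)
    refine (Finset.sum_le_sum a1).trans ?_
    rw [← Finset.sum_mul]
    have a4 : 0 ≤ C1 * (X * X) ^ 3 * T ^ (1/2 : ℝ) := by positivity
    refine (mul_le_mul_of_nonneg_right hcsum a4).trans (le_of_eq ?_)
    rw [hXT]
    have a5 : (T ^ (1/100 : ℝ) * T ^ (1/100 : ℝ)) ^ 3 = T ^ (6/100 : ℝ) := by
      rw [← Real.rpow_add hTp, ← Real.rpow_natCast, ← Real.rpow_mul hTp.le]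
      congr 1
      norm_num
    rw [a5]
    have a6 : T ^ (1/100 : ℝ) * (C1 * T ^ (6/100 : ℝ) * T ^ (1/2 : ℝ)) =
        C1 * (T ^ (1/100 : ℝ) * T ^ (6/100 : ℝ) * T ^ (1/2 : ℝ)) := by ring
    have a7 : T * (C1 * T ^ (-(43/100) : ℝ)) = C1 * (T ^ (1:ℝ) * T ^ (-(43/100) : ℝ)) := by
      rw [Real.rpow_one]; ring
    rw [a6, a7, ← Real.rpow_add hTp, ← Real.rpow_add hTp, ← Real.rpow_add hTp]
    congr 2
    norm_num
  rw [hsplit]
  have hL4 : 1 ≤ (Real.log y) ^ (1 / 4 : ℝ) := Real.one_le_rpow hL (by norm_num)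
  rw [hJ] at hsum
  generalize (∑ q ∈ S, cc q * ∫ t in (0:ℝ)..T, riemannZeta (1 / 2 + t * I) * (ch (xt t) q.1 * conj (ch (xt t) q.2))) = I1 at hsum
  have hTc : (T:ℂ) ≠ 0 := by exact_mod_cast hTp.ne'
  have b1 : ((1 / T : ℝ) : ℂ) * (I1 + I2) -
      ((LibZM.Aconst (1 / 2) * (Real.exp Real.eulerMascheroniConstant * Real.log y) ^ (1 / 4 : ℝ) : ℝ) : ℂ) =
      ((1 / T : ℝ) : ℂ) * (I1 - (T:ℂ) * ∫ x, ZZ 0 1 y x * Φ x ∂mu) + ((1 / T : ℝ) : ℂ) * I2 +
      ((∫ x, ZZ 0 1 y x * Φ x ∂mu) -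
        ((LibZM.Aconst (1 / 2) * (Real.exp Real.eulerMascheroniConstant * Real.log y) ^ (1 / 4 : ℝ) : ℝ) : ℂ)) := by
    push_cast
    field_simp
    ring
  rw [b1]
  have b2 : ‖((1 / T : ℝ) : ℂ)‖ = 1 / T := by
    rw [Complex.norm_real, Real.norm_eq_abs, abs_of_pos (by positivity)]
  have b3 : ‖((1 / T : ℝ) : ℂ) * (I1 - (T:ℂ) * ∫ x, ZZ 0 1 y x * Φ x ∂mu)‖ ≤ ε / 3 := by
    rw [norm_mul, b2]
    have b4 : 1 / T * ‖I1 - (T:ℂ) * ∫ x, ZZ 0 1 y x * Φ x ∂mu‖ ≤ 1 / T * (T * (C1 * T ^ (-(43/100) : ℝ))) :=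
      mul_le_mul_of_nonneg_left hsum (by positivity)
    have b5 : 1 / T * (T * (C1 * T ^ (-(43/100) : ℝ))) = C1 * T ^ (-(43/100) : ℝ) := by
      field_simp
    linarith
  have b6 : ‖((1 / T : ℝ) : ℂ) * I2‖ ≤ ε / 3 := by
    rw [norm_mul, b2]
    have b7 : 1 / T * ‖I2‖ ≤ 1 / T * (T * (Real.log T)⁻¹) := mul_le_mul_of_nonneg_left hI2le (by positivity)
    have b8 : 1 / T * (T * (Real.log T)⁻¹) = (Real.log T)⁻¹ := by field_simp
    have b9 : (Real.log T)⁻¹ ≤ ε / 3 := by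
      rw [inv_le_comm₀ hLT (by positivity), inv_div]
      linarith
    linarith
  have hfin : ε / 3 + ε / 3 + ε / 3 * (Real.log y) ^ (1 / 4 : ℝ) ≤ ε * (Real.log y) ^ (1 / 4 : ℝ) := by
    have : ε / 3 ≤ ε / 3 * (Real.log y) ^ (1 / 4 : ℝ) := le_mul_of_one_le_right (by positivity) hL4
    linarith
  exact ((norm_add_le _ _).trans (add_le_add ((norm_add_le _ _).trans (add_le_add b3 b6)) h2)).trans hfin

end Pool.Agent.LibPH
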